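import Pool.Agent.helper29.NS.Spec1

/-!
# Project `ns:` (MP_b9b054_an), statements, part 2
-/

namespace NS

open MeasureTheory Filter Topology Set

/-! ## Difference and mean of two trajectories -/

/-- DE. The difference `(a, b) = (a1 - a2, b1 - b2)` and the mean
`(m, n) = ((a1 + a2)/2, (b1 + b2)/2)`: the linear part of `DM`. The bound comes from the class
`Cls 3 B` (the functions and their first derivatives are bounded by `B`). -/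
def DE_stmt : Prop := ∀ (Ω : Set (ℝ × ℝ)) (ν B : ℝ) (g h : ℝ × ℝ → ℝ)
  (a1 b1 p1 a2 b2 p2 : ℝ × ℝ × ℝ → ℝ), IsOpen Ω → Reg B a1 b1 p1 → Reg B a2 b2 p2 →
  Sol Ω ν g h univ a1 b1 p1 → Sol Ω ν g h univ a2 b2 p2 → (∀ t, ∀ q ∈ Ω, p1 (t, q) = p2 (t, q)) →
  ∀ (a b m n : ℝ × ℝ × ℝ → ℝ), a = (fun z => a1 z - a2 z) → b = (fun z => b1 z - b2 z) →
  m = (fun z => (a1 z + a2 z) / 2) → n = (fun z => (b1 z + b2 z) / 2) →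
  (∀ t, ∀ q ∈ Ω, dt a (t, q) + m (t, q) * dx a (t, q) + n (t, q) * dy a (t, q)
    + a (t, q) * dx m (t, q) + b (t, q) * dy m (t, q)
      = ν * (dx (dx a) (t, q) + dy (dy a) (t, q))) ∧
  (∀ t, ∀ q ∈ Ω, dt b (t, q) + m (t, q) * dx b (t, q) + n (t, q) * dy b (t, q)
    + a (t, q) * dx n (t, q) + b (t, q) * dy n (t, q)
      = ν * (dx (dx b) (t, q) + dy (dy b) (t, q))) ∧
  (∀ t, ∀ q ∈ Ω, dx a (t, q) + dy b (t, q) = 0) ∧ (∀ t, ∀ q ∈ Ω, dx m (t, q) + dy n (t, q) = 0) ∧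
  (∀ t, ∀ q ∈ frontier Ω, a (t, q) = 0 ∧ b (t, q) = 0 ∧ m (t, q) = 0 ∧ n (t, q) = 0) ∧
  (∃ K : ℝ, ∀ z, |m z| ≤ K ∧ |n z| ≤ K ∧ |dx m z| ≤ K ∧ |dy m z| ≤ K ∧ |dx n z| ≤ K ∧
    |dy n z| ≤ K)

/-- DT. The trace identity: the divergence of the equations `ea`, `eb` (`C³` fields, open set;
`dx (ea) + dy (eb)`, everything but twice the trace is a derivative of `dx a + dy b = 0` or
`dx m + dy n = 0`). -/
def DT_stmt : Prop := ∀ (Ω : Set (ℝ × ℝ)) (ν : ℝ) (a b m n : ℝ × ℝ × ℝ → ℝ), IsOpen Ω →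
  ContDiff ℝ 3 a → ContDiff ℝ 3 b → ContDiff ℝ 3 m → ContDiff ℝ 3 n →
  (∀ t, ∀ q ∈ Ω, dt a (t, q) + m (t, q) * dx a (t, q) + n (t, q) * dy a (t, q)
    + a (t, q) * dx m (t, q) + b (t, q) * dy m (t, q) = ν * (dx (dx a) (t, q) + dy (dy a) (t, q))) →
  (∀ t, ∀ q ∈ Ω, dt b (t, q) + m (t, q) * dx b (t, q) + n (t, q) * dy b (t, q)
    + a (t, q) * dx n (t, q) + b (t, q) * dy n (t, q) = ν * (dx (dx b) (t, q) + dy (dy b) (t, q))) →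
  (∀ t, ∀ q ∈ Ω, dx a (t, q) + dy b (t, q) = 0) → (∀ t, ∀ q ∈ Ω, dx m (t, q) + dy n (t, q) = 0) →
  ∀ t, ∀ q ∈ Ω, dx m (t, q) * dx a (t, q) + dy m (t, q) * dx b (t, q)
    + dx n (t, q) * dy a (t, q) + dy n (t, q) * dy b (t, q) = 0

/-- VE. The vorticity equation of one solution (`dx` of the second momentum equation minus `dy` of
the first one). -/
def VE_stmt : Prop := ∀ (Ω : Set (ℝ × ℝ)) (ν : ℝ) (g h : ℝ × ℝ → ℝ) (a b p : ℝ × ℝ × ℝ → ℝ),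
  IsOpen Ω → ContDiff ℝ 3 a → ContDiff ℝ 3 b → ContDiff ℝ 2 p → ContDiff ℝ 1 g → ContDiff ℝ 1 h →
  Sol Ω ν g h univ a b p → ∀ t, ∀ q ∈ Ω,
  curl g h q = dt (vort a b) (t, q) + a (t, q) * dx (vort a b) (t, q)
    + b (t, q) * dy (vort a b) (t, q)
    - ν * (dx (dx (vort a b)) (t, q) + dy (dy (vort a b)) (t, q))

/-- VA. The average of two vorticity equations, in terms of the difference and the mean
(`a1 = m + a/2`, `a2 = m - a/2`; linearity of the derivatives). -/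
def VA_stmt : Prop := ∀ (Ω : Set (ℝ × ℝ)) (ν B : ℝ) (g h : ℝ × ℝ → ℝ)
  (a1 b1 p1 a2 b2 p2 : ℝ × ℝ × ℝ → ℝ), IsOpen Ω → ContDiff ℝ 1 g → ContDiff ℝ 1 h →
  Reg B a1 b1 p1 → Reg B a2 b2 p2 → Sol Ω ν g h univ a1 b1 p1 → Sol Ω ν g h univ a2 b2 p2 →
  ∀ (a b m n : ℝ × ℝ × ℝ → ℝ), a = (fun z => a1 z - a2 z) → b = (fun z => b1 z - b2 z) →
  m = (fun z => (a1 z + a2 z) / 2) → n = (fun z => (b1 z + b2 z) / 2) → ∀ t, ∀ q ∈ Ω,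
  curl g h q = dt (vort m n) (t, q) + m (t, q) * dx (vort m n) (t, q)
    + n (t, q) * dy (vort m n) (t, q)
    + (a (t, q) * dx (vort a b) (t, q) + b (t, q) * dy (vort a b) (t, q)) / 4
    - ν * (dx (dx (vort m n)) (t, q) + dy (dy (vort m n)) (t, q))

/-- NC. At the boundary the vorticity of the difference has zero gradient, and the Laplacians of
`a` and `b` vanish. (At a boundary point `a = b = m = n = 0` for all times, so `dt a = 0`; by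
continuity the equations hold on the closure. `dy (vort a b) = dx (dy b) - dy (dy a)
= -(dx (dx a) + dy (dy a))` on `Ω`, and its closure.) Here `ν ≠ 0`. -/
def NC_stmt : Prop := ∀ (Ω : Set (ℝ × ℝ)) (ν : ℝ) (a b m n : ℝ × ℝ × ℝ → ℝ), IsOpen Ω → ν ≠ 0 →
  DM Ω ν a b m n → ∀ t, ∀ q ∈ frontier Ω,
  dx (vort a b) (t, q) = 0 ∧ dy (vort a b) (t, q) = 0 ∧
  dx (dx a) (t, q) + dy (dy a) (t, q) = 0 ∧ dx (dx b) (t, q) + dy (dy b) (t, q) = 0 ∧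
  dx a (t, q) + dy b (t, q) = 0 ∧ dx m (t, q) + dy n (t, q) = 0

/-- BZ. If `(m, n) (t, ·)` vanishes in `Ω` near the boundary point `c` for all `t` near `t0` (the
neighbourhood may depend on `t`), then the curl of the force and its derivative vanish at `c`.
(CL for the slices gives `vort m n (t, c) = 0`, and zero gradient, for `|t - t0| < ε`, so their
time derivatives vanish at `t0`. CL for the function
`curl g h - dt (vort m n) (t0, ·) - (a dx (vort a b) + b dy (vort a b)) (t0, ·) / 4`.) -/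
def BZ_stmt : Prop := ∀ (Ω : Set (ℝ × ℝ)) (ν : ℝ) (g h : ℝ × ℝ → ℝ) (a b m n : ℝ × ℝ × ℝ → ℝ)
  (c : ℝ × ℝ) (t0 ε : ℝ), IsOpen Ω → ContDiff ℝ 2 g → ContDiff ℝ 2 h → ContDiff ℝ 3 a →
  ContDiff ℝ 3 b → ContDiff ℝ 3 m → ContDiff ℝ 3 n → c ∈ closure Ω → 0 < ε →
  (∀ t, ∀ q ∈ Ω, curl g h q = dt (vort m n) (t, q) + m (t, q) * dx (vort m n) (t, q)
    + n (t, q) * dy (vort m n) (t, q)
    + (a (t, q) * dx (vort a b) (t, q) + b (t, q) * dy (vort a b) (t, q)) / 4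
    - ν * (dx (dx (vort m n)) (t, q) + dy (dy (vort m n)) (t, q))) →
  (∀ t, |t - t0| < ε → ∃ V ∈ 𝓝 c, ∀ q ∈ Ω ∩ V, m (t, q) = 0 ∧ n (t, q) = 0) →
  a (t0, c) = 0 → b (t0, c) = 0 → dx (vort a b) (t0, c) = 0 → dy (vort a b) (t0, c) = 0 →
  curl g h c = 0 ∧ fderiv ℝ (curl g h) c = 0

/-! ## The boundary -/

/-- CH. Boundary points near a strictly convex one: they are the points `pt θ c s (f s)` and they
are strictly convex, too (chart `f (· + s) - f s`). -/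
def CH_stmt : Prop := ∀ (Ω : Set (ℝ × ℝ)) (c : ℝ × ℝ) (θ δ : ℝ) (f : ℝ → ℝ), IsOpen Ω →
  Chart Ω c θ δ f → 0 < deriv (deriv f) 0 →
  ∃ η > 0, (∃ V ∈ 𝓝 c, ∀ q ∈ frontier Ω ∩ V, ∃ s, |s| < η ∧ q = pt θ c s (f s)) ∧
    ∀ s, |s| < η → pt θ c s (f s) ∈ frontier Ω ∧ ConvexAt Ω (pt θ c s (f s))

/-- TG. A function which vanishes at the boundary near `c` has zero derivative in time and in the
tangential direction there. -/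
def TG_stmt : Prop := ∀ (Ω : Set (ℝ × ℝ)) (c : ℝ × ℝ) (θ δ : ℝ) (f : ℝ → ℝ), IsOpen Ω →
  Chart Ω c θ δ f → ∀ V ∈ 𝓝 c, ∀ F : ℝ × ℝ × ℝ → ℝ, Differentiable ℝ F →
  (∀ t, ∀ q ∈ frontier Ω ∩ V, F (t, q) = 0) →
  ∃ η > 0, ∀ t s, |s| < η → dt F (t, pt θ c s (f s)) = 0 ∧
    (Real.cos θ - deriv f s * Real.sin θ) * dx F (t, pt θ c s (f s))
      + (Real.sin θ + deriv f s * Real.cos θ) * dy F (t, pt θ c s (f s)) = 0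

/-- HZ. If the vorticity of the difference vanishes on the boundary near `c`, then `a`, `b` and
their first and second derivatives vanish there (TG for `a`, `b` and then for `dx a`, `dy a`, ...;
a traceless symmetric `2 × 2` matrix with a nonzero kernel vector is zero). -/
def HZ_stmt : Prop := ∀ (Ω : Set (ℝ × ℝ)) (ν : ℝ) (a b m n : ℝ × ℝ × ℝ → ℝ) (c : ℝ × ℝ) (θ δ : ℝ)
  (f : ℝ → ℝ), IsOpen Ω → ν ≠ 0 → DM Ω ν a b m n → Chart Ω c θ δ f → 0 < deriv (deriv f) 0 →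
  ∀ V ∈ 𝓝 c, (∀ t, ∀ q ∈ frontier Ω ∩ V, vort a b (t, q) = 0) →
  ∃ V' ∈ 𝓝 c, ∀ t, ∀ q ∈ frontier Ω ∩ V', ∀ F ∈ ({a, b} : Set (ℝ × ℝ × ℝ → ℝ)),
    F (t, q) = 0 ∧ fderiv ℝ F (t, q) = 0 ∧ fderiv ℝ (fderiv ℝ F) (t, q) = 0

/-- GL. Gluing with zero. -/
def GL_stmt : Prop := ∀ (A O : Set (ℝ × ℝ × ℝ)) (f : ℝ × ℝ × ℝ → ℝ), IsOpen A → IsOpen O →
  ContDiff ℝ 2 f →
  (∀ z ∈ frontier A ∩ O, f z = 0 ∧ fderiv ℝ f z = 0 ∧ fderiv ℝ (fderiv ℝ f) z = 0) →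
  ContDiffOn ℝ 2 (A.indicator f) O ∧
  (∀ z ∈ O, fderiv ℝ (A.indicator f) z = A.indicator (fderiv ℝ f) z) ∧
  (∀ z ∈ O, fderiv ℝ (fderiv ℝ (A.indicator f)) z = A.indicator (fderiv ℝ (fderiv ℝ f)) z)

/-- UB. From the boundary into the domain (GL, UI on a disc around `c`, HZ's conclusion as
hypothesis): `a = b = 0` on a nonempty open subset of `Ω`, for all times. -/
def UB_stmt : Prop := ∀ (Ω : Set (ℝ × ℝ)) (ν : ℝ) (a b m n : ℝ × ℝ × ℝ → ℝ) (c : ℝ × ℝ) (θ δ : ℝ)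
  (f : ℝ → ℝ), IsOpen Ω → 0 < ν → DM Ω ν a b m n → Chart Ω c θ δ f →
  (∃ V' ∈ 𝓝 c, ∀ t, ∀ q ∈ frontier Ω ∩ V', ∀ F ∈ ({a, b} : Set (ℝ × ℝ × ℝ → ℝ)),
    F (t, q) = 0 ∧ fderiv ℝ F (t, q) = 0 ∧ fderiv ℝ (fderiv ℝ F) (t, q) = 0) →
  ∃ U : Set (ℝ × ℝ), IsOpen U ∧ U.Nonempty ∧ U ⊆ Ω ∧ ∀ t, ∀ q ∈ U, a (t, q) = 0 ∧ b (t, q) = 0

/-! ## Unique continuation -/

/-- UI. Unique continuation in a connected open set (from UL; the set of the points of `O` near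
which `v` and `w` vanish for all times is open and relatively closed). -/
def UI_stmt : Prop := ∀ (O : Set (ℝ × ℝ)) (ν K : ℝ) (v w : ℝ × ℝ × ℝ → ℝ), IsOpen O →
  IsPreconnected O → 0 < ν → ContDiffOn ℝ 2 v (univ ×ˢ O) → ContDiffOn ℝ 2 w (univ ×ˢ O) →
  (∀ t, ∀ q ∈ O, |heat ν v (t, q)| + |heat ν w (t, q)| ≤ K * (|v (t, q)| + |w (t, q)|
    + |dx v (t, q)| + |dy v (t, q)| + |dx w (t, q)| + |dy w (t, q)|)) →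
  (∃ U : Set (ℝ × ℝ), IsOpen U ∧ U.Nonempty ∧ U ⊆ O ∧ ∀ t, ∀ q ∈ U, v (t, q) = 0 ∧ w (t, q) = 0) →
  ∀ t, ∀ q ∈ O, v (t, q) = 0 ∧ w (t, q) = 0

/-- UL. Unique continuation from a small disc to a larger concentric one (from UZ by
translation). -/
def UL_stmt : Prop := ∀ (c : ℝ × ℝ) (R ε ν K : ℝ) (v w : ℝ × ℝ × ℝ → ℝ), 0 < ε → ε < R → 0 < ν →
  ContDiffOn ℝ 2 v (univ ×ˢ Dsc c R) → ContDiffOn ℝ 2 w (univ ×ˢ Dsc c R) →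
  (∀ t, ∀ q ∈ Dsc c R, |heat ν v (t, q)| + |heat ν w (t, q)| ≤ K * (|v (t, q)| + |w (t, q)|
    + |dx v (t, q)| + |dy v (t, q)| + |dx w (t, q)| + |dy w (t, q)|)) →
  (∀ t, ∀ q ∈ Dsc c ε, v (t, q) = 0 ∧ w (t, q) = 0) →
  ∀ t, ∀ q ∈ Dsc c R, v (t, q) = 0 ∧ w (t, q) = 0

/-- UZ. The case of the centre `0` and the time `0` (from CE, CO, CX). For `R0 < R1 < R2 < R`
apply CE to `χ v`, `χ w`; where the derivatives of `χ` do not vanish (and `v ≠ 0`) the weight is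
`≤ exp (-(l R1²))`, and on `|q| ≤ R0`, `|t|` small, it is larger than that number. -/
def UZ_stmt : Prop := ∀ (R ε ν K : ℝ) (v w : ℝ × ℝ × ℝ → ℝ), 0 < ε → ε < R → 0 < ν →
  ContDiffOn ℝ 2 v (univ ×ˢ Dsc 0 R) → ContDiffOn ℝ 2 w (univ ×ˢ Dsc 0 R) →
  (∀ t, ∀ q ∈ Dsc 0 R, |heat ν v (t, q)| + |heat ν w (t, q)| ≤ K * (|v (t, q)| + |w (t, q)|
    + |dx v (t, q)| + |dy v (t, q)| + |dx w (t, q)| + |dy w (t, q)|)) →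
  (∀ t, ∀ q ∈ Dsc 0 ε, v (t, q) = 0 ∧ w (t, q) = 0) →
  ∀ q ∈ Dsc 0 R, v (0, q) = 0 ∧ w (0, q) = 0

/-- CO. Cutoff functions. -/
def CO_stmt : Prop := ∀ (R1 R2 : ℝ), 0 < R1 → R1 < R2 → ∃ χ : ℝ × ℝ × ℝ → ℝ,
  ContDiff ℝ (⊤ : ℕ∞) χ ∧ HasCompactSupport χ ∧ (∀ z, 0 ≤ χ z ∧ χ z ≤ 1) ∧
  (∀ z, |z.1| ≤ 1 → rh z ≤ R1 ^ 2 → χ z = 1) ∧ (∀ z, χ z ≠ 0 → |z.1| ≤ 2 ∧ rh z ≤ R2 ^ 2)

/-- CX. Product of a cutoff function and a function which is `C²` on an open set containing its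
support; the heat operator of the product. -/
def CX_stmt : Prop := ∀ (R ν : ℝ) (χ v : ℝ × ℝ × ℝ → ℝ), ContDiff ℝ (⊤ : ℕ∞) χ →
  HasCompactSupport χ → tsupport χ ⊆ univ ×ˢ Dsc 0 R → ContDiffOn ℝ 2 v (univ ×ˢ Dsc 0 R) →
  ContDiff ℝ 2 (fun z => χ z * v z) ∧ HasCompactSupport (fun z => χ z * v z) ∧
  (∀ t, ∀ q ∈ Dsc 0 R, heat ν (fun z => χ z * v z) (t, q) = χ (t, q) * heat ν v (t, q)
      + v (t, q) * heat ν χ (t, q)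
      - 2 * ν * (dx χ (t, q) * dx v (t, q) + dy χ (t, q) * dy v (t, q)) ∧
    dx (fun z => χ z * v z) (t, q) = χ (t, q) * dx v (t, q) + v (t, q) * dx χ (t, q) ∧
    dy (fun z => χ z * v z) (t, q) = χ (t, q) * dy v (t, q) + v (t, q) * dy χ (t, q)) ∧
  (∀ z, z ∉ univ ×ˢ Dsc 0 R → heat ν (fun z => χ z * v z) z = 0 ∧
    dx (fun z => χ z * v z) z = 0 ∧ dy (fun z => χ z * v z) z = 0)

/-- CE. The Carleman estimate (from CZ, CJ, CW; `W = exp (τ wt) w`,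
`|exp (τ φ) ∇ w|² ≤ 2 |∇ W|² + 2 τ² |∇ φ|² W²`). -/
def CE_stmt : Prop := ∀ (ν l ε R : ℝ), 0 < ν → 0 < l → 0 < ε → ε < R → 2 ≤ l * ε ^ 2 →
  ∃ C : ℝ, ∃ τ0 : ℝ, 0 < C ∧ 1 ≤ τ0 ∧ ∀ τ, τ0 ≤ τ → ∀ w : ℝ × ℝ × ℝ → ℝ, ContDiff ℝ 2 w →
  HasCompactSupport w → (∀ z, w z ≠ 0 → |z.1| ≤ 2 ∧ ε ^ 2 ≤ rh z ∧ rh z ≤ R ^ 2) →
  τ ^ 3 * (∫ z, Real.exp (2 * τ * wt l z) * w z ^ 2)
    + τ * (∫ z, Real.exp (2 * τ * wt l z) * (dx w z ^ 2 + dy w z ^ 2))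
  ≤ C * ∫ z, Real.exp (2 * τ * wt l z) * heat ν w z ^ 2

/-- CJ. Conjugation. -/
def CJ_stmt : Prop := ∀ (ν l τ : ℝ) (w : ℝ × ℝ × ℝ → ℝ), ContDiff ℝ 2 w → ∀ z,
  conj ν l τ (fun z => Real.exp (τ * wt l z) * w z) z = Real.exp (τ * wt l z) * heat ν w z

/-- CW. Properties of `W = exp (τ wt) w`. -/
def CW_stmt : Prop := ∀ (l τ : ℝ) (w : ℝ × ℝ × ℝ → ℝ), ContDiff ℝ 2 w → HasCompactSupport w →
  ContDiff ℝ 2 (fun z => Real.exp (τ * wt l z) * w z) ∧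
  HasCompactSupport (fun z => Real.exp (τ * wt l z) * w z) ∧
  ∀ z, Real.exp (τ * wt l z) * dx w z = dx (fun z => Real.exp (τ * wt l z) * w z) z
      + 2 * τ * l * z.2.1 * Real.exp (-(l * rh z)) * (Real.exp (τ * wt l z) * w z) ∧
    Real.exp (τ * wt l z) * dy w z = dy (fun z => Real.exp (τ * wt l z) * w z) z
      + 2 * τ * l * z.2.2 * Real.exp (-(l * rh z)) * (Real.exp (τ * wt l z) * w z)

/-- CZ. The estimate for the conjugated operator (from WT and the algebra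
`X² ≥ (S' + A')² - (S' - A')² = 4 S' A'`, i.e. `(S' + A')² ≥ 2 * (2 S' A') - ...`; precisely
`conj = S' + A'` with `S' = S + k`, `A' = A - k` and `(S' + A')² ≥ 2 S' A'`). On the support
`l * rh ≥ 2`, `rh ≤ R²`, `|t| ≤ 2`; `c1, c2` are continuous, so bounded there. -/
def CZ_stmt : Prop := ∀ (ν l ε R : ℝ), 0 < ν → 0 < l → 0 < ε → ε < R → 2 ≤ l * ε ^ 2 →
  ∃ c : ℝ, ∃ τ0 : ℝ, 0 < c ∧ 1 ≤ τ0 ∧ ∀ τ, τ0 ≤ τ → ∀ W : ℝ × ℝ × ℝ → ℝ, ContDiff ℝ 2 W →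
  HasCompactSupport W → (∀ z, W z ≠ 0 → |z.1| ≤ 2 ∧ ε ^ 2 ≤ rh z ∧ rh z ≤ R ^ 2) →
  c * (τ ^ 3 * ∫ z, W z ^ 2) + c * (τ * ∫ z, (dx W z ^ 2 + dy W z ^ 2))
    ≤ ∫ z, conj ν l τ W z ^ 2

/-- The multiplier `m = 4 l² ρ exp (-l ρ)`. -/
noncomputable def mm (l : ℝ) (z : ℝ × ℝ × ℝ) : ℝ := 4 * l ^ 2 * rh z * Real.exp (-(l * rh z))

/-- The part `S W - ν τ m W` of the conjugated operator. -/
noncomputable def opS (ν l τ : ℝ) (W : ℝ × ℝ × ℝ → ℝ) (z : ℝ × ℝ × ℝ) : ℝ :=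
  -(ν * (dx (dx W) z + dy (dy W) z))
    - (ν * τ ^ 2 * (4 * l ^ 2 * rh z * Real.exp (-(l * rh z)) ^ 2) - 2 * τ * z.1 + ν * τ * mm l z)
      * W z

/-- The part `A W + ν τ m W` of the conjugated operator. -/
noncomputable def opA (ν l τ : ℝ) (W : ℝ × ℝ × ℝ → ℝ) (z : ℝ × ℝ × ℝ) : ℝ :=
  dt W z + 2 * ν * τ * (-(2 * l * z.2.1 * Real.exp (-(l * rh z))) * dx W z
        - 2 * l * z.2.2 * Real.exp (-(l * rh z)) * dy W z)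
    + ν * τ * ((4 * l ^ 2 * rh z - 4 * l) * Real.exp (-(l * rh z)) + mm l z) * W z

/-- WT. The integrated identity. With `φ = wt l`, `e = exp (-l ρ)`, `G = Δφ + m`,
`H = ν τ² |∇φ|² + τ ∂ₜφ + ν τ m`:
`2 ∫ opS W * opA W = ν² τ ∫ (4 D²φ(∇W,∇W) + 2 m |∇W|²) + ∫ (coefficient) W²`, from I1-I5:
`T1 = 2(-νΔW) W_t`: 0; `T2 = 2(-νΔW)(2ντ∇φ·∇W)` and `T3 = 2(-νΔW)(ντ G W)`: I2, I3;
`T4 = -2 H W W_t`: I4, `∂ₜH = -2τ`; `T5 = -4ντ H W ∇φ·∇W`: I5; `T6 = -2ντ H G W²`. The coefficient is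
`-2τ - ν²τ Δ(Δφ+m) + 4ν²τ³ D²φ(∇φ,∇φ) - 2ν²τ³ m|∇φ|² + 2ν²τ² ∇m·∇φ - 2ντ² m ∂ₜφ - 2ν²τ² m²`, and
`4 D²φ(∇φ,∇φ) - 2 m |∇φ|² = 8 l (l ρ - 1) e |∇φ|²`, `|∇φ|² = 4 l² ρ e²`,
`4 D²φ(ξ,ξ) + 2 m |ξ|² = (8 l² ρ - 8 l) e |ξ|² + 16 l² e (x ξ₁ + y ξ₂)²`. -/
def WT_stmt : Prop := ∀ (ν l : ℝ), ∃ c1 c2 : ℝ × ℝ × ℝ → ℝ, Continuous c1 ∧ Continuous c2 ∧
  ∀ (τ : ℝ) (W : ℝ × ℝ × ℝ → ℝ), ContDiff ℝ 2 W → HasCompactSupport W →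
  2 * ∫ z, opS ν l τ W z * opA ν l τ W z
    = ν ^ 2 * τ * (∫ z, ((8 * l ^ 2 * rh z - 8 * l) * Real.exp (-(l * rh z))
          * (dx W z ^ 2 + dy W z ^ 2)
        + 16 * l ^ 2 * Real.exp (-(l * rh z)) * (z.2.1 * dx W z + z.2.2 * dy W z) ^ 2))
      + ∫ z, (ν ^ 2 * τ ^ 3 * (8 * l * (l * rh z - 1) * Real.exp (-(l * rh z))
          * (4 * l ^ 2 * rh z * Real.exp (-(l * rh z)) ^ 2)) + τ ^ 2 * c2 z + τ * c1 z) * W z ^ 2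

/-- IB. Integration by parts. (Mathlib: `integral_mul_fderiv_eq_neg_fderiv_mul_of_integrable` or
`integral_bilinear_hasFDerivAt_right_eq_neg_left_of_integrable`.) -/
def IB_stmt : Prop := ∀ (F G : ℝ × ℝ × ℝ → ℝ), ContDiff ℝ 1 F → ContDiff ℝ 1 G →
  HasCompactSupport G →
  ∫ z, dt F z * G z = -∫ z, F z * dt G z ∧ ∫ z, dx F z * G z = -∫ z, F z * dx G z ∧
  ∫ z, dy F z * G z = -∫ z, F z * dy G z

/-- I1. `∫ ΔW W_t = 0`. -/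
def I1_stmt : Prop := ∀ (W : ℝ × ℝ × ℝ → ℝ), ContDiff ℝ 2 W → HasCompactSupport W →
  ∫ z, (dx (dx W) z + dy (dy W) z) * dt W z = 0

/-- I2. `∫ ΔW ∇φ·∇W = -∫ D²φ(∇W, ∇W) + (1/2) ∫ Δφ |∇W|²`. -/
def I2_stmt : Prop := ∀ (W φ : ℝ × ℝ × ℝ → ℝ), ContDiff ℝ 2 W → HasCompactSupport W →
  ContDiff ℝ 3 φ →
  ∫ z, (dx (dx W) z + dy (dy W) z) * (dx φ z * dx W z + dy φ z * dy W z)
    = -(∫ z, (dx (dx φ) z * dx W z ^ 2 + 2 * dx (dy φ) z * dx W z * dy W z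
        + dy (dy φ) z * dy W z ^ 2))
      + 1 / 2 * ∫ z, (dx (dx φ) z + dy (dy φ) z) * (dx W z ^ 2 + dy W z ^ 2)

/-- I3. `∫ G W ΔW = (1/2) ∫ ΔG W² - ∫ G |∇W|²`. -/
def I3_stmt : Prop := ∀ (W G : ℝ × ℝ × ℝ → ℝ), ContDiff ℝ 2 W → HasCompactSupport W →
  ContDiff ℝ 2 G →
  ∫ z, G z * W z * (dx (dx W) z + dy (dy W) z)
    = 1 / 2 * (∫ z, (dx (dx G) z + dy (dy G) z) * W z ^ 2)
      - ∫ z, G z * (dx W z ^ 2 + dy W z ^ 2)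

/-- I4. `∫ H W W_t = -(1/2) ∫ H_t W²`. -/
def I4_stmt : Prop := ∀ (W H : ℝ × ℝ × ℝ → ℝ), ContDiff ℝ 1 W → HasCompactSupport W →
  ContDiff ℝ 1 H → ∫ z, H z * W z * dt W z = -(1 / 2) * ∫ z, dt H z * W z ^ 2

/-- I5. `∫ H W ∇φ·∇W = -(1/2) ∫ (∇H·∇φ + H Δφ) W²`. -/
def I5_stmt : Prop := ∀ (W H φ : ℝ × ℝ × ℝ → ℝ), ContDiff ℝ 1 W → HasCompactSupport W →
  ContDiff ℝ 1 H → ContDiff ℝ 2 φ →
  ∫ z, H z * W z * (dx φ z * dx W z + dy φ z * dy W z)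
    = -(1 / 2) * ∫ z, (dx H z * dx φ z + dy H z * dy φ z + H z * (dx (dx φ) z + dy (dy φ) z))
        * W z ^ 2

/-! ## Assembly -/

/-- GG. Theorem G (from DE, DT, VA, NC, AL, BZ, CH, HZ, UB, UI, SL, CR). -/
def GG_stmt : Prop := ∀ (Ω : Set (ℝ × ℝ)) (ν B : ℝ) (g h : ℝ × ℝ → ℝ) (c : ℝ × ℝ)
  (a1 b1 p1 a2 b2 p2 : ℝ × ℝ × ℝ → ℝ), IsOpen Ω → IsConnected Ω → 0 < ν → ContDiff ℝ 2 g →
  ContDiff ℝ 2 h → ConvexAt Ω c → (curl g h c ≠ 0 ∨ fderiv ℝ (curl g h) c ≠ 0) →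
  Reg B a1 b1 p1 → Reg B a2 b2 p2 → Sol Ω ν g h univ a1 b1 p1 → Sol Ω ν g h univ a2 b2 p2 →
  (∀ t, ∀ q ∈ Ω, p1 (t, q) = p2 (t, q)) → ∀ t, ∀ q ∈ Ω, a1 (t, q) = a2 (t, q) ∧ b1 (t, q) = b2 (t, q)

/-- The set of pressure curves of the complete trajectories with bound `n`. -/
def PCurves (Ω : Set (ℝ × ℝ)) (ν : ℝ) (g h : ℝ × ℝ → ℝ) (n : ℕ) :
    Set (ℝ → Lp ℝ 2 (volume.restrict Ω)) :=
  {P | Continuous P ∧ ∃ a b p : ℝ × ℝ × ℝ → ℝ, Reg n a b p ∧ Sol Ω ν g h univ a b p ∧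
    ∀ t, P t =ᵐ[volume.restrict Ω] fun q => p (t, q)}

/-- SC. These sets are sequentially compact (AA three times, LM, P1, P2). -/
def SC_stmt : Prop := ∀ (Ω : Set (ℝ × ℝ)) (ν : ℝ) (g h : ℝ × ℝ → ℝ), IsOpen Ω →
  Bornology.IsBounded Ω → ∀ n, SeqC (PCurves Ω ν g h n)

/-- FS. Constant pressure curves are finitely many. (Theorem G in the form `hG`, applied to a
trajectory and its translates: the velocity is stationary on `Ω`. The velocity determines the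
gradient of the pressure, so, with mean zero on the connected set `Ω`, the pressure.) -/
def FS_stmt : Prop := ∀ (Ω : Set (ℝ × ℝ)) (ν : ℝ) (g h : ℝ × ℝ → ℝ), IsOpen Ω → IsConnected Ω →
  Bornology.IsBounded Ω →
  (∀ (B : ℝ) (a1 b1 p1 a2 b2 p2 : ℝ × ℝ × ℝ → ℝ), Reg B a1 b1 p1 → Reg B a2 b2 p2 →
    Sol Ω ν g h univ a1 b1 p1 → Sol Ω ν g h univ a2 b2 p2 →
    (∀ t, ∀ q ∈ Ω, p1 (t, q) = p2 (t, q)) →
    ∀ t, ∀ q ∈ Ω, a1 (t, q) = a2 (t, q) ∧ b1 (t, q) = b2 (t, q)) →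
  (Stat Ω ν g h).Finite →
  {y : Lp ℝ 2 (volume.restrict Ω) | ∃ n, (fun _ : ℝ => y) ∈ PCurves Ω ν g h n}.Finite

/-- QA. The asymptotic argument: if the difference of the velocities does not tend to `0`, shift,
extract (AA, LM, P1, P2), and get two complete trajectories whose pressure curves agree under `F`;
by `hF` they have the same pressure, by `hG` the same velocity. -/
def QA_stmt : Prop := ∀ (Ω : Set (ℝ × ℝ)) (ν : ℝ) (g h : ℝ × ℝ → ℝ), IsOpen Ω →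
  Bornology.IsBounded Ω →
  (∀ (B : ℝ) (a1 b1 p1 a2 b2 p2 : ℝ × ℝ × ℝ → ℝ), Reg B a1 b1 p1 → Reg B a2 b2 p2 →
    Sol Ω ν g h univ a1 b1 p1 → Sol Ω ν g h univ a2 b2 p2 →
    (∀ t, ∀ q ∈ Ω, p1 (t, q) = p2 (t, q)) →
    ∀ t, ∀ q ∈ Ω, a1 (t, q) = a2 (t, q) ∧ b1 (t, q) = b2 (t, q)) →
  ∀ F : Lp ℝ 2 (volume.restrict Ω) → ℝ, Continuous F →
  (∀ n m, ∀ γ ∈ PCurves Ω ν g h n, ∀ γ' ∈ PCurves Ω ν g h m, (∀ t, F (γ t) = F (γ' t)) → γ = γ') →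
  ∀ (B : ℝ) (a1 b1 p1 a2 b2 p2 : ℝ × ℝ × ℝ → ℝ), Reg B a1 b1 p1 → Reg B a2 b2 p2 →
  Sol Ω ν g h (Ioi 0) a1 b1 p1 → Sol Ω ν g h (Ioi 0) a2 b2 p2 →
  ∀ P1 P2 : ℝ → Lp ℝ 2 (volume.restrict Ω),
  (∀ t > 0, P1 t =ᵐ[volume.restrict Ω] fun q => p1 (t, q)) →
  (∀ t > 0, P2 t =ᵐ[volume.restrict Ω] fun q => p2 (t, q)) →
  Tendsto (fun t => F (P1 t) - F (P2 t)) atTop (𝓝 0) →
  Tendsto (fun t => ∫ q in Ω, ((a1 (t, q) - a2 (t, q)) ^ 2 + (b1 (t, q) - b2 (t, q)) ^ 2))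
    atTop (𝓝 0)

/-- FP. Every bounded domain with `C²` boundary has a strictly convex boundary point (a point of
`closure Ω` at maximal distance from the origin; there `f'' x0·n ≤ -(1 + f'²)` and `x0·n < 0`). -/
def FP_stmt : Prop := ∀ (Ω : Set (ℝ × ℝ)), IsOpen Ω → Ω.Nonempty → Bornology.IsBounded Ω →
  (∀ c ∈ frontier Ω, ∃ (θ δ : ℝ) (f : ℝ → ℝ), Chart Ω c θ δ f) →
  ∃ c ∈ frontier Ω, ConvexAt Ω c

/-- QQ. The theorem: the pressure-only determining functional. -/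
def QQ_stmt : Prop := ∀ (Ω : Set (ℝ × ℝ)) (ν : ℝ) (g h : ℝ × ℝ → ℝ) (c : ℝ × ℝ), IsOpen Ω →
  IsConnected Ω → Bornology.IsBounded Ω → 0 < ν → ContDiff ℝ 2 g → ContDiff ℝ 2 h →
  ConvexAt Ω c → (curl g h c ≠ 0 ∨ fderiv ℝ (curl g h) c ≠ 0) → (Stat Ω ν g h).Finite →
  ∃ F : BoundedContinuousFunction (Lp ℝ 2 (volume.restrict Ω)) ℝ,
  ∀ (B : ℝ) (a1 b1 p1 a2 b2 p2 : ℝ × ℝ × ℝ → ℝ), Reg B a1 b1 p1 → Reg B a2 b2 p2 →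
  Sol Ω ν g h (Ioi 0) a1 b1 p1 → Sol Ω ν g h (Ioi 0) a2 b2 p2 →
  ∀ P1 P2 : ℝ → Lp ℝ 2 (volume.restrict Ω),
  (∀ t > 0, P1 t =ᵐ[volume.restrict Ω] fun q => p1 (t, q)) →
  (∀ t > 0, P2 t =ᵐ[volume.restrict Ω] fun q => p2 (t, q)) →
  Tendsto (fun t => F (P1 t) - F (P2 t)) atTop (𝓝 0) →
  Tendsto (fun t => ∫ q in Ω, ((a1 (t, q) - a2 (t, q)) ^ 2 + (b1 (t, q) - b2 (t, q)) ^ 2))
    atTop (𝓝 0)

end NS
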