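import Pool.Agent.helper29.NS.Spec2

namespace NS

open MeasureTheory Filter Topology Set

theorem AL_inv (θ : ℝ) (c : ℝ × ℝ) (q : ℝ × ℝ) :
    ∃ s r : ℝ, q = pt θ c s r ∧ |s| ≤ |q.1 - c.1| + |q.2 - c.2| ∧
      |r| ≤ |q.1 - c.1| + |q.2 - c.2| := by
  have hcs := Real.sin_sq_add_cos_sq θ
  refine ⟨(q.1 - c.1) * Real.cos θ + (q.2 - c.2) * Real.sin θ,
    -(q.1 - c.1) * Real.sin θ + (q.2 - c.2) * Real.cos θ, ?_, ?_, ?_⟩
  · ext
    · simp only [pt]
      have : c.1 + ((q.1 - c.1) * Real.cos θ + (q.2 - c.2) * Real.sin θ) * Real.cos θ -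
        (-(q.1 - c.1) * Real.sin θ + (q.2 - c.2) * Real.cos θ) * Real.sin θ
        = c.1 + (q.1 - c.1) * (Real.sin θ ^ 2 + Real.cos θ ^ 2) := by ring
      rw [this, hcs]; ring
    · simp only [pt]
      have : c.2 + ((q.1 - c.1) * Real.cos θ + (q.2 - c.2) * Real.sin θ) * Real.sin θ +
        (-(q.1 - c.1) * Real.sin θ + (q.2 - c.2) * Real.cos θ) * Real.cos θ
        = c.2 + (q.2 - c.2) * (Real.sin θ ^ 2 + Real.cos θ ^ 2) := by ring
      rw [this, hcs]; ring
  · have h1 := Real.abs_cos_le_one θ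
    have h2 := Real.abs_sin_le_one θ
    calc |(q.1 - c.1) * Real.cos θ + (q.2 - c.2) * Real.sin θ|
        ≤ |(q.1 - c.1) * Real.cos θ| + |(q.2 - c.2) * Real.sin θ| := abs_add_le _ _
      _ = |q.1 - c.1| * |Real.cos θ| + |q.2 - c.2| * |Real.sin θ| := by rw [abs_mul, abs_mul]
      _ ≤ |q.1 - c.1| * 1 + |q.2 - c.2| * 1 :=
          add_le_add (mul_le_mul_of_nonneg_left h1 (abs_nonneg _))
            (mul_le_mul_of_nonneg_left h2 (abs_nonneg _))
      _ = _ := by ring
  · have h1 := Real.abs_cos_le_one θ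
    have h2 := Real.abs_sin_le_one θ
    calc |-(q.1 - c.1) * Real.sin θ + (q.2 - c.2) * Real.cos θ|
        ≤ |-(q.1 - c.1) * Real.sin θ| + |(q.2 - c.2) * Real.cos θ| := abs_add_le _ _
      _ = |q.1 - c.1| * |Real.sin θ| + |q.2 - c.2| * |Real.cos θ| := by
          rw [abs_mul, abs_mul, abs_neg]
      _ ≤ |q.1 - c.1| * 1 + |q.2 - c.2| * 1 :=
          add_le_add (mul_le_mul_of_nonneg_left h2 (abs_nonneg _))
            (mul_le_mul_of_nonneg_left h1 (abs_nonneg _))
      _ = _ := by ring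

theorem AL_ptc (θ : ℝ) (c : ℝ × ℝ) : ContDiff ℝ 2 (fun z : ℝ × ℝ => pt θ c z.1 z.2) := by
  unfold pt
  fun_prop

/-- derivatives of a rotated component -/
theorem AL_rot (hRT : RT_stmt) (F G : ℝ × ℝ → ℝ) (hF : Differentiable ℝ F)
    (hG : Differentiable ℝ G) (θ : ℝ) (c : ℝ × ℝ) (u v : ℝ) (s r : ℝ) :
    px (fun z => u * F (pt θ c z.1 z.2) + v * G (pt θ c z.1 z.2)) (s, r)
      = u * (Real.cos θ * px F (pt θ c s r) + Real.sin θ * py F (pt θ c s r))
        + v * (Real.cos θ * px G (pt θ c s r) + Real.sin θ * py G (pt θ c s r)) ∧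
    py (fun z => u * F (pt θ c z.1 z.2) + v * G (pt θ c z.1 z.2)) (s, r)
      = u * (-Real.sin θ * px F (pt θ c s r) + Real.cos θ * py F (pt θ c s r))
        + v * (-Real.sin θ * px G (pt θ c s r) + Real.cos θ * py G (pt θ c s r)) := by
  have hp : Differentiable ℝ (fun z : ℝ × ℝ => pt θ c z.1 z.2) :=
    (AL_ptc θ c).differentiable (by norm_num)
  have hF' : Differentiable ℝ (fun z : ℝ × ℝ => F (pt θ c z.1 z.2)) := hF.comp hp
  have hG' : Differentiable ℝ (fun z : ℝ × ℝ => G (pt θ c z.1 z.2)) := hG.comp hp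
  have h1 := hRT F θ c s r hF
  have h2 := hRT G θ c s r hG
  have hfd : fderiv ℝ (fun z => u * F (pt θ c z.1 z.2) + v * G (pt θ c z.1 z.2)) (s, r)
      = u • fderiv ℝ (fun z : ℝ × ℝ => F (pt θ c z.1 z.2)) (s, r)
        + v • fderiv ℝ (fun z : ℝ × ℝ => G (pt θ c z.1 z.2)) (s, r) :=
    (((hF' (s, r)).hasFDerivAt.const_mul u).add ((hG' (s, r)).hasFDerivAt.const_mul v)).fderiv
  unfold px py at *
  rw [hfd]
  simp only [_root_.add_apply, _root_.smul_apply, smul_eq_mul]
  rw [h1.1, h1.2, h2.1, h2.2]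
  exact ⟨rfl, rfl⟩

theorem AL (hAZ : AZ_stmt) (hRT : RT_stmt) : AL_stmt := by
  intro Ω c hO hcx a b m n ha hb hm hn heq hbc hne
  obtain ⟨θ, δ, f, hch, hf2⟩ := hcx
  have hcs := Real.sin_sq_add_cos_sq θ
  have hpt := AL_ptc θ c
  have da : Differentiable ℝ a := ha.differentiable (by norm_num)
  have db : Differentiable ℝ b := hb.differentiable (by norm_num)
  have dm : Differentiable ℝ m := hm.differentiable (by norm_num)
  have dn : Differentiable ℝ n := hn.differentiable (by norm_num)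
  have hpt0 : pt θ c 0 0 = c := by simp [pt]
  have hfr : ∀ s, |s| < δ → |f s| < δ → pt θ c s (f s) ∈ frontier Ω := by
    intro s hs hfs
    have hnot : pt θ c s (f s) ∉ Ω := fun h => lt_irrefl _ ((hch.graph s (f s) hs hfs).1 h)
    rw [hO.frontier_eq]
    refine ⟨?_, hnot⟩
    have hcont : Continuous (fun r : ℝ => pt θ c s r) := by unfold pt; fun_prop
    have hev : ∀ᶠ r in 𝓝[>] (f s), pt θ c s r ∈ Ω := by
      have h1 : ∀ᶠ r in 𝓝 (f s), |r| < δ := (continuous_abs.continuousAt).eventually_lt_const hfs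
      filter_upwards [nhdsWithin_le_nhds h1, self_mem_nhdsWithin] with r hr hr'
      exact (hch.graph s r hs hr).2 hr'
    exact mem_closure_of_tendsto
      ((hcont.continuousAt (x := f s)).tendsto.mono_left nhdsWithin_le_nhds) hev
  obtain ⟨ε, hε, hAZ'⟩ := hAZ f δ hch.smooth hch.f0 hch.pos hf2
    (fun z => Real.cos θ * a (pt θ c z.1 z.2) + Real.sin θ * b (pt θ c z.1 z.2))
    (fun z => -Real.sin θ * a (pt θ c z.1 z.2) + Real.cos θ * b (pt θ c z.1 z.2))
    (fun z => Real.cos θ * m (pt θ c z.1 z.2) + Real.sin θ * n (pt θ c z.1 z.2))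
    (fun z => -Real.sin θ * m (pt θ c z.1 z.2) + Real.cos θ * n (pt θ c z.1 z.2))
    (by
      have h1 := ha.comp hpt; have h2 := hb.comp hpt
      exact (contDiff_const.mul h1).add (contDiff_const.mul h2))
    (by
      have h1 := ha.comp hpt; have h2 := hb.comp hpt
      exact (contDiff_const.mul h1).add (contDiff_const.mul h2))
    (by
      have h1 := hm.comp hpt; have h2 := hn.comp hpt
      exact (contDiff_const.mul h1).add (contDiff_const.mul h2))
    (by
      have h1 := hm.comp hpt; have h2 := hn.comp hpt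
      exact (contDiff_const.mul h1).add (contDiff_const.mul h2))
    (by
      intro s r hs hr hsr
      obtain ⟨e1, e2, e3⟩ := heq (pt θ c s r) ((hch.graph s r hs hr).2 hsr)
      rw [(AL_rot hRT a b da db θ c _ _ s r).1, (AL_rot hRT a b da db θ c _ _ s r).2,
        (AL_rot hRT a b da db θ c _ _ s r).1, (AL_rot hRT a b da db θ c _ _ s r).2,
        (AL_rot hRT m n dm dn θ c _ _ s r).1, (AL_rot hRT m n dm dn θ c _ _ s r).2,
        (AL_rot hRT m n dm dn θ c _ _ s r).1, (AL_rot hRT m n dm dn θ c _ _ s r).2]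
      generalize px a (pt θ c s r) = ax at *
      generalize py a (pt θ c s r) = ay at *
      generalize px b (pt θ c s r) = bx at *
      generalize py b (pt θ c s r) = bY at *
      generalize px m (pt θ c s r) = mx at *
      generalize py m (pt θ c s r) = my at *
      generalize px n (pt θ c s r) = nx at *
      generalize py n (pt θ c s r) = ny at *
      generalize Real.cos θ = C at *
      generalize Real.sin θ = S at *
      refine ⟨?_, ?_, ?_⟩
      · linear_combination (S ^ 2 + C ^ 2) * e1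
      · linear_combination (S ^ 2 + C ^ 2) * e2
      · linear_combination (S ^ 2 + C ^ 2) ^ 2 * e3)
    (by
      intro s hs hfs
      obtain ⟨e1, e2, e3, e4⟩ := hbc _ (hfr s hs hfs)
      simp [e1, e2, e3, e4])
    (by
      rw [(AL_rot hRT a b da db θ c _ _ 0 0).1, (AL_rot hRT a b da db θ c _ _ 0 0).2, hpt0]
      intro h0
      apply hne
      have : (Real.sin θ ^ 2 + Real.cos θ ^ 2) * (px b c - py a c) = 0 := by
        linear_combination h0
      rw [hcs, one_mul] at this
      exact this)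
  refine ⟨{q | |q.1 - c.1| + |q.2 - c.2| < min ε δ}, ?_, ?_⟩
  · apply IsOpen.mem_nhds
    · exact isOpen_lt (by fun_prop) continuous_const
    · simp [hε, hch.pos]
  · rintro q ⟨hq, hq'⟩
    obtain ⟨s, r, hqs, hs, hr⟩ := AL_inv θ c q
    have hs1 : |s| < min ε δ := lt_of_le_of_lt hs hq'
    have hr1 : |r| < min ε δ := lt_of_le_of_lt hr hq'
    have hsr : f s < r := (hch.graph s r (hs1.trans_le (min_le_right _ _))
      (hr1.trans_le (min_le_right _ _))).1 (hqs ▸ hq)
    have := hAZ' s r (hs1.trans_le (min_le_left _ _)) (hr1.trans_le (min_le_left _ _)) hsr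
    simp only at this
    rw [← hqs] at this
    obtain ⟨h1, h2⟩ := this
    constructor
    · have : (Real.sin θ ^ 2 + Real.cos θ ^ 2) * m q = 0 := by
        linear_combination Real.cos θ * h1 - Real.sin θ * h2
      rwa [hcs, one_mul] at this
    · have : (Real.sin θ ^ 2 + Real.cos θ ^ 2) * n q = 0 := by
        linear_combination Real.sin θ * h1 + Real.cos θ * h2
      rwa [hcs, one_mul] at this

end NS
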