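import Pool.Agent.helper29.NS.SpecD

namespace NS

open MeasureTheory Filter Topology Set

theorem AW (hSM : SM_stmt) (hSL : SL_stmt) (hAC : AC_stmt) (hAN : AN_stmt) (hAL : AL_stmt)
    (hAB : AB_stmt) : AW_stmt := by
  intro Ω ν a b m n c θ δ f hO hC hν hdm hch hf2 hne
  obtain ⟨ε1, hε1, hconst⟩ := hAC Ω ν a b m n c θ δ f hO hν.ne' hdm hch hf2
  obtain ⟨t0, ht0⟩ := hAN Ω ν a b m n c θ δ f hO hC hν hdm hch hf2 hne
  have hcv : Continuous (fun t : ℝ => vort a b (t, c)) := by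
    have h1 : Continuous (dx b) := ((hSM 2 b hdm.cb).2.1).continuous
    have h2 : Continuous (dy a) := ((hSM 2 a hdm.ca).2.2.1).continuous
    have e : Continuous (fun t : ℝ => ((t, c) : ℝ × ℝ × ℝ)) := by fun_prop
    exact (h1.comp e).sub (h2.comp e)
  have hev : ∀ᶠ t in 𝓝 t0, vort a b (t, c) ≠ 0 := hcv.continuousAt.eventually_ne ht0
  obtain ⟨d, hd, hball⟩ := Metric.eventually_nhds_iff.1 hev
  have hwin : ∀ t ∈ Ioo (t0 - d) t0, vort a b (t, c) ≠ 0 := by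
    intro t ht
    refine hball ?_
    rw [Real.dist_eq, abs_lt]
    constructor
    · linarith [ht.1]
    · linarith [ht.2]
  have hslice : ∀ (f : ℝ × ℝ × ℝ → ℝ) (t : ℝ), ContDiff ℝ 3 f → ContDiff ℝ 2 (fun q => f (t, q)) := by
    intro f t hf
    exact (hf.of_le (by norm_num)).comp (contDiff_prodMk_right t)
  have hdiff : ∀ f : ℝ × ℝ × ℝ → ℝ, ContDiff ℝ 3 f → Differentiable ℝ f := fun f hf =>
    hf.differentiable (by norm_num)
  have hst : ∀ t ∈ Ioo (t0 - d) t0, ∃ V ∈ 𝓝 c, ∀ q ∈ Ω ∩ V, m (t, q) = 0 ∧ n (t, q) = 0 := by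
    intro t ht
    refine hAL Ω c hO ⟨θ, δ, f, hch, hf2⟩ (fun q => a (t, q)) (fun q => b (t, q))
      (fun q => m (t, q)) (fun q => n (t, q)) (hslice a t hdm.ca) (hslice b t hdm.cb)
      (hslice m t hdm.cm) (hslice n t hdm.cn) ?_ (fun q hq => hdm.bc t q hq) ?_
    · intro q hq
      obtain ⟨ax, ay, -⟩ := hSL a t q (hdiff a hdm.ca _)
      obtain ⟨bx, by', -⟩ := hSL b t q (hdiff b hdm.cb _)
      obtain ⟨mx, my, -⟩ := hSL m t q (hdiff m hdm.cm _)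
      obtain ⟨nx, ny, -⟩ := hSL n t q (hdiff n hdm.cn _)
      rw [ax, ay, bx, by', mx, my, nx, ny]
      exact ⟨hdm.da t q hq, hdm.dm t q hq, hdm.tr t q hq⟩
    · obtain ⟨-, ay, -⟩ := hSL a t c (hdiff a hdm.ca _)
      obtain ⟨bx, -, -⟩ := hSL b t c (hdiff b hdm.cb _)
      rw [ay, bx]
      exact hwin t ht
  obtain ⟨α, β, ε, hα, hαβ, hβ, hε, hz⟩ := hAB Ω m n c (t0 - d) t0 (by linarith)
    hdm.cm.continuous hdm.cn.continuous hst
  have hmono : ∀ x y : ℝ, 0 < x → x ≤ y → Dsc c x ⊆ Dsc c y := by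
    intro x y hx hxy q hq
    exact lt_of_lt_of_le hq (pow_le_pow_left₀ hx.le hxy 2)
  refine ⟨α, β, min ε ε1, hαβ, lt_min hε hε1, ?_, ?_⟩
  · intro t q hq
    exact hconst t q ⟨hq.1, hmono _ _ (lt_min hε hε1) (min_le_right _ _) hq.2⟩
  · intro t ht
    refine ⟨hwin t ⟨lt_of_le_of_lt hα ht.1, lt_of_lt_of_le ht.2 hβ⟩, ?_⟩
    intro q hq
    exact hz t ht q ⟨hq.1, hmono _ _ (lt_min hε hε1) (min_le_left _ _) hq.2⟩

end NS
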