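import Pool.Agent.helper29.NS.Spec2

namespace NS

open MeasureTheory Filter Topology Set

/-- an interval of length `≥ 2 π` contains points where `sin` is `1` and `-1` -/
theorem BD_sin (u v : ℝ) (h : 2 * Real.pi ≤ |u - v|) :
    (∃ w ∈ uIcc u v, Real.sin w = 1) ∧ ∃ w ∈ uIcc u v, Real.sin w = -1 := by
  have key : ∀ x : ℝ, ∃ w ∈ uIcc u v, Real.sin w = Real.sin x := by
    intro x
    obtain ⟨y, hy, hy'⟩ := Real.sin_periodic.exists_mem_Ico Real.two_pi_pos x (min u v)
    refine ⟨y, ?_, hy'.symm⟩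
    rw [uIcc, mem_Icc]
    have h2 : max u v - min u v = |u - v| := by rw [max_sub_min_eq_abs']
    exact ⟨hy.1, by linarith [hy.2]⟩
  constructor
  · obtain ⟨w, hw, hw'⟩ := key (Real.pi / 2)
    exact ⟨w, hw, by rw [hw', Real.sin_pi_div_two]⟩
  · obtain ⟨w, hw, hw'⟩ := key (-(Real.pi / 2))
    exact ⟨w, hw, by rw [hw', Real.sin_neg, Real.sin_pi_div_two]⟩

/-- pigeonhole on a chain of points -/
theorem BD_pig (ρ : ℝ → ℝ) (s : ℕ → ℝ) (k : ℕ) (hk : 0 < k) (η : ℝ)
    (h : η ≤ |ρ (s 0) - ρ (s k)|) : ∃ j < k, η / k ≤ |ρ (s j) - ρ (s (j + 1))| := by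
  by_contra hcon
  push Not at hcon
  have h1 : ∀ n ≤ k, |ρ (s 0) - ρ (s n)| ≤ ∑ j ∈ Finset.range n, |ρ (s j) - ρ (s (j + 1))| := by
    intro n
    induction n with
    | zero => intro _; simp
    | succ n ih =>
      intro hn
      rw [Finset.sum_range_succ]
      have := ih (by omega)
      have h2 : ρ (s 0) - ρ (s (n + 1)) = (ρ (s 0) - ρ (s n)) + (ρ (s n) - ρ (s (n + 1))) := by ring
      rw [h2]
      exact (abs_add_le _ _).trans (by linarith)
  have h2 := h1 k le_rfl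
  have h3 : ∑ j ∈ Finset.range k, |ρ (s j) - ρ (s (j + 1))| < ∑ _j ∈ Finset.range k, η / k := by
    apply Finset.sum_lt_sum_of_nonempty (Finset.nonempty_range_iff.2 hk.ne')
    intro j hj
    exact hcon j (Finset.mem_range.1 hj)
  have hk' : (k : ℝ) ≠ 0 := by exact_mod_cast hk.ne'
  have h4 : ∑ _j ∈ Finset.range k, η / (k : ℝ) = η := by
    rw [Finset.sum_const, Finset.card_range, nsmul_eq_mul]
    field_simp
  linarith

theorem BD (hBE : BE_stmt) : BD_stmt := by
  intro Y _ C D hC hD α β y z r η hαβ hr hη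
  rw [Metric.dense_iff]
  intro F e he
  obtain ⟨d1, hd1, hE1⟩ := hBE Y C hC α β F F.continuous (e / 2) (by linarith)
  obtain ⟨d2, hd2, hE2⟩ := hBE Y D hD α β F F.continuous (e / 2) (by linarith)
  obtain ⟨k0, hk0⟩ := exists_nat_gt ((β - α) / min d1 d2)
  obtain ⟨k, hk⟩ : ∃ k : ℕ, k = k0 + 1 := ⟨_, rfl⟩
  have hkp : 0 < k := by omega
  have hkp' : (0 : ℝ) < k := by exact_mod_cast hkp
  have hdmin : 0 < min d1 d2 := lt_min hd1 hd2
  have hkd : (β - α) / k < min d1 d2 := by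
    rw [div_lt_iff₀ hkp', mul_comm, ← div_lt_iff₀ hdmin]
    refine hk0.trans ?_
    rw [hk]; push_cast; linarith
  obtain ⟨N, hN⟩ : ∃ N : ℝ, N = 2 * Real.pi * k / η := ⟨_, rfl⟩
  have hNp : 0 < N := by
    rw [hN]; have := Real.pi_pos; positivity
  obtain ⟨m, hm⟩ : ∃ m : Y → ℝ, m = fun x => max 0 (min 1 (2 - dist x y / r)) := ⟨_, rfl⟩
  have hmc : Continuous m := by rw [hm]; fun_prop
  have hm0 : ∀ x, 0 ≤ m x ∧ m x ≤ 1 := by
    intro x
    rw [hm]
    exact ⟨le_max_left _ _, max_le zero_le_one (min_le_left _ _)⟩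
  have hhc : Continuous (fun x => e / 2 * m x * Real.sin (N * dist x z)) := by fun_prop
  have hhb : ∀ x, ‖e / 2 * m x * Real.sin (N * dist x z)‖ ≤ e / 2 := by
    intro x
    rw [Real.norm_eq_abs, abs_mul, abs_mul, abs_of_nonneg (hm0 x).1,
      abs_of_nonneg (by linarith : (0 : ℝ) ≤ e / 2)]
    have h1 := Real.abs_sin_le_one (N * dist x z)
    calc e / 2 * m x * |Real.sin (N * dist x z)| ≤ e / 2 * 1 * 1 := by
          apply mul_le_mul _ h1 (abs_nonneg _) (by linarith)
          exact mul_le_mul_of_nonneg_left (hm0 x).2 (by linarith)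
      _ = e / 2 := by ring
  obtain ⟨H, hH⟩ : ∃ H : BoundedContinuousFunction Y ℝ, ∀ x,
      H x = e / 2 * m x * Real.sin (N * dist x z) :=
    ⟨BoundedContinuousFunction.ofNormedAddCommGroup _ hhc (e / 2) hhb, fun x => rfl⟩
  refine ⟨F + H, ?_, ?_⟩
  · rw [Metric.mem_ball, dist_eq_norm, add_sub_cancel_left]
    have : ‖H‖ ≤ e / 2 := by
      rw [BoundedContinuousFunction.norm_le (by linarith)]
      intro x
      rw [hH]; exact hhb x
    linarith
  · intro π hπ
    by_contra hcon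
    push Not at hcon
    obtain ⟨hπ1, hπ2, hc1, hc2, t1, ht1, t2, ht2, hosc⟩ := hπ
    have hγc : Continuous π.1 := hC.1 _ hπ1
    -- the identity on the window
    have hid : ∀ t ∈ Icc α β, e / 2 * Real.sin (N * dist (π.1 t) z) = F (π.2 t) - F (π.1 t) := by
      intro t ht
      have h1 := hcon t
      simp only [BoundedContinuousFunction.coe_add, Pi.add_apply, hH] at h1
      have hm1 : m (π.1 t) = 1 := by
        rw [hm]
        simp only
        have : dist (π.1 t) y / r ≤ 1 := (div_le_one hr).2 (hc1 t ht)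
        rw [min_eq_left (by linarith), max_eq_right zero_le_one]
      have hm2 : m (π.2 t) = 0 := by
        rw [hm]
        simp only
        have : 2 ≤ dist (π.2 t) y / r := (le_div_iff₀ hr).2 (hc2 t ht)
        rw [max_eq_left]
        exact (min_le_right _ _).trans (by linarith)
      rw [hm1, hm2] at h1
      linarith
    -- the chain
    obtain ⟨s, hs⟩ : ∃ s : ℕ → ℝ, s = fun j : ℕ => t1 + (t2 - t1) * (j : ℝ) / (k : ℝ) := ⟨_, rfl⟩
    have hs0 : s 0 = t1 := by rw [hs]; simp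
    have hsk : s k = t2 := by
      rw [hs]
      simp only
      field_simp
      ring
    have hsmem : ∀ j ≤ k, s j ∈ Icc α β := by
      intro j hj
      have hj' : (j : ℝ) / k ≤ 1 := (div_le_one hkp').2 (by exact_mod_cast hj)
      have hj0 : 0 ≤ (j : ℝ) / k := by positivity
      have : s j = (1 - (j : ℝ) / k) * t1 + (j : ℝ) / k * t2 := by
        rw [hs]; simp only; ring
      rw [this]
      have c1 : (1 - (j : ℝ) / k) * α ≤ (1 - (j : ℝ) / k) * t1 :=
        mul_le_mul_of_nonneg_left ht1.1 (by linarith)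
      have c2 : (j : ℝ) / k * α ≤ (j : ℝ) / k * t2 := mul_le_mul_of_nonneg_left ht2.1 hj0
      have c3 : (1 - (j : ℝ) / k) * t1 ≤ (1 - (j : ℝ) / k) * β :=
        mul_le_mul_of_nonneg_left ht1.2 (by linarith)
      have c4 : (j : ℝ) / k * t2 ≤ (j : ℝ) / k * β := mul_le_mul_of_nonneg_left ht2.2 hj0
      constructor <;> linarith
    have hosc' : η ≤ |dist (π.1 (s 0)) z - dist (π.1 (s k)) z| := by rw [hs0, hsk]; exact hosc
    obtain ⟨j, hj, hjη⟩ := BD_pig (fun t => dist (π.1 t) z) s k hkp η hosc'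
    have hstep : |s j - s (j + 1)| < min d1 d2 := by
      have h1 : s j - s (j + 1) = -((t2 - t1) / k) := by
        rw [hs]; simp only; push_cast; field_simp; ring
      have h2 : |t2 - t1| ≤ β - α := by
        rw [abs_le]; constructor <;> linarith [ht1.1, ht1.2, ht2.1, ht2.2]
      rw [h1, abs_neg, abs_div, abs_of_pos hkp']
      exact lt_of_le_of_lt (div_le_div_of_nonneg_right h2 hkp'.le) hkd
    have hbig : 2 * Real.pi ≤ |N * dist (π.1 (s j)) z - N * dist (π.1 (s (j + 1))) z| := by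
      rw [← mul_sub, abs_mul, abs_of_pos hNp]
      calc 2 * Real.pi = N * (η / k) := by rw [hN]; field_simp
        _ ≤ _ := mul_le_mul_of_nonneg_left hjη hNp.le
    obtain ⟨⟨w1, hw1, hw1'⟩, ⟨w2, hw2, hw2'⟩⟩ := BD_sin _ _ hbig
    have hcont : ContinuousOn (fun t => N * dist (π.1 t) z) (uIcc (s j) (s (j + 1))) := by
      apply Continuous.continuousOn
      fun_prop
    obtain ⟨x1, hx1, hx1'⟩ := intermediate_value_uIcc hcont hw1
    obtain ⟨x2, hx2, hx2'⟩ := intermediate_value_uIcc hcont hw2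
    have hsub : uIcc (s j) (s (j + 1)) ⊆ Icc α β :=
      (convex_Icc α β).ordConnected.uIcc_subset (hsmem j hj.le) (hsmem (j + 1) hj)
    have hx12 : |x1 - x2| < min d1 d2 := lt_of_le_of_lt (abs_sub_le_of_uIcc_subset_uIcc
      (by rw [uIcc_subset_uIcc_iff_mem]; exact ⟨hx2, hx1⟩)) (by rw [abs_sub_comm]; exact hstep)
    have k1 := hid x1 (hsub hx1)
    have k2 := hid x2 (hsub hx2)
    simp only at hx1' hx2'
    rw [hx1', hw1'] at k1
    rw [hx2', hw2'] at k2
    have k3 := hE1 π.1 hπ1 x1 (hsub hx1) x2 (hsub hx2) (hx12.trans_le (min_le_left _ _))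
    have k4 := hE2 π.2 hπ2 x1 (hsub hx1) x2 (hsub hx2) (hx12.trans_le (min_le_right _ _))
    rw [abs_lt] at k3 k4
    linarith [k3.1, k3.2, k4.1, k4.2]

end NS
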