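import Pool.Agent.helper29.NS.LX

namespace NS

open MeasureTheory Filter Topology Set

theorem BX : BX_stmt := by
  intro f θ c a b w z hf ha hb hw hdiv
  have hfd : Differentiable ℝ f := hf.differentiable (by norm_num)
  have had : Differentiable ℝ a := ha.differentiable (by norm_num)
  have hbd : Differentiable ℝ b := hb.differentiable (by norm_num)
  have hwd : Differentiable ℝ w := hw.differentiable (by norm_num)
  have hdf : ContDiff ℝ 2 (deriv f) := by
    have : ContDiff ℝ (2 + 1) f := by exact_mod_cast hf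
    exact (contDiff_succ_iff_deriv.1 this).2.2
  have hdfd : Differentiable ℝ (deriv f) := hdf.differentiable (by norm_num)
  have dsx : Differentiable ℝ (sx f θ c) := by
    unfold sx pt
    fun_prop
  have e1 : Differentiable ℝ (fun z => a (sx f θ c z)) := had.comp dsx
  have e2 : Differentiable ℝ (fun z => b (sx f θ c z)) := hbd.comp dsx
  obtain ⟨ax, ay⟩ := LX_sx f θ c a hfd had z
  obtain ⟨bx, by'⟩ := LX_sx f θ c b hfd hbd z
  obtain ⟨wx, wy⟩ := LX_sx f θ c w hfd hwd z
  set C := Real.cos θ with hC
  set S := Real.sin θ with hS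
  have h := Real.sin_sq_add_cos_sq θ
  rw [← hS, ← hC] at h
  have hP : sP f θ c a b = fun z => (-(S + deriv f z.1 * C)) * a (sx f θ c z)
      + (C - deriv f z.1 * S) * b (sx f θ c z) := by
    funext z
    unfold sP
    ring
  have hQ : sQ f θ c a b = fun z => (-C) * a (sx f θ c z) + (-S) * b (sx f θ c z) := by
    funext z
    unfold sQ
    ring
  have ga : Differentiable ℝ (fun s => -(S + deriv f s * C)) := by fun_prop
  have gb : Differentiable ℝ (fun s => C - deriv f s * S) := by fun_prop
  have dga : deriv (fun s => -(S + deriv f s * C)) z.1 = -(deriv (deriv f) z.1 * C) := by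
    have := (((hdfd z.1).hasDerivAt.mul_const C).const_add S).neg
    exact this.deriv
  have dgb : deriv (fun s => C - deriv f s * S) z.1 = -(deriv (deriv f) z.1 * S) := by
    have := ((hdfd z.1).hasDerivAt.mul_const S).const_sub C
    exact this.deriv
  have p1 : DifferentiableAt ℝ (fun z : ℝ × ℝ => (-(S + deriv f z.1 * C)) * a (sx f θ c z)) z :=
    (DifferentiableAt.comp z (ga z.1) differentiableAt_fst).mul (e1 z)
  have p2 : DifferentiableAt ℝ (fun z : ℝ × ℝ => (C - deriv f z.1 * S) * b (sx f θ c z)) z :=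
    (DifferentiableAt.comp z (gb z.1) differentiableAt_fst).mul (e2 z)
  have q1 := LX_prod (fun s => -(S + deriv f s * C)) (fun z => a (sx f θ c z)) z (ga _) (e1 z)
  have q2 := LX_prod (fun s => C - deriv f s * S) (fun z => b (sx f θ c z)) z (gb _) (e2 z)
  rw [dga] at q1
  rw [dgb] at q2
  have p3 : DifferentiableAt ℝ (fun z : ℝ × ℝ => (-C) * a (sx f θ c z)) z := (e1 z).const_mul _
  have p4 : DifferentiableAt ℝ (fun z : ℝ × ℝ => (-S) * b (sx f θ c z)) z := (e2 z).const_mul _
  have q3 := LX_prod (fun _ => -C) (fun z => a (sx f θ c z)) z (differentiableAt_const _) (e1 z)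
  have q4 := LX_prod (fun _ => -S) (fun z => b (sx f θ c z)) z (differentiableAt_const _) (e2 z)
  simp only [deriv_const, zero_mul, zero_add] at q3 q4
  have hPx : px (sP f θ c a b) z = -(deriv (deriv f) z.1 * C) * a (sx f θ c z)
      + -(S + deriv f z.1 * C) * px (fun z => a (sx f θ c z)) z
      + (-(deriv (deriv f) z.1 * S) * b (sx f θ c z)
        + (C - deriv f z.1 * S) * px (fun z => b (sx f θ c z)) z) := by
    rw [hP, (LX_add _ _ z p1 p2).1, q1.1, q2.1]
  have hPy : py (sP f θ c a b) z = -(S + deriv f z.1 * C) * py (fun z => a (sx f θ c z)) z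
      + (C - deriv f z.1 * S) * py (fun z => b (sx f θ c z)) z := by
    rw [hP, (LX_add _ _ z p1 p2).2, q1.2, q2.2]
  have hQx : px (sQ f θ c a b) z = -C * px (fun z => a (sx f θ c z)) z
      + -S * px (fun z => b (sx f θ c z)) z := by
    rw [hQ, (LX_add _ _ z p3 p4).1, q3.1, q4.1]
  have hQy : py (sQ f θ c a b) z = -C * py (fun z => a (sx f θ c z)) z
      + -S * py (fun z => b (sx f θ c z)) z := by
    rw [hQ, (LX_add _ _ z p3 p4).2, q3.2, q4.2]
  have hby : py b (sx f θ c z) = -px a (sx f θ c z) := by linarith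
  refine ⟨?_, ?_, ?_⟩
  · rw [hPy, hQx, ax, ay, bx, by', hby]
    ring
  · unfold Mf
    rw [hPx, hPy, hQy, hQ, ax, ay, bx, by', hby]
    linear_combination (px b (sx f θ c z) - py a (sx f θ c z)) * h
  · rw [hP, hQ, wx, wy]
    linear_combination (a (sx f θ c z) * px w (sx f θ c z)
      + b (sx f θ c z) * py w (sx f θ c z)) * h

end NS
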