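import Pool.Agent.helper29.NS.Spec2

namespace NS

open MeasureTheory Filter Topology Set

theorem BZ_ext (L : ℝ × ℝ →L[ℝ] ℝ) (h1 : L (1, 0) = 0) (h2 : L (0, 1) = 0) : L = 0 := by
  ext
  · simpa using h1
  · simpa using h2

/-- if the slice vanishes on an open set, so do the derivatives -/
theorem BZ_van (hSL : SL_stmt) (f : ℝ × ℝ × ℝ → ℝ) (hf : Differentiable ℝ f) (t : ℝ)
    (U : Set (ℝ × ℝ)) (hU : IsOpen U) (h0 : ∀ q ∈ U, f (t, q) = 0) :
    ∀ q ∈ U, dx f (t, q) = 0 ∧ dy f (t, q) = 0 := by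
  intro q hq
  have h1 := hSL f t q (hf _)
  have h2 : (fun q => f (t, q)) =ᶠ[𝓝 q] fun _ => (0 : ℝ) := by
    filter_upwards [hU.mem_nhds hq] with q' hq'
    exact h0 q' hq'
  have h3 : fderiv ℝ (fun q => f (t, q)) q = 0 := by
    rw [h2.fderiv_eq]; simp
  rw [← h1.1, ← h1.2.1]
  unfold px py
  rw [h3]
  simp

theorem BZ (hCL : CL_stmt) (hSL : SL_stmt) (hSM : SM_stmt) : BZ_stmt := by
  intro Ω ν g h a b m n c t0 ε hO hg hh ca cb cm cn hc hε hva hmn ha0 hb0 hw1 hw2
  have hcurl : ContDiff ℝ 1 (curl g h) := by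
    have e1 : ContDiff ℝ 1 (px h) := by
      unfold px; exact (hh.fderiv_right (m := 1) (by norm_num)).clm_apply contDiff_const
    have e2 : ContDiff ℝ 1 (py g) := by
      unfold py; exact (hg.fderiv_right (m := 1) (by norm_num)).clm_apply contDiff_const
    unfold curl
    exact e1.sub e2
  obtain ⟨w, hw⟩ : ∃ w : ℝ × ℝ × ℝ → ℝ, w = vort m n := ⟨_, rfl⟩
  obtain ⟨ω, hω⟩ : ∃ ω : ℝ × ℝ × ℝ → ℝ, ω = vort a b := ⟨_, rfl⟩
  have hwc : ContDiff ℝ 2 w := by
    have e1 := (hSM 2 n cn).2.1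
    have e2 := (hSM 2 m cm).2.2.1
    rw [hw]; exact e1.sub e2
  have hωc : ContDiff ℝ 2 ω := by
    have e1 := (hSM 2 b cb).2.1
    have e2 := (hSM 2 a ca).2.2.1
    rw [hω]; exact e1.sub e2
  have hw' := hSM 1 w hwc
  have hω' := hSM 1 ω hωc
  have hsym := hw'.2.2.2 le_rfl
  rw [← hw, ← hω] at hva
  rw [← hω] at hw1 hw2
  -- vanishing of the slices of `w` in `Ω` near `c`
  have hvan : ∀ t, |t - t0| < ε → ∃ V ∈ 𝓝 c, IsOpen V ∧ (∀ q ∈ Ω ∩ V, m (t, q) = 0 ∧ n (t, q) = 0) ∧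
      ∀ q ∈ Ω ∩ V, w (t, q) = 0 := by
    intro t ht
    obtain ⟨V, hV, hV'⟩ := hmn t ht
    refine ⟨interior V, interior_mem_nhds.2 hV, isOpen_interior,
      fun q hq => hV' q ⟨hq.1, interior_subset hq.2⟩, ?_⟩
    intro q hq
    have hU : IsOpen (Ω ∩ interior V) := hO.inter isOpen_interior
    have e1 := BZ_van hSL m (cm.differentiable (by norm_num)) t _ hU
      (fun q hq => (hV' q ⟨hq.1, interior_subset hq.2⟩).1) q hq
    have e2 := BZ_van hSL n (cn.differentiable (by norm_num)) t _ hU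
      (fun q hq => (hV' q ⟨hq.1, interior_subset hq.2⟩).2) q hq
    rw [hw]
    unfold vort
    rw [e1.2, e2.1, sub_zero]
  -- values at `c`
  have hsl : ∀ (f : ℝ × ℝ × ℝ → ℝ) (t : ℝ), ContDiff ℝ 1 f → ContDiff ℝ 1 (fun q => f (t, q)) :=
    fun f t hf => hf.comp (contDiff_const.prodMk contDiff_id)
  have hatc : ∀ t, |t - t0| < ε → w (t, c) = 0 ∧ dx w (t, c) = 0 ∧ dy w (t, c) = 0 := by
    intro t ht
    obtain ⟨V, hV, -, -, hV2⟩ := hvan t ht
    have hs := hsl w t (hwc.of_le (by norm_num))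
    have := hCL Ω hO c hc V hV (fun q => w (t, q)) hs.continuous hV2
    have hfd := this.2 hs
    have h1 := hSL w t c ((hwc.differentiable (by norm_num)) _)
    refine ⟨this.1, ?_, ?_⟩
    · rw [← h1.1]; unfold px; rw [hfd]; simp
    · rw [← h1.2.1]; unfold py; rw [hfd]; simp
  have hdt0 : ∀ f : ℝ × ℝ × ℝ → ℝ, Differentiable ℝ f → (∀ t, |t - t0| < ε → f (t, c) = 0) →
      dt f (t0, c) = 0 := by
    intro f hf h0
    rw [← (hSL f t0 c (hf _)).2.2]
    have : (fun t => f (t, c)) =ᶠ[𝓝 t0] fun _ => (0 : ℝ) := by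
      filter_upwards [Metric.ball_mem_nhds t0 hε] with t ht
      exact h0 t (by rwa [Metric.mem_ball, Real.dist_eq] at ht)
    rw [this.deriv_eq]; simp
  have hd1 : dt w (t0, c) = 0 := hdt0 w (hwc.differentiable (by norm_num)) (fun t ht => (hatc t ht).1)
  have hd2 : dt (dx w) (t0, c) = 0 :=
    hdt0 _ (hw'.2.1.differentiable (by norm_num)) (fun t ht => (hatc t ht).2.1)
  have hd3 : dt (dy w) (t0, c) = 0 :=
    hdt0 _ (hw'.2.2.1.differentiable (by norm_num)) (fun t ht => (hatc t ht).2.2)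
  -- the function `H`
  obtain ⟨V, hV, hVo, hVmn, hVw⟩ := hvan t0 (by simpa using hε)
  have hU : IsOpen (Ω ∩ V) := hO.inter hVo
  have hwx := BZ_van hSL w (hwc.differentiable (by norm_num)) t0 _ hU hVw
  have hwxx := BZ_van hSL (dx w) (hw'.2.1.differentiable (by norm_num)) t0 _ hU
    (fun q hq => (hwx q hq).1)
  have hwyy := BZ_van hSL (dy w) (hw'.2.2.1.differentiable (by norm_num)) t0 _ hU
    (fun q hq => (hwx q hq).2)
  have hT : ContDiff ℝ 1 (fun q => dt w (t0, q)) := hsl _ t0 hw'.1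
  have hA : ContDiff ℝ 1 (fun q => a (t0, q)) := hsl a t0 (ca.of_le (by norm_num))
  have hB : ContDiff ℝ 1 (fun q => b (t0, q)) := hsl b t0 (cb.of_le (by norm_num))
  have hX : ContDiff ℝ 1 (fun q => dx ω (t0, q)) := hsl _ t0 hω'.2.1
  have hY : ContDiff ℝ 1 (fun q => dy ω (t0, q)) := hsl _ t0 hω'.2.2.1
  have hP : ContDiff ℝ 1 (fun q => (a (t0, q) * dx ω (t0, q) + b (t0, q) * dy ω (t0, q)) / 4) :=
    ((hA.mul hX).add (hB.mul hY)).div_const 4
  have hH : ContDiff ℝ 1 (fun q => curl g h q - dt w (t0, q)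
      - (a (t0, q) * dx ω (t0, q) + b (t0, q) * dy ω (t0, q)) / 4) := (hcurl.sub hT).sub hP
  have hH0 := hCL Ω hO c hc V hV _ hH.continuous (by
    intro q hq
    have e1 := hva t0 q hq.1
    rw [(hVmn q hq).1, (hVmn q hq).2, (hwxx q hq).1, (hwyy q hq).2] at e1
    linarith)
  obtain ⟨hHc, hHd⟩ := hH0
  have hHd' := hHd hH
  constructor
  · simp only [hd1, ha0, hb0] at hHc
    linarith
  · have e1 : fderiv ℝ (fun q => dt w (t0, q)) c = 0 := by
      have h1 := hSL (dt w) t0 c ((hw'.1.differentiable (by norm_num)) _)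
      apply BZ_ext
      · have := h1.1
        unfold px at this
        rw [this, ← hsym.1]; exact hd2
      · have := h1.2.1
        unfold py at this
        rw [this, ← hsym.2.1]; exact hd3
    have e2 : fderiv ℝ (fun q => (a (t0, q) * dx ω (t0, q) + b (t0, q) * dy ω (t0, q)) / 4) c
        = 0 := by
      have f1 := ((hA.differentiable (by norm_num)) c).hasFDerivAt
      have f2 := ((hB.differentiable (by norm_num)) c).hasFDerivAt
      have f3 := ((hX.differentiable (by norm_num)) c).hasFDerivAt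
      have f4 := ((hY.differentiable (by norm_num)) c).hasFDerivAt
      have f5 := ((f1.mul f3).add (f2.mul f4)).const_mul (1 / 4 : ℝ)
      have f6 : (fun q => (a (t0, q) * dx ω (t0, q) + b (t0, q) * dy ω (t0, q)) / 4)
          = fun q => (1 / 4 : ℝ) * (a (t0, q) * dx ω (t0, q) + b (t0, q) * dy ω (t0, q)) := by
        funext q; ring
      rw [f6]
      have f7 := f5.fderiv
      simp only [ha0, hb0, hw1, hw2, zero_smul, add_zero, smul_zero] at f7
      exact f7
    have e3 : fderiv ℝ (fun q => curl g h q - dt w (t0, q)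
        - (a (t0, q) * dx ω (t0, q) + b (t0, q) * dy ω (t0, q)) / 4) c
        = fderiv ℝ (curl g h) c - fderiv ℝ (fun q => dt w (t0, q)) c
          - fderiv ℝ (fun q => (a (t0, q) * dx ω (t0, q) + b (t0, q) * dy ω (t0, q)) / 4) c :=
      ((((hcurl.differentiable (by norm_num)) c).hasFDerivAt.sub
        ((hT.differentiable (by norm_num)) c).hasFDerivAt).sub
        ((hP.differentiable (by norm_num)) c).hasFDerivAt).fderiv
    rw [hHd', e1, e2, sub_zero, sub_zero] at e3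
    exact e3.symm

end NS
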