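import Pool.Agent.helper29.NS.SpecE

namespace NS

open MeasureTheory Filter Topology Set

theorem CGS (hSL : SL_stmt) (hSM : SM_stmt) (hHL : HL_stmt) (hBX : BX_stmt) (hLX : LX_stmt)
    (hBB : BB_stmt) (hJB : JB_stmt) : CGS_stmt := by
  intro Ω ν G a b m n c θ δ f α β ε hO hν hDM ca cb hch hf8 hf1 hf2 hva hε hmn t ht hw0
  have hDo : IsOpen (Dsc c ε) := isOpen_lt (by fun_prop) continuous_const
  have hHL' := hHL Ω (Ω ∩ Dsc c ε) ν α β G a b m n (hO.inter hDo) inter_subset_left hDM ca cb hva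
    hmn t ht
  obtain ⟨η1, hη1, hBB'⟩ := hBB Ω ν a b m n c θ δ f hO hν.ne' hDM ca cb hch hf2
  -- regularity
  obtain ⟨ω, hω⟩ : ∃ ω : ℝ × ℝ × ℝ → ℝ, ω = vort a b := ⟨_, rfl⟩
  rw [← hω] at hHL' hBB' hw0 ⊢
  have cω : ContDiff ℝ 7 ω := by
    rw [hω]
    exact ((hSM 7 b (by exact_mod_cast cb)).2.1).sub ((hSM 7 a (by exact_mod_cast ca)).2.2.1)
  have cω1 : ContDiff ℝ 6 (dt ω) := (hSM 6 ω (by exact_mod_cast cω)).1
  have cω2 : ContDiff ℝ 5 (dt (dt ω)) := (hSM 5 (dt ω) (by exact_mod_cast cω1)).1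
  have csx : ContDiff ℝ 8 (sx f θ c) := by
    unfold sx pt
    fun_prop
  have hsl : ∀ (k : ℕ) (F : ℝ × ℝ × ℝ → ℝ), ContDiff ℝ k F → ContDiff ℝ k (fun q : ℝ × ℝ => F (t, q)) := by
    intro k F hF
    exact hF.comp (contDiff_prodMk_right t)
  -- small region
  have hcont : Continuous (sx f θ c) := csx.continuous
  have hs0 : sx f θ c (0, 0) = c := by
    unfold sx pt
    simp [hch.f0]
  have hev : ∀ᶠ z in 𝓝 ((0, 0) : ℝ × ℝ), sx f θ c z ∈ Dsc c ε ∧ |z.1| < δ ∧ |f z.1 + z.2| < δ := by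
    have h1 : ∀ᶠ z in 𝓝 ((0, 0) : ℝ × ℝ), sx f θ c z ∈ Dsc c ε := by
      apply hcont.continuousAt.eventually_mem
      rw [hs0]
      apply hDo.mem_nhds
      show (c.1 - c.1) ^ 2 + (c.2 - c.2) ^ 2 < ε ^ 2
      simp; positivity
    have h2 : ∀ᶠ z in 𝓝 ((0, 0) : ℝ × ℝ), |z.1| < δ := by
      have : Continuous fun z : ℝ × ℝ => |z.1| := by fun_prop
      exact this.continuousAt.eventually_lt continuousAt_const (by simpa using hch.pos)
    have h3 : ∀ᶠ z in 𝓝 ((0, 0) : ℝ × ℝ), |f z.1 + z.2| < δ := by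
      have hfc : Continuous f := hf8.continuous
      have : Continuous fun z : ℝ × ℝ => |f z.1 + z.2| := by fun_prop
      exact this.continuousAt.eventually_lt continuousAt_const (by simpa [hch.f0] using hch.pos)
    filter_upwards [h1, h2, h3] with z h1 h2 h3 using ⟨h1, h2, h3⟩
  obtain ⟨η2, hη2, hball⟩ := Metric.eventually_nhds_iff.1 hev
  set η := min η1 η2 with hη
  have hη0 : 0 < η := lt_min hη1 hη2
  have hmem : ∀ s r, |s| < η → 0 < r → r < η → sx f θ c (s, r) ∈ Ω ∩ Dsc c ε := by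
    intro s r hs hr0 hr
    have hd : dist ((s, r) : ℝ × ℝ) (0, 0) < η2 := by
      rw [Prod.dist_eq, max_lt_iff]
      constructor
      · simpa [Real.dist_eq] using lt_of_lt_of_le hs (min_le_right _ _)
      · simpa [Real.dist_eq, abs_of_pos hr0] using lt_of_lt_of_le hr (min_le_right _ _)
    obtain ⟨h1, h2, h3⟩ := hball hd
    refine ⟨?_, h1⟩
    exact (hch.graph s (f s + r) h2 h3).2 (by linarith)
  -- the functions in shear coordinates
  have hdiffa : Differentiable ℝ a := ca.differentiable (by norm_num)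
  have hdiffb : Differentiable ℝ b := cb.differentiable (by norm_num)
  have hdiffω : Differentiable ℝ ω := cω.differentiable (by norm_num)
  have key1 := hJB f (sP f θ c (fun q => a (t, q)) (fun q => b (t, q)))
    (sQ f θ c (fun q => a (t, q)) (fun q => b (t, q)))
    (fun z => ω (t, sx f θ c z)) (fun z => dt ω (t, sx f θ c z))
    (fun z => dt (dt ω) (t, sx f θ c z)) ν η (ω (t, c)) (deriv (fun t => ω (t, c)) t)
    (deriv (deriv (fun t => ω (t, c))) t) hν hη0 hw0 hf8 hf1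
  have hat : ContDiff ℝ 8 (fun q : ℝ × ℝ => a (t, q)) := hsl 8 a ca
  have hbt : ContDiff ℝ 8 (fun q : ℝ × ℝ => b (t, q)) := hsl 8 b cb
  have hωt : ContDiff ℝ 7 (fun q : ℝ × ℝ => ω (t, q)) := hsl 7 ω cω
  have hω1t : ContDiff ℝ 6 (fun q : ℝ × ℝ => dt ω (t, q)) := hsl 6 _ cω1
  have hω2t : ContDiff ℝ 5 (fun q : ℝ × ℝ => dt (dt ω) (t, q)) := hsl 5 _ cω2
  have hasx : ContDiff ℝ 8 (fun z : ℝ × ℝ => a (t, sx f θ c z)) := hat.comp csx
  have hbsx : ContDiff ℝ 8 (fun z : ℝ × ℝ => b (t, sx f θ c z)) := hbt.comp csx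
  have hdf : ContDiff ℝ 7 (deriv f) := by
    have : ContDiff ℝ (7 + 1) f := by exact_mod_cast hf8
    exact (contDiff_succ_iff_deriv.1 this).2.2
  have hP : ContDiff ℝ 7 (sP f θ c (fun q => a (t, q)) (fun q => b (t, q))) := by
    unfold sP
    have e1 : ContDiff ℝ 7 (fun z : ℝ × ℝ => a (t, sx f θ c z)) := hasx.of_le (by norm_num)
    have e2 : ContDiff ℝ 7 (fun z : ℝ × ℝ => b (t, sx f θ c z)) := hbsx.of_le (by norm_num)
    have e3 : ContDiff ℝ 7 (fun z : ℝ × ℝ => deriv f z.1) := hdf.comp contDiff_fst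
    exact ((contDiff_const.mul e1).add (contDiff_const.mul e2)).sub
      (e3.mul ((contDiff_const.mul e1).add (contDiff_const.mul e2)))
  have hQ : ContDiff ℝ 8 (sQ f θ c (fun q => a (t, q)) (fun q => b (t, q))) := by
    unfold sQ
    exact ((contDiff_const.mul hasx).add (contDiff_const.mul hbsx)).neg
  have hW : ContDiff ℝ 7 (fun z : ℝ × ℝ => ω (t, sx f θ c z)) := hωt.comp (csx.of_le (by norm_num))
  have hV : ContDiff ℝ 6 (fun z : ℝ × ℝ => dt ω (t, sx f θ c z)) :=
    hω1t.comp (csx.of_le (by norm_num))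
  have hU : ContDiff ℝ 5 (fun z : ℝ × ℝ => dt (dt ω) (t, sx f θ c z)) :=
    hω2t.comp (csx.of_le (by norm_num))
  have key2 := key1 hP hQ hW hV hU
  -- Laplacians
  have hLap : ∀ (F : ℝ × ℝ × ℝ → ℝ), ContDiff ℝ 2 F → ∀ q : ℝ × ℝ,
      px (px (fun q => F (t, q))) q + py (py (fun q => F (t, q))) q
        = dx (dx F) (t, q) + dy (dy F) (t, q) := by
    intro F hF q
    have e1 : px (fun q => F (t, q)) = fun q => dx F (t, q) := by
      funext p
      exact (hSL F t p ((hF.differentiable (by norm_num)) _)).1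
    have e2 : py (fun q => F (t, q)) = fun q => dy F (t, q) := by
      funext p
      exact (hSL F t p ((hF.differentiable (by norm_num)) _)).2.1
    obtain ⟨-, h1, h2, -⟩ := hSM 1 F (by exact_mod_cast hF)
    rw [e1, e2, (hSL (dx F) t q ((h1.differentiable (by norm_num)) _)).1,
      (hSL (dy F) t q ((h2.differentiable (by norm_num)) _)).2.1]
  have hLf1 : ∀ z, Lf f (fun z => ω (t, sx f θ c z)) z
      = dx (dx ω) (t, sx f θ c z) + dy (dy ω) (t, sx f θ c z) := by
    intro z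
    have := hLX f θ c (fun q => ω (t, q)) (hf8.of_le (by norm_num)) (hωt.of_le (by norm_num)) z
    rw [this]
    exact hLap ω (cω.of_le (by norm_num)) _
  have hLf2 : ∀ z, Lf f (fun z => dt ω (t, sx f θ c z)) z
      = dx (dx (dt ω)) (t, sx f θ c z) + dy (dy (dt ω)) (t, sx f θ c z) := by
    intro z
    have := hLX f θ c (fun q => dt ω (t, q)) (hf8.of_le (by norm_num)) (hω1t.of_le (by norm_num)) z
    rw [this]
    exact hLap (dt ω) (cω1.of_le (by norm_num)) _
  -- first order relations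
  have hBX' : ∀ s r, |s| < η → 0 < r → r < η → 
      py (sP f θ c (fun q => a (t, q)) (fun q => b (t, q))) (s, r)
        = px (sQ f θ c (fun q => a (t, q)) (fun q => b (t, q))) (s, r) ∧
      Mf f (sP f θ c (fun q => a (t, q)) (fun q => b (t, q)))
        (sQ f θ c (fun q => a (t, q)) (fun q => b (t, q))) (s, r) = ω (t, sx f θ c (s, r)) ∧
      sP f θ c (fun q => a (t, q)) (fun q => b (t, q)) (s, r)
          * py (fun z => ω (t, sx f θ c z)) (s, r)
        - sQ f θ c (fun q => a (t, q)) (fun q => b (t, q)) (s, r)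
          * px (fun z => ω (t, sx f θ c z)) (s, r) = 4 * G (sx f θ c (s, r)) := by
    intro s r hs hr0 hr
    obtain ⟨hq1, hq2⟩ := hmem s r hs hr0 hr
    obtain ⟨ax, ay, -⟩ := hSL a t (sx f θ c (s, r)) (hdiffa _)
    obtain ⟨bx, by', -⟩ := hSL b t (sx f θ c (s, r)) (hdiffb _)
    obtain ⟨ωx, ωy, -⟩ := hSL ω t (sx f θ c (s, r)) (hdiffω _)
    have hdiv : px (fun q => a (t, q)) (sx f θ c (s, r)) + py (fun q => b (t, q)) (sx f θ c (s, r))
        = 0 := by
      rw [ax, by']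
      exact hDM.da t _ hq1
    obtain ⟨h1, h2, h3⟩ := hBX f θ c (fun q => a (t, q)) (fun q => b (t, q)) (fun q => ω (t, q))
      (s, r) (hf8.of_le (by norm_num)) (hat.of_le (by norm_num)) (hbt.of_le (by norm_num))
      (hωt.of_le (by norm_num)) hdiv
    refine ⟨h1, ?_, ?_⟩
    · rw [h2, bx, ay, hω]
      rfl
    · rw [h3, ωx, ωy]
      exact ((hHL' _ ⟨hq1, hq2⟩).2.2.2.2).symm
  have key3 := key2 (by
    intro s r hs hr0 hr
    obtain ⟨h1, h2, h3⟩ := hBX' s r hs hr0 hr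
    have hq := hmem s r hs hr0 hr
    refine ⟨h1, h2, ?_, ?_⟩
    · rw [hLf1]
      have := (hHL' _ hq).2.2.1
      unfold heat at this
      linarith
    · rw [hLf2]
      have := (hHL' _ hq).2.2.2.1
      unfold heat at this
      linarith)
  have hpyc : ∀ (F : ℝ × ℝ × ℝ → ℝ), ContDiff ℝ 1 F → ∀ z, dx F (t, sx f θ c z) = 0 →
      dy F (t, sx f θ c z) = 0 → py (fun z => F (t, sx f θ c z)) z = 0 := by
    intro F hF z hx hy
    have hFt : ContDiff ℝ 1 (fun q : ℝ × ℝ => F (t, q)) := hsl 1 F hF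
    have hd : DifferentiableAt ℝ (fun q : ℝ × ℝ => F (t, q)) (sx f θ c z) :=
      (hFt.differentiable (by norm_num)) _
    obtain ⟨e1, e2, -⟩ := hSL F t (sx f θ c z) ((hF.differentiable (by norm_num)) _)
    have hz : fderiv ℝ (fun q : ℝ × ℝ => F (t, q)) (sx f θ c z) = 0 := by
      apply ContinuousLinearMap.ext
      intro v
      have hv : v = v.1 • ((1 : ℝ), (0 : ℝ)) + v.2 • ((0 : ℝ), (1 : ℝ)) := by
        ext <;> simp
      rw [hv, map_add, map_smul, map_smul]
      have h1 : fderiv ℝ (fun q : ℝ × ℝ => F (t, q)) (sx f θ c z) (1, 0) = 0 := by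
        have : px (fun q => F (t, q)) (sx f θ c z) = 0 := by rw [e1]; exact hx
        exact this
      have h2 : fderiv ℝ (fun q : ℝ × ℝ => F (t, q)) (sx f θ c z) (0, 1) = 0 := by
        have : py (fun q => F (t, q)) (sx f θ c z) = 0 := by rw [e2]; exact hy
        exact this
      rw [h1, h2]
      simp
    have hcomp : fderiv ℝ (fun z => F (t, sx f θ c z)) z
        = (fderiv ℝ (fun q : ℝ × ℝ => F (t, q)) (sx f θ c z)).comp (fderiv ℝ (sx f θ c) z) :=
      fderiv_comp z hd ((csx.differentiable (by norm_num)) z)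
    show fderiv ℝ (fun z => F (t, sx f θ c z)) z (0, 1) = 0
    rw [hcomp, hz]
    simp
  have key4 := key3 (by
    intro s hs
    have hs1 : |s| < η1 := lt_of_lt_of_le hs (min_le_left _ _)
    obtain ⟨b0, b1, b2, b3, b4, b5, b6, b7, b8, b9⟩ := hBB' t s hs1
    have esx : sx f θ c (s, 0) = pt θ c s (f s) := by
      unfold sx
      simp
    obtain ⟨ha0, hb0, -, -⟩ := hDM.bc t _ b0
    refine ⟨?_, ?_, ?_, ?_, ?_, ?_, ?_, ?_⟩
    · unfold sP
      show (-(Real.sin θ) * a (t, sx f θ c (s, 0)) + Real.cos θ * b (t, sx f θ c (s, 0)))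
        - deriv f s * (Real.cos θ * a (t, sx f θ c (s, 0)) + Real.sin θ * b (t, sx f θ c (s, 0))) = 0
      rw [esx, ha0, hb0]
      ring
    · unfold sQ
      show -(Real.cos θ * a (t, sx f θ c (s, 0)) + Real.sin θ * b (t, sx f θ c (s, 0))) = 0
      rw [esx, ha0, hb0]
      ring
    · show ω (t, sx f θ c (s, 0)) = ω (t, c)
      rw [esx]; exact b1
    · exact hpyc ω (cω.of_le (by norm_num)) (s, 0) (by rw [esx]; exact b2) (by rw [esx]; exact b3)
    · show dt ω (t, sx f θ c (s, 0)) = _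
      rw [esx]; exact b4
    · exact hpyc (dt ω) (cω1.of_le (by norm_num)) (s, 0) (by rw [esx]; exact b5)
        (by rw [esx]; exact b6)
    · show dt (dt ω) (t, sx f θ c (s, 0)) = _
      rw [esx]; exact b7
    · exact hpyc (dt (dt ω)) (cω2.of_le (by norm_num)) (s, 0) (by rw [esx]; exact b8)
        (by rw [esx]; exact b9))
  have hfin := key4.const_mul (1 / 4 : ℝ)
  have e : (1 / 4 : ℝ) * (deriv (deriv (deriv f)) 0
      * (ω (t, c) * deriv (deriv (fun t => ω (t, c))) t - deriv (fun t => ω (t, c)) t ^ 2)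
        / (90 * ν ^ 2)) = deriv (deriv (deriv f)) 0
      * (ω (t, c) * deriv (deriv (fun t => ω (t, c))) t - deriv (fun t => ω (t, c)) t ^ 2)
        / (360 * ν ^ 2) := by
    field_simp
    ring
  rw [e] at hfin
  refine hfin.congr' ?_
  filter_upwards [Ioo_mem_nhdsGT hη0] with r hr
  have h3 := (hBX' 0 r (by simpa using hη0) hr.1 hr.2).2.2
  rw [h3]
  have esx : sx f θ c (0, r) = pt θ c 0 r := by
    unfold sx
    simp [hch.f0]
  rw [esx]
  ring

end NS
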