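import Pool.Agent.helper29.NS.Spec2

namespace NS

open MeasureTheory Filter Topology Set

theorem CI_pc (F : ℝ × ℝ → ℝ) (hF : ContDiff ℝ 1 F) : Continuous (py F) := by
  unfold py
  exact (hF.continuous_fderiv (by norm_num)).clm_apply continuous_const

theorem CI_der (F : ℝ × ℝ → ℝ) (hF : ContDiff ℝ 1 F) (s r : ℝ) :
    HasDerivAt (fun r => F (s, r)) (py F (s, r)) r := by
  have h1 : HasFDerivAt F (fderiv ℝ F (s, r)) (s, r) :=
    ((hF.differentiable (by norm_num)) _).hasFDerivAt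
  have h2 : HasDerivAt (fun r : ℝ => ((s, r) : ℝ × ℝ)) ((0 : ℝ), (1 : ℝ)) r :=
    (hasDerivAt_const r s).prodMk (hasDerivAt_id r)
  exact h1.comp_hasDerivAt r h2

theorem CI : CI_stmt := by
  intro A B C δ hδ hA hB hC h0 hA0 hC0
  set α : ℝ := -A (0, 0) / 2 with hα
  have hαp : 0 < α := by rw [hα]; linarith
  set k : ℝ := py C (0, 0) / 2 with hk
  have hkp : 0 < k := by rw [hk]; linarith
  set L : ℝ := |A (0, 0)| + |py A (0, 0)| + |py B (0, 0)| + 1 with hL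
  have hLp : 0 < L := by rw [hL]; positivity
  have ev1 : ∀ᶠ z in 𝓝 ((0 : ℝ), (0 : ℝ)), A z < -α := by
    apply hA.continuous.continuousAt.eventually_lt_const
    rw [hα]; linarith
  have ev2 : ∀ᶠ z in 𝓝 ((0 : ℝ), (0 : ℝ)), k < py C z := by
    apply (CI_pc C hC).continuousAt.eventually_const_lt
    rw [hk]; linarith
  have ev3 : ∀ᶠ z in 𝓝 ((0 : ℝ), (0 : ℝ)), |A z| < L := by
    apply hA.continuous.abs.continuousAt.eventually_lt_const
    rw [hL]
    have := abs_nonneg (py A (0, 0)); have := abs_nonneg (py B (0, 0)); linarith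
  have ev4 : ∀ᶠ z in 𝓝 ((0 : ℝ), (0 : ℝ)), |py A z| < L := by
    apply (CI_pc A hA).abs.continuousAt.eventually_lt_const
    rw [hL]
    have := abs_nonneg (A (0, 0)); have := abs_nonneg (py B (0, 0)); linarith
  have ev5 : ∀ᶠ z in 𝓝 ((0 : ℝ), (0 : ℝ)), |py B z| < L := by
    apply (CI_pc B hB).abs.continuousAt.eventually_lt_const
    rw [hL]
    have := abs_nonneg (A (0, 0)); have := abs_nonneg (py A (0, 0)); linarith
  obtain ⟨ρ, hρ, hall⟩ := Metric.eventually_nhds_iff.1 (ev1.and (ev2.and (ev3.and (ev4.and ev5))))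
  have hall' : ∀ s r : ℝ, |s| < ρ → |r| < ρ → A (s, r) < -α ∧ k < py C (s, r) ∧ |A (s, r)| < L ∧
      |py A (s, r)| < L ∧ |py B (s, r)| < L := by
    intro s r hs hr
    apply hall
    rw [Prod.dist_eq]
    simp only [Real.dist_eq, sub_zero]
    exact max_lt hs hr
  -- choice of `a`
  have eva : ∀ᶠ a in 𝓝[>] (0 : ℝ), a < δ ∧ a ^ 4 < δ ∧ a < ρ ∧ a ^ 4 < ρ ∧
      8 * a ^ 2 * L ^ 2 / α + 4 * a ^ 3 * L < k / 2 := by
    apply Filter.Eventually.filter_mono nhdsWithin_le_nhds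
    have c1 : ContinuousAt (fun a : ℝ => a) 0 := continuousAt_id
    have c2 : ContinuousAt (fun a : ℝ => a ^ 4) 0 := by fun_prop
    have c3 : ContinuousAt (fun a : ℝ => 8 * a ^ 2 * L ^ 2 / α + 4 * a ^ 3 * L) 0 := by fun_prop
    have d1 : ∀ᶠ a in 𝓝 (0 : ℝ), a < δ := c1.eventually_lt_const hδ
    have d2 : ∀ᶠ a in 𝓝 (0 : ℝ), a ^ 4 < δ := c2.eventually_lt_const (by simpa using hδ)
    have d3 : ∀ᶠ a in 𝓝 (0 : ℝ), a < ρ := c1.eventually_lt_const hρ
    have d4 : ∀ᶠ a in 𝓝 (0 : ℝ), a ^ 4 < ρ := c2.eventually_lt_const (by simpa using hρ)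
    have d5 : ∀ᶠ a in 𝓝 (0 : ℝ), 8 * a ^ 2 * L ^ 2 / α + 4 * a ^ 3 * L < k / 2 :=
      c3.eventually_lt_const (by simp; exact hkp)
    filter_upwards [d1, d2, d3, d4, d5] with a e1 e2 e3 e4 e5
    exact ⟨e1, e2, e3, e4, e5⟩
  obtain ⟨a, ⟨ha1, ha2, ha3, ha4, ha5⟩, ha0⟩ := (eva.and self_mem_nhdsWithin).exists
  have ha0' : 0 < a := ha0
  -- consequences of the mean value theorem
  have hCr : ∀ s r : ℝ, |s| < ρ → |s| < δ → 0 ≤ r → r < ρ → k * r ≤ C (s, r) := by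
    intro s r hs hs' hr hr'
    have hmono : ∀ x ∈ Icc (0 : ℝ) r, ∀ y ∈ Icc (0 : ℝ) r, x ≤ y →
        k * (y - x) ≤ C (s, y) - C (s, x) := by
      apply (convex_Icc (0 : ℝ) r).mul_sub_le_image_sub_of_le_deriv
      · exact (hC.continuous.comp (by fun_prop)).continuousOn
      · intro x _
        exact (CI_der C hC s x).differentiableAt.differentiableWithinAt
      · intro x hx
        rw [(CI_der C hC s x).deriv]
        rw [interior_Icc] at hx
        exact (hall' s x hs (by rw [abs_of_pos hx.1]; linarith [hx.2])).2.1.le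
    have := hmono 0 ⟨le_refl _, hr⟩ r ⟨hr, le_refl _⟩ hr
    rw [(h0 s hs').2] at this
    linarith
  have hBr : ∀ s r : ℝ, |s| < ρ → |s| < δ → 0 ≤ r → r < ρ → |B (s, r)| ≤ L * r := by
    intro s r hs hs' hr hr'
    have := (convex_Icc (0 : ℝ) r).norm_image_sub_le_of_norm_deriv_le
      (f := fun r => B (s, r)) (C := L) (x := 0) (y := r)
      (fun x _ => (CI_der B hB s x).differentiableAt) (fun x hx => by
        rw [(CI_der B hB s x).deriv, Real.norm_eq_abs]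
        exact (hall' s x hs (by rw [abs_of_nonneg hx.1]; linarith [hx.2])).2.2.2.2.le)
      ⟨le_refl _, hr⟩ ⟨hr, le_refl _⟩
    rw [(h0 s hs').1, sub_zero, sub_zero, Real.norm_eq_abs, Real.norm_eq_abs,
      abs_of_nonneg hr] at this
    exact this
  refine ⟨2 / α * (L / 2 + L ^ 2 / k + k / 4), a, k / 4, ha0', by positivity, ha1, ha2, ?_, ?_⟩
  · intro s r p q hs hr hr'
    have hsρ : |s| < ρ := lt_of_le_of_lt hs ha3
    have hsδ : |s| < δ := lt_of_le_of_lt hs ha1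
    have hrρ : |r| < ρ := by rw [abs_of_nonneg hr]; linarith
    obtain ⟨e1, e2, e3, e4, e5⟩ := hall' s r hsρ hrρ
    have hCr' := hCr s r hsρ hsδ hr (by linarith)
    have hC0' : 0 ≤ C (s, r) := le_trans (by positivity) hCr'
    have t1 : k * q ^ 2 ≤ py C (s, r) * q ^ 2 := mul_le_mul_of_nonneg_right e2.le (sq_nonneg q)
    have t2 : -(L * |p * q|) ≤ py B (s, r) * p * q := by
      have : |py B (s, r) * p * q| ≤ L * |p * q| := by
        rw [mul_assoc, abs_mul]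
        exact mul_le_mul_of_nonneg_right e5.le (abs_nonneg _)
      linarith [neg_abs_le (py B (s, r) * p * q)]
    have t3 : -(L * p ^ 2) ≤ py A (s, r) * p ^ 2 := by
      have h1 : -L ≤ py A (s, r) := by linarith [neg_abs_le (py A (s, r))]
      have h2 := mul_le_mul_of_nonneg_right h1 (sq_nonneg p)
      linarith
    have t4 : 0 ≤ C (s, r) * q ^ 2 := by positivity
    have t5 : α * p ^ 2 ≤ -A (s, r) * p ^ 2 :=
      mul_le_mul_of_nonneg_right (by linarith) (sq_nonneg p)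
    have t6 : L * |p * q| ≤ k / 4 * q ^ 2 + L ^ 2 / k * p ^ 2 := by
      rw [abs_mul]
      have h1 : 0 ≤ (k / 2 * |q| - L * |p|) ^ 2 / k := by positivity
      have h2 : (k / 2 * |q| - L * |p|) ^ 2 / k
          = k / 4 * |q| ^ 2 + L ^ 2 / k * |p| ^ 2 - L * (|p| * |q|) := by
        field_simp; ring
      rw [sq_abs, sq_abs] at h2
      linarith
    have hK : 0 ≤ 2 / α * (L / 2 + L ^ 2 / k + k / 4) := by positivity
    have t7 : 2 / α * (L / 2 + L ^ 2 / k + k / 4) / 2 * (α * p ^ 2)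
        ≤ 2 / α * (L / 2 + L ^ 2 / k + k / 4) / 2 * (C (s, r) * q ^ 2 - A (s, r) * p ^ 2) := by
      apply mul_le_mul_of_nonneg_left _ (by positivity)
      linarith
    have t8 : 2 / α * (L / 2 + L ^ 2 / k + k / 4) / 2 * (α * p ^ 2)
        = (L / 2 + L ^ 2 / k + k / 4) * p ^ 2 := by
      field_simp
    rw [t8] at t7
    linarith
  · intro s p q hs
    have hsρ : |s| < ρ := lt_of_le_of_lt hs ha3
    have hsδ : |s| < δ := lt_of_le_of_lt hs ha1
    have hs2 : s ^ 2 ≤ a ^ 2 := by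
      rw [← sq_abs s]
      exact pow_le_pow_left₀ (abs_nonneg s) hs 2
    obtain ⟨β, hβ⟩ : ∃ β : ℝ, β = (a ^ 2 - s ^ 2) ^ 2 := ⟨_, rfl⟩
    rw [← hβ]
    have hβ0 : 0 ≤ β := by rw [hβ]; exact sq_nonneg _
    have hβa : β ≤ a ^ 4 := by
      rw [hβ]
      have h1 : 0 ≤ a ^ 2 - s ^ 2 := by linarith
      have h2 : a ^ 2 - s ^ 2 ≤ a ^ 2 := by nlinarith [sq_nonneg s]
      calc (a ^ 2 - s ^ 2) ^ 2 ≤ (a ^ 2) ^ 2 := pow_le_pow_left₀ h1 h2 2
        _ = a ^ 4 := by ring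
    have hβρ : |β| < ρ := by rw [abs_of_nonneg hβ0]; linarith
    obtain ⟨e1, e2, e3, e4, e5⟩ := hall' s β hsρ hβρ
    have hCr' := hCr s β hsρ hsδ hβ0 (by linarith)
    have hBr' := hBr s β hsρ hsδ hβ0 (by linarith)
    obtain ⟨γ, hγ⟩ : ∃ γ : ℝ, γ = -4 * s * (a ^ 2 - s ^ 2) := ⟨_, rfl⟩
    rw [← hγ]
    have hγ2 : γ ^ 2 ≤ 16 * a ^ 2 * β := by
      have : γ ^ 2 = 16 * s ^ 2 * β := by rw [hγ, hβ]; ring
      rw [this]
      have h2 := mul_le_mul_of_nonneg_right hs2 hβ0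
      linarith
    have hγ1 : |γ| ≤ 4 * a ^ 3 := by
      rw [hγ, abs_mul, abs_mul]
      have h1 : |a ^ 2 - s ^ 2| ≤ a ^ 2 := by
        rw [abs_of_nonneg (by linarith)]; nlinarith [sq_nonneg s]
      have h2 : |(-4 : ℝ)| = 4 := by norm_num
      rw [h2]
      calc 4 * |s| * |a ^ 2 - s ^ 2| ≤ 4 * a * a ^ 2 :=
            mul_le_mul (by linarith) h1 (abs_nonneg _) (by positivity)
        _ = 4 * a ^ 3 := by ring
    have t1 : k * β * q ^ 2 ≤ C (s, β) * q ^ 2 := mul_le_mul_of_nonneg_right hCr' (sq_nonneg q)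
    have t2 : α * p ^ 2 ≤ -A (s, β) * p ^ 2 :=
      mul_le_mul_of_nonneg_right (by linarith) (sq_nonneg p)
    have t3 : γ * (A (s, β) * p * q) ≤ α / 2 * p ^ 2 + 8 * a ^ 2 * L ^ 2 / α * (β * q ^ 2) := by
      have h1 : γ * (A (s, β) * p * q) ≤ |γ| * L * |q| * |p| := by
        have : γ * (A (s, β) * p * q) ≤ |γ * (A (s, β) * p * q)| := le_abs_self _
        refine this.trans ?_
        rw [abs_mul, abs_mul, abs_mul]
        have : |A (s, β)| * |p| * |q| ≤ L * |p| * |q| := by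
          apply mul_le_mul_of_nonneg_right _ (abs_nonneg _)
          exact mul_le_mul_of_nonneg_right e3.le (abs_nonneg _)
        calc |γ| * (|A (s, β)| * |p| * |q|) ≤ |γ| * (L * |p| * |q|) :=
              mul_le_mul_of_nonneg_left this (abs_nonneg _)
          _ = |γ| * L * |q| * |p| := by ring
      have h2 : |γ| * L * |q| * |p| ≤ α / 2 * p ^ 2 + (|γ| * L * |q|) ^ 2 / (2 * α) := by
        have h3 : 0 ≤ (α * |p| - |γ| * L * |q|) ^ 2 / (2 * α) := by positivity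
        have h4 : (α * |p| - |γ| * L * |q|) ^ 2 / (2 * α)
            = α / 2 * |p| ^ 2 + (|γ| * L * |q|) ^ 2 / (2 * α) - |γ| * L * |q| * |p| := by
          field_simp; ring
        rw [sq_abs] at h4
        linarith
      have h5 : (|γ| * L * |q|) ^ 2 / (2 * α) ≤ 8 * a ^ 2 * L ^ 2 / α * (β * q ^ 2) := by
        have : (|γ| * L * |q|) ^ 2 = γ ^ 2 * (L ^ 2 * q ^ 2) := by
          rw [mul_pow, mul_pow, sq_abs, sq_abs]; ring
        rw [this]
        have h6 : γ ^ 2 * (L ^ 2 * q ^ 2) ≤ 16 * a ^ 2 * β * (L ^ 2 * q ^ 2) :=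
          mul_le_mul_of_nonneg_right hγ2 (by positivity)
        calc γ ^ 2 * (L ^ 2 * q ^ 2) / (2 * α) ≤ 16 * a ^ 2 * β * (L ^ 2 * q ^ 2) / (2 * α) :=
              div_le_div_of_nonneg_right h6 (by positivity)
          _ = 8 * a ^ 2 * L ^ 2 / α * (β * q ^ 2) := by field_simp; ring
      linarith
    have t4 : γ * (B (s, β) * q ^ 2) ≤ 4 * a ^ 3 * L * (β * q ^ 2) := by
      have h1 : γ * (B (s, β) * q ^ 2) ≤ |γ| * (|B (s, β)| * q ^ 2) := by
        have : γ * (B (s, β) * q ^ 2) ≤ |γ * (B (s, β) * q ^ 2)| := le_abs_self _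
        rw [abs_mul, abs_mul, abs_of_nonneg (sq_nonneg q)] at this
        exact this
      have h2 : |B (s, β)| * q ^ 2 ≤ L * β * q ^ 2 :=
        mul_le_mul_of_nonneg_right hBr' (sq_nonneg q)
      calc γ * (B (s, β) * q ^ 2) ≤ |γ| * (|B (s, β)| * q ^ 2) := h1
        _ ≤ 4 * a ^ 3 * (L * β * q ^ 2) :=
            mul_le_mul hγ1 h2 (by positivity) (by positivity)
        _ = 4 * a ^ 3 * L * (β * q ^ 2) := by ring
    have t5 : (8 * a ^ 2 * L ^ 2 / α + 4 * a ^ 3 * L) * (β * q ^ 2) ≤ k / 2 * (β * q ^ 2) :=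
      mul_le_mul_of_nonneg_right ha5.le (by positivity)
    have t6 : γ * (A (s, β) * p * q + B (s, β) * q ^ 2)
        = γ * (A (s, β) * p * q) + γ * (B (s, β) * q ^ 2) := by ring
    rw [t6]
    linarith

end NS
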