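import Pool.Agent.helper29.NS.SpecE

namespace NS

open MeasureTheory Filter Topology Set

theorem CVM_zero (j : ℕ) (s : ℕ → (ℝ × ℝ × ℝ → ℝ)) (f : ℝ × ℝ × ℝ → ℝ) (h : Cvg j s f) :
    TendstoLocallyUniformly s f atTop := by
  cases j with
  | zero => exact h
  | succ j => exact h.1

theorem CVM_step (k : ℕ) : ∀ (s : ℕ → (ℝ × ℝ × ℝ → ℝ)) (f : ℝ × ℝ × ℝ → ℝ),
    Cvg (k + 1) s f → Cvg k s f := by
  induction k with
  | zero =>
    intro s f h
    exact h.1
  | succ k ih =>
    intro s f h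
    exact ⟨h.1, ih _ _ h.2.1, ih _ _ h.2.2.1, ih _ _ h.2.2.2⟩

theorem CVM : CVM_stmt := by
  intro j
  induction j with
  | zero => intro k s f h; exact h
  | succ j ih =>
    intro k s f h
    exact ih k s f (CVM_step (k + j) s f (by rw [add_assoc]; exact h))

end NS
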