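import Mathlib

/-!
# MP_b9b054_an (project `ns:`): definitions

Space-time points are `(t, (x, y)) : ℝ × ℝ × ℝ`.
-/

namespace NS

open MeasureTheory Filter Topology Set

/-- time derivative -/
noncomputable def dt (f : ℝ × ℝ × ℝ → ℝ) (z : ℝ × ℝ × ℝ) : ℝ := fderiv ℝ f z (1, 0, 0)
/-- `x` derivative -/
noncomputable def dx (f : ℝ × ℝ × ℝ → ℝ) (z : ℝ × ℝ × ℝ) : ℝ := fderiv ℝ f z (0, 1, 0)
/-- `y` derivative -/
noncomputable def dy (f : ℝ × ℝ × ℝ → ℝ) (z : ℝ × ℝ × ℝ) : ℝ := fderiv ℝ f z (0, 0, 1)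

/-- `x` derivative of a function of `(x, y)` -/
noncomputable def px (f : ℝ × ℝ → ℝ) (q : ℝ × ℝ) : ℝ := fderiv ℝ f q (1, 0)
/-- `y` derivative of a function of `(x, y)` -/
noncomputable def py (f : ℝ × ℝ → ℝ) (q : ℝ × ℝ) : ℝ := fderiv ℝ f q (0, 1)

/-- `f` is of class `C^{k,1}` with bound `B`: all derivatives of order `≤ k` are bounded by
`B` and those of order `k` are `B`-Lipschitz. -/
def Cls : ℕ → ℝ → (ℝ × ℝ × ℝ → ℝ) → Prop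
  | 0, B, f => (∀ z, |f z| ≤ B) ∧ ∀ z w, |f z - f w| ≤ B * dist z w
  | k + 1, B, f => (∀ z, |f z| ≤ B) ∧ Differentiable ℝ f ∧
      Cls k B (dt f) ∧ Cls k B (dx f) ∧ Cls k B (dy f)

/-- The point with coordinates `(s, r)` in the orthonormal frame rotated by `θ` with origin `c`. -/
noncomputable def pt (θ : ℝ) (c : ℝ × ℝ) (s r : ℝ) : ℝ × ℝ :=
  (c.1 + s * Real.cos θ - r * Real.sin θ, c.2 + s * Real.sin θ + r * Real.cos θ)

/-- Near `c` the set `Ω` is the region above the graph of the `C²` function `f`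
(in coordinates rotated by `θ`, origin `c`). -/
structure Chart (Ω : Set (ℝ × ℝ)) (c : ℝ × ℝ) (θ δ : ℝ) (f : ℝ → ℝ) : Prop where
  smooth : ContDiff ℝ 2 f
  f0 : f 0 = 0
  pos : 0 < δ
  graph : ∀ s r, |s| < δ → |r| < δ → (pt θ c s r ∈ Ω ↔ f s < r)

/-- `c` is a strictly convex boundary point of `Ω` (the boundary is `C²` near `c` and curved
towards `Ω`, with nonzero curvature at `c`). -/
def ConvexAt (Ω : Set (ℝ × ℝ)) (c : ℝ × ℝ) : Prop :=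
  ∃ (θ δ : ℝ) (f : ℝ → ℝ), Chart Ω c θ δ f ∧ 0 < deriv (deriv f) 0

/-- The velocity `(a, b)` and the pressure `p` solve the Navier–Stokes system with viscosity `ν`
and force `(g, h)` at the times of `J`, with no slip and `∫ p = 0`. -/
structure Sol (Ω : Set (ℝ × ℝ)) (ν : ℝ) (g h : ℝ × ℝ → ℝ) (J : Set ℝ)
    (a b p : ℝ × ℝ × ℝ → ℝ) : Prop where
  mx : ∀ t ∈ J, ∀ q ∈ Ω, dt a (t, q) + a (t, q) * dx a (t, q) + b (t, q) * dy a (t, q) + dx p (t, q)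
    = ν * (dx (dx a) (t, q) + dy (dy a) (t, q)) + g q
  my : ∀ t ∈ J, ∀ q ∈ Ω, dt b (t, q) + a (t, q) * dx b (t, q) + b (t, q) * dy b (t, q) + dy p (t, q)
    = ν * (dx (dx b) (t, q) + dy (dy b) (t, q)) + h q
  dv : ∀ t ∈ J, ∀ q ∈ Ω, dx a (t, q) + dy b (t, q) = 0
  bc : ∀ t ∈ J, ∀ q ∈ frontier Ω, a (t, q) = 0 ∧ b (t, q) = 0
  mn : ∀ t ∈ J, ∫ q in Ω, p (t, q) = 0

/-- The regularity class of the trajectories: velocity `C^{3,1}`, pressure `C^{2,1}`, bound `B`. -/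
structure Reg (B : ℝ) (a b p : ℝ × ℝ × ℝ → ℝ) : Prop where
  ra : Cls 3 B a
  rb : Cls 3 B b
  rp : Cls 2 B p

/-- The set of (classical) stationary velocity fields on `Ω`. -/
def Stat (Ω : Set (ℝ × ℝ)) (ν : ℝ) (g h : ℝ × ℝ → ℝ) : Set (Ω → ℝ × ℝ) :=
  {w | ∃ (B : ℝ) (a b p : ℝ × ℝ × ℝ → ℝ), Reg B a b p ∧ Sol Ω ν g h univ a b p ∧
    ∀ (t : ℝ) (q : Ω), w q = (a (t, (q : ℝ × ℝ)), b (t, (q : ℝ × ℝ)))}

/-- The vorticity of `(g, h)`. -/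
noncomputable def curl (g h : ℝ × ℝ → ℝ) (q : ℝ × ℝ) : ℝ := px h q - py g q

/-- The vorticity of a space-time field. -/
noncomputable def vort (a b : ℝ × ℝ × ℝ → ℝ) (z : ℝ × ℝ × ℝ) : ℝ := dx b z - dy a z

/-- Convergence of a sequence of functions together with all derivatives of order `≤ k`,
locally uniformly. -/
def Cvg : ℕ → (ℕ → (ℝ × ℝ × ℝ → ℝ)) → (ℝ × ℝ × ℝ → ℝ) → Prop
  | 0, s, f => TendstoLocallyUniformly s f atTop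
  | k + 1, s, f => TendstoLocallyUniformly s f atTop ∧ Cvg k (fun n => dt (s n)) (dt f) ∧
      Cvg k (fun n => dx (s n)) (dx f) ∧ Cvg k (fun n => dy (s n)) (dy f)

/-- The equations of the difference `(a, b)` and the mean `(m, n)` of two complete trajectories
with the same pressure. -/
structure DM (Ω : Set (ℝ × ℝ)) (ν : ℝ) (a b m n : ℝ × ℝ × ℝ → ℝ) : Prop where
  ca : ContDiff ℝ 3 a
  cb : ContDiff ℝ 3 b
  cm : ContDiff ℝ 3 m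
  cn : ContDiff ℝ 3 n
  ea : ∀ t, ∀ q ∈ Ω, dt a (t, q) + m (t, q) * dx a (t, q) + n (t, q) * dy a (t, q)
    + a (t, q) * dx m (t, q) + b (t, q) * dy m (t, q) = ν * (dx (dx a) (t, q) + dy (dy a) (t, q))
  eb : ∀ t, ∀ q ∈ Ω, dt b (t, q) + m (t, q) * dx b (t, q) + n (t, q) * dy b (t, q)
    + a (t, q) * dx n (t, q) + b (t, q) * dy n (t, q) = ν * (dx (dx b) (t, q) + dy (dy b) (t, q))
  da : ∀ t, ∀ q ∈ Ω, dx a (t, q) + dy b (t, q) = 0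
  dm : ∀ t, ∀ q ∈ Ω, dx m (t, q) + dy n (t, q) = 0
  tr : ∀ t, ∀ q ∈ Ω, dx m (t, q) * dx a (t, q) + dy m (t, q) * dx b (t, q)
    + dx n (t, q) * dy a (t, q) + dy n (t, q) * dy b (t, q) = 0
  bc : ∀ t, ∀ q ∈ frontier Ω, a (t, q) = 0 ∧ b (t, q) = 0 ∧ m (t, q) = 0 ∧ n (t, q) = 0
  bd : ∃ K : ℝ, ∀ z, |m z| ≤ K ∧ |n z| ≤ K ∧ |dx m z| ≤ K ∧ |dy m z| ≤ K ∧ |dx n z| ≤ K ∧ |dy n z| ≤ K

/-- Euclidean disc. -/
def Dsc (c : ℝ × ℝ) (R : ℝ) : Set (ℝ × ℝ) := {q | (q.1 - c.1) ^ 2 + (q.2 - c.2) ^ 2 < R ^ 2}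

/-- squared distance of the space part to the origin -/
def rh (z : ℝ × ℝ × ℝ) : ℝ := z.2.1 ^ 2 + z.2.2 ^ 2

/-- The Carleman weight. -/
noncomputable def wt (l : ℝ) (z : ℝ × ℝ × ℝ) : ℝ := Real.exp (-(l * rh z)) - z.1 ^ 2

/-- The heat operator. -/
noncomputable def heat (ν : ℝ) (w : ℝ × ℝ × ℝ → ℝ) (z : ℝ × ℝ × ℝ) : ℝ :=
  dt w z - ν * (dx (dx w) z + dy (dy w) z)

/-- The conjugated heat operator `e^{τ φ} (∂ₜ - ν Δ) (e^{-τ φ} W)`, with `φ = wt l`. -/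
noncomputable def conj (ν l τ : ℝ) (W : ℝ × ℝ × ℝ → ℝ) (z : ℝ × ℝ × ℝ) : ℝ :=
  dt W z + 2 * τ * z.1 * W z - ν * (dx (dx W) z + dy (dy W) z)
    + 2 * ν * τ * (-(2 * l * z.2.1 * Real.exp (-(l * rh z))) * dx W z
        - 2 * l * z.2.2 * Real.exp (-(l * rh z)) * dy W z)
    + ν * τ * ((4 * l ^ 2 * rh z - 4 * l) * Real.exp (-(l * rh z))) * W z
    - ν * τ ^ 2 * (4 * l ^ 2 * rh z * Real.exp (-(l * rh z)) ^ 2) * W z

variable {Y : Type*} [MetricSpace Y]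

/-- `C` is a set of continuous curves, sequentially compact for locally uniform convergence. -/
def SeqC (C : Set (ℝ → Y)) : Prop :=
  (∀ γ ∈ C, Continuous γ) ∧ ∀ s : ℕ → (ℝ → Y), (∀ k, s k ∈ C) →
    ∃ γ ∈ C, ∃ φ : ℕ → ℕ, StrictMono φ ∧ TendstoLocallyUniformly (fun k => s (φ k)) γ atTop

/-- The sets of pairs of curves used in the Baire argument. -/
def WP (C D : Set (ℝ → Y)) (α β : ℝ) (y z : Y) (r η : ℝ) : Set ((ℝ → Y) × (ℝ → Y)) :=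
  {π | π.1 ∈ C ∧ π.2 ∈ D ∧ (∀ t ∈ Icc α β, dist (π.1 t) y ≤ r) ∧
    (∀ t ∈ Icc α β, 2 * r ≤ dist (π.2 t) y) ∧
    ∃ t ∈ Icc α β, ∃ t' ∈ Icc α β, η ≤ |dist (π.1 t) z - dist (π.1 t') z|}

end NS
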