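import Pool.Agent.helper29.NS.Spec2

/-!
# MP_b9b054_an (project `ns:`), part C (domains whose outer boundary is a circle): definitions
-/

namespace NS

open MeasureTheory Filter Topology Set

/-- Open annulus (centre `0`). -/
def Ring (r R : ℝ) : Set (ℝ × ℝ) := {q | r ^ 2 < q.1 ^ 2 + q.2 ^ 2 ∧ q.1 ^ 2 + q.2 ^ 2 < R ^ 2}

/-- Circle (centre `0`). -/
def Circ (R : ℝ) : Set (ℝ × ℝ) := {q | q.1 ^ 2 + q.2 ^ 2 = R ^ 2}

/-- The outer boundary of `Ω` is the circle `|q| = R`: `Ω` lies inside and contains an annulus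
`r < |q| < R`. -/
structure OuterCircle (Ω : Set (ℝ × ℝ)) (R : ℝ) : Prop where
  pos : 0 < R
  ins : ∀ q ∈ Ω, q.1 ^ 2 + q.2 ^ 2 < R ^ 2
  ring : ∃ r, 0 ≤ r ∧ r < R ∧ Ring r R ⊆ Ω

/-- Rotation of the plane. -/
noncomputable def rot (α : ℝ) (q : ℝ × ℝ) : ℝ × ℝ :=
  (Real.cos α * q.1 - Real.sin α * q.2, Real.sin α * q.1 + Real.cos α * q.2)

/-- Rotated scalar function. -/
noncomputable def rs (α : ℝ) (f : ℝ × ℝ × ℝ → ℝ) (z : ℝ × ℝ × ℝ) : ℝ := f (z.1, rot (-α) z.2)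

/-- Rotated vector field `(a, b)`, first component. -/
noncomputable def rfa (α : ℝ) (a b : ℝ × ℝ × ℝ → ℝ) (z : ℝ × ℝ × ℝ) : ℝ :=
  Real.cos α * a (z.1, rot (-α) z.2) - Real.sin α * b (z.1, rot (-α) z.2)

/-- Rotated vector field `(a, b)`, second component. -/
noncomputable def rfb (α : ℝ) (a b : ℝ × ℝ × ℝ → ℝ) (z : ℝ × ℝ × ℝ) : ℝ :=
  Real.sin α * a (z.1, rot (-α) z.2) + Real.cos α * b (z.1, rot (-α) z.2)

/-- The vector field `(a, b)` is rotation invariant on `O` at the times of `I`. -/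
def RI (I : Set ℝ) (O : Set (ℝ × ℝ)) (a b : ℝ × ℝ × ℝ → ℝ) : Prop :=
  ∀ α : ℝ, ∀ t ∈ I, ∀ q ∈ O, rfa α a b (t, q) = a (t, q) ∧ rfb α a b (t, q) = b (t, q)

/-- The Laplacian in the space variables. -/
noncomputable def lap (w : ℝ × ℝ × ℝ → ℝ) (z : ℝ × ℝ × ℝ) : ℝ := dx (dx w) z + dy (dy w) z

/-- The sum of the absolute values of three functions and their space derivatives. -/
noncomputable def XX (v w ζ : ℝ × ℝ × ℝ → ℝ) (z : ℝ × ℝ × ℝ) : ℝ :=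
  |v z| + |w z| + |ζ z| + |dx v z| + |dy v z| + |dx w z| + |dy w z| + |dx ζ z| + |dy ζ z|

/-- The vorticity equation of the field `(a, b)` in `Ω` at all times, with forcing `G`. -/
def VEq (Ω : Set (ℝ × ℝ)) (ν : ℝ) (G : ℝ × ℝ → ℝ) (a b : ℝ × ℝ × ℝ → ℝ) : Prop :=
  ∀ t, ∀ q ∈ Ω, G q = dt (vort a b) (t, q) + a (t, q) * dx (vort a b) (t, q)
    + b (t, q) * dy (vort a b) (t, q) - ν * lap (vort a b) (t, q)

/-- The situation of part C: two velocity fields with the same pressure, written `(a1, b1)`,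
`(a2, b2)`, with difference `(a, b)` and mean `(m, n)`; the difference does not vanish identically
at any time `t ≤ t1`. -/
structure CD (Ω : Set (ℝ × ℝ)) (ν R t1 : ℝ) (G : ℝ × ℝ → ℝ)
    (a1 b1 a2 b2 a b m n : ℝ × ℝ × ℝ → ℝ) : Prop where
  nu : 0 < ν
  op : IsOpen Ω
  con : IsConnected Ω
  oc : OuterCircle Ω R
  gc : Continuous G
  ha : a = fun z => a1 z - a2 z
  hb : b = fun z => b1 z - b2 z
  hm : m = fun z => (a1 z + a2 z) / 2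
  hn : n = fun z => (b1 z + b2 z) / 2
  ca1 : ContDiff ℝ 3 a1
  cb1 : ContDiff ℝ 3 b1
  ca2 : ContDiff ℝ 3 a2
  cb2 : ContDiff ℝ 3 b2
  dmm : DM Ω ν a b m n
  v1 : VEq Ω ν G a1 b1
  v2 : VEq Ω ν G a2 b2
  d1 : ∀ t, ∀ q ∈ Ω, dx a1 (t, q) + dy b1 (t, q) = 0
  d2 : ∀ t, ∀ q ∈ Ω, dx a2 (t, q) + dy b2 (t, q) = 0
  z1 : ∀ t, ∀ q ∈ frontier Ω, a1 (t, q) = 0 ∧ b1 (t, q) = 0
  z2 : ∀ t, ∀ q ∈ frontier Ω, a2 (t, q) = 0 ∧ b2 (t, q) = 0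
  bd : ∃ K : ℝ, ∀ z, |a1 z| ≤ K ∧ |b1 z| ≤ K ∧ |a2 z| ≤ K ∧ |b2 z| ≤ K ∧
    |dx (vort a1 b1) z| ≤ K ∧ |dy (vort a1 b1) z| ≤ K ∧
    |dx (vort a2 b2) z| ≤ K ∧ |dy (vort a2 b2) z| ≤ K ∧ |dx b z| ≤ K
  nz : ∀ t ≤ t1, ∃ q ∈ Ω, ¬ (a (t, q) = 0 ∧ b (t, q) = 0)

/-- The annulus `ρ < |q| < R` has been swept: it lies in `Ω`, and for all `t < t1` the mean vanishes
there and the difference is rotation invariant. -/
def Swept (Ω : Set (ℝ × ℝ)) (R t1 ρ : ℝ) (a b m n : ℝ × ℝ × ℝ → ℝ) : Prop :=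
  Ring ρ R ⊆ Ω ∧ (∀ t < t1, ∀ q ∈ Ring ρ R, m (t, q) = 0 ∧ n (t, q) = 0) ∧
    RI (Iio t1) (Ring ρ R) a b

/-- Point with log-polar coordinates `(θ, s)`: `e^s (cos θ, sin θ)`. -/
noncomputable def lp (z : ℝ × ℝ) : ℝ × ℝ := (Real.exp z.2 * Real.cos z.1, Real.exp z.2 * Real.sin z.1)

/-- `D²φ(e_r, e_r)` in log-polar coordinates, for `(a, b) = (-φ_y, φ_x)`. -/
noncomputable def lA (a b : ℝ × ℝ → ℝ) (z : ℝ × ℝ) : ℝ :=
  Real.cos z.1 ^ 2 * px b (lp z) + Real.cos z.1 * Real.sin z.1 * (py b (lp z) - px a (lp z))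
    - Real.sin z.1 ^ 2 * py a (lp z)
/-- `-D²φ(e_r, e_θ)`. -/
noncomputable def lB (a b : ℝ × ℝ → ℝ) (z : ℝ × ℝ) : ℝ :=
  Real.cos z.1 * Real.sin z.1 * px b (lp z) - Real.cos z.1 ^ 2 * py b (lp z)
    - Real.sin z.1 ^ 2 * px a (lp z) + Real.cos z.1 * Real.sin z.1 * py a (lp z)
/-- `D²φ(e_θ, e_θ)`. -/
noncomputable def lC (a b : ℝ × ℝ → ℝ) (z : ℝ × ℝ) : ℝ :=
  Real.sin z.1 ^ 2 * px b (lp z) - Real.cos z.1 * Real.sin z.1 * (py b (lp z) - px a (lp z))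
    - Real.cos z.1 ^ 2 * py a (lp z)
/-- `∂ψ/∂θ` for `(m, n) = (-ψ_y, ψ_x)`. -/
noncomputable def lP (m n : ℝ × ℝ → ℝ) (z : ℝ × ℝ) : ℝ :=
  -(Real.exp z.2 * (m (lp z) * Real.cos z.1 + n (lp z) * Real.sin z.1))
/-- `∂ψ/∂s`. -/
noncomputable def lQ (m n : ℝ × ℝ → ℝ) (z : ℝ × ℝ) : ℝ :=
  Real.exp z.2 * (n (lp z) * Real.cos z.1 - m (lp z) * Real.sin z.1)

end NS
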