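import Pool.Agent.helper29.NS.Spec2

namespace NS

open MeasureTheory Filter Topology Set

theorem EN_px (F : ℝ × ℝ → ℝ) (hF : ContDiff ℝ 1 F) : Continuous (px F) := by
  unfold px
  exact (hF.continuous_fderiv (by norm_num)).clm_apply continuous_const

theorem EN_py (F : ℝ × ℝ → ℝ) (hF : ContDiff ℝ 1 F) : Continuous (py F) := by
  unfold py
  exact (hF.continuous_fderiv (by norm_num)).clm_apply continuous_const

theorem EN (hRG : RG_stmt) (hDJ : DJ_stmt) (hCI : CI_stmt) : EN_stmt := by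
  intro P Q A B C δ hδ hP hQ hA hB hC heq1 heq2 hP0 h0 hA0 hC0
  obtain ⟨K, a, c, ha, hc, haδ, ha4, hq1, hq2⟩ := hCI A B C δ hδ hA hB hC h0 hA0 hC0
  obtain ⟨J1, hJ1⟩ : ∃ J1 : ℝ × ℝ → ℝ, J1 = fun z => Real.exp (-(K * z.2)) *
    (Q z * (A z * P z + B z * Q z)) := ⟨_, rfl⟩
  obtain ⟨J2, hJ2⟩ : ∃ J2 : ℝ × ℝ → ℝ, J2 = fun z => Real.exp (-(K * z.2)) *
    ((C z * Q z ^ 2 - A z * P z ^ 2) / 2) := ⟨_, rfl⟩
  have hE : ContDiff ℝ 1 (fun z : ℝ × ℝ => Real.exp (-(K * z.2))) :=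
    Real.contDiff_exp.comp (by fun_prop)
  have hc1 : ContDiff ℝ 1 J1 := by
    rw [hJ1]; exact hE.mul (hQ.mul ((hA.mul hP).add (hB.mul hQ)))
  have hc2 : ContDiff ℝ 1 J2 := by
    rw [hJ2]; exact hE.mul (((hC.mul (hQ.pow 2)).sub (hA.mul (hP.pow 2))).div_const 2)
  have hrg := hRG J1 J2 a hc1 hc2 ha
  have hDc : Continuous (fun z => px J1 z + py J2 z) := (EN_px J1 hc1).add (EN_py J2 hc2)
  -- bounds for the region
  have hβ : ∀ s : ℝ, |s| ≤ a → 0 ≤ (a ^ 2 - s ^ 2) ^ 2 ∧ (a ^ 2 - s ^ 2) ^ 2 ≤ a ^ 4 := by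
    intro s hs
    have hs2 : s ^ 2 ≤ a ^ 2 := by
      rw [← sq_abs s]; exact pow_le_pow_left₀ (abs_nonneg s) hs 2
    refine ⟨sq_nonneg _, ?_⟩
    have h1 : 0 ≤ a ^ 2 - s ^ 2 := by linarith
    have h2 : a ^ 2 - s ^ 2 ≤ a ^ 2 := by nlinarith [sq_nonneg s]
    calc (a ^ 2 - s ^ 2) ^ 2 ≤ (a ^ 2) ^ 2 := pow_le_pow_left₀ h1 h2 2
      _ = a ^ 4 := by ring
  -- the divergence is nonpositive
  have hdiv : ∀ s r : ℝ, |s| ≤ a → 0 < r → r ≤ a ^ 4 → px J1 (s, r) + py J2 (s, r)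
      ≤ -(Real.exp (-(K * r)) * (c * (P (s, r) ^ 2 + Q (s, r) ^ 2))) := by
    intro s r hs hr hr'
    have e1 := heq1 s r (lt_of_le_of_lt hs haδ) hr (by linarith)
    have e2 := heq2 s r (lt_of_le_of_lt hs haδ) hr (by linarith)
    have e3 := hDJ P Q A B C K s r hP hQ hA hB hC e1 e2
    rw [hJ1, hJ2, e3]
    have e4 := hq1 s r (P (s, r)) (Q (s, r)) hs hr.le hr'
    have e5 := mul_le_mul_of_nonneg_left e4 (Real.exp_pos (-(K * r))).le
    linarith
  -- the inner integrals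
  have hin : ∀ s : ℝ, |s| ≤ a →
      ∫ r in (0 : ℝ)..(a ^ 2 - s ^ 2) ^ 2, (px J1 (s, r) + py J2 (s, r)) ≤ 0 := by
    intro s hs
    have h1 : 0 ≤ ∫ r in (0 : ℝ)..(a ^ 2 - s ^ 2) ^ 2, -(px J1 (s, r) + py J2 (s, r)) := by
      apply intervalIntegral.integral_nonneg_of_ae_restrict (hβ s hs).1
      have hne : ∀ᵐ r ∂(volume.restrict (Icc (0 : ℝ) ((a ^ 2 - s ^ 2) ^ 2))), r ≠ 0 := by
        apply ae_restrict_of_ae
        have : (volume : Measure ℝ) {(0 : ℝ)} = 0 := measure_singleton 0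
        exact Filter.mem_of_superset (compl_mem_ae_iff.2 this) (fun x hx => hx)
      filter_upwards [hne, ae_restrict_mem measurableSet_Icc] with r hr0 hr
      have := hdiv s r hs (lt_of_le_of_ne hr.1 (Ne.symm hr0)) (hr.2.trans (hβ s hs).2)
      have h2 : 0 ≤ Real.exp (-(K * r)) * (c * (P (s, r) ^ 2 + Q (s, r) ^ 2)) := by positivity
      simp only [Pi.zero_apply]
      linarith
    rw [intervalIntegral.integral_neg] at h1
    linarith
  -- the boundary terms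
  have hbd2 : ∫ s in (-a)..a, J2 (s, 0) = 0 := by
    have : ∀ s ∈ uIcc (-a) a, J2 (s, 0) = 0 := by
      intro s hs
      rw [uIcc_of_le (by linarith)] at hs
      have hs' : |s| < δ := lt_of_le_of_lt (abs_le.2 hs) haδ
      rw [hJ2]
      simp [hP0 s hs', (h0 s hs').2]
    rw [intervalIntegral.integral_congr this]
    simp
  have hbd1 : 0 ≤ ∫ s in (-a)..a, (J2 (s, (a ^ 2 - s ^ 2) ^ 2)
        - (-4 * s * (a ^ 2 - s ^ 2)) * J1 (s, (a ^ 2 - s ^ 2) ^ 2)) := by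
    apply intervalIntegral.integral_nonneg (by linarith)
    intro s hs
    have e1 := hq2 s (P (s, (a ^ 2 - s ^ 2) ^ 2)) (Q (s, (a ^ 2 - s ^ 2) ^ 2)) (abs_le.2 hs)
    have e2 := mul_nonneg (Real.exp_pos (-(K * (a ^ 2 - s ^ 2) ^ 2))).le e1
    rw [hJ1, hJ2]
    simp only
    refine e2.trans_eq ?_
    ring
  rw [hbd2, sub_zero] at hrg
  -- so the double integral vanishes
  have hcont : Continuous (fun s : ℝ => ∫ r in (0 : ℝ)..(a ^ 2 - s ^ 2) ^ 2,
      (px J1 (s, r) + py J2 (s, r))) := by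
    apply intervalIntegral.continuous_parametric_intervalIntegral_of_continuous
      (f := fun s r => px J1 (s, r) + py J2 (s, r))
    · exact hDc
    · fun_prop
  have hzero : ∀ s ∈ Ioo (-a) a, ∫ r in (0 : ℝ)..(a ^ 2 - s ^ 2) ^ 2,
      (px J1 (s, r) + py J2 (s, r)) = 0 := by
    by_contra hcon
    push Not at hcon
    obtain ⟨s0, hs0, hne⟩ := hcon
    have hlt : ∫ s in (-a)..a, (∫ r in (0 : ℝ)..(a ^ 2 - s ^ 2) ^ 2,
      (px J1 (s, r) + py J2 (s, r))) < ∫ s in (-a)..a, (0 : ℝ) := by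
      apply intervalIntegral.integral_lt_integral_of_continuousOn_of_le_of_exists_lt (by linarith)
        hcont.continuousOn continuousOn_const
      · intro s hs
        exact hin s (abs_le.2 ⟨hs.1.le, hs.2⟩)
      · exact ⟨s0, ⟨hs0.1.le, hs0.2.le⟩, lt_of_le_of_ne
          (hin s0 (abs_le.2 ⟨hs0.1.le, hs0.2.le⟩)) hne⟩
    rw [hrg] at hlt
    simp only [intervalIntegral.integral_zero] at hlt
    linarith
  -- hence `P = Q = 0` in the region
  have hreg : ∀ s r : ℝ, |s| < a → 0 < r → r < (a ^ 2 - s ^ 2) ^ 2 →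
      P (s, r) = 0 ∧ Q (s, r) = 0 := by
    intro s r hs hr hr'
    by_contra hcon
    have hs' := abs_lt.1 hs
    have h1 := hzero s ⟨hs'.1, hs'.2⟩
    have hpos : 0 < P (s, r) ^ 2 + Q (s, r) ^ 2 := by
      by_contra hle
      push Not at hle
      have p1 := sq_nonneg (P (s, r)); have p2 := sq_nonneg (Q (s, r))
      exact hcon ⟨pow_eq_zero_iff (two_ne_zero) |>.1 (le_antisymm (by linarith) p1),
        pow_eq_zero_iff (two_ne_zero) |>.1 (le_antisymm (by linarith) p2)⟩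
    have hlt : ∫ r in (0 : ℝ)..(a ^ 2 - s ^ 2) ^ 2, (px J1 (s, r) + py J2 (s, r))
        < ∫ r in (0 : ℝ)..(a ^ 2 - s ^ 2) ^ 2, (0 : ℝ) := by
      apply intervalIntegral.integral_lt_integral_of_continuousOn_of_le_of_exists_lt (by linarith)
        (hDc.comp (by fun_prop : Continuous fun r : ℝ => ((s, r) : ℝ × ℝ))).continuousOn
        continuousOn_const
      · intro x hx
        have := hdiv s x hs.le hx.1 (hx.2.trans (hβ s hs.le).2)
        have h2 : 0 ≤ Real.exp (-(K * x)) * (c * (P (s, x) ^ 2 + Q (s, x) ^ 2)) := by positivity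
        simp only [Function.comp]
        linarith
      · refine ⟨r, ⟨hr.le, hr'.le⟩, ?_⟩
        have := hdiv s r hs.le hr (hr'.le.trans (hβ s hs.le).2)
        have h2 : 0 < Real.exp (-(K * r)) * (c * (P (s, r) ^ 2 + Q (s, r) ^ 2)) := by positivity
        simp only [Function.comp]
        linarith
    rw [h1] at hlt
    simp at hlt
  refine ⟨min (a / 2) ((3 / 4 * a ^ 2) ^ 2), by positivity, ?_⟩
  intro s r hs hr hr'
  have hs1 : |s| < a / 2 := lt_of_lt_of_le hs (min_le_left _ _)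
  have hs2 : s ^ 2 ≤ (a / 2) ^ 2 := by
    rw [← sq_abs s]; exact pow_le_pow_left₀ (abs_nonneg s) hs1.le 2
  apply hreg s r (by linarith) hr
  refine lt_of_lt_of_le (lt_of_lt_of_le hr' (min_le_right _ _)) ?_
  apply pow_le_pow_left₀ (by positivity)
  nlinarith

end NS
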