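import Pool.Agent.helper29.NS.SpecE
import Pool.Agent.helper46.NS.CH

namespace NS

open MeasureTheory Filter Topology Set

theorem FH : FH_stmt := by
  intro Ω c θ δ f hΩ hC
  have hfc : Continuous f := hC.smooth.continuous
  have hδ := hC.pos
  have e1 : ∀ᶠ s in 𝓝 (0 : ℝ), |f s| < δ / 2 := by
    have : ContinuousAt (fun s => |f s|) 0 := (continuous_abs.comp hfc).continuousAt
    refine this.eventually_lt continuousAt_const ?_
    simp only [hC.f0, abs_zero]
    positivity
  obtain ⟨η₀, hη₀, hball⟩ := Metric.eventually_nhds_iff.1 e1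
  set η := min η₀ (δ / 2) with hη
  have hηpos : 0 < η := lt_min hη₀ (by positivity)
  have hprop : ∀ s, |s| < η → |f s| < δ / 2 := by
    intro s hs
    exact hball (by rw [Real.dist_eq, sub_zero]; exact hs.trans_le (min_le_left _ _))
  have hηδ : η ≤ δ / 2 := min_le_right _ _
  refine ⟨η, hηpos, ?_, ?_⟩
  · refine ⟨{q | |CH_S θ c q| < η ∧ |CH_R θ c q| < δ}, ?_, ?_⟩
    · have ho : IsOpen {q | |CH_S θ c q| < η ∧ |CH_R θ c q| < δ} :=
        (isOpen_lt (continuous_abs.comp (CH_Sc θ c)) continuous_const).inter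
          (isOpen_lt (continuous_abs.comp (CH_Rc θ c)) continuous_const)
      refine ho.mem_nhds ⟨?_, ?_⟩
      · simpa [CH_S] using hηpos
      · simpa [CH_R] using hδ
    · rintro q ⟨hq, hqS, hqR⟩
      refine ⟨CH_S θ c q, hqS, ?_⟩
      have hqc : q ∈ closure Ω := frontier_subset_closure hq
      have hqn : q ∉ Ω := by
        rw [hΩ.frontier_eq] at hq
        exact hq.2
      have hSδ : |CH_S θ c q| < δ := by linarith
      have h1 : ¬ f (CH_S θ c q) < CH_R θ c q := by
        intro h
        apply hqn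
        have := (hC.graph _ _ hSδ hqR).2 h
        rwa [CH_pt] at this
      have h2 : ¬ CH_R θ c q < f (CH_S θ c q) := by
        intro h
        set W : Set (ℝ × ℝ) := {q | (|CH_S θ c q| < δ ∧ |CH_R θ c q| < δ) ∧ CH_R θ c q < f (CH_S θ c q)}
        have hW : IsOpen W := by
          refine ((isOpen_lt (continuous_abs.comp (CH_Sc θ c)) continuous_const).inter
            (isOpen_lt (continuous_abs.comp (CH_Rc θ c)) continuous_const)).inter ?_
          exact isOpen_lt (CH_Rc θ c) (hfc.comp (CH_Sc θ c))
        have hqW : q ∈ W := ⟨⟨hSδ, hqR⟩, h⟩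
        obtain ⟨y, hyW, hyΩ⟩ := mem_closure_iff.1 hqc W hW hqW
        obtain ⟨⟨y1, y2⟩, y3⟩ := hyW
        have := (hC.graph _ _ y1 y2).1 (by rw [CH_pt]; exact hyΩ)
        linarith
      have h3 : CH_R θ c q = f (CH_S θ c q) := le_antisymm (not_lt.1 h1) (not_lt.1 h2)
      rw [← h3, CH_pt]
  · intro s hs
    have hs1 := hprop s hs
    have hsδ : |s| < δ / 2 := hs.trans_le hηδ
    rw [hΩ.frontier_eq]
    constructor
    · have ht : Tendsto (fun e : ℝ => pt θ c s (f s + e)) (𝓝[>] 0) (𝓝 (pt θ c s (f s))) := by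
        have hcont : Continuous (fun e : ℝ => pt θ c s (f s + e)) := by
          unfold pt
          fun_prop
        have := hcont.tendsto 0
        simp only [add_zero] at this
        exact this.mono_left nhdsWithin_le_nhds
      refine mem_closure_of_tendsto ht ?_
      have hlt : ∀ᶠ e : ℝ in 𝓝[>] 0, e < δ / 2 :=
        nhdsWithin_le_nhds (Iio_mem_nhds (by positivity))
      filter_upwards [self_mem_nhdsWithin, hlt] with e he he2
      have he0 : 0 < e := he
      refine (hC.graph s (f s + e) (by linarith) ?_).2 (by linarith)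
      rw [abs_lt] at hs1 ⊢
      constructor <;> linarith [hs1.1, hs1.2]
    · intro hmem
      have := (hC.graph s (f s) (by linarith) (by linarith)).1 hmem
      exact lt_irrefl _ this

end NS
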