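import Pool.Agent.helper29.NS.SpecE
import Pool.Agent.helper93.NS.FS

namespace NS

open MeasureTheory Filter Topology Set

theorem FSN (hSL : SL_stmt) (hCR : CR_stmt) (hST : ST_stmt) (hP3 : P3_stmt) (hCT : CT_stmt)
    (hRM : RM_stmt) : FSN_stmt := by
  intro K Ω ν g h hO hc hb hG hfin
  classical
  have key : ∀ y : Lp ℝ 2 (volume.restrict Ω), (∃ n, (fun _ : ℝ => y) ∈ PCurvesN K Ω ν g h n) →
      ∃ (B : ℝ) (a b p : ℝ × ℝ × ℝ → ℝ), Reg B a b p ∧ Sol Ω ν g h univ a b p ∧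
        (∀ t, y =ᵐ[volume.restrict Ω] fun q => p (t, q)) ∧
        ∀ t, ∀ q ∈ Ω, a (t, q) = a (0, q) ∧ b (t, q) = b (0, q) := by
    rintro y ⟨n, -, a, b, p, hR, hS, hy⟩
    have hR0 : Reg (3 ^ K * n) a b p := hRM.2 K n a b p hR
    refine ⟨3 ^ K * n, a, b, p, hR0, hS, hy, ?_⟩
    have hcp : Continuous p := (hCR 2 _ p hR0.rp).continuous
    have hpp : ∀ t t', ∀ q ∈ Ω, p (t, q) = p (t', q) := by
      intro t t' q hq
      exact hP3 Ω hO (fun q => p (t, q)) (fun q => p (t', q))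
        (hcp.comp (Continuous.prodMk_right t)) (hcp.comp (Continuous.prodMk_right t'))
        ((hy t).symm.trans (hy t')) q hq
    intro t q hq
    obtain ⟨-, hS'⟩ := hST Ω ν g h univ univ t _ a b p hR0 hS (fun _ _ => mem_univ _)
    have hR' : RegN K n (fun z => a (z.1 + t, z.2)) (fun z => b (z.1 + t, z.2))
        (fun z => p (z.1 + t, z.2)) :=
      ⟨(hCT t a).2 _ _ hR.ra, (hCT t b).2 _ _ hR.rb, (hCT t p).2 _ _ hR.rp⟩
    have := hG n _ _ _ a b p hR' hR hS' hS (fun s q hq => hpp _ _ q hq) 0 q hq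
    simpa using this
  choose! B a b p hR hS hy hst using key
  refine Set.Finite.of_injOn (f := fun y (q : Ω) => (a y (0, (q : ℝ × ℝ)), b y (0, (q : ℝ × ℝ))))
    (t := Stat Ω ν g h) ?_ ?_ hfin
  · intro y hyS
    refine ⟨B y, a y, b y, p y, hR y hyS, hS y hyS, ?_⟩
    intro t q
    have := hst y hyS t q q.2
    rw [this.1, this.2]
  · intro y hyS y' hyS' hyy
    have hv : ∀ t, ∀ q ∈ Ω, a y (t, q) = a y' (t, q) ∧ b y (t, q) = b y' (t, q) := by
      intro t q hq
      have h1 := congrFun hyy ⟨q, hq⟩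
      simp only [Prod.mk.injEq] at h1
      rw [(hst y hyS t q hq).1, (hst y hyS t q hq).2, (hst y' hyS' t q hq).1,
        (hst y' hyS' t q hq).2]
      exact h1
    have hp := FS_press hSL hCR hO hc hb (hR y hyS) (hR y' hyS') (hS y hyS) (hS y' hyS') hv
    apply Lp.ext
    refine (hy y hyS 0).trans (EventuallyEq.trans ?_ (hy y' hyS' 0).symm)
    filter_upwards [ae_restrict_mem hO.measurableSet] with q hq
    exact hp 0 q hq

end NS
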