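import Pool.Agent.helper29.NS.Spec2

namespace NS

open MeasureTheory Filter Topology Set

theorem GG (hDE : DE_stmt) (hDT : DT_stmt) (hVA : VA_stmt) (hNC : NC_stmt) (hAL : AL_stmt)
    (hBZ : BZ_stmt) (hCH : CH_stmt) (hHZ : HZ_stmt) (hUB : UB_stmt) (hUI : UI_stmt)
    (hSL : SL_stmt) (hCR : CR_stmt) (hSM : SM_stmt) : GG_stmt := by
  intro Ω ν B g h c a1 b1 p1 a2 b2 p2 hO hC hν hg hh hcx hne hR1 hR2 hS1 hS2 hp
  have h31 : ContDiff ℝ 3 a1 := hCR 3 B a1 hR1.ra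
  have h32 : ContDiff ℝ 3 b1 := hCR 3 B b1 hR1.rb
  have h33 : ContDiff ℝ 3 a2 := hCR 3 B a2 hR2.ra
  have h34 : ContDiff ℝ 3 b2 := hCR 3 B b2 hR2.rb
  obtain ⟨a, ha⟩ : ∃ a : ℝ × ℝ × ℝ → ℝ, a = fun z => a1 z - a2 z := ⟨_, rfl⟩
  obtain ⟨b, hb⟩ : ∃ b : ℝ × ℝ × ℝ → ℝ, b = fun z => b1 z - b2 z := ⟨_, rfl⟩
  obtain ⟨m, hm⟩ : ∃ m : ℝ × ℝ × ℝ → ℝ, m = fun z => (a1 z + a2 z) / 2 := ⟨_, rfl⟩
  obtain ⟨n, hn⟩ : ∃ n : ℝ × ℝ × ℝ → ℝ, n = fun z => (b1 z + b2 z) / 2 := ⟨_, rfl⟩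
  have ca : ContDiff ℝ 3 a := by rw [ha]; exact h31.sub h33
  have cb : ContDiff ℝ 3 b := by rw [hb]; exact h32.sub h34
  have cm : ContDiff ℝ 3 m := by rw [hm]; exact (h31.add h33).div_const 2
  have cn : ContDiff ℝ 3 n := by rw [hn]; exact (h32.add h34).div_const 2
  obtain ⟨ea, eb, da, dm, bc, bd⟩ := hDE Ω ν B g h a1 b1 p1 a2 b2 p2 hO hR1 hR2 hS1 hS2 hp
    a b m n ha hb hm hn
  have tr := hDT Ω ν a b m n hO ca cb cm cn ea eb da dm
  have hDM : DM Ω ν a b m n := ⟨ca, cb, cm, cn, ea, eb, da, dm, tr, bc, bd⟩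
  have hVA' := hVA Ω ν B g h a1 b1 p1 a2 b2 p2 hO (hg.of_le (by norm_num)) (hh.of_le (by norm_num))
    hR1 hR2 hS1 hS2 a b m n ha hb hm hn
  have hcurl : ContDiff ℝ 1 (curl g h) := by
    have e1 : ContDiff ℝ 1 (px h) := by
      unfold px; exact (hh.fderiv_right (m := 1) (by norm_num)).clm_apply contDiff_const
    have e2 : ContDiff ℝ 1 (py g) := by
      unfold py; exact (hg.fderiv_right (m := 1) (by norm_num)).clm_apply contDiff_const
    unfold curl
    exact e1.sub e2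
  -- the slices
  have hsl : ∀ (f : ℝ × ℝ × ℝ → ℝ) (t : ℝ), ContDiff ℝ 3 f → ContDiff ℝ 2 (fun q => f (t, q)) :=
    fun f t hf => (hf.comp (contDiff_const.prodMk contDiff_id)).of_le (by norm_num)
  have hpx : ∀ (f : ℝ × ℝ × ℝ → ℝ) (t : ℝ) (q : ℝ × ℝ), ContDiff ℝ 3 f →
      px (fun q => f (t, q)) q = dx f (t, q) ∧ py (fun q => f (t, q)) q = dy f (t, q) := by
    intro f t q hf
    have := hSL f t q ((hf.differentiable (by norm_num)) _)
    exact ⟨this.1, this.2.1⟩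
  obtain ⟨θ, δ, f, hch, hf2⟩ := hcx
  obtain ⟨η, hη, ⟨V, hV, hVf⟩, hVc⟩ := hCH Ω c θ δ f hO hch hf2
  -- the good neighbourhood
  have hgood : {q : ℝ × ℝ | curl g h q ≠ 0 ∨ fderiv ℝ (curl g h) q ≠ 0} ∈ 𝓝 c := by
    have o1 : IsOpen {q : ℝ × ℝ | curl g h q ≠ 0} :=
      isOpen_ne_fun hcurl.continuous continuous_const
    have o2 : IsOpen {q : ℝ × ℝ | fderiv ℝ (curl g h) q ≠ 0} :=
      isOpen_ne_fun (hcurl.continuous_fderiv (by norm_num)) continuous_const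
    exact (o1.union o2).mem_nhds hne
  have hvort : ∀ t, ∀ q ∈ frontier Ω ∩ (V ∩ {q : ℝ × ℝ | curl g h q ≠ 0 ∨
      fderiv ℝ (curl g h) q ≠ 0}), vort a b (t, q) = 0 := by
    intro t0 q hq
    by_contra hv
    obtain ⟨s, hs, hqs⟩ := hVf q ⟨hq.1, hq.2.1⟩
    obtain ⟨-, hcq⟩ := hVc s hs
    rw [← hqs] at hcq
    have hvc : Continuous (vort a b) := by
      have e1 := (hSM 2 b cb).2.1
      have e2 := (hSM 2 a ca).2.2.1
      unfold vort
      exact e1.continuous.sub e2.continuous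
    have hev : ∀ᶠ t in 𝓝 t0, vort a b (t, q) ≠ 0 := by
      have : Continuous (fun t : ℝ => vort a b (t, q)) := hvc.comp (by fun_prop)
      exact this.continuousAt.eventually_ne hv
    obtain ⟨ε, hε, hεv⟩ := Metric.eventually_nhds_iff.1 hev
    have key := hBZ Ω ν g h a b m n q t0 ε hO hg hh ca cb cm cn (frontier_subset_closure hq.1) hε
      hVA' ?_ (bc t0 q hq.1).1 (bc t0 q hq.1).2.1 (hNC Ω ν a b m n hO hν.ne' hDM t0 q hq.1).1
      (hNC Ω ν a b m n hO hν.ne' hDM t0 q hq.1).2.1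
    · rcases hq.2.2 with h1 | h1
      · exact h1 key.1
      · exact h1 key.2
    · intro t ht
      have hvt : vort a b (t, q) ≠ 0 := hεv (by rw [Real.dist_eq]; exact ht)
      refine hAL Ω q hO hcq (fun q => a (t, q)) (fun q => b (t, q)) (fun q => m (t, q))
        (fun q => n (t, q)) (hsl a t ca) (hsl b t cb) (hsl m t cm) (hsl n t cn) ?_ ?_ ?_
      · intro q' hq'
        rw [(hpx a t q' ca).1, (hpx a t q' ca).2, (hpx b t q' cb).1, (hpx b t q' cb).2,
          (hpx m t q' cm).1, (hpx m t q' cm).2, (hpx n t q' cn).1, (hpx n t q' cn).2]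
        exact ⟨da t q' hq', dm t q' hq', tr t q' hq'⟩
      · intro q' hq'
        exact bc t q' hq'
      · rw [(hpx b t q cb).1, (hpx a t q ca).2]
        exact hvt
  obtain hHZ' := hHZ Ω ν a b m n c θ δ f hO hν.ne' hDM hch hf2 _ (inter_mem hV hgood) hvort
  obtain ⟨U, hU1, hU2, hU3, hU4⟩ := hUB Ω ν a b m n c θ δ f hO hν hDM hch hHZ'
  obtain ⟨K, hK⟩ := bd
  have hK0 : 0 ≤ K := le_trans (abs_nonneg _) (hK 0).1
  have hmain := hUI Ω ν (2 * K) a b hO hC.isPreconnected hν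
    ((ca.of_le (by norm_num)).contDiffOn) ((cb.of_le (by norm_num)).contDiffOn) ?_
    ⟨U, hU1, hU2, hU3, hU4⟩
  · intro t q hq
    have := hmain t q hq
    rw [ha, hb] at this
    simp only [sub_eq_zero] at this
    exact this
  · intro t q hq
    obtain ⟨k1, k2, k3, k4, k5, k6⟩ := hK (t, q)
    have e1 : heat ν a (t, q) = -(m (t, q) * dx a (t, q) + n (t, q) * dy a (t, q)
        + a (t, q) * dx m (t, q) + b (t, q) * dy m (t, q)) := by
      have := ea t q hq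
      unfold heat; linarith
    have e2 : heat ν b (t, q) = -(m (t, q) * dx b (t, q) + n (t, q) * dy b (t, q)
        + a (t, q) * dx n (t, q) + b (t, q) * dy n (t, q)) := by
      have := eb t q hq
      unfold heat; linarith
    rw [e1, e2, abs_neg, abs_neg]
    have p1 : ∀ x y z w : ℝ, |x + y + z + w| ≤ |x| + |y| + |z| + |w| := fun x y z w => by
      have := abs_add_le (x + y + z) w
      have := abs_add_le (x + y) z
      have := abs_add_le x y
      linarith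
    have q1 := p1 (m (t, q) * dx a (t, q)) (n (t, q) * dy a (t, q)) (a (t, q) * dx m (t, q))
      (b (t, q) * dy m (t, q))
    have q2 := p1 (m (t, q) * dx b (t, q)) (n (t, q) * dy b (t, q)) (a (t, q) * dx n (t, q))
      (b (t, q) * dy n (t, q))
    simp only [abs_mul] at q1 q2
    have r1 := mul_le_mul_of_nonneg_right k1 (abs_nonneg (dx a (t, q)))
    have r2 := mul_le_mul_of_nonneg_right k2 (abs_nonneg (dy a (t, q)))
    have r3 := mul_le_mul_of_nonneg_left k3 (abs_nonneg (a (t, q)))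
    have r4 := mul_le_mul_of_nonneg_left k4 (abs_nonneg (b (t, q)))
    have r5 := mul_le_mul_of_nonneg_right k1 (abs_nonneg (dx b (t, q)))
    have r6 := mul_le_mul_of_nonneg_right k2 (abs_nonneg (dy b (t, q)))
    have r7 := mul_le_mul_of_nonneg_left k5 (abs_nonneg (a (t, q)))
    have r8 := mul_le_mul_of_nonneg_left k6 (abs_nonneg (b (t, q)))
    have s1 := mul_nonneg hK0 (abs_nonneg (dx a (t, q)))
    have s2 := mul_nonneg hK0 (abs_nonneg (dy a (t, q)))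
    have s3 := mul_nonneg hK0 (abs_nonneg (dx b (t, q)))
    have s4 := mul_nonneg hK0 (abs_nonneg (dy b (t, q)))
    nlinarith

end NS
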