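import Pool.Agent.helper29.NS.Spec2

namespace NS

open MeasureTheory Filter Topology Set

theorem QQ (hGG : GG_stmt) (hBK : BK_stmt) (hSC : SC_stmt) (hFS : FS_stmt) (hQA : QA_stmt) :
    QQ_stmt := by
  intro Ω ν g h c hO hC hB hν hg hh hcx hne hfin
  have hG : ∀ (B : ℝ) (a1 b1 p1 a2 b2 p2 : ℝ × ℝ × ℝ → ℝ), Reg B a1 b1 p1 → Reg B a2 b2 p2 →
      Sol Ω ν g h univ a1 b1 p1 → Sol Ω ν g h univ a2 b2 p2 →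
      (∀ t, ∀ q ∈ Ω, p1 (t, q) = p2 (t, q)) →
      ∀ t, ∀ q ∈ Ω, a1 (t, q) = a2 (t, q) ∧ b1 (t, q) = b2 (t, q) :=
    fun B a1 b1 p1 a2 b2 p2 r1 r2 s1 s2 hp =>
      hGG Ω ν B g h c a1 b1 p1 a2 b2 p2 hO hC hν hg hh hcx hne r1 r2 s1 s2 hp
  have : Fact ((1 : ENNReal) ≤ 2) := ⟨by norm_num⟩
  have : Fact ((2 : ENNReal) ≠ ⊤) := ⟨by norm_num⟩
  have : SecondCountableTopology (Lp ℝ 2 (volume.restrict Ω)) := inferInstance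
  obtain ⟨F, hF⟩ := hBK (Lp ℝ 2 (volume.restrict Ω)) (PCurves Ω ν g h) (hSC Ω ν g h hO hB)
    (hFS Ω ν g h hO hC hB hG hfin)
  refine ⟨F, fun B a1 b1 p1 a2 b2 p2 r1 r2 s1 s2 P1 P2 hP1 hP2 hT => ?_⟩
  exact hQA Ω ν g h hO hB hG F F.continuous hF B a1 b1 p1 a2 b2 p2 r1 r2 s1 s2 P1 P2 hP1 hP2 hT

end NS
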