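import Pool.Agent.helper29.NS.Spec2

namespace NS

open MeasureTheory Filter Topology Set

theorem RG_lin (L : ℝ × ℝ →L[ℝ] ℝ) (u v : ℝ) : L (u, v) = u * L (1, 0) + v * L (0, 1) := by
  have : ((u, v) : ℝ × ℝ) = u • ((1, 0) : ℝ × ℝ) + v • ((0, 1) : ℝ × ℝ) := by
    ext <;> simp
  rw [this, map_add, map_smul, map_smul]
  simp

theorem RG_comp (J : ℝ × ℝ → ℝ) (hJ : Differentiable ℝ J) (p q : ℝ → ℝ) (p' q' x : ℝ)
    (hp : HasDerivAt p p' x) (hq : HasDerivAt q q' x) :
    HasDerivAt (fun x => J (p x, q x)) (p' * px J (p x, q x) + q' * py J (p x, q x)) x := by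
  have h1 : HasFDerivAt J (fderiv ℝ J (p x, q x)) (p x, q x) := (hJ _).hasFDerivAt
  have h2 : HasDerivAt (fun x => (p x, q x)) (p', q') x := hp.prodMk hq
  have h3 := h1.comp_hasDerivAt x h2
  rw [RG_lin] at h3
  exact h3

theorem RG_px (F : ℝ × ℝ → ℝ) (hF : Differentiable ℝ F) (s x d : ℝ)
    (h : HasDerivAt (fun s => F (s, x)) d s) : fderiv ℝ F (s, x) (1, 0) = d := by
  have h1 := RG_comp F hF (fun s => s) (fun _ => x) 1 0 s (hasDerivAt_id s) (hasDerivAt_const s x)
  have := h1.unique h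
  simpa [px] using this

theorem RG_py (F : ℝ × ℝ → ℝ) (hF : Differentiable ℝ F) (s x d : ℝ)
    (h : HasDerivAt (fun x => F (s, x)) d x) : fderiv ℝ F (s, x) (0, 1) = d := by
  have h1 := RG_comp F hF (fun _ => s) (fun x => x) 0 1 x (hasDerivAt_const x s) (hasDerivAt_id x)
  have := h1.unique h
  simpa [py] using this

theorem RG_pxc (F : ℝ × ℝ → ℝ) (hF : ContDiff ℝ 1 F) : Continuous (px F) := by
  unfold px
  exact (hF.continuous_fderiv (by norm_num)).clm_apply continuous_const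

theorem RG_pyc (F : ℝ × ℝ → ℝ) (hF : ContDiff ℝ 1 F) : Continuous (py F) := by
  unfold py
  exact (hF.continuous_fderiv (by norm_num)).clm_apply continuous_const

theorem RG : RG_stmt := by
  intro J1 J2 a h1 h2 ha
  obtain ⟨β, hβ⟩ : ∃ β : ℝ → ℝ, β = fun s => (a ^ 2 - s ^ 2) ^ 2 := ⟨_, rfl⟩
  obtain ⟨γ, hγ⟩ : ∃ γ : ℝ → ℝ, γ = fun s => -4 * s * (a ^ 2 - s ^ 2) := ⟨_, rfl⟩
  have hβc : ContDiff ℝ 1 β := by rw [hβ]; fun_prop
  have hγc : ContDiff ℝ 1 γ := by rw [hγ]; fun_prop
  have hβd : ∀ s, HasDerivAt β (γ s) s := by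
    intro s
    have e1 : HasDerivAt (fun s : ℝ => a ^ 2 - s ^ 2) (-(2 * s)) s := by
      have := (hasDerivAt_pow 2 s).const_sub (a ^ 2)
      simpa using this
    have e2 := e1.pow 2
    rw [hβ, hγ]
    refine e2.congr_deriv ?_
    simp; ring
  have hd1 : Differentiable ℝ J1 := h1.differentiable (by norm_num)
  have hd2 : Differentiable ℝ J2 := h2.differentiable (by norm_num)
  set F : ℝ × ℝ → ℝ := fun z => β z.1 * J1 (z.1, β z.1 * z.2) with hF
  set G : ℝ × ℝ → ℝ := fun z => J2 (z.1, β z.1 * z.2) - γ z.1 * z.2 * J1 (z.1, β z.1 * z.2) with hG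
  have hφ : ContDiff ℝ 1 (fun z : ℝ × ℝ => (z.1, β z.1 * z.2)) :=
    contDiff_fst.prodMk ((hβc.comp contDiff_fst).mul contDiff_snd)
  have hFc : ContDiff ℝ 1 F := (hβc.comp contDiff_fst).mul (h1.comp hφ)
  have hGc : ContDiff ℝ 1 G :=
    (h2.comp hφ).sub (((hγc.comp contDiff_fst).mul contDiff_snd).mul (h1.comp hφ))
  have hdiv : ∀ z : ℝ × ℝ, fderiv ℝ F z (1, 0) + fderiv ℝ G z (0, 1)
      = β z.1 * (px J1 (z.1, β z.1 * z.2) + py J2 (z.1, β z.1 * z.2)) := by
    rintro ⟨s, x⟩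
    have e1 : HasDerivAt (fun s => F (s, x)) (γ s * J1 (s, β s * x)
        + β s * (1 * px J1 (s, β s * x) + (γ s * x) * py J1 (s, β s * x))) s := by
      have c1 := RG_comp J1 hd1 (fun s => s) (fun s => β s * x) 1 (γ s * x) s (hasDerivAt_id s)
        ((hβd s).mul_const x)
      exact (hβd s).mul c1
    have e2 : HasDerivAt (fun x => G (s, x)) ((0 * px J2 (s, β s * x) + β s * py J2 (s, β s * x))
        - (γ s * J1 (s, β s * x)
          + γ s * x * (0 * px J1 (s, β s * x) + β s * py J1 (s, β s * x)))) x := by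
      have b1 : HasDerivAt (fun x => β s * x) (β s) x := by
        simpa using (hasDerivAt_id x).const_mul (β s)
      have b2 : HasDerivAt (fun x => γ s * x) (γ s) x := by
        simpa using (hasDerivAt_id x).const_mul (γ s)
      have c1 := RG_comp J1 hd1 (fun _ => s) (fun x => β s * x) 0 (β s) x (hasDerivAt_const x s) b1
      have c2 := RG_comp J2 hd2 (fun _ => s) (fun x => β s * x) 0 (β s) x (hasDerivAt_const x s) b1
      exact c2.sub (b2.mul c1)
    rw [RG_px F (hFc.differentiable (by norm_num)) s x _ e1,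
      RG_py G (hGc.differentiable (by norm_num)) s x _ e2]
    ring
  have key := integral2_divergence_prod_of_hasFDerivAt F G (fderiv ℝ F) (fderiv ℝ G) (-a) 0 a 1
    hFc.continuous.continuousOn hGc.continuous.continuousOn
    (fun x _ => (hFc.differentiable (by norm_num) x).hasFDerivAt)
    (fun x _ => (hGc.differentiable (by norm_num) x).hasFDerivAt) (by
      apply ContinuousOn.integrableOn_compact (isCompact_uIcc.prod isCompact_uIcc)
      apply Continuous.continuousOn
      exact ((hFc.continuous_fderiv (by norm_num)).clm_apply continuous_const).add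
        ((hGc.continuous_fderiv (by norm_num)).clm_apply continuous_const))
  have hβa : β a = 0 := by rw [hβ]; ring
  have hβa' : β (-a) = 0 := by rw [hβ]; ring
  have r1 : ∫ y in (0 : ℝ)..1, F (a, y) = 0 := by simp [hF, hβa]
  have r2 : ∫ y in (0 : ℝ)..1, F (-a, y) = 0 := by simp [hF, hβa']
  rw [r1, r2] at key
  have l1 : ∀ s : ℝ, ∫ y in (0 : ℝ)..1, (fderiv ℝ F (s, y) (1, 0) + fderiv ℝ G (s, y) (0, 1))
      = ∫ r in (0 : ℝ)..(a ^ 2 - s ^ 2) ^ 2, (px J1 (s, r) + py J2 (s, r)) := by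
    intro s
    have : ∫ y in (0 : ℝ)..1, (fderiv ℝ F (s, y) (1, 0) + fderiv ℝ G (s, y) (0, 1))
        = β s * ∫ y in (0 : ℝ)..1, (px J1 (s, β s * y) + py J2 (s, β s * y)) := by
      rw [← intervalIntegral.integral_const_mul]
      apply intervalIntegral.integral_congr
      intro y _
      exact hdiv (s, y)
    rw [this]
    have h5 := intervalIntegral.mul_integral_comp_mul_left (a := (0 : ℝ)) (b := 1)
      (f := fun r => px J1 (s, r) + py J2 (s, r)) (β s)
    rw [h5]
    simp [hβ]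
  simp only [l1] at key
  rw [key]
  simp only [hG]
  simp [hβ, hγ]

end NS
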