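import Pool.Agent.helper29.NS.Spec2
import Pool.Agent.helper29.NS.GG
import Pool.Agent.helper29.NS.QQ
import Pool.Agent.helper29.NS.RG
import Pool.Agent.helper29.NS.CI
import Pool.Agent.helper29.NS.EN
import Pool.Agent.helper29.NS.AL
import Pool.Agent.helper29.NS.BZ
import Pool.Agent.helper29.NS.BD
import Pool.Agent.helper31.NS.A0
import Pool.Agent.helper31.NS.A1
import Pool.Agent.helper31.NS.A2
import Pool.Agent.helper31.NS.AA
import Pool.Agent.helper31.NS.CM
import Pool.Agent.helper31.NS.CT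
import Pool.Agent.helper31.NS.SL
import Pool.Agent.helper31.NS.SH
import Pool.Agent.helper31.NS.P2
import Pool.Agent.helper31.NS.QA
import Pool.Agent.helper31.NS.BO
import Pool.Agent.helper31.NS.Calc
import Pool.Agent.helper55.NS.AZ
import Pool.Agent.helper55.NS.DJ
import Pool.Agent.helper6.NS.BE
import Pool.Agent.helper6.NS.P1
import Pool.Agent.helper20.NS.BK
import Pool.Agent.helper43.NS.BV
import Pool.Agent.helper43.NS.UI
import Pool.Agent.helper43.NS.CW
import Pool.Agent.helper58.NS.CE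
import Pool.Agent.helper58.NS.CJ
import Pool.Agent.helper58.NS.CX
import Pool.Agent.helper58.NS.CZ
import Pool.Agent.helper46.NS.CH
import Pool.Agent.helper46.NS.CO
import Pool.Agent.helper46.NS.NC
import Pool.Agent.helper46.NS.P3
import Pool.Agent.helper46.NS.SE
import Pool.Agent.helper46.NS.SP
import Pool.Agent.helper97.NS.FP
import Pool.Agent.helper93.NS.FS
import Pool.Agent.helper93.NS.TG
import Pool.Agent.helper93.NS.UZ
import Pool.Agent.helper18.NS.GL
import Pool.Agent.helper74.NS.HZ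
import Pool.Agent.helper14.NS.LM
import Pool.Agent.helper99.NS.SB
import Pool.Agent.helper99.NS.VA
import Pool.Agent.helper23.NS.SC
import Pool.Agent.helper92.NS.SR
import Pool.Agent.helper52.NS.UB
import Pool.Agent.helper70.NS.UL

namespace NS

theorem Fin_AA : AA_stmt := AA CM
theorem Fin_UL : UL_stmt := UL (UZ (CE CW) CO CX)
theorem Fin_UI : UI_stmt := UI Fin_UL
theorem Fin_EN : EN_stmt := EN RG DJ CI
theorem Fin_AL : AL_stmt := AL (AZ Fin_EN SE SR (SB SP SR)) RT
theorem Fin_GG : GG_stmt :=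
  GG DE DT (VA CR SM VE) NC Fin_AL (BZ CL SL SM) CH (HZ TG CH NC) (UB GLm Fin_UI) Fin_UI SL CR SM
theorem Fin_BK : BK_stmt := BK BO (BD BE) BV BF
theorem Fin_QQ : QQ_stmt :=
  QQ Fin_GG Fin_BK (SC Fin_AA A2 LM (P1 CM) P2) (FS SL CR ST P3) (QA ST LM (P1 CM) P3)

end NS
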