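import Pool.Agent.helper29.NS.SpecC

namespace NS

open MeasureTheory Filter Topology Set

theorem GC (hCS : CS_stmt) (hSF : SF_stmt) : GC_stmt := by
  intro Ω ν B R g h a1 b1 p1 a2 b2 p2 hO hC hOC hν hg hh hr1 hr2 hs1 hs2 hp t q hq
  by_contra hne
  exact hSF Ω ν R t (curl g h) a1 b1 a2 b2 _ _ _ _
    (hCS Ω ν B R t g h a1 b1 p1 a2 b2 p2 hO hC hOC hν hg hh hr1 hr2 hs1 hs2 hp ⟨q, hq, hne⟩)

end NS
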