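import Pool.Agent.helper29.NS.SpecD

namespace NS

open MeasureTheory Filter Topology Set

theorem GD_zero (hSL : SL_stmt) (U : Set (ℝ × ℝ)) (hU : IsOpen U) (f : ℝ × ℝ × ℝ → ℝ)
    (hf : Differentiable ℝ f) (t : ℝ) (h0 : ∀ q ∈ U, f (t, q) = 0) (q : ℝ × ℝ) (hq : q ∈ U) :
    dx f (t, q) = 0 ∧ dy f (t, q) = 0 := by
  obtain ⟨e1, e2, -⟩ := hSL f t q (hf _)
  have he : (fun q => f (t, q)) =ᶠ[𝓝 q] fun _ => (0 : ℝ) := by
    filter_upwards [hU.mem_nhds hq] with p hp using h0 p hp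
  have hz : fderiv ℝ (fun q => f (t, q)) q = 0 := by
    rw [he.fderiv_eq]; simp
  rw [← e1, ← e2]
  constructor
  · show fderiv ℝ (fun q => f (t, q)) q (1, 0) = 0
    rw [hz]; simp
  · show fderiv ℝ (fun q => f (t, q)) q (0, 1) = 0
    rw [hz]; simp

theorem GD_open (c : ℝ × ℝ) (ε : ℝ) : IsOpen (Dsc c ε) :=
  isOpen_lt (by fun_prop) continuous_const

theorem GD (hGC : GC_stmt) (hAP : AP_stmt) (hAE : AE_stmt) (hAF : AF_stmt) (hAV : AV_stmt)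
    (hDE : DE_stmt) (hDT : DT_stmt) (hCR : CR_stmt) (hSL : SL_stmt) (hAW : AW_stmt)
    (hLH : LH_stmt) (hLC : LC_stmt) (hLU : LU_stmt) (hLW : LW_stmt) (hYI : YI_stmt)
    (hLF : LF_stmt) (hLE : LE_stmt) : GD_stmt := by
  intro Ω ν B R g h a1 b1 p1 a2 b2 p2 hO hC hR harc hcharts hν hg hh hR1 hR2 hS1 hS2 hp t1 qn hqn
  by_contra hne
  by_cases hall : ∀ q ∈ Circ R, InArc Ω R q
  · exact hne (hGC Ω ν B R g h a1 b1 p1 a2 b2 p2 hO hC (hAP Ω R hR hO hC hall) hν hg hh hR1 hR2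
      hS1 hS2 hp t1 qn hqn)
  have hnarc : ∃ q ∈ Circ R, ¬ InArc Ω R q := by
    by_contra hcon
    apply hall
    intro q hq
    by_contra hq2
    exact hcon ⟨q, hq, hq2⟩
  obtain ⟨α1, α2, h12, harcs, hend⟩ := hAE Ω R hR harc hnarc
  have hcC : ∀ α, cp R α ∈ Circ R := by
    intro α
    show (R * Real.cos α) ^ 2 + (R * Real.sin α) ^ 2 = R ^ 2
    nlinarith [Real.sin_sq_add_cos_sq α]
  have hcF : cp R α2 ∈ frontier Ω := (hAF Ω R hR hO).2 α1 α2 h12 harcs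
  obtain ⟨θ, δ, f, hch⟩ := hcharts (cp R α2) ⟨hcF, hcC α2⟩
  obtain ⟨hf2, ho2⟩ := hAV Ω R α1 α2 θ δ f hO hR h12 harcs hch
  -- difference and mean
  have h31 : ContDiff ℝ 3 a1 := hCR 3 B a1 hR1.ra
  have h32 : ContDiff ℝ 3 b1 := hCR 3 B b1 hR1.rb
  have h33 : ContDiff ℝ 3 a2 := hCR 3 B a2 hR2.ra
  have h34 : ContDiff ℝ 3 b2 := hCR 3 B b2 hR2.rb
  obtain ⟨a, ha⟩ : ∃ a : ℝ × ℝ × ℝ → ℝ, a = fun z => a1 z - a2 z := ⟨_, rfl⟩
  obtain ⟨b, hb⟩ : ∃ b : ℝ × ℝ × ℝ → ℝ, b = fun z => b1 z - b2 z := ⟨_, rfl⟩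
  obtain ⟨m, hm⟩ : ∃ m : ℝ × ℝ × ℝ → ℝ, m = fun z => (a1 z + a2 z) / 2 := ⟨_, rfl⟩
  obtain ⟨n, hn⟩ : ∃ n : ℝ × ℝ × ℝ → ℝ, n = fun z => (b1 z + b2 z) / 2 := ⟨_, rfl⟩
  have ca : ContDiff ℝ 3 a := by rw [ha]; exact h31.sub h33
  have cb : ContDiff ℝ 3 b := by rw [hb]; exact h32.sub h34
  have cm : ContDiff ℝ 3 m := by rw [hm]; exact (h31.add h33).div_const 2
  have cn : ContDiff ℝ 3 n := by rw [hn]; exact (h32.add h34).div_const 2
  obtain ⟨ea, eb, da, dm, bc, bd⟩ := hDE Ω ν B g h a1 b1 p1 a2 b2 p2 hO hR1 hR2 hS1 hS2 hp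
    a b m n ha hb hm hn
  have tr := hDT Ω ν a b m n hO ca cb cm cn ea eb da dm
  have hDM : DM Ω ν a b m n := ⟨ca, cb, cm, cn, ea, eb, da, dm, tr, bc, bd⟩
  have hne' : ∃ t, ∃ q ∈ Ω, ¬ (a (t, q) = 0 ∧ b (t, q) = 0) := by
    refine ⟨t1, qn, hqn, fun hcon => hne ⟨?_, ?_⟩⟩
    · have := hcon.1
      rw [ha] at this
      exact sub_eq_zero.1 this
    · have := hcon.2
      rw [hb] at this
      exact sub_eq_zero.1 this
  obtain ⟨α, β, ε, hαβ, hε, hconst, hwin⟩ := hAW Ω ν a b m n (cp R α2) θ δ f hO hC hν hDM hch hf2 hne'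
  set c := cp R α2 with hc
  have hUo : IsOpen (Ω ∩ Dsc c ε) := hO.inter (GD_open c ε)
  have hheat : ∀ t ∈ Ioo α β, ∀ q ∈ Ω ∩ Dsc c ε, heat ν a (t, q) = 0 ∧ heat ν b (t, q) = 0 := by
    intro t ht q hq
    obtain ⟨m0, n0⟩ := (hwin t ht).2 q hq
    obtain ⟨mx, my⟩ := GD_zero hSL _ hUo m (cm.differentiable (by norm_num)) t
      (fun p hp => ((hwin t ht).2 p hp).1) q hq
    obtain ⟨nx, ny⟩ := GD_zero hSL _ hUo n (cn.differentiable (by norm_num)) t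
      (fun p hp => ((hwin t ht).2 p hp).2) q hq
    have e1 := ea t q hq.1
    have e2 := eb t q hq.1
    rw [m0, n0, mx, my] at e1
    rw [m0, n0, nx, ny] at e2
    unfold heat
    constructor
    · linarith
    · linarith
  obtain ⟨cLA, cLB, hLhe⟩ := hLH ν α β (Ω ∩ Dsc c ε) a b hUo ca cb hheat
  obtain ⟨W, hWo, hWc, hWs, ε', hε', hW'⟩ := hLW Ω c θ δ f hO hch ε hε
  -- an arc point near the endpoint
  obtain ⟨α3, h13, h32', hα3⟩ : ∃ α3, α1 < α3 ∧ α3 < α2 ∧ cp R α3 ∈ Dsc c (min ε ε') := by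
    have hcont : Continuous (fun x : ℝ => cp R x) := by
      unfold cp
      fun_prop
    have hmem : Dsc c (min ε ε') ∈ 𝓝 (cp R α2) := by
      refine (GD_open c _).mem_nhds ?_
      show (c.1 - c.1) ^ 2 + (c.2 - c.2) ^ 2 < (min ε ε') ^ 2
      have : 0 < min ε ε' := lt_min hε hε'
      simp only [sub_self]
      nlinarith [pow_pos this 2]
    have hev := hcont.continuousAt.preimage_mem_nhds hmem
    obtain ⟨d, hd, hball⟩ := Metric.mem_nhds_iff.1 hev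
    refine ⟨max (α2 - d / 2) ((α1 + α2) / 2), ?_, ?_, ?_⟩
    · exact lt_of_lt_of_le (by linarith) (le_max_right _ _)
    · exact max_lt (by linarith) (by linarith)
    · apply hball
      rw [Metric.mem_ball, Real.dist_eq, abs_lt]
      constructor
      · have := le_max_left (α2 - d / 2) ((α1 + α2) / 2)
        linarith
      · have : max (α2 - d / 2) ((α1 + α2) / 2) < α2 := max_lt (by linarith) (by linarith)
        linarith
  obtain ⟨δ1, hδ1, harc1⟩ := harcs α3 h13.le h32'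
  set q1 := cp R α3 with hq1
  -- a small disc around it
  obtain ⟨δ', hδ', hδ'1, hδ'2⟩ : ∃ δ' > 0, Dsc q1 δ' ⊆ Dsc q1 δ1 ∧ Dsc q1 δ' ⊆ Dsc c (min ε ε') := by
    have hmem : Dsc q1 δ1 ∩ Dsc c (min ε ε') ∈ 𝓝 q1 := by
      refine ((GD_open q1 δ1).inter (GD_open c _)).mem_nhds ⟨?_, hα3⟩
      show (q1.1 - q1.1) ^ 2 + (q1.2 - q1.2) ^ 2 < δ1 ^ 2
      simp only [sub_self]
      nlinarith [pow_pos hδ1 2]
    obtain ⟨d, hd, hball⟩ := Metric.mem_nhds_iff.1 hmem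
    have hsub : Dsc q1 d ⊆ Metric.ball q1 d := by
      intro p hp
      have hp' : (p.1 - q1.1) ^ 2 + (p.2 - q1.2) ^ 2 < d ^ 2 := hp
      rw [Metric.mem_ball, Prod.dist_eq, max_lt_iff, Real.dist_eq, Real.dist_eq]
      constructor
      · exact abs_lt_of_sq_lt_sq (by nlinarith [sq_nonneg (p.2 - q1.2)]) hd.le
      · exact abs_lt_of_sq_lt_sq (by nlinarith [sq_nonneg (p.1 - q1.1)]) hd.le
    exact ⟨d, hd, fun p hp => (hball (hsub hp)).1, fun p hp => (hball (hsub hp)).2⟩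
  have hDmin : Dsc c (min ε ε') ⊆ Dsc c ε := fun p hp =>
    lt_of_lt_of_le hp (pow_le_pow_left₀ (lt_min hε hε').le (min_le_left _ _) 2)
  have hDmin' : Dsc c (min ε ε') ⊆ Dsc c ε' := fun p hp =>
    lt_of_lt_of_le hp (pow_le_pow_left₀ (lt_min hε hε').le (min_le_right _ _) 2)
  have harc' : ∀ p ∈ Dsc q1 δ', (p ∈ Ω ↔ p.1 ^ 2 + p.2 ^ 2 < R ^ 2) := fun p hp =>
    harc1 p (hδ'1 hp)
  have hq1F : q1 ∈ frontier Ω := (hAF Ω R hR hO).1 q1 (hcC α3) (harcs α3 h13.le h32')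
  have hvc : ∀ t ∈ Ioo α β, ∀ q ∈ frontier Ω ∩ Dsc q1 δ', vort a b (t, q) = vort a b (t, q1) := by
    intro t ht q hq
    rw [hconst t q ⟨hq.1, hDmin (hδ'2 hq.2)⟩, hconst t q1 ⟨hq1F, hDmin hα3⟩]
  have hjet := hLC Ω ν R α β δ' a b m n q1 hO hν.ne' hDM hR (hcC α3) hδ' harc' hvc
  have hzero := hLU ν R α β δ' (LA a b) (LB a b) q1 hν hR (hcC α3) hδ' cLA cLB hjet (by
    intro t ht q hq hqR
    exact hLhe t ht q ⟨(harc' q hq).2 hqR, hDmin (hδ'2 hq)⟩)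
  -- unique continuation in `W`
  have hUne : (Dsc q1 δ' ∩ Ω).Nonempty := by
    have hcl : q1 ∈ closure Ω := frontier_subset_closure hq1F
    have hmem : Dsc q1 δ' ∈ 𝓝 q1 := by
      refine (GD_open q1 δ').mem_nhds ?_
      show (q1.1 - q1.1) ^ 2 + (q1.2 - q1.2) ^ 2 < δ' ^ 2
      simp only [sub_self]
      nlinarith [pow_pos hδ' 2]
    exact mem_closure_iff_nhds.1 hcl _ hmem
  have hWz := hYI W α β ν 0 (LA a b) (LB a b) hWo hWc hν cLA.contDiffOn cLB.contDiffOn (by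
      intro t ht q hq
      obtain ⟨e1, e2⟩ := hLhe t ht q (hWs hq)
      rw [e1, e2]
      simp) ⟨Dsc q1 δ' ∩ Ω, (GD_open q1 δ').inter hO, hUne, by
        intro p hp
        exact hW' ⟨hp.2, hDmin' (hδ'2 hp.1)⟩, by
        intro t ht p hp
        exact hzero t ht p hp.1 ((harc' p hp.1).1 hp.2)⟩
  -- conclusion at one time of the window
  have htm : (α + β) / 2 ∈ Ioo α β := ⟨by linarith, by linarith⟩
  have hfin := hLF Ω ν a b m n c θ δ ((α + β) / 2) ε' f hO hDM hch hf2 hε'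
    (fun q hq => hWz _ htm q (hW' hq)) (hwin _ htm).1
  exact hend (hLE Ω R c θ δ f hR (hcC α2) hch ho2 hfin)

end NS
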