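import Pool.Agent.helper29.NS.SpecC
import Pool.Agent.helper31.NS.Calc

namespace NS

open MeasureTheory Filter Topology Set

theorem S0_cont_vort (a b : ℝ × ℝ × ℝ → ℝ) (ha : ContDiff ℝ 3 a) (hb : ContDiff ℝ 3 b)
    (hSM : SM_stmt) : Continuous (vort a b) := by
  have h1 : Continuous (dx b) := ((hSM 2 b hb).2.1).continuous
  have h2 : Continuous (dy a) := ((hSM 2 a ha).2.2.1).continuous
  exact h1.sub h2

theorem S0 (hSM : SM_stmt) (hCN : CN_stmt) (hCV : CV_stmt) (hCB : CB_stmt) (hCG : CG_stmt)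
    (hCX1 : CX1_stmt) (hCX2 : CX2_stmt) : S0_stmt := by
  intro Ω ν R t1 G a1 b1 a2 b2 a b m n hcd
  obtain ⟨t0, ht0, hc0⟩ := (hCN Ω ν R t1 G a1 b1 a2 b2 a b m n hcd).2 (t1 - 1) t1 (by linarith) le_rfl
  have hcv : Continuous (fun t : ℝ => vort a b (t, (R, 0))) :=
    (S0_cont_vort a b hcd.dmm.ca hcd.dmm.cb hSM).comp (by fun_prop)
  have hev : ∀ᶠ t in 𝓝 t0, vort a b (t, (R, 0)) ≠ 0 := hcv.continuousAt.eventually_ne hc0
  have hev2 : ∀ᶠ t in 𝓝 t0, t < t1 := (isOpen_Iio.mem_nhds ht0.2)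
  obtain ⟨δ, hδ, hball⟩ := Metric.eventually_nhds_iff.1 (hev.and hev2)
  have hwin : ∀ t ∈ Ioo (t0 - δ) t0, vort a b (t, (R, 0)) ≠ 0 := by
    intro t ht
    refine (hball ?_).1
    rw [Real.dist_eq, abs_lt]
    constructor
    · linarith [ht.1]
    · linarith [ht.2]
  have hR : 0 < R := hcd.oc.pos
  obtain ⟨α, β, ε, hα, hαβ, hβ, hε, hεR, hz⟩ := hCB m n R (t0 - δ) t0 hR (by linarith)
    hcd.dmm.cm.continuous hcd.dmm.cn.continuous (by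
      intro t ht
      obtain ⟨e, he, heR, -, hmn⟩ := hCV Ω ν R t1 G a1 b1 a2 b2 a b m n hcd t (hwin t ht)
      exact ⟨e, he, heR, hmn⟩)
  obtain ⟨r, hr0, hrR, hring⟩ := hcd.oc.ring
  set ρ := max (R - ε) r with hρ
  have hρ0 : 0 < ρ := lt_of_lt_of_le (by linarith) (le_max_left _ _)
  have hρR : ρ < R := max_lt (by linarith) hrR
  have hsub1 : Ring ρ R ⊆ Ring r R := by
    intro q hq
    refine ⟨lt_of_le_of_lt ?_ hq.1, hq.2⟩
    exact pow_le_pow_left₀ hr0 (le_max_right _ _) 2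
  have hsub2 : Ring ρ R ⊆ Ring (R - ε) R := by
    intro q hq
    refine ⟨lt_of_le_of_lt ?_ hq.1, hq.2⟩
    exact pow_le_pow_left₀ (by linarith) (le_max_left _ _) 2
  have hΩ : Ring ρ R ⊆ Ω := hsub1.trans hring
  have hG := hCG Ω ν R t1 G a1 b1 a2 b2 a b m n hcd ρ α β hρ0.le hρR hαβ hΩ
    (fun t ht q hq => hz t ht q (hsub2 hq))
  obtain ⟨h1, h2⟩ := hCX1 Ω ν R t1 G a1 b1 a2 b2 a b m n hcd ρ hρ0.le hρR hΩ hG
  exact ⟨ρ, hρ0, hρR, hCX2 Ω ν R t1 G a1 b1 a2 b2 a b m n hcd ρ hρ0.le hρR hΩ h1 h2⟩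

end NS
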