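import Pool.Agent.helper29.NS.SpecC
import Pool.Agent.helper31.NS.Calc

namespace NS

open MeasureTheory Filter Topology Set

/-- the circle is in the closure of the annulus outside it -/
theorem S1_circ_closure (ρ R : ℝ) (hρ : 0 < ρ) (hR : ρ < R) (q : ℝ × ℝ) (hq : q ∈ Circ ρ) :
    q ∈ closure (Ring ρ R) := by
  have hq' : q.1 ^ 2 + q.2 ^ 2 = ρ ^ 2 := hq
  have hcont : Tendsto (fun s : ℝ => (s * q.1, s * q.2)) (𝓝[>] 1) (𝓝 q) := by
    have h1 : Continuous (fun s : ℝ => (s * q.1, s * q.2)) := by fun_prop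
    have h2 := (h1.tendsto 1).mono_left (nhdsWithin_le_nhds (s := Ioi (1 : ℝ)))
    simpa using h2
  refine mem_closure_of_tendsto hcont ?_
  have hlt : 1 < R / ρ := by rw [lt_div_iff₀ hρ]; linarith
  have : Ioo (1 : ℝ) (R / ρ) ∈ 𝓝[>] (1 : ℝ) := Ioo_mem_nhdsGT hlt
  filter_upwards [this] with s hs
  have hs1 : 1 < s := hs.1
  have hs2 : s * ρ < R := by
    have := hs.2
    rwa [lt_div_iff₀ hρ] at this
  have e1 : (s * q.1) ^ 2 + (s * q.2) ^ 2 = (s * ρ) ^ 2 := by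
    have : (s * q.1) ^ 2 + (s * q.2) ^ 2 = s ^ 2 * (q.1 ^ 2 + q.2 ^ 2) := by ring
    rw [this, hq']; ring
  constructor
  · show ρ ^ 2 < (s * q.1) ^ 2 + (s * q.2) ^ 2
    rw [e1]
    exact pow_lt_pow_left₀ (by nlinarith) hρ.le (by norm_num)
  · show (s * q.1) ^ 2 + (s * q.2) ^ 2 < R ^ 2
    rw [e1]
    exact pow_lt_pow_left₀ hs2 (by positivity) (by norm_num)

theorem S1_zero_circ (ρ R : ℝ) (hρ : 0 < ρ) (hR : ρ < R) (f : ℝ × ℝ → ℝ) (hf : Continuous f)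
    (h0 : ∀ q ∈ Ring ρ R, f q = 0) (q : ℝ × ℝ) (hq : q ∈ Circ ρ) : f q = 0 := by
  have hcl : IsClosed {p | f p = 0} := isClosed_eq hf continuous_const
  exact (closure_minimal (fun p hp => h0 p hp) hcl) (S1_circ_closure ρ R hρ hR q hq)

/-- an annulus inside the circle lies in `Ω` -/
theorem S1_near (Ω : Set (ℝ × ℝ)) (hO : IsOpen Ω) (ρ : ℝ) (hρ : 0 < ρ) (hc : Circ ρ ⊆ Ω) :
    ∃ δ > 0, δ < ρ ∧ ∀ q : ℝ × ℝ, (ρ - δ) ^ 2 < q.1 ^ 2 + q.2 ^ 2 → q.1 ^ 2 + q.2 ^ 2 ≤ ρ ^ 2 →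
      q ∈ Ω := by
  have hcomp : IsCompact (Circ ρ) := by
    refine Metric.isCompact_of_isClosed_isBounded ?_ ?_
    · exact isClosed_eq (by fun_prop) continuous_const
    · refine (Metric.isBounded_iff_subset_closedBall (0 : ℝ × ℝ)).2 ⟨ρ, ?_⟩
      intro q hq
      have hq' : q.1 ^ 2 + q.2 ^ 2 = ρ ^ 2 := hq
      rw [mem_closedBall_zero_iff, Prod.norm_def, max_le_iff, Real.norm_eq_abs, Real.norm_eq_abs]
      constructor
      · exact abs_le_of_sq_le_sq (by nlinarith [sq_nonneg q.2]) hρ.le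
      · exact abs_le_of_sq_le_sq (by nlinarith [sq_nonneg q.1]) hρ.le
  obtain ⟨e, he, hsub⟩ := hcomp.exists_thickening_subset_open hO hc
  refine ⟨min (e / 2) (ρ / 2), by positivity, ?_, ?_⟩
  · exact lt_of_le_of_lt (min_le_right _ _) (by linarith)
  · intro q hq1 hq2
    set δ := min (e / 2) (ρ / 2) with hδ
    have hδ1 : δ ≤ e / 2 := min_le_left _ _
    have hδ2 : δ ≤ ρ / 2 := min_le_right _ _
    have hδ0 : 0 < δ := by positivity
    set r := Real.sqrt (q.1 ^ 2 + q.2 ^ 2) with hr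
    have hr2 : r ^ 2 = q.1 ^ 2 + q.2 ^ 2 := Real.sq_sqrt (by positivity)
    have hr0 : 0 ≤ r := Real.sqrt_nonneg _
    have hrlo : ρ - δ < r := by
      by_contra hcon
      push Not at hcon
      have : r ^ 2 ≤ (ρ - δ) ^ 2 := pow_le_pow_left₀ hr0 hcon 2
      linarith
    have hrhi : r ≤ ρ := by
      by_contra hcon
      push Not at hcon
      have : ρ ^ 2 < r ^ 2 := pow_lt_pow_left₀ hcon hρ.le (by norm_num)
      linarith
    have hrpos : 0 < r := by linarith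
    apply hsub
    rw [Metric.mem_thickening_iff]
    refine ⟨(ρ / r * q.1, ρ / r * q.2), ?_, ?_⟩
    · show (ρ / r * q.1) ^ 2 + (ρ / r * q.2) ^ 2 = ρ ^ 2
      have : (ρ / r * q.1) ^ 2 + (ρ / r * q.2) ^ 2 = ρ ^ 2 / r ^ 2 * (q.1 ^ 2 + q.2 ^ 2) := by
        field_simp
      rw [this, ← hr2]
      field_simp
    · have habs : ∀ x : ℝ, |x| ≤ r → |x - ρ / r * x| < e := by
        intro x hx
        have e1 : x - ρ / r * x = -((ρ - r) / r * x) := by field_simp; ring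
        rw [e1, abs_neg, abs_mul, abs_of_nonneg (div_nonneg (by linarith) hr0)]
        have : (ρ - r) / r * |x| ≤ (ρ - r) / r * r :=
          mul_le_mul_of_nonneg_left hx (div_nonneg (by linarith) hr0)
        have e2 : (ρ - r) / r * r = ρ - r := by field_simp
        linarith
      have hx1 : |q.1| ≤ r := by
        rw [← Real.sqrt_sq_eq_abs, hr]
        exact Real.sqrt_le_sqrt (by nlinarith [sq_nonneg q.2])
      have hx2 : |q.2| ≤ r := by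
        rw [← Real.sqrt_sq_eq_abs, hr]
        exact Real.sqrt_le_sqrt (by nlinarith [sq_nonneg q.1])
      rw [Prod.dist_eq, max_lt_iff]
      exact ⟨by simpa [Real.dist_eq] using habs q.1 hx1, by simpa [Real.dist_eq] using habs q.2 hx2⟩

theorem S1 (hSM : SM_stmt) (hSL : SL_stmt) (hEH : EH_stmt) (hPG : PG_stmt) (hPR : PR_stmt)
    (hCB : CB_stmt) (hCG : CG_stmt) (hCX1 : CX1_stmt) (hCX2 : CX2_stmt) : S1_stmt := by
  intro Ω ν R t1 G a1 b1 a2 b2 a b m n hcd ρ hρ hρR hsw hcirc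
  obtain ⟨ts, hts, hneg⟩ := hEH Ω ν R t1 G a1 b1 a2 b2 a b m n hcd ρ hρ hρR hsw
  obtain ⟨δ, hδ, hδρ, hnear⟩ := S1_near Ω hcd.op ρ hρ hcirc
  -- a window of times
  have hcb : Continuous b := hcd.dmm.cb.continuous
  have hcdxb : Continuous (dx b) := ((hSM 2 b hcd.dmm.cb).2.1).continuous
  have hcv : Continuous (fun t : ℝ => b (t, (ρ, 0)) * dx b (t, (ρ, 0))) := by
    have e : Continuous (fun t : ℝ => ((t, (ρ, 0)) : ℝ × ℝ × ℝ)) := by fun_prop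
    exact (hcb.comp e).mul (hcdxb.comp e)
  have hev : ∀ᶠ t in 𝓝 ts, b (t, (ρ, 0)) * dx b (t, (ρ, 0)) < 0 :=
    hcv.continuousAt.eventually_lt continuousAt_const hneg
  obtain ⟨d, hd, hball⟩ := Metric.eventually_nhds_iff.1 hev
  have hwin : ∀ t ∈ Ioo (ts - d) ts, b (t, (ρ, 0)) * dx b (t, (ρ, 0)) < 0 := by
    intro t ht
    refine hball ?_
    rw [Real.dist_eq, abs_lt]
    constructor
    · linarith [ht.1]
    · linarith [ht.2]
  -- slices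
  have hslice : ∀ (f : ℝ × ℝ × ℝ → ℝ) (t : ℝ), ContDiff ℝ 3 f → ContDiff ℝ 2 (fun q => f (t, q)) := by
    intro f t hf
    exact (hf.of_le (by norm_num)).comp (contDiff_prodMk_right t)
  have hdiff : ∀ f : ℝ × ℝ × ℝ → ℝ, ContDiff ℝ 3 f → Differentiable ℝ f := fun f hf =>
    hf.differentiable (by norm_num)
  have hm0 : ∀ t < t1, ∀ q ∈ Circ ρ, m (t, q) = 0 ∧ n (t, q) = 0 := by
    intro t ht q hq
    exact ⟨S1_zero_circ ρ R hρ hρR (fun q => m (t, q)) (hslice m t hcd.dmm.cm).continuous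
        (fun p hp => (hsw.2.1 t ht p hp).1) q hq,
      S1_zero_circ ρ R hρ hρR (fun q => n (t, q)) (hslice n t hcd.dmm.cn).continuous
        (fun p hp => (hsw.2.1 t ht p hp).2) q hq⟩
  have hst : ∀ t ∈ Ioo (ts - d) ts, ∃ ε > 0, ε < ρ ∧
      ∀ q ∈ Ring (ρ - ε) ρ, m (t, q) = 0 ∧ n (t, q) = 0 := by
    intro t ht
    have ht1 : t < t1 := ht.2.trans hts
    refine hPR (fun q => a (t, q)) (fun q => b (t, q)) (fun q => m (t, q)) (fun q => n (t, q)) ρ δ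
      (b (t, (ρ, 0)) / ρ) (dx b (t, (ρ, 0))) hρ hδ hδρ (hslice a t hcd.dmm.ca)
      (hslice b t hcd.dmm.cb) (hslice m t hcd.dmm.cm) (hslice n t hcd.dmm.cn) ?_ (hm0 t ht1) ?_ ?_
    · intro q hq
      have hqΩ : q ∈ Ω := hnear q hq.1 hq.2.le
      obtain ⟨ax, ay, -⟩ := hSL a t q (hdiff a hcd.dmm.ca _)
      obtain ⟨bx, by', -⟩ := hSL b t q (hdiff b hcd.dmm.cb _)
      obtain ⟨mx, my, -⟩ := hSL m t q (hdiff m hcd.dmm.cm _)
      obtain ⟨nx, ny, -⟩ := hSL n t q (hdiff n hcd.dmm.cn _)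
      rw [ax, ay, bx, by', mx, my, nx, ny]
      exact ⟨hcd.dmm.da t q hqΩ, hcd.dmm.dm t q hqΩ, hcd.dmm.tr t q hqΩ⟩
    · have := hwin t ht
      have e : b (t, (ρ, 0)) / ρ * dx b (t, (ρ, 0)) = (b (t, (ρ, 0)) * dx b (t, (ρ, 0))) / ρ := by
        ring
      rw [e]
      exact div_neg_of_neg_of_pos this hρ
    · intro θ
      obtain ⟨h1, h2, h3, h4⟩ := hPG Ω ν R t1 G a1 b1 a2 b2 a b m n hcd ρ hρ hρR hsw t ht1 θ
      obtain ⟨ax, ay, -⟩ := hSL a t (rot θ (ρ, 0)) (hdiff a hcd.dmm.ca _)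
      obtain ⟨bx, by', -⟩ := hSL b t (rot θ (ρ, 0)) (hdiff b hcd.dmm.cb _)
      rw [ax, ay, bx, by']
      exact ⟨h1, h2, h3, h4⟩
  obtain ⟨α, β, ε, hα, hαβ, hβ, hε, hερ, hz⟩ := hCB m n ρ (ts - d) ts hρ (by linarith)
    hcd.dmm.cm.continuous hcd.dmm.cn.continuous hst
  set ρ' := max (ρ - ε) (ρ - δ) with hρ'
  have hρ'0 : 0 < ρ' := lt_of_lt_of_le (by linarith) (le_max_left _ _)
  have hρ'ρ : ρ' < ρ := max_lt (by linarith) (by linarith)
  have hΩ : Ring ρ' R ⊆ Ω := by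
    intro q hq
    by_cases hc : q.1 ^ 2 + q.2 ^ 2 ≤ ρ ^ 2
    · refine hnear q (lt_of_le_of_lt ?_ hq.1) hc
      exact pow_le_pow_left₀ (by linarith) (le_max_right _ _) 2
    · push Not at hc
      exact hsw.1 ⟨hc, hq.2⟩
  have hM : ∀ t ∈ Ioo α β, ∀ q ∈ Ring ρ' R, m (t, q) = 0 ∧ n (t, q) = 0 := by
    intro t ht q hq
    have ht1 : t < t1 := ht.2.trans_le (hβ.trans hts.le)
    rcases lt_trichotomy (q.1 ^ 2 + q.2 ^ 2) (ρ ^ 2) with hc | hc | hc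
    · refine hz t ht q ⟨lt_of_le_of_lt ?_ hq.1, hc⟩
      exact pow_le_pow_left₀ (by linarith) (le_max_left _ _) 2
    · exact hm0 t ht1 q hc
    · exact hsw.2.1 t ht1 q ⟨hc, hq.2⟩
  have hρ'R : ρ' < R := hρ'ρ.trans hρR
  have hG := hCG Ω ν R t1 G a1 b1 a2 b2 a b m n hcd ρ' α β hρ'0.le hρ'R hαβ hΩ hM
  obtain ⟨h1, h2⟩ := hCX1 Ω ν R t1 G a1 b1 a2 b2 a b m n hcd ρ' hρ'0.le hρ'R hΩ hG
  exact ⟨ρ', hρ'0, hρ'ρ, hCX2 Ω ν R t1 G a1 b1 a2 b2 a b m n hcd ρ' hρ'0.le hρ'R hΩ h1 h2⟩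

end NS
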