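import Pool.Agent.helper29.NS.SpecC

namespace NS

open MeasureTheory Filter Topology Set

theorem SF (h0 : S0_stmt) (h1 : S1_stmt) (h2 : S2_stmt) (h3 : S3_stmt) : SF_stmt := by
  intro Ω ν R t1 G a1 b1 a2 b2 a b m n hcd
  obtain ⟨ρ0, hρ0, hρ0R, hsw0⟩ := h0 Ω ν R t1 G a1 b1 a2 b2 a b m n hcd
  -- the set of swept radii
  set S : Set ℝ := {ρ | 0 < ρ ∧ ρ < R ∧ Swept Ω R t1 ρ a b m n} with hS
  have hne : S.Nonempty := ⟨ρ0, hρ0, hρ0R, hsw0⟩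
  have hbd : BddBelow S := ⟨0, fun x hx => hx.1.le⟩
  set σ := sInf S with hσ
  have hσ0 : 0 ≤ σ := le_csInf hne (fun x hx => hx.1.le)
  have hσR : σ < R := lt_of_le_of_lt (csInf_le hbd ⟨hρ0, hρ0R, hsw0⟩) hρ0R
  -- points of the open annulus lie in a swept annulus
  have key : ∀ q ∈ Ring σ R, ∃ ρ ∈ S, q ∈ Ring ρ R := by
    intro q hq
    have hq1 : σ ^ 2 < q.1 ^ 2 + q.2 ^ 2 := hq.1
    have hlt : σ < Real.sqrt (q.1 ^ 2 + q.2 ^ 2) := Real.lt_sqrt_of_sq_lt hq1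
    obtain ⟨ρ, hρS, hρ⟩ := exists_lt_of_csInf_lt hne hlt
    refine ⟨ρ, hρS, ?_, hq.2⟩
    have := Real.lt_sqrt (hρS.1.le) |>.1 hρ
    exact this
  have hswσ : Swept Ω R t1 σ a b m n := by
    refine ⟨?_, ?_, ?_⟩
    · intro q hq
      obtain ⟨ρ, hρS, hqρ⟩ := key q hq
      exact hρS.2.2.1 hqρ
    · intro t ht q hq
      obtain ⟨ρ, hρS, hqρ⟩ := key q hq
      exact hρS.2.2.2.1 t ht q hqρ
    · intro α t ht q hq
      obtain ⟨ρ, hρS, hqρ⟩ := key q hq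
      exact hρS.2.2.2.2 α t ht q hqρ
  rcases hσ0.lt_or_eq with hpos | hzero
  · have hc := h2 Ω ν R t1 G a1 b1 a2 b2 a b m n hcd σ hpos hσR hswσ
    obtain ⟨ρ', hρ'0, hρ'σ, hsw'⟩ := h1 Ω ν R t1 G a1 b1 a2 b2 a b m n hcd σ hpos hσR hswσ hc
    have : σ ≤ ρ' := csInf_le hbd ⟨hρ'0, hρ'σ.trans hσR, hsw'⟩
    linarith
  · rw [← hzero] at hswσ
    exact h3 Ω ν R t1 G a1 b1 a2 b2 a b m n hcd hswσ

end NS
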