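import Pool.Agent.helper29.NS.SpecC

/-!
# Project `ns:` (MP_b9b054_an), part D: domains whose boundary contains an arc of a circle

Every `XX_stmt : Prop` is one module `ns:XX`.  Paper proof: team store, `MP_b9b054_arc.md`.
The circle has centre `0` and radius `R`; `Ω` lies inside the circle near the arc.
-/

namespace NS

open MeasureTheory Filter Topology Set

/-- Near the point `q` (of the circle of radius `R`) the domain is the inside of the circle. -/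
def InArc (Ω : Set (ℝ × ℝ)) (R : ℝ) (q : ℝ × ℝ) : Prop :=
  ∃ δ > 0, ∀ p ∈ Dsc q δ, (p ∈ Ω ↔ p.1 ^ 2 + p.2 ^ 2 < R ^ 2)

/-- Point of the circle with angle `α`. -/
noncomputable def cp (R α : ℝ) : ℝ × ℝ := (R * Real.cos α, R * Real.sin α)

/-- First component of the infinitesimal rotation of the field `(a, b)`. -/
noncomputable def LA (a b : ℝ × ℝ × ℝ → ℝ) (z : ℝ × ℝ × ℝ) : ℝ :=
  z.2.2 * dx a z - z.2.1 * dy a z - b z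

/-- Second component of the infinitesimal rotation of the field `(a, b)`. -/
noncomputable def LB (a b : ℝ × ℝ × ℝ → ℝ) (z : ℝ × ℝ × ℝ) : ℝ :=
  z.2.2 * dx b z - z.2.1 * dy b z + a z

/-- AP. If all points of the circle are arc points, the circle is the outer boundary.
(Compactness; `Ω` is connected, does not meet the circle and contains points inside.) -/
def AP_stmt : Prop := ∀ (Ω : Set (ℝ × ℝ)) (R : ℝ), 0 < R → IsOpen Ω → IsConnected Ω →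
  (∀ q ∈ Circ R, InArc Ω R q) → OuterCircle Ω R

/-- AE. Otherwise there is an endpoint of an arc (the set of the angles of arc points is open;
`sInf` of the angles `≥ α1` of points which are not arc points). -/
def AE_stmt : Prop := ∀ (Ω : Set (ℝ × ℝ)) (R : ℝ), 0 < R → (∃ q ∈ Circ R, InArc Ω R q) →
  (∃ q ∈ Circ R, ¬ InArc Ω R q) → ∃ α1 α2 : ℝ, α1 < α2 ∧
  (∀ α, α1 ≤ α → α < α2 → InArc Ω R (cp R α)) ∧ ¬ InArc Ω R (cp R α2)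

/-- AF. Arc points, and endpoints of arcs, are boundary points. -/
def AF_stmt : Prop := ∀ (Ω : Set (ℝ × ℝ)) (R : ℝ), 0 < R → IsOpen Ω →
  (∀ q ∈ Circ R, InArc Ω R q → q ∈ frontier Ω) ∧
  ∀ α1 α2 : ℝ, α1 < α2 → (∀ α, α1 ≤ α → α < α2 → InArc Ω R (cp R α)) → cp R α2 ∈ frontier Ω

/-- AV. A `C²` boundary is strictly convex at the endpoint of an arc, and in the chart the centre
of the circle (the origin) lies above the endpoint. (The boundary points `cp R α`, `α` slightly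
smaller than `α2`, are `pt θ c s (f s)` for small `s`, and these `s` fill an interval on one side of
`0`; so `(s - o1)² + (f s - o2)² = R²` there, where `(o1, o2)` are the coordinates of the origin,
`f s < o2`, as `Ω` is inside the circle; differentiate twice and let `s → 0`:
`f''(0) * o2 = 1 + f'(0)²`.) -/
def AV_stmt : Prop := ∀ (Ω : Set (ℝ × ℝ)) (R α1 α2 θ δ : ℝ) (f : ℝ → ℝ), IsOpen Ω → 0 < R →
  α1 < α2 → (∀ α, α1 ≤ α → α < α2 → InArc Ω R (cp R α)) → Chart Ω (cp R α2) θ δ f →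
  0 < deriv (deriv f) 0 ∧ 0 < (cp R α2).1 * Real.sin θ - (cp R α2).2 * Real.cos θ

/-- AC. The vorticity of the difference is constant on the boundary near a chart point (NC, CH and
the derivative along the curve `s ↦ pt θ c s (f s)`). -/
def AC_stmt : Prop := ∀ (Ω : Set (ℝ × ℝ)) (ν : ℝ) (a b m n : ℝ × ℝ × ℝ → ℝ) (c : ℝ × ℝ) (θ δ : ℝ)
  (f : ℝ → ℝ), IsOpen Ω → ν ≠ 0 → DM Ω ν a b m n → Chart Ω c θ δ f → 0 < deriv (deriv f) 0 →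
  ∃ ε > 0, ∀ t, ∀ q ∈ frontier Ω ∩ Dsc c ε, vort a b (t, q) = vort a b (t, c)

/-- AN. At some time it is not zero, unless the difference vanishes for all times (AC, HZ, UB, UI). -/
def AN_stmt : Prop := ∀ (Ω : Set (ℝ × ℝ)) (ν : ℝ) (a b m n : ℝ × ℝ × ℝ → ℝ) (c : ℝ × ℝ) (θ δ : ℝ)
  (f : ℝ → ℝ), IsOpen Ω → IsConnected Ω → 0 < ν → DM Ω ν a b m n → Chart Ω c θ δ f →
  0 < deriv (deriv f) 0 → (∃ t, ∃ q ∈ Ω, ¬ (a (t, q) = 0 ∧ b (t, q) = 0)) →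
  ∃ t, vort a b (t, c) ≠ 0

/-- AB. Baire category in time (as CB). -/
def AB_stmt : Prop := ∀ (Ω : Set (ℝ × ℝ)) (m n : ℝ × ℝ × ℝ → ℝ) (c : ℝ × ℝ) (α β : ℝ), α < β →
  Continuous m → Continuous n →
  (∀ t ∈ Ioo α β, ∃ V ∈ 𝓝 c, ∀ q ∈ Ω ∩ V, m (t, q) = 0 ∧ n (t, q) = 0) →
  ∃ α' β' ε : ℝ, α ≤ α' ∧ α' < β' ∧ β' ≤ β ∧ 0 < ε ∧
    ∀ t ∈ Ioo α' β', ∀ q ∈ Ω ∩ Dsc c ε, m (t, q) = 0 ∧ n (t, q) = 0

/-- AW. A time window on which the boundary vorticity near `c` is constant in space and not zero,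
and the mean vanishes in `Ω` near `c` (AC, AN, AL, AB). -/
def AW_stmt : Prop := ∀ (Ω : Set (ℝ × ℝ)) (ν : ℝ) (a b m n : ℝ × ℝ × ℝ → ℝ) (c : ℝ × ℝ) (θ δ : ℝ)
  (f : ℝ → ℝ), IsOpen Ω → IsConnected Ω → 0 < ν → DM Ω ν a b m n → Chart Ω c θ δ f →
  0 < deriv (deriv f) 0 → (∃ t, ∃ q ∈ Ω, ¬ (a (t, q) = 0 ∧ b (t, q) = 0)) →
  ∃ α β ε : ℝ, α < β ∧ 0 < ε ∧
    (∀ t, ∀ q ∈ frontier Ω ∩ Dsc c ε, vort a b (t, q) = vort a b (t, c)) ∧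
    ∀ t ∈ Ioo α β, vort a b (t, c) ≠ 0 ∧ ∀ q ∈ Ω ∩ Dsc c ε, m (t, q) = 0 ∧ n (t, q) = 0

/-- LH. The infinitesimal rotation commutes with the heat operator. -/
def LH_stmt : Prop := ∀ (ν α β : ℝ) (U : Set (ℝ × ℝ)) (a b : ℝ × ℝ × ℝ → ℝ), IsOpen U →
  ContDiff ℝ 3 a → ContDiff ℝ 3 b →
  (∀ t ∈ Ioo α β, ∀ q ∈ U, heat ν a (t, q) = 0 ∧ heat ν b (t, q) = 0) →
  ContDiff ℝ 2 (LA a b) ∧ ContDiff ℝ 2 (LB a b) ∧
  ∀ t ∈ Ioo α β, ∀ q ∈ U, heat ν (LA a b) (t, q) = 0 ∧ heat ν (LB a b) (t, q) = 0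

/-- LC. Zero Cauchy data of the infinitesimal rotation on an arc. (On the arc `a = b = 0`, so, with
`w = vort a b (t, q1)` constant, `R² a_x = -w x y`, `R² a_y = -w y²`, `R² b_x = w x²`, `R² b_y = w x y`,
and `lap a = lap b = 0` (NC). So `LA = LB = 0` on the arc; the derivatives of these identities along
the arc, and `lap a = 0`, give the second derivatives of `a`, `b`, and then the gradient of `LA`, `LB`
is `0`; `lap (LA) = y (lap a)_x - x (lap a)_y - lap b = 0` on the arc. Then as in KT: all second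
derivatives vanish.) -/
def LC_stmt : Prop := ∀ (Ω : Set (ℝ × ℝ)) (ν R α β δ : ℝ) (a b m n : ℝ × ℝ × ℝ → ℝ) (q1 : ℝ × ℝ),
  IsOpen Ω → ν ≠ 0 → DM Ω ν a b m n → 0 < R → q1 ∈ Circ R → 0 < δ →
  (∀ p ∈ Dsc q1 δ, (p ∈ Ω ↔ p.1 ^ 2 + p.2 ^ 2 < R ^ 2)) →
  (∀ t ∈ Ioo α β, ∀ q ∈ frontier Ω ∩ Dsc q1 δ, vort a b (t, q) = vort a b (t, q1)) →
  ∀ t ∈ Ioo α β, ∀ q ∈ Circ R ∩ Dsc q1 δ, ∀ F ∈ ({LA a b, LB a b} : Set (ℝ × ℝ × ℝ → ℝ)),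
    F (t, q) = 0 ∧ fderiv ℝ F (t, q) = 0 ∧ fderiv ℝ (fderiv ℝ F) (t, q) = 0

/-- LU. So the infinitesimal rotation vanishes near the arc (GL with `A = univ ×ˢ {|p| < R}`,
`O = Ioo α β ×ˢ Dsc q1 δ`, and YI on the disc, from the outside). -/
def LU_stmt : Prop := ∀ (ν R α β δ : ℝ) (v w : ℝ × ℝ × ℝ → ℝ) (q1 : ℝ × ℝ), 0 < ν → 0 < R →
  q1 ∈ Circ R → 0 < δ → ContDiff ℝ 2 v → ContDiff ℝ 2 w →
  (∀ t ∈ Ioo α β, ∀ q ∈ Circ R ∩ Dsc q1 δ, ∀ F ∈ ({v, w} : Set (ℝ × ℝ × ℝ → ℝ)),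
    F (t, q) = 0 ∧ fderiv ℝ F (t, q) = 0 ∧ fderiv ℝ (fderiv ℝ F) (t, q) = 0) →
  (∀ t ∈ Ioo α β, ∀ q ∈ Dsc q1 δ, q.1 ^ 2 + q.2 ^ 2 < R ^ 2 →
    heat ν v (t, q) = 0 ∧ heat ν w (t, q) = 0) →
  ∀ t ∈ Ioo α β, ∀ q ∈ Dsc q1 δ, q.1 ^ 2 + q.2 ^ 2 < R ^ 2 → v (t, q) = 0 ∧ w (t, q) = 0

/-- LW. A connected piece of `Ω` near a chart point: the image of
`{(s, r) | |s| < η, f s < r < η'}`. -/
def LW_stmt : Prop := ∀ (Ω : Set (ℝ × ℝ)) (c : ℝ × ℝ) (θ δ : ℝ) (f : ℝ → ℝ), IsOpen Ω →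
  Chart Ω c θ δ f → ∀ ε > 0, ∃ W : Set (ℝ × ℝ), IsOpen W ∧ IsPreconnected W ∧
    W ⊆ Ω ∩ Dsc c ε ∧ ∃ ε' > 0, Ω ∩ Dsc c ε' ⊆ W

/-- LF. If the infinitesimal rotation of the difference vanishes in `Ω` near `c`, and the boundary
vorticity does not, then the distance to the origin is constant on the boundary near `c`.
(By continuity `y ∇a·e_x - x ∇a·e_y = 0`, same for `b`, on the boundary near `c`; the derivatives of
`a`, `b` along the boundary curve `p(s)` vanish; one of `∇a`, `∇b` is not zero at `p(s)`, so `p'(s)` is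
parallel to `(y, -x)`, and `(|p|²)' = 0`.) -/
def LF_stmt : Prop := ∀ (Ω : Set (ℝ × ℝ)) (ν : ℝ) (a b m n : ℝ × ℝ × ℝ → ℝ) (c : ℝ × ℝ)
  (θ δ t ε : ℝ) (f : ℝ → ℝ), IsOpen Ω → DM Ω ν a b m n → Chart Ω c θ δ f →
  0 < deriv (deriv f) 0 → 0 < ε →
  (∀ q ∈ Ω ∩ Dsc c ε, LA a b (t, q) = 0 ∧ LB a b (t, q) = 0) → vort a b (t, c) ≠ 0 →
  ∃ η > 0, ∀ s, |s| < η →
    (pt θ c s (f s)).1 ^ 2 + (pt θ c s (f s)).2 ^ 2 = c.1 ^ 2 + c.2 ^ 2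

/-- LE. Then `c` is an arc point. (`r ↦ |pt θ c s r|²` is strictly decreasing for small `s`, `r`.) -/
def LE_stmt : Prop := ∀ (Ω : Set (ℝ × ℝ)) (R : ℝ) (c : ℝ × ℝ) (θ δ : ℝ) (f : ℝ → ℝ), 0 < R →
  c ∈ Circ R → Chart Ω c θ δ f → 0 < c.1 * Real.sin θ - c.2 * Real.cos θ →
  (∃ η > 0, ∀ s, |s| < η →
    (pt θ c s (f s)).1 ^ 2 + (pt θ c s (f s)).2 ^ 2 = c.1 ^ 2 + c.2 ^ 2) → InArc Ω R c

/-- GD. Injectivity for domains whose boundary contains an arc of a circle, and every force. -/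
def GD_stmt : Prop := ∀ (Ω : Set (ℝ × ℝ)) (ν B R : ℝ) (g h : ℝ × ℝ → ℝ)
  (a1 b1 p1 a2 b2 p2 : ℝ × ℝ × ℝ → ℝ), IsOpen Ω → IsConnected Ω → 0 < R →
  (∃ q ∈ Circ R, InArc Ω R q) →
  (∀ q ∈ frontier Ω ∩ Circ R, ∃ (θ δ : ℝ) (f : ℝ → ℝ), Chart Ω q θ δ f) → 0 < ν →
  ContDiff ℝ 1 g → ContDiff ℝ 1 h → Reg B a1 b1 p1 → Reg B a2 b2 p2 →
  Sol Ω ν g h univ a1 b1 p1 → Sol Ω ν g h univ a2 b2 p2 → (∀ t, ∀ q ∈ Ω, p1 (t, q) = p2 (t, q)) →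
  ∀ t, ∀ q ∈ Ω, a1 (t, q) = a2 (t, q) ∧ b1 (t, q) = b2 (t, q)

end NS
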