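import Pool.Agent.helper29.NS.DefsC

/-!
# Project `ns:` (MP_b9b054_an), part C: domains whose outer boundary is a circle, every force

Every `XX_stmt : Prop` is one module `ns:XX`.  Paper proof: team store, `MP_b9b054_circle.md`.
-/

namespace NS

open MeasureTheory Filter Topology Set

/-! ## Unique continuation on time windows -/

/-- EC. The elliptic Carleman estimate with the same weight (as CE: adapt WT, CZ without the time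
terms; `conj` is replaced by `-ΔW + 2τ∇φ·∇W + τΔφ W - τ²|∇φ|² W`, `S = -ΔW - (τ²|∇φ|² + τ m) W`,
`A = 2τ∇φ·∇W + τ(Δφ + m) W`). -/
def EC_stmt : Prop := ∀ (l ε R : ℝ), 0 < l → 0 < ε → ε < R → 2 ≤ l * ε ^ 2 →
  ∃ C : ℝ, ∃ τ0 : ℝ, 0 < C ∧ 1 ≤ τ0 ∧ ∀ τ, τ0 ≤ τ → ∀ w : ℝ × ℝ × ℝ → ℝ, ContDiff ℝ 2 w →
  HasCompactSupport w → (∀ z, w z ≠ 0 → |z.1| ≤ 2 ∧ ε ^ 2 ≤ rh z ∧ rh z ≤ R ^ 2) →
  τ ^ 3 * (∫ z, Real.exp (2 * τ * wt l z) * w z ^ 2)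
    + τ * (∫ z, Real.exp (2 * τ * wt l z) * (dx w z ^ 2 + dy w z ^ 2))
  ≤ C * ∫ z, Real.exp (2 * τ * wt l z) * lap w z ^ 2

/-- YZ. UZ on the time window `|t| < 3` (adapt `helper93/NS/UZ.lean` and CX: the cutoff function is
supported in `|t| ≤ 2`). -/
def YZ_stmt : Prop := ∀ (R ε ν K : ℝ) (v w : ℝ × ℝ × ℝ → ℝ), 0 < ε → ε < R → 0 < ν →
  ContDiffOn ℝ 2 v (Ioo (-3) 3 ×ˢ Dsc 0 R) → ContDiffOn ℝ 2 w (Ioo (-3) 3 ×ˢ Dsc 0 R) →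
  (∀ t ∈ Ioo (-3 : ℝ) 3, ∀ q ∈ Dsc 0 R, |heat ν v (t, q)| + |heat ν w (t, q)| ≤ K * (|v (t, q)|
    + |w (t, q)| + |dx v (t, q)| + |dy v (t, q)| + |dx w (t, q)| + |dy w (t, q)|)) →
  (∀ t ∈ Ioo (-3 : ℝ) 3, ∀ q ∈ Dsc 0 ε, v (t, q) = 0 ∧ w (t, q) = 0) →
  ∀ q ∈ Dsc 0 R, v (0, q) = 0 ∧ w (0, q) = 0

/-- YI. Unique continuation on a time window, connected open set (from YZ: translation, scaling in
time `v (t0 + δ s / 3, q)`, `ν' = ν δ / 3`, and the open-closed argument as in UI). -/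
def YI_stmt : Prop := ∀ (O : Set (ℝ × ℝ)) (α β ν K : ℝ) (v w : ℝ × ℝ × ℝ → ℝ), IsOpen O →
  IsPreconnected O → 0 < ν → ContDiffOn ℝ 2 v (Ioo α β ×ˢ O) → ContDiffOn ℝ 2 w (Ioo α β ×ˢ O) →
  (∀ t ∈ Ioo α β, ∀ q ∈ O, |heat ν v (t, q)| + |heat ν w (t, q)| ≤ K * (|v (t, q)| + |w (t, q)|
    + |dx v (t, q)| + |dy v (t, q)| + |dx w (t, q)| + |dy w (t, q)|)) →
  (∃ U : Set (ℝ × ℝ), IsOpen U ∧ U.Nonempty ∧ U ⊆ O ∧
    ∀ t ∈ Ioo α β, ∀ q ∈ U, v (t, q) = 0 ∧ w (t, q) = 0) →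
  ∀ t ∈ Ioo α β, ∀ q ∈ O, v (t, q) = 0 ∧ w (t, q) = 0

/-- ZZ. The same for a system: two functions with Laplace principal part and one with heat
principal part (Carleman estimates EC for `χ v`, `χ w` and CE for `χ ζ`, added; everything on the
right is absorbed for large `τ`). -/
def ZZ_stmt : Prop := ∀ (R ε ν K : ℝ) (v w ζ : ℝ × ℝ × ℝ → ℝ), 0 < ε → ε < R → 0 < ν →
  ContDiffOn ℝ 2 v (Ioo (-3) 3 ×ˢ Dsc 0 R) → ContDiffOn ℝ 2 w (Ioo (-3) 3 ×ˢ Dsc 0 R) →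
  ContDiffOn ℝ 2 ζ (Ioo (-3) 3 ×ˢ Dsc 0 R) →
  (∀ t ∈ Ioo (-3 : ℝ) 3, ∀ q ∈ Dsc 0 R,
    |lap v (t, q)| + |lap w (t, q)| + |heat ν ζ (t, q)| ≤ K * XX v w ζ (t, q)) →
  (∀ t ∈ Ioo (-3 : ℝ) 3, ∀ q ∈ Dsc 0 ε, v (t, q) = 0 ∧ w (t, q) = 0 ∧ ζ (t, q) = 0) →
  ∀ q ∈ Dsc 0 R, v (0, q) = 0 ∧ w (0, q) = 0 ∧ ζ (0, q) = 0

/-- ZI. From ZZ as YI from YZ. -/
def ZI_stmt : Prop := ∀ (O : Set (ℝ × ℝ)) (α β ν K : ℝ) (v w ζ : ℝ × ℝ × ℝ → ℝ), IsOpen O →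
  IsPreconnected O → 0 < ν → ContDiffOn ℝ 2 v (Ioo α β ×ˢ O) → ContDiffOn ℝ 2 w (Ioo α β ×ˢ O) →
  ContDiffOn ℝ 2 ζ (Ioo α β ×ˢ O) →
  (∀ t ∈ Ioo α β, ∀ q ∈ O,
    |lap v (t, q)| + |lap w (t, q)| + |heat ν ζ (t, q)| ≤ K * XX v w ζ (t, q)) →
  (∃ U : Set (ℝ × ℝ), IsOpen U ∧ U.Nonempty ∧ U ⊆ O ∧
    ∀ t ∈ Ioo α β, ∀ q ∈ U, v (t, q) = 0 ∧ w (t, q) = 0 ∧ ζ (t, q) = 0) →
  ∀ t ∈ Ioo α β, ∀ q ∈ O, v (t, q) = 0 ∧ w (t, q) = 0 ∧ ζ (t, q) = 0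

/-! ## Circles and rotations -/

/-- KR. Connectedness: exterior of a disc and annulus (continuous images of products of
intervals). -/
def KR_stmt : Prop := ∀ (r R : ℝ), 0 ≤ r → r < R →
  IsOpen {q : ℝ × ℝ | r ^ 2 < q.1 ^ 2 + q.2 ^ 2} ∧ IsPreconnected {q : ℝ × ℝ | r ^ 2 < q.1 ^ 2 + q.2 ^ 2} ∧
  IsOpen (Ring r R) ∧ IsPreconnected (Ring r R) ∧ (Ring r R).Nonempty

/-- KF. The circle is part of the boundary, and its points are strictly convex boundary points.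
(Chart at `R (cos β, sin β)`: `θ = β + π/2`, `f s = R - √(R² - χ s²)` with a smooth cutoff `χ`, near
`0` the circle.) -/
def KF_stmt : Prop := ∀ (Ω : Set (ℝ × ℝ)) (R : ℝ), IsOpen Ω → OuterCircle Ω R →
  Bornology.IsBounded Ω ∧ ∀ q ∈ Circ R, q ∈ frontier Ω ∧ ConvexAt Ω q

/-- KT. A scalar function which, with its gradient and Laplacian, vanishes on the circle for all
times of an open interval, has there zero first and second derivatives. -/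
def KT_stmt : Prop := ∀ (R α β : ℝ) (F : ℝ × ℝ × ℝ → ℝ), 0 < R → ContDiff ℝ 2 F →
  (∀ t ∈ Ioo α β, ∀ q ∈ Circ R, F (t, q) = 0 ∧ dx F (t, q) = 0 ∧ dy F (t, q) = 0 ∧
    lap F (t, q) = 0) →
  ∀ t ∈ Ioo α β, ∀ q ∈ Circ R, F (t, q) = 0 ∧ fderiv ℝ F (t, q) = 0 ∧
    fderiv ℝ (fderiv ℝ F) (t, q) = 0

/-- KB. Unique continuation from the circle (from KT, GL, KR, YI: extension by zero outside the
disc; the set `ρ < |q|` is connected). -/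
def KB_stmt : Prop := ∀ (R ρ α β ν K : ℝ) (v w : ℝ × ℝ × ℝ → ℝ), 0 ≤ ρ → ρ < R → 0 < ν →
  ContDiff ℝ 2 v → ContDiff ℝ 2 w →
  (∀ t ∈ Ioo α β, ∀ q ∈ Circ R, v (t, q) = 0 ∧ dx v (t, q) = 0 ∧ dy v (t, q) = 0 ∧
    lap v (t, q) = 0) →
  (∀ t ∈ Ioo α β, ∀ q ∈ Circ R, w (t, q) = 0 ∧ dx w (t, q) = 0 ∧ dy w (t, q) = 0 ∧
    lap w (t, q) = 0) →
  (∀ t ∈ Ioo α β, ∀ q ∈ Ring ρ R, |heat ν v (t, q)| + |heat ν w (t, q)| ≤ K * (|v (t, q)|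
    + |w (t, q)| + |dx v (t, q)| + |dy v (t, q)| + |dx w (t, q)| + |dy w (t, q)|)) →
  ∀ t ∈ Ioo α β, ∀ q ∈ Ring ρ R, v (t, q) = 0 ∧ w (t, q) = 0

/-- KS. The same for the system (from KT, GL, KR, ZI). -/
def KS_stmt : Prop := ∀ (R ρ α β ν K : ℝ) (v w ζ : ℝ × ℝ × ℝ → ℝ), 0 ≤ ρ → ρ < R → 0 < ν →
  ContDiff ℝ 2 v → ContDiff ℝ 2 w → ContDiff ℝ 2 ζ →
  (∀ F ∈ ({v, w, ζ} : Set (ℝ × ℝ × ℝ → ℝ)), ∀ t ∈ Ioo α β, ∀ q ∈ Circ R,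
    F (t, q) = 0 ∧ dx F (t, q) = 0 ∧ dy F (t, q) = 0 ∧ lap F (t, q) = 0) →
  (∀ t ∈ Ioo α β, ∀ q ∈ Ring ρ R,
    |lap v (t, q)| + |lap w (t, q)| + |heat ν ζ (t, q)| ≤ K * XX v w ζ (t, q)) →
  ∀ t ∈ Ioo α β, ∀ q ∈ Ring ρ R, v (t, q) = 0 ∧ w (t, q) = 0 ∧ ζ (t, q) = 0

/-- RO. Calculus of rotated functions. -/
def RO_stmt : Prop := ∀ (α : ℝ) (f a b : ℝ × ℝ × ℝ → ℝ), ContDiff ℝ 2 f → ContDiff ℝ 2 a →
  ContDiff ℝ 2 b → ContDiff ℝ 2 (rs α f) ∧ ContDiff ℝ 2 (rfa α a b) ∧ ContDiff ℝ 2 (rfb α a b) ∧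
  ∀ z : ℝ × ℝ × ℝ,
    dt (rs α f) z = rs α (dt f) z ∧
    dx (rs α f) z = Real.cos α * rs α (dx f) z - Real.sin α * rs α (dy f) z ∧
    dy (rs α f) z = Real.sin α * rs α (dx f) z + Real.cos α * rs α (dy f) z ∧
    lap (rs α f) z = rs α (lap f) z ∧
    lap (rfa α a b) z = rfa α (lap a) (lap b) z ∧ lap (rfb α a b) z = rfb α (lap a) (lap b) z ∧
    dt (rfa α a b) z = rfa α (dt a) (dt b) z ∧ dt (rfb α a b) z = rfb α (dt a) (dt b) z ∧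
    dx (rfa α a b) z + dy (rfb α a b) z = rs α (fun z => dx a z + dy b z) z ∧
    vort (rfa α a b) (rfb α a b) z = rs α (vort a b) z ∧
    rfa α a b z * dx (rs α f) z + rfb α a b z * dy (rs α f) z
      = rs α (fun z => a z * dx f z + b z * dy f z) z ∧
    |rfa α a b z| ≤ |a (z.1, rot (-α) z.2)| + |b (z.1, rot (-α) z.2)|

/-- RX. Rotations preserve circles and annuli; `rot α (rot (-α) q) = q`; a point of the annulus is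
`rot θ (r, 0)`. -/
def RX_stmt : Prop := ∀ (α : ℝ) (q : ℝ × ℝ),
  (rot α q).1 ^ 2 + (rot α q).2 ^ 2 = q.1 ^ 2 + q.2 ^ 2 ∧ rot α (rot (-α) q) = q ∧
  rot (-α) (rot α q) = q ∧ ∃ θ : ℝ, q = rot θ (Real.sqrt (q.1 ^ 2 + q.2 ^ 2), 0)

/-- KG. The gradient at the circle of a field which vanishes on the circle: with
`x = (x1, x2) ∈ Circ R`, `w = vort a b (t, x)` and zero divergence,
`R² a_x = -w x1 x2`, `R² a_y = -w x2²`, `R² b_x = w x1²`, `R² b_y = w x1 x2`. -/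
def KG_stmt : Prop := ∀ (R t : ℝ) (a b : ℝ × ℝ × ℝ → ℝ), 0 < R → ContDiff ℝ 2 a →
  ContDiff ℝ 2 b → (∀ q ∈ Circ R, a (t, q) = 0 ∧ b (t, q) = 0) →
  (∀ q ∈ Circ R, dx a (t, q) + dy b (t, q) = 0) → ∀ q ∈ Circ R,
  R ^ 2 * dx a (t, q) = -(vort a b (t, q) * q.1 * q.2) ∧
  R ^ 2 * dy a (t, q) = -(vort a b (t, q) * q.2 ^ 2) ∧
  R ^ 2 * dx b (t, q) = vort a b (t, q) * q.1 ^ 2 ∧
  R ^ 2 * dy b (t, q) = vort a b (t, q) * q.1 * q.2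

/-- KC. A function with zero gradient on the circle is constant on the circle. -/
def KC_stmt : Prop := ∀ (R t : ℝ) (f : ℝ × ℝ × ℝ → ℝ), 0 < R → ContDiff ℝ 1 f →
  (∀ q ∈ Circ R, dx f (t, q) = 0 ∧ dy f (t, q) = 0) → ∀ q ∈ Circ R, f (t, q) = f (t, (R, 0))

/-! ## The situation -/

/-- FU. Forward uniqueness for the difference (maximum principle for `e^{-λ t} (a² + b²)`,
`λ > 4 K`, on `closure Ω × [t0, T]`). -/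
def FU_stmt : Prop := ∀ (Ω : Set (ℝ × ℝ)) (ν : ℝ) (a b m n : ℝ × ℝ × ℝ → ℝ) (t0 : ℝ), IsOpen Ω →
  Bornology.IsBounded Ω → 0 < ν → DM Ω ν a b m n → (∀ q ∈ Ω, a (t0, q) = 0 ∧ b (t0, q) = 0) →
  ∀ t, t0 ≤ t → ∀ q ∈ Ω, a (t, q) = 0 ∧ b (t, q) = 0

/-- CS. The structure `CD` from two complete trajectories with the same pressure which differ at
the time `t1` (from DE, DT, VE, CR, KF, FU). -/
def CS_stmt : Prop := ∀ (Ω : Set (ℝ × ℝ)) (ν B R t1 : ℝ) (g h : ℝ × ℝ → ℝ)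
  (a1 b1 p1 a2 b2 p2 : ℝ × ℝ × ℝ → ℝ), IsOpen Ω → IsConnected Ω → OuterCircle Ω R → 0 < ν →
  ContDiff ℝ 1 g → ContDiff ℝ 1 h → Reg B a1 b1 p1 → Reg B a2 b2 p2 →
  Sol Ω ν g h univ a1 b1 p1 → Sol Ω ν g h univ a2 b2 p2 → (∀ t, ∀ q ∈ Ω, p1 (t, q) = p2 (t, q)) →
  (∃ q ∈ Ω, ¬ (a1 (t1, q) = a2 (t1, q) ∧ b1 (t1, q) = b2 (t1, q))) →
  CD Ω ν R t1 (curl g h) a1 b1 a2 b2 (fun z => a1 z - a2 z) (fun z => b1 z - b2 z)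
    (fun z => (a1 z + a2 z) / 2) (fun z => (b1 z + b2 z) / 2)

/-- CN. The vorticity of the difference on the circle depends only on the time, and its zero set
contains no interval of times before `t1` (otherwise, by KB, the difference vanishes near the
circle, and by YI in `Ω`, on a time interval; KC and NC for the first claim, KG for the gradient,
NC for the Laplacian). -/
def CN_stmt : Prop := ∀ (Ω : Set (ℝ × ℝ)) (ν R t1 : ℝ) (G : ℝ × ℝ → ℝ)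
  (a1 b1 a2 b2 a b m n : ℝ × ℝ × ℝ → ℝ), CD Ω ν R t1 G a1 b1 a2 b2 a b m n →
  (∀ t, ∀ q ∈ Circ R, vort a b (t, q) = vort a b (t, (R, 0))) ∧
  ∀ α β, α < β → β ≤ t1 → ∃ t ∈ Ioo α β, vort a b (t, (R, 0)) ≠ 0

/-- CV. At a time with nonzero boundary vorticity the mean vanishes in an annulus at the circle
(AL at every point of the circle, compactness). -/
def CV_stmt : Prop := ∀ (Ω : Set (ℝ × ℝ)) (ν R t1 : ℝ) (G : ℝ × ℝ → ℝ)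
  (a1 b1 a2 b2 a b m n : ℝ × ℝ × ℝ → ℝ), CD Ω ν R t1 G a1 b1 a2 b2 a b m n →
  ∀ t, vort a b (t, (R, 0)) ≠ 0 → ∃ ε > 0, ε < R ∧ Ring (R - ε) R ⊆ Ω ∧
    ∀ q ∈ Ring (R - ε) R, m (t, q) = 0 ∧ n (t, q) = 0

/-- CF. The facts on the circle for all `t < t1`: the vorticity of the mean and its gradient vanish
(CV at a dense set of times, closure lemma, continuity), the gradient of the vorticity of the
difference vanishes (NC). -/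
def CF_stmt : Prop := ∀ (Ω : Set (ℝ × ℝ)) (ν R t1 : ℝ) (G : ℝ × ℝ → ℝ)
  (a1 b1 a2 b2 a b m n : ℝ × ℝ × ℝ → ℝ), CD Ω ν R t1 G a1 b1 a2 b2 a b m n →
  ∀ t < t1, ∀ q ∈ Circ R, vort m n (t, q) = 0 ∧ dx (vort m n) (t, q) = 0 ∧
    dy (vort m n) (t, q) = 0 ∧ dx (vort a b) (t, q) = 0 ∧ dy (vort a b) (t, q) = 0

/-- CB. Baire category in the time variable: a neighbourhood of uniform size on a smaller time
interval (`dense_iUnion_interior_of_closed`). -/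
def CB_stmt : Prop := ∀ (m n : ℝ × ℝ × ℝ → ℝ) (ρ α β : ℝ), 0 < ρ → α < β → Continuous m →
  Continuous n →
  (∀ t ∈ Ioo α β, ∃ ε > 0, ε < ρ ∧ ∀ q ∈ Ring (ρ - ε) ρ, m (t, q) = 0 ∧ n (t, q) = 0) →
  ∃ α' β' ε : ℝ, α ≤ α' ∧ α' < β' ∧ β' ≤ β ∧ 0 < ε ∧ ε < ρ ∧
    ∀ t ∈ Ioo α' β', ∀ q ∈ Ring (ρ - ε) ρ, m (t, q) = 0 ∧ n (t, q) = 0

/-- CU. Rotation invariance on a time window: if the mean vanishes on `(α, β) × Ring ρ R`, then the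
difference is rotation invariant there (KB for `a - rfa`, `b - rfb`; both fields solve the heat
equation; the Cauchy data on the circle agree by KG, CN, NC). -/
def CU_stmt : Prop := ∀ (Ω : Set (ℝ × ℝ)) (ν R t1 : ℝ) (G : ℝ × ℝ → ℝ)
  (a1 b1 a2 b2 a b m n : ℝ × ℝ × ℝ → ℝ), CD Ω ν R t1 G a1 b1 a2 b2 a b m n →
  ∀ ρ α β, 0 ≤ ρ → ρ < R → Ring ρ R ⊆ Ω →
  (∀ t ∈ Ioo α β, ∀ q ∈ Ring ρ R, m (t, q) = 0 ∧ n (t, q) = 0) → RI (Ioo α β) (Ring ρ R) a b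

/-- RR. A rotation invariant divergence free field which vanishes on the circle is azimuthal. -/
def RR_stmt : Prop := ∀ (R ρ t : ℝ) (a b : ℝ × ℝ × ℝ → ℝ), 0 ≤ ρ → ρ < R → ContDiff ℝ 2 a →
  ContDiff ℝ 2 b → RI {t} (Ring ρ R) a b → (∀ q ∈ Ring ρ R, dx a (t, q) + dy b (t, q) = 0) →
  (∀ q ∈ Circ R, a (t, q) = 0 ∧ b (t, q) = 0) →
  ∀ q ∈ Ring ρ R, q.1 * a (t, q) + q.2 * b (t, q) = 0 ∧
    a (t, q) * dx (vort a b) (t, q) + b (t, q) * dy (vort a b) (t, q) = 0 ∧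
    (∀ r, ρ < r → r < R → a (t, (r, 0)) = 0 ∧ dx a (t, (r, 0)) = 0 ∧
      r * dy a (t, (r, 0)) = -b (t, (r, 0)) ∧ dy b (t, (r, 0)) = 0 ∧
      r ^ 2 * dy (dy b) (t, (r, 0)) = r * dx b (t, (r, 0)) - b (t, (r, 0)))

/-- CG. If the mean vanishes on `(α, β) × Ring ρ R` then the force is curl free on `Ring ρ R` (CU, RR;
the average of the two vorticity equations). -/
def CG_stmt : Prop := ∀ (Ω : Set (ℝ × ℝ)) (ν R t1 : ℝ) (G : ℝ × ℝ → ℝ)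
  (a1 b1 a2 b2 a b m n : ℝ × ℝ × ℝ → ℝ), CD Ω ν R t1 G a1 b1 a2 b2 a b m n →
  ∀ ρ α β, 0 ≤ ρ → ρ < R → α < β → Ring ρ R ⊆ Ω →
  (∀ t ∈ Ioo α β, ∀ q ∈ Ring ρ R, m (t, q) = 0 ∧ n (t, q) = 0) → ∀ q ∈ Ring ρ R, G q = 0

/-- CX1. If the force is curl free on `Ring ρ R`, then both velocity fields are rotation invariant
there for `t < t1` (KS for `v = a_i - rfa`, `w = b_i - rfb`, `ζ = vort a_i b_i - rs (vort a_i b_i)`;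
`Δv = -ζ_y`, `Δw = ζ_x`, `heat ζ = -(u·∇ζ + (v, w)·∇(rs ω))`; Cauchy data on the circle by CF, CN, KG:
`vort a_i b_i = ±(1/2) vort a b (t, (R, 0))` there, zero gradient, and
`ν lap (vort a_i b_i) = dt (vort a_i b_i)`, the same at all points of the circle). -/
def CX1_stmt : Prop := ∀ (Ω : Set (ℝ × ℝ)) (ν R t1 : ℝ) (G : ℝ × ℝ → ℝ)
  (a1 b1 a2 b2 a b m n : ℝ × ℝ × ℝ → ℝ), CD Ω ν R t1 G a1 b1 a2 b2 a b m n →
  ∀ ρ, 0 ≤ ρ → ρ < R → Ring ρ R ⊆ Ω → (∀ q ∈ Ring ρ R, G q = 0) →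
  RI (Iio t1) (Ring ρ R) a1 b1 ∧ RI (Iio t1) (Ring ρ R) a2 b2

/-- CX2. Then the annulus is swept: `(a, b)`, `(m, n)` are rotation invariant, by `tr` at `(r, 0)` the
product `b(t,(r,0)) n(t,(r,0))` is constant in `r`, so zero; if `n (t0, (r0, 0)) ≠ 0` then `b`, so the
difference, vanishes in an open set near `|q| = r0`, `t` near `t0`, and YI contradicts `nz`. -/
def CX2_stmt : Prop := ∀ (Ω : Set (ℝ × ℝ)) (ν R t1 : ℝ) (G : ℝ × ℝ → ℝ)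
  (a1 b1 a2 b2 a b m n : ℝ × ℝ × ℝ → ℝ), CD Ω ν R t1 G a1 b1 a2 b2 a b m n →
  ∀ ρ, 0 ≤ ρ → ρ < R → Ring ρ R ⊆ Ω → RI (Iio t1) (Ring ρ R) a1 b1 →
  RI (Iio t1) (Ring ρ R) a2 b2 → Swept Ω R t1 ρ a b m n

/-! ## The energy identity and the ring energy lemma -/

/-- EE. One dimensional energy estimate for `V_t = ν (V_rr + V_r / r - V / r²)` on `(ρ, R)`,
`t < t1`, `V (t, R) = 0`, `-V V_r ≤ η` at `r = ρ`: `E' ≤ 2νρη - (2ν/R²) E`, `E` bounded as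
`t → -∞`. Here `px` is the `t` derivative and `py` the `r` derivative. -/
def EE_stmt : Prop := ∀ (ν ρ R t1 η K : ℝ) (V : ℝ × ℝ → ℝ), 0 < ν → 0 < ρ → ρ < R → 0 ≤ η →
  ContDiff ℝ 2 V → (∀ z, |V z| ≤ K) →
  (∀ t < t1, ∀ r, ρ < r → r < R →
    px V (t, r) = ν * (py (py V) (t, r) + py V (t, r) / r - V (t, r) / r ^ 2)) →
  (∀ t < t1, V (t, R) = 0) → (∀ t < t1, -(V (t, ρ) * py V (t, ρ)) ≤ η) →
  ∀ t < t1, ∫ r in ρ..R, V (t, r) ^ 2 * r ≤ R ^ 2 * ρ * η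

/-- EV. The equation of `V (t, r) = b (t, (r, 0))` in a swept annulus (heat equation for `b` at
`(r, 0)`, RR). -/
def EV_stmt : Prop := ∀ (Ω : Set (ℝ × ℝ)) (ν R t1 : ℝ) (G : ℝ × ℝ → ℝ)
  (a1 b1 a2 b2 a b m n : ℝ × ℝ × ℝ → ℝ), CD Ω ν R t1 G a1 b1 a2 b2 a b m n →
  ∀ ρ, 0 ≤ ρ → ρ < R → Swept Ω R t1 ρ a b m n →
  ContDiff ℝ 2 (fun z : ℝ × ℝ => b (z.1, (z.2, 0))) ∧
  (∀ t < t1, ∀ r, ρ < r → r < R → px (fun z : ℝ × ℝ => b (z.1, (z.2, 0))) (t, r)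
    = ν * (py (py (fun z : ℝ × ℝ => b (z.1, (z.2, 0)))) (t, r)
      + py (fun z : ℝ × ℝ => b (z.1, (z.2, 0))) (t, r) / r - b (t, (r, 0)) / r ^ 2)) ∧
  (∀ t r, py (fun z : ℝ × ℝ => b (z.1, (z.2, 0))) (t, r) = dx b (t, (r, 0)))

/-- EH. In a swept annulus `ρ > 0`, there is a time `t < t1` with `b b_x (t, (ρ, 0)) < 0` (EE with
`η = 0`, EV; otherwise the difference vanishes in the annulus, and by YI in `Ω`). -/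
def EH_stmt : Prop := ∀ (Ω : Set (ℝ × ℝ)) (ν R t1 : ℝ) (G : ℝ × ℝ → ℝ)
  (a1 b1 a2 b2 a b m n : ℝ × ℝ × ℝ → ℝ), CD Ω ν R t1 G a1 b1 a2 b2 a b m n →
  ∀ ρ, 0 < ρ → ρ < R → Swept Ω R t1 ρ a b m n →
  ∃ t < t1, b (t, (ρ, 0)) * dx b (t, (ρ, 0)) < 0

/-- PE. Periodic energy lemma (from DJ with `-K`; integrate `e^{K s} J` over
`[0, 2π] × [s1, s0]`; no condition on `B`). -/
def PE_stmt : Prop := ∀ (P Q A B C : ℝ × ℝ → ℝ) (s0 δ : ℝ), 0 < δ → ContDiff ℝ 1 P →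
  ContDiff ℝ 1 Q → ContDiff ℝ 1 A → ContDiff ℝ 1 B → ContDiff ℝ 1 C →
  (∀ F ∈ ({P, Q, A, B, C} : Set (ℝ × ℝ → ℝ)), ∀ θ s, F (θ + 2 * Real.pi, s) = F (θ, s)) →
  (∀ θ s, s0 - δ < s → s < s0 → py P (θ, s) = px Q (θ, s)) →
  (∀ θ s, s0 - δ < s → s < s0 →
    px (fun z => A z * P z + B z * Q z) (θ, s) + py (fun z => B z * P z + C z * Q z) (θ, s) = 0) →
  (∀ θ, P (θ, s0) = 0 ∧ Q (θ, s0) = 0) → (∀ θ, A (θ, s0) < 0 ∧ 0 < C (θ, s0)) →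
  ∃ ε > 0, ∀ θ s, s0 - ε < s → s < s0 → P (θ, s) = 0 ∧ Q (θ, s) = 0

/-- PP. Regularity and periodicity of the log-polar coefficients. -/
def PP_stmt : Prop := ∀ (a b m n : ℝ × ℝ → ℝ), ContDiff ℝ 2 a → ContDiff ℝ 2 b →
  ContDiff ℝ 2 m → ContDiff ℝ 2 n →
  ContDiff ℝ 1 (lA a b) ∧ ContDiff ℝ 1 (lB a b) ∧ ContDiff ℝ 1 (lC a b) ∧
  ContDiff ℝ 1 (lP m n) ∧ ContDiff ℝ 1 (lQ m n) ∧
  ∀ F ∈ ({lP m n, lQ m n, lA a b, lB a b, lC a b} : Set (ℝ × ℝ → ℝ)),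
    ∀ θ s, F (θ + 2 * Real.pi, s) = F (θ, s)

/-- PQ. The equations in log-polar coordinates (`div (m, n) = 0` gives the first one; the second
expression is `-e^{2s} tr`, using `a_x + b_y = 0` and its derivatives). -/
def PQ_stmt : Prop := ∀ (a b m n : ℝ × ℝ → ℝ) (U : Set (ℝ × ℝ)), ContDiff ℝ 2 a →
  ContDiff ℝ 2 b → ContDiff ℝ 2 m → ContDiff ℝ 2 n → IsOpen U →
  (∀ q ∈ U, px a q + py b q = 0 ∧ px m q + py n q = 0 ∧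
    px m q * px a q + py m q * px b q + px n q * py a q + py n q * py b q = 0) →
  ∀ θ s, lp (θ, s) ∈ U →
    py (lP m n) (θ, s) = px (lQ m n) (θ, s) ∧
    px (fun z => lA a b z * lP m n z + lB a b z * lQ m n z) (θ, s)
      + py (fun z => lB a b z * lP m n z + lC a b z * lQ m n z) (θ, s) = 0

/-- PR. Ring energy lemma (from PE, PP, PQ; if `κ1 < 0 < κ2` use `(-a, -b)`). The conditions on the
circle say that the gradient of `(a, b)` is the one of an azimuthal field `V e_θ` with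
`V/r = κ1`, `V_r = κ2`: then `lA = κ2`, `lC = κ1` on the circle. -/
def PR_stmt : Prop := ∀ (a b m n : ℝ × ℝ → ℝ) (ρ δ κ1 κ2 : ℝ), 0 < ρ → 0 < δ → δ < ρ →
  ContDiff ℝ 2 a → ContDiff ℝ 2 b → ContDiff ℝ 2 m → ContDiff ℝ 2 n →
  (∀ q ∈ Ring (ρ - δ) ρ, px a q + py b q = 0 ∧ px m q + py n q = 0 ∧
    px m q * px a q + py m q * px b q + px n q * py a q + py n q * py b q = 0) →
  (∀ q ∈ Circ ρ, m q = 0 ∧ n q = 0) → κ1 * κ2 < 0 →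
  (∀ θ : ℝ, px a (rot θ (ρ, 0)) = Real.sin θ * Real.cos θ * (κ1 - κ2) ∧
    py a (rot θ (ρ, 0)) = -(Real.sin θ ^ 2 * κ2 + Real.cos θ ^ 2 * κ1) ∧
    px b (rot θ (ρ, 0)) = Real.cos θ ^ 2 * κ2 + Real.sin θ ^ 2 * κ1 ∧
    py b (rot θ (ρ, 0)) = Real.sin θ * Real.cos θ * (κ2 - κ1)) →
  ∃ ε > 0, ε < ρ ∧ ∀ q ∈ Ring (ρ - ε) ρ, m q = 0 ∧ n q = 0

/-- PG. The gradient of the difference on the inner circle of a swept annulus, at a time `t < t1`: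
the formulas of PR with `κ1 = b (t, (ρ, 0)) / ρ`, `κ2 = dx b (t, (ρ, 0))` (RR and continuity give them
at `(ρ, 0)`; rotation invariance, differentiated, and continuity at the other points). -/
def PG_stmt : Prop := ∀ (Ω : Set (ℝ × ℝ)) (ν R t1 : ℝ) (G : ℝ × ℝ → ℝ)
  (a1 b1 a2 b2 a b m n : ℝ × ℝ × ℝ → ℝ), CD Ω ν R t1 G a1 b1 a2 b2 a b m n →
  ∀ ρ, 0 < ρ → ρ < R → Swept Ω R t1 ρ a b m n → ∀ t < t1, ∀ θ : ℝ,
    dx a (t, rot θ (ρ, 0)) = Real.sin θ * Real.cos θ * (b (t, (ρ, 0)) / ρ - dx b (t, (ρ, 0))) ∧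
    dy a (t, rot θ (ρ, 0))
      = -(Real.sin θ ^ 2 * dx b (t, (ρ, 0)) + Real.cos θ ^ 2 * (b (t, (ρ, 0)) / ρ)) ∧
    dx b (t, rot θ (ρ, 0))
      = Real.cos θ ^ 2 * dx b (t, (ρ, 0)) + Real.sin θ ^ 2 * (b (t, (ρ, 0)) / ρ) ∧
    dy b (t, rot θ (ρ, 0)) = Real.sin θ * Real.cos θ * (dx b (t, (ρ, 0)) - b (t, (ρ, 0)) / ρ)

/-! ## The sweeping argument -/

/-- S0. Some annulus is swept (CN, CV, CB, CG, CX1, CX2). -/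
def S0_stmt : Prop := ∀ (Ω : Set (ℝ × ℝ)) (ν R t1 : ℝ) (G : ℝ × ℝ → ℝ)
  (a1 b1 a2 b2 a b m n : ℝ × ℝ × ℝ → ℝ), CD Ω ν R t1 G a1 b1 a2 b2 a b m n →
  ∃ ρ, 0 < ρ ∧ ρ < R ∧ Swept Ω R t1 ρ a b m n

/-- S1. A swept annulus whose inner circle lies in `Ω` can be enlarged (EH, PG, PR, CB, CG, CX1,
CX2; the annulus `ρ - ε < |q| < R` lies in `Ω` for small `ε` by compactness of the circle). -/
def S1_stmt : Prop := ∀ (Ω : Set (ℝ × ℝ)) (ν R t1 : ℝ) (G : ℝ × ℝ → ℝ)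
  (a1 b1 a2 b2 a b m n : ℝ × ℝ × ℝ → ℝ), CD Ω ν R t1 G a1 b1 a2 b2 a b m n →
  ∀ ρ, 0 < ρ → ρ < R → Swept Ω R t1 ρ a b m n → Circ ρ ⊆ Ω →
  ∃ ρ', 0 < ρ' ∧ ρ' < ρ ∧ Swept Ω R t1 ρ' a b m n

/-- S2. If the inner circle of a swept annulus contains a point outside `Ω`, it is a boundary point
(limit of points of the annulus), the difference vanishes there, so `b (t, (ρ, 0)) = 0` for all
`t < t1`: contradiction with EH. -/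
def S2_stmt : Prop := ∀ (Ω : Set (ℝ × ℝ)) (ν R t1 : ℝ) (G : ℝ × ℝ → ℝ)
  (a1 b1 a2 b2 a b m n : ℝ × ℝ × ℝ → ℝ), CD Ω ν R t1 G a1 b1 a2 b2 a b m n →
  ∀ ρ, 0 < ρ → ρ < R → Swept Ω R t1 ρ a b m n → Circ ρ ⊆ Ω

/-- S3. The punctured disc cannot be swept (EE with `ρ → 0`, `η = K' ρ`: `b (t, 0) = 0` by rotation
invariance and continuity, `|dx b| ≤ K`; so the difference vanishes, against `nz`). -/
def S3_stmt : Prop := ∀ (Ω : Set (ℝ × ℝ)) (ν R t1 : ℝ) (G : ℝ × ℝ → ℝ)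
  (a1 b1 a2 b2 a b m n : ℝ × ℝ × ℝ → ℝ), CD Ω ν R t1 G a1 b1 a2 b2 a b m n →
  ¬ Swept Ω R t1 0 a b m n

/-- SF. There is no such situation (S0-S3; infimum of the swept radii). -/
def SF_stmt : Prop := ∀ (Ω : Set (ℝ × ℝ)) (ν R t1 : ℝ) (G : ℝ × ℝ → ℝ)
  (a1 b1 a2 b2 a b m n : ℝ × ℝ × ℝ → ℝ), ¬ CD Ω ν R t1 G a1 b1 a2 b2 a b m n

/-- GC. Injectivity for domains with circular outer boundary and every force. -/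
def GC_stmt : Prop := ∀ (Ω : Set (ℝ × ℝ)) (ν B R : ℝ) (g h : ℝ × ℝ → ℝ)
  (a1 b1 p1 a2 b2 p2 : ℝ × ℝ × ℝ → ℝ), IsOpen Ω → IsConnected Ω → OuterCircle Ω R → 0 < ν →
  ContDiff ℝ 1 g → ContDiff ℝ 1 h → Reg B a1 b1 p1 → Reg B a2 b2 p2 →
  Sol Ω ν g h univ a1 b1 p1 → Sol Ω ν g h univ a2 b2 p2 → (∀ t, ∀ q ∈ Ω, p1 (t, q) = p2 (t, q)) →
  ∀ t, ∀ q ∈ Ω, a1 (t, q) = a2 (t, q) ∧ b1 (t, q) = b2 (t, q)

end NS
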