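import Pool.Agent.helper29.NS.Fin
import Pool.Agent.helper1.NS.RX
import Pool.Agent.helper21.NS.ZZ
import Pool.Agent.helper72.NS.RR
import Pool.Agent.helper92.NS.LC
import Pool.Agent.helper63.NS.EC
import Pool.Agent.helper64.NS.YZ
import Pool.Agent.helper43.NS.YI
import Pool.Agent.helper52.NS.ZI
import Pool.Agent.helper70.NS.KR
import Pool.Agent.helper45.NS.KF
import Pool.Agent.helper63.NS.KT
import Pool.Agent.helper57.NS.KB
import Pool.Agent.helper63.NS.KS
import Pool.Agent.helper1.NS.RO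
import Pool.Agent.helper46.NS.KG
import Pool.Agent.helper52.NS.KC
import Pool.Agent.helper12.NS.FU
import Pool.Agent.helper27.NS.CS
import Pool.Agent.helper98.NS.CN
import Pool.Agent.helper1.NS.CV
import Pool.Agent.helper46.NS.CF
import Pool.Agent.helper17.NS.CB
import Pool.Agent.helper46.NS.CU
import Pool.Agent.helper71.NS.CG
import Pool.Agent.helper89.NS.CX1
import Pool.Agent.helper97.NS.CX2
import Pool.Agent.helper92.NS.EE
import Pool.Agent.helper43.NS.EV
import Pool.Agent.helper1.NS.EH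
import Pool.Agent.helper79.NS.PE
import Pool.Agent.helper57.NS.PP
import Pool.Agent.helper16.NS.PQ
import Pool.Agent.helper60.NS.PR
import Pool.Agent.helper11.NS.PG
import Pool.Agent.helper46.NS.S2
import Pool.Agent.helper20.NS.S3
import Pool.Agent.helper51.NS.AP
import Pool.Agent.helper51.NS.AE
import Pool.Agent.helper43.NS.AF
import Pool.Agent.helper98.NS.AC
import Pool.Agent.helper17.NS.AN
import Pool.Agent.helper97.NS.AB
import Pool.Agent.helper57.NS.LH
import Pool.Agent.helper46.NS.LU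
import Pool.Agent.helper70.NS.LW
import Pool.Agent.helper63.NS.LF
import Pool.Agent.helper91.NS.LE
import Pool.Agent.helper52.NS.AV
import Pool.Agent.helper29.NS.S0
import Pool.Agent.helper29.NS.S1
import Pool.Agent.helper29.NS.SF
import Pool.Agent.helper29.NS.GC
import Pool.Agent.helper29.NS.AW
import Pool.Agent.helper29.NS.GD
import Pool.Agent.helper29.NS.QD

namespace NS

theorem FinD_YI : YI_stmt := YI (YZ (CE CW) CO)
theorem FinD_ZZ : ZZ_stmt := ZZ (EC CW) (CE CW) CO
theorem FinD_KB : KB_stmt := KB KT GLm KR FinD_YI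
theorem FinD_CN : CN_stmt := CN KR KF KC KG FinD_KB FinD_YI NC
theorem FinD_CV : CV_stmt := CV Fin_AL KF FinD_CN
theorem FinD_CF : CF_stmt := CF FinD_CN FinD_CV NC KF
theorem FinD_CU : CU_stmt := CU FinD_KB KG FinD_CN NC RO RX KF
theorem FinD_CG : CG_stmt := CG FinD_CU RR
theorem FinD_CX1 : CX1_stmt :=
  CX1 (KS KT GLm KR (ZI FinD_ZZ)) RO RX KG KF FinD_CN FinD_CF
theorem FinD_CX2 : CX2_stmt := CX2 KF RX RR FinD_YI
theorem FinD_EH : EH_stmt := EH EE (EV RR) RR FinD_YI KF KR RX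
theorem FinD_GC : GC_stmt :=
  GC (CS DE DT VE CR KF FU)
    (SF (S0 SM FinD_CN FinD_CV CB FinD_CG FinD_CX1 FinD_CX2)
      (S1 SM SL FinD_EH (PG RR) (PR PE PP (PQ PP)) CB FinD_CG FinD_CX1 FinD_CX2)
      (S2 FinD_EH) (S3 EE (EV RR) RR KF RX))
theorem FinD_AC : AC_stmt := AC NC CH
theorem FinD_AW : AW_stmt :=
  AW SM SL FinD_AC (AN FinD_AC (HZ TG CH NC) (UB GLm Fin_UI) Fin_UI) Fin_AL AB
theorem FinD_GD : GD_stmt :=
  GD FinD_GC AP AE AF AV DE DT CR SL FinD_AW LH LC (LU GLm FinD_YI) LW FinD_YI (LF CH TG) LE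

end NS
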