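import Pool.Agent.helper29.NS.SpecE

namespace NS

open MeasureTheory Filter Topology Set

theorem GE_bd (k : ℕ) (B : ℝ) (f : ℝ × ℝ × ℝ → ℝ) (h : Cls k B f) (z : ℝ × ℝ × ℝ) : |f z| ≤ B := by
  cases k with
  | zero => exact h.1 z
  | succ k => exact h.1 z

theorem GE (hDE : DE_stmt) (hDT : DT_stmt) (hCR : CR_stmt) (hSL : SL_stmt) (hSM : SM_stmt)
    (hVA : VA_stmt) (hAN : AN_stmt) (hRM : RM_stmt) (hWN : WN_stmt) (hHL : HL_stmt)
    (hCGS : CGS_stmt) (hOD : OD_stmt) (hFH : FH_stmt) (hUV : UV_stmt) (hTQB : TQB_stmt)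
    (hTQE : TQE_stmt) : GE_stmt := by
  intro Ω ν B g h c θ δ f a1 b1 p1 a2 b2 p2 hO hC hBd hν hg hh hch hf8 hf1 hf2 hf3 hl hcase hR1 hR2
    hS1 hS2 hp t1 qn hqn
  by_contra hne
  have hReg1 : Reg (3 ^ 5 * B) a1 b1 p1 := hRM.2 5 B a1 b1 p1 hR1
  have hReg2 : Reg (3 ^ 5 * B) a2 b2 p2 := hRM.2 5 B a2 b2 p2 hR2
  -- difference and mean
  have h81 : ContDiff ℝ 8 a1 := hCR 8 B a1 hR1.ra
  have h82 : ContDiff ℝ 8 b1 := hCR 8 B b1 hR1.rb
  have h83 : ContDiff ℝ 8 a2 := hCR 8 B a2 hR2.ra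
  have h84 : ContDiff ℝ 8 b2 := hCR 8 B b2 hR2.rb
  obtain ⟨a, ha⟩ : ∃ a : ℝ × ℝ × ℝ → ℝ, a = fun z => a1 z - a2 z := ⟨_, rfl⟩
  obtain ⟨b, hb⟩ : ∃ b : ℝ × ℝ × ℝ → ℝ, b = fun z => b1 z - b2 z := ⟨_, rfl⟩
  obtain ⟨m, hm⟩ : ∃ m : ℝ × ℝ × ℝ → ℝ, m = fun z => (a1 z + a2 z) / 2 := ⟨_, rfl⟩
  obtain ⟨n, hn⟩ : ∃ n : ℝ × ℝ × ℝ → ℝ, n = fun z => (b1 z + b2 z) / 2 := ⟨_, rfl⟩
  have ca8 : ContDiff ℝ 8 a := by rw [ha]; exact h81.sub h83
  have cb8 : ContDiff ℝ 8 b := by rw [hb]; exact h82.sub h84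
  have cm8 : ContDiff ℝ 8 m := by rw [hm]; exact (h81.add h83).div_const 2
  have cn8 : ContDiff ℝ 8 n := by rw [hn]; exact (h82.add h84).div_const 2
  have h38 : (3 : WithTop ℕ∞) ≤ 8 := by norm_num
  have ca : ContDiff ℝ 3 a := ca8.of_le h38
  have cb : ContDiff ℝ 3 b := cb8.of_le h38
  have cm : ContDiff ℝ 3 m := cm8.of_le h38
  have cn : ContDiff ℝ 3 n := cn8.of_le h38
  obtain ⟨ea, eb, da, dm, bc, bd⟩ := hDE Ω ν (3 ^ 5 * B) g h a1 b1 p1 a2 b2 p2 hO hReg1 hReg2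
    hS1 hS2 hp a b m n ha hb hm hn
  have tr := hDT Ω ν a b m n hO ca cb cm cn ea eb da dm
  have hDM : DM Ω ν a b m n := ⟨ca, cb, cm, cn, ea, eb, da, dm, tr, bc, bd⟩
  have hva := hVA Ω ν (3 ^ 5 * B) g h a1 b1 p1 a2 b2 p2 hO hg hh hReg1 hReg2 hS1 hS2 a b m n
    ha hb hm hn
  have hne' : ∃ t, ∃ q ∈ Ω, ¬ (a (t, q) = 0 ∧ b (t, q) = 0) := by
    refine ⟨t1, qn, hqn, fun hcon => hne ⟨?_, ?_⟩⟩
    · have := hcon.1
      rw [ha] at this
      exact sub_eq_zero.1 this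
    · have := hcon.2
      rw [hb] at this
      exact sub_eq_zero.1 this
  -- the boundary vorticity
  obtain ⟨w, hw⟩ : ∃ w : ℝ → ℝ, w = fun t => vort a b (t, c) := ⟨_, rfl⟩
  have hwt : ∀ t, vort a b (t, c) = w t := fun t => by rw [hw]
  obtain ⟨t0, ht0⟩ := hAN Ω ν a b m n c θ δ f hO hC hν hDM hch hf2 hne'
  rw [hwt] at ht0
  have hwC : ContDiff ℝ 2 w := by
    have h1 : ContDiff ℝ 7 (dx b) := (hSM 7 b (by exact_mod_cast cb8)).2.1
    have h2 : ContDiff ℝ 7 (dy a) := (hSM 7 a (by exact_mod_cast ca8)).2.2.1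
    have h3 : ContDiff ℝ 7 (vort a b) := h1.sub h2
    have h4 : ContDiff ℝ 7 (fun t : ℝ => ((t, c) : ℝ × ℝ × ℝ)) := contDiff_prodMk_left c
    rw [hw]
    exact (h3.comp h4).of_le (by norm_num)
  have hbda : ∀ z, |a z| ≤ 2 * B ∧ |b z| ≤ 2 * B := by
    intro z
    have e1 := GE_bd _ _ _ hR1.ra z
    have e2 := GE_bd _ _ _ hR2.ra z
    have e3 := GE_bd _ _ _ hR1.rb z
    have e4 := GE_bd _ _ _ hR2.rb z
    rw [ha, hb]
    constructor
    · have := abs_sub (a1 z) (a2 z)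
      show |a1 z - a2 z| ≤ 2 * B
      linarith
    · have := abs_sub (b1 z) (b2 z)
      show |b1 z - b2 z| ≤ 2 * B
      linarith
  have hwB : ∃ K : ℝ, ∀ t, |w t| ≤ K := by
    refine ⟨4 * B, fun t => ?_⟩
    have d1 := GE_bd _ _ _ hR1.rb.2.2.2.1 (t, c)
    have d2 := GE_bd _ _ _ hR2.rb.2.2.2.1 (t, c)
    have d3 := GE_bd _ _ _ hR1.ra.2.2.2.2 (t, c)
    have d4 := GE_bd _ _ _ hR2.ra.2.2.2.2 (t, c)
    have e1 : dx b (t, c) = dx b1 (t, c) - dx b2 (t, c) := by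
      rw [hb]
      unfold dx
      rw [fderiv_fun_sub ((h82.differentiable (by norm_num)) _) ((h84.differentiable (by norm_num)) _)]
      rfl
    have e2 : dy a (t, c) = dy a1 (t, c) - dy a2 (t, c) := by
      rw [ha]
      unfold dy
      rw [fderiv_fun_sub ((h81.differentiable (by norm_num)) _) ((h83.differentiable (by norm_num)) _)]
      rfl
    rw [hw]
    show |dx b (t, c) - dy a (t, c)| ≤ 4 * B
    rw [e1, e2]
    rw [abs_le] at *
    constructor <;> linarith [d1.1, d1.2, d2.1, d2.2, d3.1, d3.2, d4.1, d4.2]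
  -- windows
  have hwin : ∀ α β, α < β → (∀ t ∈ Ioo α β, w t ≠ 0) →
      ∃ t ∈ Ioo α β, deriv w t ^ 2 ≤ w t * deriv (deriv w) t := by
    intro α β hαβ hwne
    obtain ⟨α', β', ε, hα, hαβ', hβ, hε, hmn⟩ := hWN Ω ν a b m n c θ δ f hO hν hDM hch hf2 α β hαβ
      (fun t ht => by rw [hwt]; exact hwne t ht)
    obtain ⟨t, ht⟩ := nonempty_Ioo.2 hαβ'
    have htt : t ∈ Ioo α β := ⟨lt_of_le_of_lt hα ht.1, lt_of_lt_of_le ht.2 hβ⟩
    refine ⟨t, htt, ?_⟩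
    have hlim := hCGS Ω ν (curl g h) a b m n c θ δ f α' β' ε hO hν hDM ca8 cb8 hch hf8 hf1 hf2
      hva hε hmn t ht (by rw [hwt]; exact hwne t htt)
    rw [← hw] at hlim
    rw [hwt] at hlim
    by_contra hcon
    push Not at hcon
    apply hl
    refine ⟨_, ?_, hlim⟩
    have hf32 : 0 < deriv (deriv (deriv f)) 0 ^ 2 := by positivity
    have e : deriv (deriv (deriv f)) 0 * (w t * deriv (deriv w) t - deriv w t ^ 2) / (360 * ν ^ 2)
        * deriv (deriv (deriv f)) 0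
        = deriv (deriv (deriv f)) 0 ^ 2 / (360 * ν ^ 2) * (w t * deriv (deriv w) t - deriv w t ^ 2) := by
      ring
    rw [e]
    exact mul_neg_of_pos_of_neg (by positivity) (by linarith)
  have hconst : ∀ t, w t = w 0 := hOD w hwC hwB ⟨t0, ht0⟩ hwin
  have hw0 : w 0 ≠ 0 := by rw [← hconst t0]; exact ht0
  rcases hcase with ⟨hpre, hcharts⟩ | hG
  · -- connected boundary: the torque
    have hcF : c ∈ frontier Ω := by
      obtain ⟨η, hη, -, h2⟩ := hFH Ω c θ δ f hO hch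
      have := h2 0 (by simpa using hη)
      rw [hch.f0] at this
      have e : pt θ c 0 0 = c := by
        unfold pt
        simp
      rwa [e] at this
    have hall : ∀ t, ∀ q ∈ frontier Ω, vort a b (t, q) = w 0 := by
      intro t q hq
      rw [hTQB Ω ν a b m n hO hν.ne' hDM hpre hcharts t q hq c hcF, hwt, hconst t]
    exact hw0 (hTQE Ω ν (w 0) (2 * B) a b m n hO hC.nonempty hBd hν hDM hbda hall)
  · -- the curl of the force is not zero near `c`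
    obtain ⟨α, β, ε, -, hαβ, -, hε, hmn⟩ := hWN Ω ν a b m n c θ δ f hO hν hDM hch hf2 0 1
      (by norm_num) (fun t _ => by rw [hwt, hconst t]; exact hw0)
    have hDo : ∀ r : ℝ, IsOpen (Dsc c r) := fun r => isOpen_lt (by fun_prop) continuous_const
    have hHL' := hHL Ω (Ω ∩ Dsc c ε) ν α β (curl g h) a b m n (hO.inter (hDo ε))
      inter_subset_left hDM ca8 cb8 hva hmn
    obtain ⟨ε', hε', hω⟩ := hUV Ω ν a b m n c θ δ f α β ε (w 0) hO hν hDM ca8 cb8 hch hf2 hε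
      (fun t ht q hq => (hHL' t ht q hq).2.2.1) (fun t _ => by rw [hwt, hconst t])
    obtain ⟨q, hq, hGq⟩ := hG (min ε ε') (lt_min hε hε')
    have hmono : ∀ x y : ℝ, 0 < x → x ≤ y → Dsc c x ⊆ Dsc c y := by
      intro x y hx hxy p hp
      exact lt_of_lt_of_le hp (pow_le_pow_left₀ hx.le hxy 2)
    have hq1 : q ∈ Ω ∩ Dsc c ε := ⟨hq.1, hmono _ _ (lt_min hε hε') (min_le_left _ _) hq.2⟩
    have hq2 : q ∈ Ω ∩ Dsc c ε' := ⟨hq.1, hmono _ _ (lt_min hε hε') (min_le_right _ _) hq.2⟩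
    obtain ⟨t, ht⟩ := nonempty_Ioo.2 hαβ
    have h4 := (hHL' t ht q hq1).2.2.2.2
    have hvC : ContDiff ℝ 7 (vort a b) :=
      ((hSM 7 b (by exact_mod_cast cb8)).2.1).sub ((hSM 7 a (by exact_mod_cast ca8)).2.2.1)
    obtain ⟨e1, e2, -⟩ := hSL (vort a b) t q ((hvC.differentiable (by norm_num)) _)
    have he : (fun p => vort a b (t, p)) =ᶠ[𝓝 q] fun _ => w 0 := by
      filter_upwards [(hO.inter (hDo ε')).mem_nhds hq2] with p hp using hω t ht p hp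
    have hz : fderiv ℝ (fun p => vort a b (t, p)) q = 0 := by
      rw [he.fderiv_eq]; simp
    have z1 : dx (vort a b) (t, q) = 0 := by
      rw [← e1]
      show fderiv ℝ (fun p => vort a b (t, p)) q (1, 0) = 0
      rw [hz]; simp
    have z2 : dy (vort a b) (t, q) = 0 := by
      rw [← e2]
      show fderiv ℝ (fun p => vort a b (t, p)) q (0, 1) = 0
      rw [hz]; simp
    rw [z1, z2] at h4
    apply hGq
    linarith
 
end NS
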