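import Pool.Agent.helper29.NS.SpecE
import Pool.Agent.helper46.NS.SP

namespace NS

open MeasureTheory Filter Topology Set

theorem JA : JA_stmt := by
  intro k
  induction k with
  | zero =>
    intro H hH _
    have hc : Continuous H := hH.continuous
    have h1 : Tendsto (fun r : ℝ => H (0, r)) (𝓝[>] 0) (𝓝 (H (0, 0))) :=
      ((hc.comp (Continuous.prodMk_right (0 : ℝ))).tendsto 0).mono_left nhdsWithin_le_nhds
    simpa [hj] using h1
  | succ k ih =>
    intro H hH h0
    have hpy : ContDiff ℝ k (py H) := (SP k H hH).2.1
    have hd : Differentiable ℝ H := hH.differentiable (by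
      intro h0
      have : k + 1 = 0 := by exact_mod_cast h0
      omega)
    have h1 := ih (py H) hpy (by
      intro j hj'
      have := h0 (j + 1) (by omega)
      unfold hj at this ⊢
      rw [Function.iterate_succ_apply] at this
      exact this)
    have e1 : hj (py H) k 0 = hj H (k + 1) 0 := by
      unfold hj
      rw [Function.iterate_succ_apply]
    rw [e1] at h1
    have hder : ∀ r : ℝ, HasDerivAt (fun r : ℝ => H (0, r)) (py H (0, r)) r := by
      intro r
      have h1 : HasFDerivAt H (fderiv ℝ H (0, r)) (0, r) := (hd _).hasFDerivAt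
      have h2 : HasDerivAt (fun r : ℝ => ((0, r) : ℝ × ℝ)) ((0 : ℝ), (1 : ℝ)) r :=
        (hasDerivAt_const r 0).prodMk (hasDerivAt_id r)
      exact h1.comp_hasDerivAt r h2
    have hH00 : H (0, 0) = 0 := by
      have := h0 0 (by omega)
      simpa [hj] using this
    refine HasDerivAt.lhopital_zero_nhdsGT (f' := fun r => py H (0, r))
      (g' := fun r : ℝ => ((k + 1 : ℕ) : ℝ) * r ^ k) (Eventually.of_forall hder)
      (Eventually.of_forall fun r => ?_) ?_ ?_ ?_ ?_
    · have := hasDerivAt_pow (k + 1) r
      simpa using this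
    · filter_upwards [self_mem_nhdsWithin] with r hr
      have hr' : (0 : ℝ) < r := hr
      positivity
    · have hc : Continuous H := hH.continuous
      have := ((hc.comp (Continuous.prodMk_right (0 : ℝ))).tendsto 0).mono_left
        (nhdsWithin_le_nhds (s := Ioi (0 : ℝ)))
      simp only [Function.comp_def, hH00] at this
      exact this
    · have : Tendsto (fun r : ℝ => r ^ (k + 1)) (𝓝 0) (𝓝 (0 ^ (k + 1))) :=
        (continuous_pow (k + 1)).tendsto 0
      rw [zero_pow (by omega)] at this
      exact this.mono_left nhdsWithin_le_nhds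
    · have h2 := h1.const_mul (1 / ((k + 1 : ℕ) : ℝ))
      have e2 : 1 / ((k + 1 : ℕ) : ℝ) * (hj H (k + 1) 0 / (k.factorial : ℝ))
          = hj H (k + 1) 0 / ((k + 1).factorial : ℝ) := by
        rw [Nat.factorial_succ]
        push_cast
        have : (k.factorial : ℝ) ≠ 0 := by exact_mod_cast k.factorial_ne_zero
        have h3 : (k : ℝ) + 1 ≠ 0 := by positivity
        field_simp
      rw [e2] at h2
      refine h2.congr' ?_
      filter_upwards [self_mem_nhdsWithin] with r hr
      have hr' : (0 : ℝ) < r := hr
      have h3 : ((k + 1 : ℕ) : ℝ) ≠ 0 := by positivity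
      field_simp

end NS
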