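import Pool.Agent.helper29.NS.SpecE
import Pool.Agent.helper46.NS.SP

namespace NS

open MeasureTheory Filter Topology Set

theorem JD_py (k : ℕ) (H : ℝ × ℝ → ℝ) (h : ContDiff ℝ (k + 1 : ℕ) H) : ContDiff ℝ k (py H) :=
  (SP k H h).2.1

theorem JD_px (k : ℕ) (H : ℝ × ℝ → ℝ) (h : ContDiff ℝ (k + 1 : ℕ) H) : ContDiff ℝ k (px H) :=
  (SP k H h).1

theorem JD_reg (j : ℕ) : ∀ (k : ℕ) (H : ℝ × ℝ → ℝ), ContDiff ℝ k H → j ≤ k →
    ContDiff ℝ (k - j : ℕ) (py^[j] H) := by
  induction j with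
  | zero => intro k H h _; simpa using h
  | succ j ih =>
    intro k H h hj
    obtain ⟨k', rfl⟩ : ∃ k', k = k' + 1 := ⟨k - 1, by omega⟩
    rw [Function.iterate_succ_apply]
    have := ih k' (py H) (JD_py k' H h) (by omega)
    have e : k' + 1 - (j + 1) = k' - j := by omega
    rw [e]
    exact this

theorem JD_comm (j : ℕ) : ∀ (k : ℕ) (H : ℝ × ℝ → ℝ), ContDiff ℝ k H → j < k →
    py^[j] (px H) = px (py^[j] H) := by
  induction j with
  | zero => intro k H h _; rfl
  | succ j ih =>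
    intro k H h hj
    obtain ⟨k', rfl⟩ : ∃ k', k = k' + 1 := ⟨k - 1, by omega⟩
    rw [Function.iterate_succ_apply, Function.iterate_succ_apply]
    rw [← (SP k' H h).2.2 (by omega)]
    exact ih k' (py H) (JD_py k' H h) (by omega)

theorem JD_diff (k : ℕ) (H : ℝ × ℝ → ℝ) (h : ContDiff ℝ k H) (hk : 1 ≤ k) :
    Differentiable ℝ H :=
  h.differentiable (by
    intro h0
    have : k = 0 := by exact_mod_cast h0
    omega)

theorem JD_sub (j : ℕ) : ∀ (k : ℕ) (H K : ℝ × ℝ → ℝ), ContDiff ℝ k H → ContDiff ℝ k K → j ≤ k →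
    ∀ z, (py^[j] (fun z => H z - K z)) z = (py^[j] H) z - (py^[j] K) z := by
  induction j with
  | zero => intro k H K _ _ _ z; rfl
  | succ j ih =>
    intro k H K hH hK hj z
    obtain ⟨k', rfl⟩ : ∃ k', k = k' + 1 := ⟨k - 1, by omega⟩
    rw [Function.iterate_succ_apply, Function.iterate_succ_apply, Function.iterate_succ_apply]
    have e : py (fun z => H z - K z) = fun z => py H z - py K z := by
      funext z
      unfold py
      rw [fderiv_fun_sub (JD_diff _ H hH (by omega) z) (JD_diff _ K hK (by omega) z)]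
      rfl
    rw [e]
    exact ih k' (py H) (py K) (JD_py k' H hH) (JD_py k' K hK) (by omega) z

theorem JD_mul (r : ℝ) (j : ℕ) : ∀ (k : ℕ) (H : ℝ × ℝ → ℝ), ContDiff ℝ k H → j ≤ k →
    ∀ z, (py^[j] (fun z => r * H z)) z = r * (py^[j] H) z := by
  induction j with
  | zero => intro k H _ _ z; rfl
  | succ j ih =>
    intro k H hH hj z
    obtain ⟨k', rfl⟩ : ∃ k', k = k' + 1 := ⟨k - 1, by omega⟩
    rw [Function.iterate_succ_apply, Function.iterate_succ_apply]
    have e : py (fun z => r * H z) = fun z => r * py H z := by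
      funext z
      unfold py
      rw [fderiv_const_mul (JD_diff _ H hH (by omega) z)]
      rfl
    rw [e]
    exact ih k' (py H) (JD_py k' H hH) (by omega) z

theorem JD : JD_stmt := by
  intro k H K hH hK
  have hline : ∀ n : WithTop ℕ∞, ContDiff ℝ n (fun s : ℝ => ((s, 0) : ℝ × ℝ)) := fun n =>
    contDiff_id.prodMk contDiff_const
  refine ⟨?_, ?_, ?_, ?_, ?_⟩
  · intro j hj'
    exact (JD_reg j k H hH hj').comp (hline _)
  · intro j hj' s
    unfold hj
    rw [JD_comm j k H hH hj']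
    have hd : Differentiable ℝ (py^[j] H) := JD_diff _ _ (JD_reg j k H hH hj'.le) (by omega)
    have h1 : HasFDerivAt (py^[j] H) (fderiv ℝ (py^[j] H) (s, 0)) (s, 0) := (hd _).hasFDerivAt
    have h2 : HasDerivAt (fun s : ℝ => ((s, 0) : ℝ × ℝ)) ((1 : ℝ), (0 : ℝ)) s :=
      (hasDerivAt_id s).prodMk (hasDerivAt_const s 0)
    exact (h1.comp_hasDerivAt s h2).deriv.symm
  · intro j hj' s
    unfold hj
    rw [Function.iterate_succ_apply]
  · intro j hj' s
    exact JD_sub j k H K hH hK hj' (s, 0)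
  · intro r j hj' s
    exact JD_mul r j k H hH hj' (s, 0)

end NS
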