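import Pool.Agent.helper29.NS.SpecE
import Pool.Agent.helper46.NS.SP

namespace NS

open MeasureTheory Filter Topology Set

/-- chain rule for the shear map -/
theorem LX_sx (f : ℝ → ℝ) (θ : ℝ) (c : ℝ × ℝ) (F : ℝ × ℝ → ℝ) (hf : Differentiable ℝ f)
    (hF : Differentiable ℝ F) (z : ℝ × ℝ) :
    px (fun z => F (sx f θ c z)) z
      = (Real.cos θ - deriv f z.1 * Real.sin θ) * px F (sx f θ c z)
        + (Real.sin θ + deriv f z.1 * Real.cos θ) * py F (sx f θ c z) ∧
    py (fun z => F (sx f θ c z)) z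
      = -(Real.sin θ) * px F (sx f θ c z) + Real.cos θ * py F (sx f θ c z) := by
  have hF1 : HasFDerivAt F (fderiv ℝ F (sx f θ c z)) (sx f θ c z) := (hF _).hasFDerivAt
  have hfz : HasDerivAt f (deriv f z.1) z.1 := (hf _).hasDerivAt
  have hlin : ∀ u v : ℝ, fderiv ℝ F (sx f θ c z) (u, v)
      = u * px F (sx f θ c z) + v * py F (sx f θ c z) := by
    intro u v
    have e : ((u, v) : ℝ × ℝ) = u • ((1 : ℝ), (0 : ℝ)) + v • ((0 : ℝ), (1 : ℝ)) := by
      ext <;> simp
    rw [e, map_add, map_smul, map_smul]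
    rfl
  have hd : DifferentiableAt ℝ (fun z => F (sx f θ c z)) z := by
    have h1 : DifferentiableAt ℝ (sx f θ c) z := by
      unfold sx pt
      fun_prop
    exact DifferentiableAt.comp z (hF _) h1
  constructor
  · have h2 : HasDerivAt (fun s : ℝ => sx f θ c (s, z.2))
        (Real.cos θ - deriv f z.1 * Real.sin θ, Real.sin θ + deriv f z.1 * Real.cos θ) z.1 := by
      unfold sx pt
      refine HasDerivAt.prodMk ?_ ?_
      · have := (((hasDerivAt_id z.1).mul_const (Real.cos θ)).const_add c.1).sub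
          ((hfz.add_const z.2).mul_const (Real.sin θ))
        exact this.congr_deriv (by ring)
      · have := (((hasDerivAt_id z.1).mul_const (Real.sin θ)).const_add c.2).add
          ((hfz.add_const z.2).mul_const (Real.cos θ))
        exact this.congr_deriv (by ring)
    have h3 : HasDerivAt (fun s : ℝ => F (sx f θ c (s, z.2)))
        (fderiv ℝ F (sx f θ c z) (Real.cos θ - deriv f z.1 * Real.sin θ,
          Real.sin θ + deriv f z.1 * Real.cos θ)) z.1 :=
      hF1.comp_hasDerivAt z.1 h2
    have h4 : HasDerivAt (fun s : ℝ => F (sx f θ c (s, z.2)))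
        (px (fun z => F (sx f θ c z)) z) z.1 := by
      have h5 : HasDerivAt (fun s : ℝ => ((s, z.2) : ℝ × ℝ)) ((1 : ℝ), (0 : ℝ)) z.1 :=
        (hasDerivAt_id z.1).prodMk (hasDerivAt_const z.1 z.2)
      exact HasFDerivAt.comp_hasDerivAt z.1 (f := fun s : ℝ => ((s, z.2) : ℝ × ℝ))
        (l := fun z => F (sx f θ c z)) hd.hasFDerivAt h5
    rw [h4.unique h3, hlin]
  · have h2 : HasDerivAt (fun r : ℝ => sx f θ c (z.1, r))
        (-(Real.sin θ), Real.cos θ) z.2 := by
      unfold sx pt
      refine HasDerivAt.prodMk ?_ ?_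
      · have := (((hasDerivAt_id z.2).const_add (f z.1)).mul_const (Real.sin θ)).const_sub
          (c.1 + z.1 * Real.cos θ)
        simpa using this
      · have := (((hasDerivAt_id z.2).const_add (f z.1)).mul_const (Real.cos θ)).const_add
          (c.2 + z.1 * Real.sin θ)
        simpa using this
    have h3 : HasDerivAt (fun r : ℝ => F (sx f θ c (z.1, r)))
        (fderiv ℝ F (sx f θ c z) (-(Real.sin θ), Real.cos θ)) z.2 :=
      hF1.comp_hasDerivAt z.2 h2
    have h4 : HasDerivAt (fun r : ℝ => F (sx f θ c (z.1, r)))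
        (py (fun z => F (sx f θ c z)) z) z.2 := by
      have h5 : HasDerivAt (fun r : ℝ => ((z.1, r) : ℝ × ℝ)) ((0 : ℝ), (1 : ℝ)) z.2 :=
        (hasDerivAt_const z.2 z.1).prodMk (hasDerivAt_id z.2)
      exact HasFDerivAt.comp_hasDerivAt z.2 (f := fun r : ℝ => ((z.1, r) : ℝ × ℝ))
        (l := fun z => F (sx f θ c z)) hd.hasFDerivAt h5
    rw [h4.unique h3, hlin]

/-- product with a function of `s` -/
theorem LX_prod (g : ℝ → ℝ) (H : ℝ × ℝ → ℝ) (z : ℝ × ℝ) (hg : DifferentiableAt ℝ g z.1)
    (hH : DifferentiableAt ℝ H z) :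
    px (fun z : ℝ × ℝ => g z.1 * H z) z = deriv g z.1 * H z + g z.1 * px H z ∧
    py (fun z : ℝ × ℝ => g z.1 * H z) z = g z.1 * py H z := by
  have h1 : HasFDerivAt (fun z : ℝ × ℝ => g z.1)
      ((fderiv ℝ g z.1).comp (ContinuousLinearMap.fst ℝ ℝ ℝ)) z :=
    HasFDerivAt.comp z hg.hasFDerivAt hasFDerivAt_fst
  have h2 := h1.mul hH.hasFDerivAt
  have h3 : fderiv ℝ (fun z : ℝ × ℝ => g z.1 * H z) z =
      g z.1 • fderiv ℝ H z + H z • (fderiv ℝ g z.1).comp (ContinuousLinearMap.fst ℝ ℝ ℝ) :=
    h2.fderiv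
  unfold px py
  rw [h3]
  constructor
  · simp
    ring
  · simp

theorem LX_add (H K : ℝ × ℝ → ℝ) (z : ℝ × ℝ) (hH : DifferentiableAt ℝ H z)
    (hK : DifferentiableAt ℝ K z) :
    px (fun z => H z + K z) z = px H z + px K z ∧ py (fun z => H z + K z) z = py H z + py K z := by
  unfold px py
  rw [fderiv_fun_add hH hK]
  exact ⟨rfl, rfl⟩

theorem LX : LX_stmt := by
  intro f θ c F hf hF z
  have hfd : Differentiable ℝ f := hf.differentiable (by norm_num)
  have hFd : Differentiable ℝ F := hF.differentiable (by norm_num)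
  have hdf : ContDiff ℝ 1 (deriv f) := by
    have : ContDiff ℝ (1 + 1) f := by rw [one_add_one_eq_two]; exact hf
    exact (contDiff_succ_iff_deriv.1 this).2.2
  have hdfd : Differentiable ℝ (deriv f) := hdf.differentiable (by norm_num)
  obtain ⟨c1, c2, c3⟩ := SP 1 F (by exact_mod_cast hF)
  have hsym : px (py F) = py (px F) := c3 le_rfl
  have d1 : Differentiable ℝ (px F) := c1.differentiable (by norm_num)
  have d2 : Differentiable ℝ (py F) := c2.differentiable (by norm_num)
  have dsx : Differentiable ℝ (sx f θ c) := by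
    unfold sx pt
    fun_prop
  have e1 : Differentiable ℝ (fun z => px F (sx f θ c z)) := d1.comp dsx
  have e2 : Differentiable ℝ (fun z => py F (sx f θ c z)) := d2.comp dsx
  set C := Real.cos θ with hC
  set S := Real.sin θ with hS
  -- first derivatives as functions
  have hx : px (fun z => F (sx f θ c z)) = fun z => (C - deriv f z.1 * S) * px F (sx f θ c z)
      + (S + deriv f z.1 * C) * py F (sx f θ c z) :=
    funext fun z => (LX_sx f θ c F hfd hFd z).1
  have hy : py (fun z => F (sx f θ c z)) = fun z => -S * px F (sx f θ c z)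
      + C * py F (sx f θ c z) :=
    funext fun z => (LX_sx f θ c F hfd hFd z).2
  obtain ⟨f1x, f1y⟩ := LX_sx f θ c (px F) hfd d1 z
  obtain ⟨f2x, f2y⟩ := LX_sx f θ c (py F) hfd d2 z
  have ga : Differentiable ℝ (fun s => C - deriv f s * S) := by fun_prop
  have gb : Differentiable ℝ (fun s => S + deriv f s * C) := by fun_prop
  have dga : deriv (fun s => C - deriv f s * S) z.1 = -(deriv (deriv f) z.1 * S) := by
    have := ((hdfd z.1).hasDerivAt.mul_const S).const_sub C
    exact this.deriv
  have dgb : deriv (fun s => S + deriv f s * C) z.1 = deriv (deriv f) z.1 * C := by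
    have := ((hdfd z.1).hasDerivAt.mul_const C).const_add S
    exact this.deriv
  have hxx : px (px (fun z => F (sx f θ c z))) z
      = (-(deriv (deriv f) z.1 * S)) * px F (sx f θ c z)
        + (C - deriv f z.1 * S) * px (fun z => px F (sx f θ c z)) z
        + (deriv (deriv f) z.1 * C * py F (sx f θ c z)
          + (S + deriv f z.1 * C) * px (fun z => py F (sx f θ c z)) z) := by
    rw [hx]
    have p1 : DifferentiableAt ℝ (fun z : ℝ × ℝ => (C - deriv f z.1 * S) * px F (sx f θ c z)) z :=
      (DifferentiableAt.comp z (ga z.1) differentiableAt_fst).mul (e1 z)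
    have p2 : DifferentiableAt ℝ (fun z : ℝ × ℝ => (S + deriv f z.1 * C) * py F (sx f θ c z)) z :=
      (DifferentiableAt.comp z (gb z.1) differentiableAt_fst).mul (e2 z)
    rw [(LX_add _ _ z p1 p2).1,
      (LX_prod (fun s => C - deriv f s * S) (fun z => px F (sx f θ c z)) z (ga _) (e1 z)).1,
      (LX_prod (fun s => S + deriv f s * C) (fun z => py F (sx f θ c z)) z (gb _) (e2 z)).1,
      dga, dgb]
  have p3 : DifferentiableAt ℝ (fun z : ℝ × ℝ => -S * px F (sx f θ c z)) z := (e1 z).const_mul _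
  have p4 : DifferentiableAt ℝ (fun z : ℝ × ℝ => C * py F (sx f θ c z)) z := (e2 z).const_mul _
  have q1 := LX_prod (fun _ => -S) (fun z => px F (sx f θ c z)) z (differentiableAt_const _) (e1 z)
  have q2 := LX_prod (fun _ => C) (fun z => py F (sx f θ c z)) z (differentiableAt_const _) (e2 z)
  simp only [deriv_const, zero_mul, zero_add] at q1 q2
  have hxy : px (py (fun z => F (sx f θ c z))) z
      = -S * px (fun z => px F (sx f θ c z)) z + C * px (fun z => py F (sx f θ c z)) z := by
    rw [hy, (LX_add _ _ z p3 p4).1, q1.1, q2.1]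
  have hyy : py (py (fun z => F (sx f θ c z))) z
      = -S * py (fun z => px F (sx f θ c z)) z + C * py (fun z => py F (sx f θ c z)) z := by
    rw [hy, (LX_add _ _ z p3 p4).2, q1.2, q2.2]
  unfold Lf
  rw [hxx, hxy, hyy, f1x, f1y, f2x, f2y, (LX_sx f θ c F hfd hFd z).2, hsym]
  have h := Real.sin_sq_add_cos_sq θ
  rw [← hS, ← hC] at h
  linear_combination (px (px F) (sx f θ c z) + py (py F) (sx f θ c z)) * h

end NS
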