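import Pool.Agent.helper29.NS.SpecE
import Pool.Agent.helper31.NS.QA

namespace NS

open MeasureTheory Filter Topology Set

lemma QAN_extract {K : ℕ} {B : ℝ} (a b p : ℕ → (ℝ × ℝ × ℝ → ℝ))
    (hR : ∀ n, RegN K B (a n) (b n) (p n)) :
    ∃ (a' b' p' : ℝ × ℝ × ℝ → ℝ) (φ : ℕ → ℕ), StrictMono φ ∧ RegN K B a' b' p' ∧
      Cvg (K + 3) (fun n => a (φ n)) a' ∧ Cvg (K + 3) (fun n => b (φ n)) b' ∧
      Cvg (K + 2) (fun n => p (φ n)) p' := by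
  obtain ⟨a', φ1, h1, ca, va⟩ := AA CM (K + 3) B a (fun n => (hR n).ra)
  obtain ⟨b', φ2, h2, cb, vb⟩ := AA CM (K + 3) B (fun n => b (φ1 n)) (fun n => (hR _).rb)
  obtain ⟨p', φ3, h3, cp, vp⟩ := AA CM (K + 2) B (fun n => p (φ1 (φ2 n))) (fun n => (hR _).rp)
  exact ⟨a', b', p', fun n => φ1 (φ2 (φ3 n)), h1.comp (h2.comp h3), ⟨ca, cb, cp⟩,
    A2_cvg (h2.comp h3) (K + 3) _ _ va, A2_cvg h3 (K + 3) _ _ vb, vp⟩

theorem QAN (hST : ST_stmt) (hLM : LM_stmt) (hP1 : P1_stmt) (hP3 : P3_stmt) (hCT : CT_stmt)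
    (hRM : RM_stmt) (hCVM : CVM_stmt) : QAN_stmt := by
  intro K Ω ν g h hΩ hb hG F hF hsep B a1 b1 p1 a2 b2 p2 hR1 hR2 hS1 hS2 P1 P2 hPP1 hPP2 hlim
  by_contra hcon
  set B' : ℝ := 3 ^ K * B with hB'
  have hr01 : Reg B' a1 b1 p1 := hRM.2 K B a1 b1 p1 hR1
  have hr02 : Reg B' a2 b2 p2 := hRM.2 K B a2 b2 p2 hR2
  have hB : 0 ≤ B' := (abs_nonneg _).trans (CM_bd 2 p1 hr01.rp 0)
  set D : ℝ → ℝ := fun t => ∫ q in Ω, ((a1 (t, q) - a2 (t, q)) ^ 2 + (b1 (t, q) - b2 (t, q)) ^ 2)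
    with hD
  obtain ⟨ε, hε, hT⟩ : ∃ ε > 0, ∀ n : ℕ, ∃ t : ℝ, (n : ℝ) ≤ t ∧ ε ≤ |D t| := by
    rw [Metric.tendsto_atTop] at hcon
    push Not at hcon
    obtain ⟨ε, hε, h⟩ := hcon
    refine ⟨ε, hε, fun n => ?_⟩
    obtain ⟨t, ht, h2⟩ := h n
    refine ⟨t, ht, ?_⟩
    rw [Real.dist_0_eq_abs] at h2
    exact h2
  choose T hTn hTD using hT
  have hTt : Tendsto T atTop atTop := tendsto_atTop_mono hTn tendsto_natCast_atTop_atTop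
  have hshift : ∀ (T : ℝ) (a b p : ℝ × ℝ × ℝ → ℝ), RegN K B a b p →
      RegN K B (fun z => a (z.1 + T, z.2)) (fun z => b (z.1 + T, z.2))
        (fun z => p (z.1 + T, z.2)) := fun T a b p hR =>
    ⟨(hCT T a).2 _ _ hR.ra, (hCT T b).2 _ _ hR.rb, (hCT T p).2 _ _ hR.rp⟩
  have hs1 := fun n => hST Ω ν g h (Ioi 0) (Ioi (-(T n))) (T n) B' a1 b1 p1 hr01 hS1
    (fun t ht => by
      have : -(T n) < t := ht
      show 0 < t + T n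
      linarith)
  have hs2 := fun n => hST Ω ν g h (Ioi 0) (Ioi (-(T n))) (T n) B' a2 b2 p2 hr02 hS2
    (fun t ht => by
      have : -(T n) < t := ht
      show 0 < t + T n
      linarith)
  obtain ⟨a1', b1', p1', φ, hφ, hr1, va1, vb1, vp1⟩ := QAN_extract
    (fun n z => a1 (z.1 + T n, z.2)) (fun n z => b1 (z.1 + T n, z.2))
    (fun n z => p1 (z.1 + T n, z.2)) (fun n => hshift (T n) _ _ _ hR1)
  obtain ⟨a2', b2', p2', ψ, hψ, hr2, va2, vb2, vp2⟩ := QAN_extract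
    (fun n z => a2 (z.1 + T (φ n), z.2)) (fun n z => b2 (z.1 + T (φ n), z.2))
    (fun n z => p2 (z.1 + T (φ n), z.2)) (fun n => hshift (T (φ n)) _ _ _ hR2)
  have wa1 : Cvg 3 _ _ := hCVM K 3 _ _ (by rw [add_comm]; exact A2_cvg hψ (K + 3) _ _ va1)
  have wb1 : Cvg 3 _ _ := hCVM K 3 _ _ (by rw [add_comm]; exact A2_cvg hψ (K + 3) _ _ vb1)
  have wp1 : Cvg 2 _ _ := hCVM K 2 _ _ (by rw [add_comm]; exact A2_cvg hψ (K + 2) _ _ vp1)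
  have wa2 : Cvg 3 _ _ := hCVM K 3 _ _ (by rw [add_comm]; exact va2)
  have wb2 : Cvg 3 _ _ := hCVM K 3 _ _ (by rw [add_comm]; exact vb2)
  have wp2 : Cvg 2 _ _ := hCVM K 2 _ _ (by rw [add_comm]; exact vp2)
  have hTT : Tendsto (fun n => T (φ (ψ n))) atTop atTop :=
    hTt.comp (hφ.comp hψ).tendsto_atTop
  have hS1' : Sol Ω ν g h univ a1' b1' p1' :=
    hLM Ω hΩ hb ν g h B' (fun n => T (φ (ψ n))) _ _ _ a1' b1' p1' hTT
      (fun n => (hs1 (φ (ψ n))).1) (fun n => (hs1 (φ (ψ n))).2) wa1 wb1 wp1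
  have hS2' : Sol Ω ν g h univ a2' b2' p2' :=
    hLM Ω hΩ hb ν g h B' (fun n => T (φ (ψ n))) _ _ _ a2' b2' p2' hTT
      (fun n => (hs2 (φ (ψ n))).1) (fun n => (hs2 (φ (ψ n))).2) wa2 wb2 wp2
  have hr1' : Reg B' a1' b1' p1' := hRM.2 K B _ _ _ hr1
  have hr2' : Reg B' a2' b2' p2' := hRM.2 K B _ _ _ hr2
  obtain ⟨Q1, hQ1c, hQ1⟩ := hP1 Ω hΩ hb B' p1' hr1'.rp
  obtain ⟨Q2, hQ2c, hQ2⟩ := hP1 Ω hΩ hb B' p2' hr2'.rp
  have hreg : ∀ (a b p : ℝ × ℝ × ℝ → ℝ), RegN K B a b p → RegN K (⌈B⌉₊ : ℝ) a b p := fun a b p hr =>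
    ⟨CM_mono (Nat.le_ceil B) _ a hr.ra, CM_mono (Nat.le_ceil B) _ b hr.rb,
      CM_mono (Nat.le_ceil B) _ p hr.rp⟩
  have hFQ : ∀ t, F (Q1 t) = F (Q2 t) := by
    intro t
    have t1 := QA_curve hP1 hΩ hb hTT (fun n => (hs1 (φ (ψ n))).1.rp) hPP1
      (A2_fst 2 _ _ wp1) hQ1 t
    have t2 := QA_curve hP1 hΩ hb hTT (fun n => (hs2 (φ (ψ n))).1.rp) hPP2
      (A2_fst 2 _ _ wp2) hQ2 t
    have f1 := (hF.tendsto _).comp t1
    have f2 := (hF.tendsto _).comp t2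
    have f3 := hlim.comp (tendsto_atTop_add_const_left atTop t hTT)
    have f4 := f1.sub f2
    have := tendsto_nhds_unique f4 f3
    linarith
  have hQQ : Q1 = Q2 := hsep ⌈B⌉₊ ⌈B⌉₊ Q1 ⟨hQ1c, a1', b1', p1', hreg _ _ _ hr1, hS1', hQ1⟩
    Q2 ⟨hQ2c, a2', b2', p2', hreg _ _ _ hr2, hS2', hQ2⟩ hFQ
  have hcont : ∀ (f : ℝ × ℝ × ℝ → ℝ) (k : ℕ), Cls k B' f → ∀ t : ℝ,
      Continuous (fun q : ℝ × ℝ => f (t, q)) := fun f k hf t =>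
    ((CR k B' f hf).continuous).comp (Continuous.prodMk_right t)
  have hpp : ∀ t, ∀ q ∈ Ω, p1' (t, q) = p2' (t, q) := by
    intro t
    apply hP3 Ω hΩ _ _ (hcont p1' 2 hr1'.rp t) (hcont p2' 2 hr2'.rp t)
    have e1 := hQ1 t
    have e2 := hQ2 t
    rw [← hQQ] at e2
    exact e1.symm.trans e2
  have hab := hG B a1' b1' p1' a2' b2' p2' hr1 hr2 hS1' hS2' hpp
  have hpt : ∀ (f f' : ℝ × ℝ × ℝ → ℝ),
      TendstoLocallyUniformly (fun n z => f (z.1 + T (φ (ψ n)), z.2)) f' atTop → ∀ q : ℝ × ℝ,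
      Tendsto (fun n => f (T (φ (ψ n)), q)) atTop (𝓝 (f' (0, q))) := by
    intro f f' hf q
    have := AA_pt hf (0, q)
    simpa using this
  have hlimD : Tendsto (fun n => D (T (φ (ψ n)))) atTop (𝓝 0) := by
    refine QA_shift hB hb (fun n q => a1 (T (φ (ψ n)), q) - a2 (T (φ (ψ n)), q)) ?_
      (fun n q => b1 (T (φ (ψ n)), q) - b2 (T (φ (ψ n)), q)) ?_ ?_ ?_ hΩ ?_ ?_
    · intro n q
      have u1 := CM_bd 3 _ hr01.ra (T (φ (ψ n)), q)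
      have u2 := CM_bd 3 _ hr02.ra (T (φ (ψ n)), q)
      exact (abs_sub _ _).trans (by linarith)
    · intro n q
      have u1 := CM_bd 3 _ hr01.rb (T (φ (ψ n)), q)
      have u2 := CM_bd 3 _ hr02.rb (T (φ (ψ n)), q)
      exact (abs_sub _ _).trans (by linarith)
    · intro n
      exact (hcont a1 3 hr01.ra _).sub (hcont a2 3 hr02.ra _)
    · intro n
      exact (hcont b1 3 hr01.rb _).sub (hcont b2 3 hr02.rb _)
    · intro q hq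
      have := (hpt a1 a1' (A2_fst 3 _ _ wa1) q).sub (hpt a2 a2' (A2_fst 3 _ _ wa2) q)
      rw [(hab 0 q hq).1, sub_self] at this
      exact this
    · intro q hq
      have := (hpt b1 b1' (A2_fst 3 _ _ wb1) q).sub (hpt b2 b2' (A2_fst 3 _ _ wb2) q)
      rw [(hab 0 q hq).2, sub_self] at this
      exact this
  have h5 := (Metric.tendsto_atTop.1 hlimD) ε hε
  obtain ⟨N, hN⟩ := h5
  have h6 := hN N le_rfl
  rw [Real.dist_0_eq_abs] at h6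
  exact absurd (hTD (φ (ψ N))) (not_le.2 h6)

end NS
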