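import Pool.Agent.helper29.NS.SpecE

namespace NS

open MeasureTheory Filter Topology Set

/-- The functional, for forces whose curl is not of order six at one boundary point. -/
theorem QE (hGE : GE_stmt) (hBK : BK_stmt) (hSCN : SCN_stmt) (hFSN : FSN_stmt) (hQAN : QAN_stmt)
    (Ω : Set (ℝ × ℝ)) (ν : ℝ) (g h : ℝ × ℝ → ℝ) (c : ℝ × ℝ) (θ δ : ℝ) (f : ℝ → ℝ)
    (hO : IsOpen Ω) (hC : IsConnected Ω) (hB : Bornology.IsBounded Ω) (hν : 0 < ν)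
    (hg : ContDiff ℝ 1 g) (hh : ContDiff ℝ 1 h) (hch : Chart Ω c θ δ f) (hf8 : ContDiff ℝ 8 f)
    (hf1 : deriv f 0 = 0) (hf2 : 0 < deriv (deriv f) 0) (hf3 : deriv (deriv (deriv f)) 0 ≠ 0)
    (hl : ¬ ∃ l : ℝ, l * deriv (deriv (deriv f)) 0 < 0 ∧
      Tendsto (fun r : ℝ => curl g h (pt θ c 0 r) / r ^ 6) (𝓝[>] 0) (𝓝 l))
    (hcase : (IsPreconnected (frontier Ω) ∧
        ∀ q ∈ frontier Ω, ∃ (θ δ : ℝ) (f : ℝ → ℝ), Chart Ω q θ δ f) ∨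
      ∀ ε > 0, ∃ q ∈ Ω ∩ Dsc c ε, curl g h q ≠ 0)
    (hfin : (Stat Ω ν g h).Finite) :
    ∃ F : BoundedContinuousFunction (Lp ℝ 2 (volume.restrict Ω)) ℝ,
      ∀ (B : ℝ) (a1 b1 p1 a2 b2 p2 : ℝ × ℝ × ℝ → ℝ),
        RegN 5 B a1 b1 p1 → RegN 5 B a2 b2 p2 →
        Sol Ω ν g h (Ioi 0) a1 b1 p1 → Sol Ω ν g h (Ioi 0) a2 b2 p2 →
        ∀ P1 P2 : ℝ → Lp ℝ 2 (volume.restrict Ω),
        (∀ t > 0, P1 t =ᵐ[volume.restrict Ω] fun q => p1 (t, q)) →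
        (∀ t > 0, P2 t =ᵐ[volume.restrict Ω] fun q => p2 (t, q)) →
        Tendsto (fun t => F (P1 t) - F (P2 t)) atTop (𝓝 0) →
        Tendsto (fun t => ∫ q in Ω, ((a1 (t, q) - a2 (t, q)) ^ 2 + (b1 (t, q) - b2 (t, q)) ^ 2))
          atTop (𝓝 0) := by
  have hG : ∀ (B : ℝ) (a1 b1 p1 a2 b2 p2 : ℝ × ℝ × ℝ → ℝ), RegN 5 B a1 b1 p1 →
      RegN 5 B a2 b2 p2 → Sol Ω ν g h univ a1 b1 p1 → Sol Ω ν g h univ a2 b2 p2 →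
      (∀ t, ∀ q ∈ Ω, p1 (t, q) = p2 (t, q)) →
      ∀ t, ∀ q ∈ Ω, a1 (t, q) = a2 (t, q) ∧ b1 (t, q) = b2 (t, q) :=
    fun B a1 b1 p1 a2 b2 p2 r1 r2 s1 s2 hp =>
      hGE Ω ν B g h c θ δ f a1 b1 p1 a2 b2 p2 hO hC hB hν hg hh hch hf8 hf1 hf2 hf3 hl hcase
        r1 r2 s1 s2 hp
  have : Fact ((1 : ENNReal) ≤ 2) := ⟨by norm_num⟩
  have : Fact ((2 : ENNReal) ≠ ⊤) := ⟨by norm_num⟩
  have : SecondCountableTopology (Lp ℝ 2 (volume.restrict Ω)) := inferInstance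
  obtain ⟨F, hF⟩ := hBK (Lp ℝ 2 (volume.restrict Ω)) (PCurvesN 5 Ω ν g h)
    (hSCN 5 Ω ν g h hO hB) (hFSN 5 Ω ν g h hO hC hB hG hfin)
  refine ⟨F, fun B a1 b1 p1 a2 b2 p2 r1 r2 s1 s2 P1 P2 hP1 hP2 hT => ?_⟩
  exact hQAN 5 Ω ν g h hO hB hG F F.continuous hF B a1 b1 p1 a2 b2 p2 r1 r2 s1 s2 P1 P2 hP1 hP2 hT

end NS
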