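import Pool.Agent.helper29.NS.SpecE
import Pool.Agent.helper31.NS.CM

namespace NS

open MeasureTheory Filter Topology Set

theorem RM_nonneg (k : ℕ) (B : ℝ) (f : ℝ × ℝ × ℝ → ℝ) (h : Cls k B f) : 0 ≤ B := by
  have : |f 0| ≤ B := by
    cases k with
    | zero => exact h.1 0
    | succ k => exact h.1 0
  exact (abs_nonneg _).trans this

theorem RM_step (k : ℕ) : ∀ (B : ℝ) (f : ℝ × ℝ × ℝ → ℝ), Cls (k + 1) B f → Cls k (3 * B) f := by
  induction k with
  | zero =>
    intro B f h
    have hB := RM_nonneg 1 B f h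
    exact ⟨fun z => (h.1 z).trans (by linarith), (CM 1 B B f h le_rfl).2⟩
  | succ k ih =>
    intro B f h
    have hB := RM_nonneg (k + 2) B f h
    exact ⟨fun z => (h.1 z).trans (by linarith), h.2.1, ih B _ h.2.2.1, ih B _ h.2.2.2.1,
      ih B _ h.2.2.2.2⟩

theorem RM_all (j : ℕ) : ∀ (k : ℕ) (B : ℝ) (f : ℝ × ℝ × ℝ → ℝ), Cls (k + j) B f →
    Cls k (3 ^ j * B) f := by
  induction j with
  | zero =>
    intro k B f h
    simpa using h
  | succ j ih =>
    intro k B f h
    have h1 : Cls (k + j) (3 * B) f := RM_step (k + j) B f (by rw [add_assoc]; exact h)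
    have h2 := ih k (3 * B) f h1
    have e : (3 : ℝ) ^ (j + 1) * B = 3 ^ j * (3 * B) := by ring
    rw [e]
    exact h2

theorem RM : RM_stmt := by
  refine ⟨fun j k B f h => RM_all j k B f h, ?_⟩
  intro k B a b p h
  refine ⟨?_, ?_, ?_⟩
  · exact RM_all k 3 B a (by rw [add_comm]; exact h.ra)
  · exact RM_all k 3 B b (by rw [add_comm]; exact h.rb)
  · exact RM_all k 2 B p (by rw [add_comm]; exact h.rp)

end NS
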