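import Pool.Agent.helper29.NS.SpecE

namespace NS

open MeasureTheory Filter Topology Set

lemma SCN_sol {Ω : Set (ℝ × ℝ)} {ν : ℝ} {g h : ℝ × ℝ → ℝ} {a b p : ℝ × ℝ × ℝ → ℝ}
    (hs : Sol Ω ν g h univ a b p) (J : Set ℝ) : Sol Ω ν g h J a b p :=
  ⟨fun t _ q hq => hs.mx t (mem_univ t) q hq, fun t _ q hq => hs.my t (mem_univ t) q hq,
    fun t _ q hq => hs.dv t (mem_univ t) q hq, fun t _ q hq => hs.bc t (mem_univ t) q hq,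
    fun t _ => hs.mn t (mem_univ t)⟩

theorem SCN (hAA : AA_stmt) (hA2 : A2_stmt) (hLM : LM_stmt) (hP1 : P1_stmt) (hP2 : P2_stmt)
    (hRM : RM_stmt) (hCVM : CVM_stmt) : SCN_stmt := by
  intro K Ω ν g h hO hB n
  refine ⟨fun γ hγ => hγ.1, ?_⟩
  intro s hs
  choose a b p hreg hsol heq using fun k => (hs k).2
  obtain ⟨a', φ1, m1, ca, va⟩ := hAA (K + 3) n a (fun k => (hreg k).ra)
  obtain ⟨b', φ2, m2, cb, vb⟩ := hAA (K + 3) n (fun k => b (φ1 k)) (fun k => (hreg (φ1 k)).rb)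
  obtain ⟨p', φ3, m3, cp, vp⟩ := hAA (K + 2) n (fun k => p (φ1 (φ2 k)))
    (fun k => (hreg (φ1 (φ2 k))).rp)
  have m : StrictMono (fun k => φ1 (φ2 (φ3 k))) := m1.comp (m2.comp m3)
  have va' : Cvg 3 (fun k => a (φ1 (φ2 (φ3 k)))) a' :=
    hCVM K 3 _ _ (by
      rw [add_comm]
      exact (hA2 (K + 3) (fun k => a (φ1 k)) a' (fun k => φ2 (φ3 k)) (m2.comp m3) va).1)
  have vb' : Cvg 3 (fun k => b (φ1 (φ2 (φ3 k)))) b' :=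
    hCVM K 3 _ _ (by
      rw [add_comm]
      exact (hA2 (K + 3) (fun k => b (φ1 (φ2 k))) b' φ3 m3 vb).1)
  have vp' : Cvg 2 (fun k => p (φ1 (φ2 (φ3 k)))) p' :=
    hCVM K 2 _ _ (by rw [add_comm]; exact vp)
  have hS : Sol Ω ν g h univ a' b' p' :=
    hLM Ω hO hB ν g h (3 ^ K * n) (fun k => (k : ℝ)) _ _ _ a' b' p' tendsto_natCast_atTop_atTop
      (fun k => hRM.2 K n _ _ _ (hreg (φ1 (φ2 (φ3 k)))))
      (fun k => SCN_sol (hsol (φ1 (φ2 (φ3 k)))) _) va' vb' vp'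
  have cp2 : Cls 2 (3 ^ K * n) p' := (hRM.2 K n a' b' p' ⟨ca, cb, cp⟩).rp
  obtain ⟨P', cP', eP'⟩ := hP1 Ω hO hB (3 ^ K * n) p' cp2
  refine ⟨P', ⟨cP', a', b', p', ⟨ca, cb, cp⟩, hS, eP'⟩, fun k => φ1 (φ2 (φ3 k)), m, ?_⟩
  exact hP2 Ω hO hB (fun k => p (φ1 (φ2 (φ3 k)))) p' (fun k => s (φ1 (φ2 (φ3 k)))) P' vp'.1
    (fun k t => heq (φ1 (φ2 (φ3 k))) t) eP'

end NS
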