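import Pool.Agent.helper29.NS.SpecD

/-!
# Project `ns:` (MP_b9b054_an), part E: forces whose curl is not of order six at the boundary

Every `XX_stmt : Prop` is one module `ns:XX`.  Any statement of `Spec1`, `Spec2`, `SpecC`, `SpecD`
may be used as a hypothesis (all of them are proved, `Fin.lean`, `FinD.lean`), and any statement of
this file (not circularly).
-/

namespace NS

open MeasureTheory Filter Topology Set

/-! ## Higher regularity classes (adaptations of SC, FS, QA) -/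

/-- The regularity class of the trajectories: velocity `C^{k+3,1}`, pressure `C^{k+2,1}`,
bound `B`. -/
structure RegN (k : ℕ) (B : ℝ) (a b p : ℝ × ℝ × ℝ → ℝ) : Prop where
  ra : Cls (k + 3) B a
  rb : Cls (k + 3) B b
  rp : Cls (k + 2) B p

/-- The set of pressure curves of the complete trajectories of this class with bound `n`. -/
def PCurvesN (k : ℕ) (Ω : Set (ℝ × ℝ)) (ν : ℝ) (g h : ℝ × ℝ → ℝ) (n : ℕ) :
    Set (ℝ → Lp ℝ 2 (volume.restrict Ω)) :=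
  {P | Continuous P ∧ ∃ a b p : ℝ × ℝ × ℝ → ℝ, RegN k n a b p ∧ Sol Ω ν g h univ a b p ∧
    ∀ t, P t =ᵐ[volume.restrict Ω] fun q => p (t, q)}

/-- RM. Comparison of the classes (`Cls (k+1) B f → Cls k (3 B) f`, induction; for `k = 0` use the
Lipschitz bound of CM; note `0 ≤ B`). -/
def RM_stmt : Prop :=
  (∀ (j k : ℕ) (B : ℝ) (f : ℝ × ℝ × ℝ → ℝ), Cls (k + j) B f → Cls k (3 ^ j * B) f) ∧
  ∀ (k : ℕ) (B : ℝ) (a b p : ℝ × ℝ × ℝ → ℝ), RegN k B a b p → Reg (3 ^ k * B) a b p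

/-- CVM. Convergence of more derivatives implies convergence of fewer. -/
def CVM_stmt : Prop := ∀ (j k : ℕ) (s : ℕ → (ℝ × ℝ × ℝ → ℝ)) (f : ℝ × ℝ × ℝ → ℝ),
  Cvg (k + j) s f → Cvg k s f

/-- SCN. As SC (adapt `helper23/NS/SC.lean`; AA with `k + 3`, `k + 2`; LM is used with
`Reg (3 ^ k * n)`, RM, CVM). -/
def SCN_stmt : Prop := ∀ (k : ℕ) (Ω : Set (ℝ × ℝ)) (ν : ℝ) (g h : ℝ × ℝ → ℝ), IsOpen Ω →
  Bornology.IsBounded Ω → ∀ n, SeqC (PCurvesN k Ω ν g h n)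

/-- FSN. As FS (adapt `helper93/NS/FS.lean`; the stationary trajectories are in `Stat` by RM). -/
def FSN_stmt : Prop := ∀ (k : ℕ) (Ω : Set (ℝ × ℝ)) (ν : ℝ) (g h : ℝ × ℝ → ℝ), IsOpen Ω →
  IsConnected Ω → Bornology.IsBounded Ω →
  (∀ (B : ℝ) (a1 b1 p1 a2 b2 p2 : ℝ × ℝ × ℝ → ℝ), RegN k B a1 b1 p1 → RegN k B a2 b2 p2 →
    Sol Ω ν g h univ a1 b1 p1 → Sol Ω ν g h univ a2 b2 p2 →
    (∀ t, ∀ q ∈ Ω, p1 (t, q) = p2 (t, q)) →
    ∀ t, ∀ q ∈ Ω, a1 (t, q) = a2 (t, q) ∧ b1 (t, q) = b2 (t, q)) →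
  (Stat Ω ν g h).Finite →
  {y : Lp ℝ 2 (volume.restrict Ω) | ∃ n, (fun _ : ℝ => y) ∈ PCurvesN k Ω ν g h n}.Finite

/-- QAN. As QA (adapt `helper31/NS/QA.lean`). -/
def QAN_stmt : Prop := ∀ (k : ℕ) (Ω : Set (ℝ × ℝ)) (ν : ℝ) (g h : ℝ × ℝ → ℝ), IsOpen Ω →
  Bornology.IsBounded Ω →
  (∀ (B : ℝ) (a1 b1 p1 a2 b2 p2 : ℝ × ℝ × ℝ → ℝ), RegN k B a1 b1 p1 → RegN k B a2 b2 p2 →
    Sol Ω ν g h univ a1 b1 p1 → Sol Ω ν g h univ a2 b2 p2 →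
    (∀ t, ∀ q ∈ Ω, p1 (t, q) = p2 (t, q)) →
    ∀ t, ∀ q ∈ Ω, a1 (t, q) = a2 (t, q) ∧ b1 (t, q) = b2 (t, q)) →
  ∀ F : Lp ℝ 2 (volume.restrict Ω) → ℝ, Continuous F →
  (∀ n m, ∀ γ ∈ PCurvesN k Ω ν g h n, ∀ γ' ∈ PCurvesN k Ω ν g h m,
    (∀ t, F (γ t) = F (γ' t)) → γ = γ') →
  ∀ (B : ℝ) (a1 b1 p1 a2 b2 p2 : ℝ × ℝ × ℝ → ℝ), RegN k B a1 b1 p1 → RegN k B a2 b2 p2 →
  Sol Ω ν g h (Ioi 0) a1 b1 p1 → Sol Ω ν g h (Ioi 0) a2 b2 p2 →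
  ∀ P1 P2 : ℝ → Lp ℝ 2 (volume.restrict Ω),
  (∀ t > 0, P1 t =ᵐ[volume.restrict Ω] fun q => p1 (t, q)) →
  (∀ t > 0, P2 t =ᵐ[volume.restrict Ω] fun q => p2 (t, q)) →
  Tendsto (fun t => F (P1 t) - F (P2 t)) atTop (𝓝 0) →
  Tendsto (fun t => ∫ q in Ω, ((a1 (t, q) - a2 (t, q)) ^ 2 + (b1 (t, q) - b2 (t, q)) ^ 2))
    atTop (𝓝 0)

/-! ## The time window -/

/-- WN. In every interval of times at which the boundary vorticity at `c` does not vanish there is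
a smaller one with a uniform neighbourhood of `c` in which the mean vanishes (AL at each time, AB;
see `helper29/NS/AW.lean`). -/
def WN_stmt : Prop := ∀ (Ω : Set (ℝ × ℝ)) (ν : ℝ) (a b m n : ℝ × ℝ × ℝ → ℝ) (c : ℝ × ℝ) (θ δ : ℝ)
  (f : ℝ → ℝ), IsOpen Ω → 0 < ν → DM Ω ν a b m n → Chart Ω c θ δ f → 0 < deriv (deriv f) 0 →
  ∀ α β, α < β → (∀ t ∈ Ioo α β, vort a b (t, c) ≠ 0) →
  ∃ α' β' ε : ℝ, α ≤ α' ∧ α' < β' ∧ β' ≤ β ∧ 0 < ε ∧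
    ∀ t ∈ Ioo α' β', ∀ q ∈ Ω ∩ Dsc c ε, m (t, q) = 0 ∧ n (t, q) = 0

/-- HL. Where the mean vanishes, everything solves the heat equation, and the averaged vorticity
equation (the hypothesis with `G`) becomes `4 G = a ω_x + b ω_y`. (On the open set
`Ioo α β ×ˢ U` the derivatives of `m`, `n`, `vort m n` vanish; differentiate `heat ν a = 0`,
`heat ν b = 0`, commute with SM; slices with SL.) -/
def HL_stmt : Prop := ∀ (Ω U : Set (ℝ × ℝ)) (ν α β : ℝ) (G : ℝ × ℝ → ℝ)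
  (a b m n : ℝ × ℝ × ℝ → ℝ), IsOpen U → U ⊆ Ω → DM Ω ν a b m n → ContDiff ℝ 8 a →
  ContDiff ℝ 8 b →
  (∀ t, ∀ q ∈ Ω, G q = dt (vort m n) (t, q) + m (t, q) * dx (vort m n) (t, q)
    + n (t, q) * dy (vort m n) (t, q)
    + (a (t, q) * dx (vort a b) (t, q) + b (t, q) * dy (vort a b) (t, q)) / 4
    - ν * (dx (dx (vort m n)) (t, q) + dy (dy (vort m n)) (t, q))) →
  (∀ t ∈ Ioo α β, ∀ q ∈ U, m (t, q) = 0 ∧ n (t, q) = 0) →
  ∀ t ∈ Ioo α β, ∀ q ∈ U, heat ν a (t, q) = 0 ∧ heat ν b (t, q) = 0 ∧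
    heat ν (vort a b) (t, q) = 0 ∧ heat ν (dt (vort a b)) (t, q) = 0 ∧
    4 * G q = a (t, q) * dx (vort a b) (t, q) + b (t, q) * dy (vort a b) (t, q)

/-! ## Shear coordinates -/

/-- The point with shear coordinates `(s, r)`: `r` is the height above the boundary curve. -/
noncomputable def sx (f : ℝ → ℝ) (θ : ℝ) (c : ℝ × ℝ) (z : ℝ × ℝ) : ℝ × ℝ :=
  pt θ c z.1 (f z.1 + z.2)

/-- The Laplacian in shear coordinates. -/
noncomputable def Lf (f : ℝ → ℝ) (H : ℝ × ℝ → ℝ) (z : ℝ × ℝ) : ℝ :=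
  px (px H) z - 2 * deriv f z.1 * px (py H) z - deriv (deriv f) z.1 * py H z
    + (1 + deriv f z.1 ^ 2) * py (py H) z

/-- The vorticity in shear coordinates, in terms of the two components below. -/
noncomputable def Mf (f : ℝ → ℝ) (P Q : ℝ × ℝ → ℝ) (z : ℝ × ℝ) : ℝ :=
  px P z - 2 * deriv f z.1 * py P z - deriv (deriv f) z.1 * Q z
    + (1 + deriv f z.1 ^ 2) * py Q z

/-- First component of the velocity in shear coordinates (`∂_s` of the stream function). -/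
noncomputable def sP (f : ℝ → ℝ) (θ : ℝ) (c : ℝ × ℝ) (a b : ℝ × ℝ → ℝ) (z : ℝ × ℝ) : ℝ :=
  (-(Real.sin θ) * a (sx f θ c z) + Real.cos θ * b (sx f θ c z))
    - deriv f z.1 * (Real.cos θ * a (sx f θ c z) + Real.sin θ * b (sx f θ c z))

/-- Second component (`∂_r` of the stream function). -/
noncomputable def sQ (f : ℝ → ℝ) (θ : ℝ) (c : ℝ × ℝ) (a b : ℝ × ℝ → ℝ) (z : ℝ × ℝ) : ℝ :=
  -(Real.cos θ * a (sx f θ c z) + Real.sin θ * b (sx f θ c z))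

/-- LX. The Laplacian in shear coordinates (RT, SH and the chain rule; rotations preserve the
Laplacian). -/
def LX_stmt : Prop := ∀ (f : ℝ → ℝ) (θ : ℝ) (c : ℝ × ℝ) (F : ℝ × ℝ → ℝ), ContDiff ℝ 2 f →
  ContDiff ℝ 2 F → ∀ z, Lf f (fun z => F (sx f θ c z)) z
    = px (px F) (sx f θ c z) + py (py F) (sx f θ c z)

/-- BX. The first order relations at one point (chain rule: with the rotated velocity
`A = cos θ a + sin θ b`, `B = -sin θ a + cos θ b` one has `P = B - f' A`, `Q = -A`,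
`P_q = B_y - f' A_y`, `Q_s = -(A_x + f' A_y)`, `P_s = B_x + f' B_y - f'' A - f' (A_x + f' A_y)`,
`Q_q = -A_y`, and `A_x + B_y = a_x + b_y = 0`). -/
def BX_stmt : Prop := ∀ (f : ℝ → ℝ) (θ : ℝ) (c : ℝ × ℝ) (a b w : ℝ × ℝ → ℝ) (z : ℝ × ℝ),
  ContDiff ℝ 3 f → ContDiff ℝ 2 a → ContDiff ℝ 2 b → ContDiff ℝ 1 w →
  px a (sx f θ c z) + py b (sx f θ c z) = 0 →
  py (sP f θ c a b) z = px (sQ f θ c a b) z ∧
  Mf f (sP f θ c a b) (sQ f θ c a b) z = px b (sx f θ c z) - py a (sx f θ c z) ∧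
  sP f θ c a b z * py (fun z => w (sx f θ c z)) z - sQ f θ c a b z * px (fun z => w (sx f θ c z)) z
    = a (sx f θ c z) * px w (sx f θ c z) + b (sx f θ c z) * py w (sx f θ c z)

/-- BB. The values on the boundary near `c` (CH, AC, NC, and differentiation of these identities,
which hold for all times, in `t`; SM to commute `dt` with `dx`, `dy`). -/
def BB_stmt : Prop := ∀ (Ω : Set (ℝ × ℝ)) (ν : ℝ) (a b m n : ℝ × ℝ × ℝ → ℝ) (c : ℝ × ℝ) (θ δ : ℝ)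
  (f : ℝ → ℝ), IsOpen Ω → ν ≠ 0 → DM Ω ν a b m n → ContDiff ℝ 8 a → ContDiff ℝ 8 b →
  Chart Ω c θ δ f → 0 < deriv (deriv f) 0 → ∃ η > 0, ∀ t s, |s| < η →
  pt θ c s (f s) ∈ frontier Ω ∧ vort a b (t, pt θ c s (f s)) = vort a b (t, c) ∧
  dx (vort a b) (t, pt θ c s (f s)) = 0 ∧ dy (vort a b) (t, pt θ c s (f s)) = 0 ∧
  dt (vort a b) (t, pt θ c s (f s)) = deriv (fun t => vort a b (t, c)) t ∧
  dx (dt (vort a b)) (t, pt θ c s (f s)) = 0 ∧ dy (dt (vort a b)) (t, pt θ c s (f s)) = 0 ∧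
  dt (dt (vort a b)) (t, pt θ c s (f s)) = deriv (deriv (fun t => vort a b (t, c))) t ∧
  dx (dt (dt (vort a b))) (t, pt θ c s (f s)) = 0 ∧
  dy (dt (dt (vort a b))) (t, pt θ c s (f s)) = 0

/-! ## Jets at the boundary -/

/-- The `j`-th derivative of `H` in the second variable at `(s, 0)`. -/
noncomputable def hj (H : ℝ × ℝ → ℝ) (j : ℕ) (s : ℝ) : ℝ := (py^[j] H) (s, 0)

/-- JC. Closure lemma for jets: zero above the boundary implies zero jets (the derivatives vanish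
in the open set `|s| < η, 0 < r < η`; continuity). -/
def JC_stmt : Prop := ∀ (k : ℕ) (η : ℝ) (H : ℝ × ℝ → ℝ), ContDiff ℝ k H →
  (∀ s r, |s| < η → 0 < r → r < η → H (s, r) = 0) → ∀ j ≤ k, ∀ s, |s| < η → hj H j s = 0

/-- JD. Calculus of jets, part 1: regularity, `s` derivatives (commute `px` and `py`, SP),
linearity. -/
def JD_stmt : Prop := ∀ (k : ℕ) (H K : ℝ × ℝ → ℝ), ContDiff ℝ k H → ContDiff ℝ k K →
  (∀ j ≤ k, ContDiff ℝ (k - j : ℕ) (hj H j)) ∧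
  (∀ j < k, ∀ s, hj (px H) j s = deriv (hj H j) s) ∧
  (∀ j < k, ∀ s, hj (py H) j s = hj H (j + 1) s) ∧
  (∀ j ≤ k, ∀ s, hj (fun z => H z - K z) j s = hj H j s - hj K j s) ∧
  (∀ r : ℝ, ∀ j ≤ k, ∀ s, hj (fun z => r * H z) j s = r * hj H j s)

/-- JM. Calculus of jets, part 2: multiplication by a function of `s`. -/
def JM_stmt : Prop := ∀ (k : ℕ) (f : ℝ → ℝ) (H : ℝ × ℝ → ℝ), ContDiff ℝ k f → ContDiff ℝ k H →
  ContDiff ℝ k (fun z : ℝ × ℝ => f z.1 * H z) ∧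
  ∀ j ≤ k, ∀ s, hj (fun z : ℝ × ℝ => f z.1 * H z) j s = f s * hj H j s

/-- JN. Calculus of jets, part 3: the jets of `Lf f H` and `Mf f P Q` (from JD, JM). -/
def JN_stmt : Prop := ∀ (k : ℕ) (f : ℝ → ℝ) (H K : ℝ × ℝ → ℝ), ContDiff ℝ (k + 3 : ℕ) f →
  ContDiff ℝ (k + 2 : ℕ) H → ContDiff ℝ (k + 2 : ℕ) K →
  ContDiff ℝ k (Lf f H) ∧ ContDiff ℝ (k + 1 : ℕ) (Mf f H K) ∧
  (∀ j ≤ k, ∀ s, hj (Lf f H) j s = deriv (deriv (hj H j)) s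
    - 2 * deriv f s * deriv (hj H (j + 1)) s - deriv (deriv f) s * hj H (j + 1) s
    + (1 + deriv f s ^ 2) * hj H (j + 2) s) ∧
  (∀ j ≤ k + 1, ∀ s, hj (Mf f H K) j s = deriv (hj H j) s
    - 2 * deriv f s * hj H (j + 1) s - deriv (deriv f) s * hj K j s
    + (1 + deriv f s ^ 2) * hj K (j + 1) s)

/-- JE. The computation of the jets (functions of one variable). With `r = w1 / (ν w)`:
`Q1 = w / (1 + f'²)`, `W2 = r Q1`, `W3 = r Q2`; subtract `r` times the third (fourth) equation from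
the seventh (eighth) one divided by `ν`:
`(1 + f'²) (W4 - r Q3) = V2 / ν - r W2 = δ / (1 + f'²)`, `δ = (w w2 - w1²) / (ν² w)`, and
`-2 f' (W4 - r Q3)' - f'' (W4 - r Q3) + (1 + f'²) (W5 - r Q4) = V3 / ν - r W3
= (2 f' X' + f'' X) / (1 + f'²)`, `X = δ / (1 + f'²)`; then take the values at `0`, where
`f' = 0`. -/
def JE_stmt : Prop := ∀ (f Q1 Q2 Q3 Q4 W2 W3 W4 W5 V2 V3 : ℝ → ℝ) (ν η w w1 w2 : ℝ), 0 < ν →
  0 < η → w ≠ 0 → ContDiff ℝ 8 f → deriv f 0 = 0 → ContDiff ℝ 3 Q1 → ContDiff ℝ 3 Q2 →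
  ContDiff ℝ 3 Q3 → ContDiff ℝ 3 Q4 → ContDiff ℝ 3 W2 → ContDiff ℝ 3 W3 → ContDiff ℝ 3 W4 →
  ContDiff ℝ 2 W5 → ContDiff ℝ 3 V2 → ContDiff ℝ 3 V3 →
  (∀ s, |s| < η →
    (1 + deriv f s ^ 2) * Q1 s = w ∧
    -(2 * deriv f s * deriv Q1 s) - deriv (deriv f) s * Q1 s + (1 + deriv f s ^ 2) * Q2 s = 0 ∧
    deriv (deriv Q1) s - 2 * deriv f s * deriv Q2 s - deriv (deriv f) s * Q2 s
      + (1 + deriv f s ^ 2) * Q3 s = W2 s ∧
    deriv (deriv Q2) s - 2 * deriv f s * deriv Q3 s - deriv (deriv f) s * Q3 s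
      + (1 + deriv f s ^ 2) * Q4 s = W3 s ∧
    ν * ((1 + deriv f s ^ 2) * W2 s) = w1 ∧
    -(2 * deriv f s * deriv W2 s) - deriv (deriv f) s * W2 s + (1 + deriv f s ^ 2) * W3 s = 0 ∧
    ν * (deriv (deriv W2) s - 2 * deriv f s * deriv W3 s - deriv (deriv f) s * W3 s
      + (1 + deriv f s ^ 2) * W4 s) = V2 s ∧
    ν * (deriv (deriv W3) s - 2 * deriv f s * deriv W4 s - deriv (deriv f) s * W4 s
      + (1 + deriv f s ^ 2) * W5 s) = V3 s ∧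
    ν * ((1 + deriv f s ^ 2) * V2 s) = w2 ∧
    -(2 * deriv f s * deriv V2 s) - deriv (deriv f) s * V2 s + (1 + deriv f s ^ 2) * V3 s = 0) →
  Q1 0 = w ∧ deriv Q1 0 = 0 ∧ deriv Q2 0 = deriv (deriv (deriv f)) 0 * w ∧
  W2 0 = w1 / (ν * w) * Q1 0 ∧ W3 0 = w1 / (ν * w) * Q2 0 ∧
  deriv W2 0 = w1 / (ν * w) * deriv Q1 0 ∧ deriv W3 0 = w1 / (ν * w) * deriv Q2 0 ∧
  W4 0 - w1 / (ν * w) * Q3 0 = (w * w2 - w1 ^ 2) / (ν ^ 2 * w) ∧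
  deriv W4 0 - w1 / (ν * w) * deriv Q3 0 = 0 ∧
  deriv W5 0 - w1 / (ν * w) * deriv Q4 0
    = 2 * deriv (deriv (deriv f)) 0 * ((w * w2 - w1 ^ 2) / (ν ^ 2 * w))

/-- JA. Taylor's formula with vanishing lower jets. -/
def JA_stmt : Prop := ∀ (k : ℕ) (H : ℝ × ℝ → ℝ), ContDiff ℝ k H → (∀ j < k, hj H j 0 = 0) →
  Tendsto (fun r : ℝ => H (0, r) / r ^ k) (𝓝[>] 0) (𝓝 (hj H k 0 / (k.factorial : ℝ)))

/-- JB. The asymptotics of the bracket (from JA, JC, JD, JN, JE). Jets at `(s, 0)`, `|s| < η`: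
by JC and JN, `P_{j+1} = Q_j'`, and the four equations for the jets of `Mf`, `Lf`; so JE applies to
`Qi = hj Q i`, `Wi = hj W i`, `Vi = hj V i`. With `ρ = w1 / (ν w)` the bracket is
`P (W_r - ρ Q) - Q (W_s - ρ P)`, and by JA `P / r³ → f'''(0) w / 6`, `(W_r - ρ Q) / r³ → δ / 6`,
`Q / r → w`, `(W_s - ρ P) / r⁵ → 2 f'''(0) δ / 120`, `δ = (w w2 - w1²) / (ν² w)`. -/
def JB_stmt : Prop := ∀ (f : ℝ → ℝ) (P Q W V U : ℝ × ℝ → ℝ) (ν η w w1 w2 : ℝ), 0 < ν → 0 < η →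
  w ≠ 0 → ContDiff ℝ 8 f → deriv f 0 = 0 → ContDiff ℝ 7 P → ContDiff ℝ 8 Q → ContDiff ℝ 7 W →
  ContDiff ℝ 6 V → ContDiff ℝ 5 U →
  (∀ s r, |s| < η → 0 < r → r < η → py P (s, r) = px Q (s, r) ∧ Mf f P Q (s, r) = W (s, r) ∧
    ν * Lf f W (s, r) = V (s, r) ∧ ν * Lf f V (s, r) = U (s, r)) →
  (∀ s, |s| < η → P (s, 0) = 0 ∧ Q (s, 0) = 0 ∧ W (s, 0) = w ∧ py W (s, 0) = 0 ∧
    V (s, 0) = w1 ∧ py V (s, 0) = 0 ∧ U (s, 0) = w2 ∧ py U (s, 0) = 0) →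
  Tendsto (fun r : ℝ => (P (0, r) * py W (0, r) - Q (0, r) * px W (0, r)) / r ^ 6) (𝓝[>] 0)
    (𝓝 (deriv (deriv (deriv f)) 0 * (w * w2 - w1 ^ 2) / (90 * ν ^ 2)))

/-- CGS. The curl of the force at the boundary, during a window (HL, BX, LX, BB, JB). -/
def CGS_stmt : Prop := ∀ (Ω : Set (ℝ × ℝ)) (ν : ℝ) (G : ℝ × ℝ → ℝ) (a b m n : ℝ × ℝ × ℝ → ℝ)
  (c : ℝ × ℝ) (θ δ : ℝ) (f : ℝ → ℝ) (α β ε : ℝ), IsOpen Ω → 0 < ν → DM Ω ν a b m n →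
  ContDiff ℝ 8 a → ContDiff ℝ 8 b → Chart Ω c θ δ f → ContDiff ℝ 8 f → deriv f 0 = 0 →
  0 < deriv (deriv f) 0 →
  (∀ t, ∀ q ∈ Ω, G q = dt (vort m n) (t, q) + m (t, q) * dx (vort m n) (t, q)
    + n (t, q) * dy (vort m n) (t, q)
    + (a (t, q) * dx (vort a b) (t, q) + b (t, q) * dy (vort a b) (t, q)) / 4
    - ν * (dx (dx (vort m n)) (t, q) + dy (dy (vort m n)) (t, q))) → 0 < ε →
  (∀ t ∈ Ioo α β, ∀ q ∈ Ω ∩ Dsc c ε, m (t, q) = 0 ∧ n (t, q) = 0) →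
  ∀ t ∈ Ioo α β, vort a b (t, c) ≠ 0 →
  Tendsto (fun r : ℝ => G (pt θ c 0 r) / r ^ 6) (𝓝[>] 0)
    (𝓝 (deriv (deriv (deriv f)) 0 * (vort a b (t, c) * deriv (deriv (fun t => vort a b (t, c))) t
      - deriv (fun t => vort a b (t, c)) t ^ 2) / (360 * ν ^ 2)))

/-! ## The boundary vorticity as a function of time -/

/-- OD. On a component of `{w ≠ 0}` the function `log |w|` is convex (the inequality
`w'² ≤ w w''` holds on a dense set, so everywhere there); it cannot tend to `-∞` at a finite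
endpoint, so the component is `ℝ`; it is bounded above, so constant. -/
def OD_stmt : Prop := ∀ w : ℝ → ℝ, ContDiff ℝ 2 w → (∃ K : ℝ, ∀ t, |w t| ≤ K) →
  (∃ t, w t ≠ 0) →
  (∀ α β, α < β → (∀ t ∈ Ioo α β, w t ≠ 0) →
    ∃ t ∈ Ioo α β, deriv w t ^ 2 ≤ w t * deriv (deriv w) t) →
  ∀ t, w t = w 0

/-- FH. Boundary points near a chart point (no convexity; adapt `helper46/NS/CH.lean`). -/
def FH_stmt : Prop := ∀ (Ω : Set (ℝ × ℝ)) (c : ℝ × ℝ) (θ δ : ℝ) (f : ℝ → ℝ), IsOpen Ω →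
  Chart Ω c θ δ f →
  ∃ η > 0, (∃ V ∈ 𝓝 c, ∀ q ∈ frontier Ω ∩ V, ∃ s, |s| < η ∧ q = pt θ c s (f s)) ∧
    ∀ s, |s| < η → pt θ c s (f s) ∈ frontier Ω

/-- HJ. Two-jets at the boundary, on a time window (as KT, HZ: differentiate `F = 0`, `F_x = 0`,
`F_y = 0` along the boundary curve and in time; `D²F` is symmetric, traceless and has the tangent
vector in the kernel). -/
def HJ_stmt : Prop := ∀ (Ω : Set (ℝ × ℝ)) (c : ℝ × ℝ) (θ δ : ℝ) (f : ℝ → ℝ) (α β : ℝ)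
  (F : ℝ × ℝ × ℝ → ℝ), IsOpen Ω → Chart Ω c θ δ f → ContDiff ℝ 2 F → ∀ V ∈ 𝓝 c,
  (∀ t ∈ Ioo α β, ∀ q ∈ frontier Ω ∩ V, F (t, q) = 0 ∧ dx F (t, q) = 0 ∧ dy F (t, q) = 0 ∧
    lap F (t, q) = 0) →
  ∃ V' ∈ 𝓝 c, ∀ t ∈ Ioo α β, ∀ q ∈ frontier Ω ∩ V',
    F (t, q) = 0 ∧ fderiv ℝ F (t, q) = 0 ∧ fderiv ℝ (fderiv ℝ F) (t, q) = 0

/-- UV. If the boundary vorticity is constant in time during a window, the vorticity is constant
near `c` (for `F = vort a b - w0`: HJ by AC, NC and the closure of the heat equation; GL with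
`A = univ ×ˢ Ω`; YI on a disc around `c`, from outside of `Ω`, as in `helper46/NS/LU.lean`). -/
def UV_stmt : Prop := ∀ (Ω : Set (ℝ × ℝ)) (ν : ℝ) (a b m n : ℝ × ℝ × ℝ → ℝ) (c : ℝ × ℝ)
  (θ δ : ℝ) (f : ℝ → ℝ) (α β ε w0 : ℝ), IsOpen Ω → 0 < ν → DM Ω ν a b m n → ContDiff ℝ 8 a →
  ContDiff ℝ 8 b → Chart Ω c θ δ f → 0 < deriv (deriv f) 0 → 0 < ε →
  (∀ t ∈ Ioo α β, ∀ q ∈ Ω ∩ Dsc c ε, heat ν (vort a b) (t, q) = 0) →
  (∀ t ∈ Ioo α β, vort a b (t, c) = w0) →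
  ∃ ε' > 0, ∀ t ∈ Ioo α β, ∀ q ∈ Ω ∩ Dsc c ε', vort a b (t, q) = w0

/-! ## The torque -/

/-- TQA. Integration by parts for a `C¹` function which vanishes on the boundary of an arbitrary
bounded open set. (For fixed `y` the section of `Ω` is a countable union of intervals with
endpoints in the boundary; or: approximate by `φ_k ∘ f` with `φ_k = 0` near `0`, these times the
indicator of `Ω` are `C¹` with compact support; the set where `f = 0`, `px f ≠ 0` is a null set, as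
its horizontal sections are countable.) -/
def TQA_stmt : Prop := ∀ (Ω : Set (ℝ × ℝ)) (f : ℝ × ℝ → ℝ), IsOpen Ω → Bornology.IsBounded Ω →
  ContDiff ℝ 1 f → (∀ q ∈ frontier Ω, f q = 0) → ∫ q in Ω, px f q = 0 ∧ ∫ q in Ω, py f q = 0

/-- TQB. If the boundary is connected, the boundary vorticity of the difference depends only on
the time (NC, FH; locally constant on a preconnected set). -/
def TQB_stmt : Prop := ∀ (Ω : Set (ℝ × ℝ)) (ν : ℝ) (a b m n : ℝ × ℝ × ℝ → ℝ), IsOpen Ω → ν ≠ 0 →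
  DM Ω ν a b m n → IsPreconnected (frontier Ω) →
  (∀ q ∈ frontier Ω, ∃ (θ δ : ℝ) (f : ℝ → ℝ), Chart Ω q θ δ f) →
  ∀ t, ∀ q ∈ frontier Ω, ∀ q' ∈ frontier Ω, vort a b (t, q) = vort a b (t, q')

/-- TQC. The divergence form of the torque density. With `ω = vort a b`:
`x b_t - y a_t = ∂_x X + ∂_y Y + 2 ν w0`,
`X = ν x (ω - w0) - 2 ν b - (x (m b + a n) - 2 y m a)`,
`Y = ν y (ω - w0) + 2 ν a - (2 x n b - y (n a + b m))` (pure calculus on `Ω`, from `ea`, `eb`, `da`,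
`dm` and the derivatives of `da`: `Δb = ω_x`, `Δa = -ω_y`). -/
def TQC_stmt : Prop := ∀ (Ω : Set (ℝ × ℝ)) (ν w0 t : ℝ) (a b m n : ℝ × ℝ × ℝ → ℝ), IsOpen Ω →
  DM Ω ν a b m n → ∀ X Y : ℝ × ℝ → ℝ,
  X = (fun q => ν * q.1 * (vort a b (t, q) - w0) - 2 * ν * b (t, q)
    - (q.1 * (m (t, q) * b (t, q) + a (t, q) * n (t, q)) - 2 * q.2 * m (t, q) * a (t, q))) →
  Y = (fun q => ν * q.2 * (vort a b (t, q) - w0) + 2 * ν * a (t, q)
    - (2 * q.1 * n (t, q) * b (t, q) - q.2 * (n (t, q) * a (t, q) + b (t, q) * m (t, q)))) →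
  ContDiff ℝ 1 X ∧ ContDiff ℝ 1 Y ∧
  ∀ q ∈ Ω, q.1 * dt b (t, q) - q.2 * dt a (t, q) = px X q + py Y q + 2 * ν * w0

/-- TQD. The torque (TQA, TQC; differentiation under the integral). -/
def TQD_stmt : Prop := ∀ (Ω : Set (ℝ × ℝ)) (ν w0 : ℝ) (a b m n : ℝ × ℝ × ℝ → ℝ), IsOpen Ω →
  Bornology.IsBounded Ω → DM Ω ν a b m n → (∀ t, ∀ q ∈ frontier Ω, vort a b (t, q) = w0) →
  ∀ t, HasDerivAt (fun t => ∫ q in Ω, (q.1 * b (t, q) - q.2 * a (t, q)))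
    (2 * ν * w0 * (volume Ω).toReal) t

/-- TQE. So a nonzero constant boundary vorticity is impossible (TQD: the torque would be
unbounded). -/
def TQE_stmt : Prop := ∀ (Ω : Set (ℝ × ℝ)) (ν w0 K : ℝ) (a b m n : ℝ × ℝ × ℝ → ℝ), IsOpen Ω →
  Ω.Nonempty → Bornology.IsBounded Ω → 0 < ν → DM Ω ν a b m n →
  (∀ z, |a z| ≤ K ∧ |b z| ≤ K) → (∀ t, ∀ q ∈ frontier Ω, vort a b (t, q) = w0) → w0 = 0

/-! ## Assembly -/

/-- GE. Injectivity if the curl of the force is not (with the exceptional sign) of order six at a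
strictly convex boundary point which is not a vertex. -/
def GE_stmt : Prop := ∀ (Ω : Set (ℝ × ℝ)) (ν B : ℝ) (g h : ℝ × ℝ → ℝ) (c : ℝ × ℝ) (θ δ : ℝ)
  (f : ℝ → ℝ) (a1 b1 p1 a2 b2 p2 : ℝ × ℝ × ℝ → ℝ), IsOpen Ω → IsConnected Ω →
  Bornology.IsBounded Ω → 0 < ν → ContDiff ℝ 1 g → ContDiff ℝ 1 h → Chart Ω c θ δ f →
  ContDiff ℝ 8 f → deriv f 0 = 0 → 0 < deriv (deriv f) 0 → deriv (deriv (deriv f)) 0 ≠ 0 →
  (¬ ∃ l : ℝ, l * deriv (deriv (deriv f)) 0 < 0 ∧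
    Tendsto (fun r : ℝ => curl g h (pt θ c 0 r) / r ^ 6) (𝓝[>] 0) (𝓝 l)) →
  ((IsPreconnected (frontier Ω) ∧
      ∀ q ∈ frontier Ω, ∃ (θ δ : ℝ) (f : ℝ → ℝ), Chart Ω q θ δ f) ∨
    ∀ ε > 0, ∃ q ∈ Ω ∩ Dsc c ε, curl g h q ≠ 0) →
  RegN 5 B a1 b1 p1 → RegN 5 B a2 b2 p2 →
  Sol Ω ν g h univ a1 b1 p1 → Sol Ω ν g h univ a2 b2 p2 → (∀ t, ∀ q ∈ Ω, p1 (t, q) = p2 (t, q)) →
  ∀ t, ∀ q ∈ Ω, a1 (t, q) = a2 (t, q) ∧ b1 (t, q) = b2 (t, q)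

end NS
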