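import Pool.Agent.helper29.NS.SpecE
import Pool.Agent.helper31.NS.Calc

namespace NS

open MeasureTheory Filter Topology Set

theorem TQC_x (f : ℝ × ℝ × ℝ → ℝ) (hf : Differentiable ℝ f) (t x y : ℝ) :
    HasDerivAt (fun s => f (t, (s, y))) (dx f (t, (x, y))) x := by
  have h1 : HasFDerivAt f (fderiv ℝ f (t, (x, y))) (t, (x, y)) := (hf _).hasFDerivAt
  have h2 : HasDerivAt (fun s : ℝ => ((t, (s, y)) : ℝ × ℝ × ℝ)) ((0 : ℝ), ((1 : ℝ), (0 : ℝ))) x :=
    (hasDerivAt_const x t).prodMk ((hasDerivAt_id x).prodMk (hasDerivAt_const x y))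
  exact h1.comp_hasDerivAt x h2

theorem TQC_y (f : ℝ × ℝ × ℝ → ℝ) (hf : Differentiable ℝ f) (t x y : ℝ) :
    HasDerivAt (fun s => f (t, (x, s))) (dy f (t, (x, y))) y := by
  have h1 : HasFDerivAt f (fderiv ℝ f (t, (x, y))) (t, (x, y)) := (hf _).hasFDerivAt
  have h2 : HasDerivAt (fun s : ℝ => ((t, (x, s)) : ℝ × ℝ × ℝ)) ((0 : ℝ), ((0 : ℝ), (1 : ℝ))) y :=
    (hasDerivAt_const y t).prodMk ((hasDerivAt_const y x).prodMk (hasDerivAt_id y))
  exact h1.comp_hasDerivAt y h2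

theorem TQC_px (X : ℝ × ℝ → ℝ) (hX : Differentiable ℝ X) (x y : ℝ) :
    HasDerivAt (fun s => X (s, y)) (px X (x, y)) x := by
  have h1 : HasFDerivAt X (fderiv ℝ X (x, y)) (x, y) := (hX _).hasFDerivAt
  have h2 : HasDerivAt (fun s : ℝ => ((s, y) : ℝ × ℝ)) ((1 : ℝ), (0 : ℝ)) x :=
    (hasDerivAt_id x).prodMk (hasDerivAt_const x y)
  exact h1.comp_hasDerivAt x h2

theorem TQC_py (X : ℝ × ℝ → ℝ) (hX : Differentiable ℝ X) (x y : ℝ) :
    HasDerivAt (fun s => X (x, s)) (py X (x, y)) y := by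
  have h1 : HasFDerivAt X (fderiv ℝ X (x, y)) (x, y) := (hX _).hasFDerivAt
  have h2 : HasDerivAt (fun s : ℝ => ((x, s) : ℝ × ℝ)) ((0 : ℝ), (1 : ℝ)) y :=
    (hasDerivAt_const y x).prodMk (hasDerivAt_id y)
  exact h1.comp_hasDerivAt y h2

theorem TQC : TQC_stmt := by
  intro Ω ν w0 t a b m n hO hDM X Y hX hY
  have ca1 : ContDiff ℝ 2 (dy a) := (NC_c2 hDM.ca).2.2.1
  have ca2 : ContDiff ℝ 2 (dx a) := (NC_c2 hDM.ca).2.1
  have cb1 : ContDiff ℝ 2 (dx b) := (NC_c2 hDM.cb).2.1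
  have cb2 : ContDiff ℝ 2 (dy b) := (NC_c2 hDM.cb).2.2.1
  have cω : ContDiff ℝ 2 (vort a b) := cb1.sub ca1
  have hsl : ∀ (F : ℝ × ℝ × ℝ → ℝ), ContDiff ℝ 2 F → ContDiff ℝ 1 (fun q : ℝ × ℝ => F (t, q)) := by
    intro F hF
    exact (hF.of_le (by norm_num)).comp (contDiff_prodMk_right t)
  have h32 : (2 : WithTop ℕ∞) ≤ 3 := by norm_num
  have sa := hsl a (hDM.ca.of_le h32)
  have sb := hsl b (hDM.cb.of_le h32)
  have sm := hsl m (hDM.cm.of_le h32)
  have sn := hsl n (hDM.cn.of_le h32)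
  have sω := hsl _ cω
  have cX : ContDiff ℝ 1 X := by
    rw [hX]
    exact (((contDiff_const.mul contDiff_fst).mul (sω.sub contDiff_const)).sub
      (contDiff_const.mul sb)).sub ((contDiff_fst.mul ((sm.mul sb).add (sa.mul sn))).sub
        (((contDiff_const.mul contDiff_snd).mul sm).mul sa))
  have cY : ContDiff ℝ 1 Y := by
    rw [hY]
    exact (((contDiff_const.mul contDiff_snd).mul (sω.sub contDiff_const)).add
      (contDiff_const.mul sa)).sub ((((contDiff_const.mul contDiff_fst).mul sn).mul sb).sub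
        (contDiff_snd.mul ((sn.mul sa).add (sb.mul sm))))
  refine ⟨cX, cY, ?_⟩
  rintro ⟨x, y⟩ hq
  have hda := NC_d3 hDM.ca
  have hdb := NC_d3 hDM.cb
  have hdm := NC_d3 hDM.cm
  have hdn := NC_d3 hDM.cn
  have hdω := NC_d2 cω
  -- derivative of X
  have eX : px X (x, y) = ν * (vort a b (t, (x, y)) - w0) + ν * x * dx (vort a b) (t, (x, y))
      - 2 * ν * dx b (t, (x, y))
      - ((m (t, (x, y)) * b (t, (x, y)) + a (t, (x, y)) * n (t, (x, y)))
        + x * (dx m (t, (x, y)) * b (t, (x, y)) + m (t, (x, y)) * dx b (t, (x, y))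
          + (dx a (t, (x, y)) * n (t, (x, y)) + a (t, (x, y)) * dx n (t, (x, y))))
        - (2 * y * dx m (t, (x, y)) * a (t, (x, y))
          + 2 * y * m (t, (x, y)) * dx a (t, (x, y)))) := by
    have h1 := TQC_px X (cX.differentiable (by norm_num)) x y
    have ha := TQC_x a hda t x y
    have hb := TQC_x b hdb t x y
    have hm := TQC_x m hdm t x y
    have hn := TQC_x n hdn t x y
    have hω := TQC_x (vort a b) hdω t x y
    have h2 := ((((hasDerivAt_id x).const_mul ν).mul (hω.sub_const w0)).sub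
      (hb.const_mul (2 * ν))).sub (((hasDerivAt_id x).mul ((hm.mul hb).add (ha.mul hn))).sub
        ((hm.const_mul (2 * y)).mul ha))
    have h3 := h2.congr_of_eventuallyEq (f₁ := fun s => X (s, y))
      (Eventually.of_forall fun s => by rw [hX]; rfl)
    rw [h1.unique h3]
    simp only [id, Pi.add_apply, Pi.mul_apply]
    ring
  have eY : py Y (x, y) = ν * (vort a b (t, (x, y)) - w0) + ν * y * dy (vort a b) (t, (x, y))
      + 2 * ν * dy a (t, (x, y))
      - (2 * x * dy n (t, (x, y)) * b (t, (x, y)) + 2 * x * n (t, (x, y)) * dy b (t, (x, y))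
        - ((n (t, (x, y)) * a (t, (x, y)) + b (t, (x, y)) * m (t, (x, y)))
          + y * (dy n (t, (x, y)) * a (t, (x, y)) + n (t, (x, y)) * dy a (t, (x, y))
            + (dy b (t, (x, y)) * m (t, (x, y)) + b (t, (x, y)) * dy m (t, (x, y)))))) := by
    have h1 := TQC_py Y (cY.differentiable (by norm_num)) x y
    have ha := TQC_y a hda t x y
    have hb := TQC_y b hdb t x y
    have hm := TQC_y m hdm t x y
    have hn := TQC_y n hdn t x y
    have hω := TQC_y (vort a b) hdω t x y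
    have h2 := ((((hasDerivAt_id y).const_mul ν).mul (hω.sub_const w0)).add
      (ha.const_mul (2 * ν))).sub (((hn.const_mul (2 * x)).mul hb).sub
        ((hasDerivAt_id y).mul ((hn.mul ha).add (hb.mul hm))))
    have h3 := h2.congr_of_eventuallyEq (f₁ := fun s => Y (x, s))
      (Eventually.of_forall fun s => by rw [hY]; rfl)
    rw [h1.unique h3]
    simp only [id, Pi.add_apply, Pi.mul_apply]
    ring
  -- the vorticity gradient
  have hU : IsOpen ((univ : Set ℝ) ×ˢ Ω) := isOpen_univ.prod hO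
  have hdiv : ∀ z ∈ (univ : Set ℝ) ×ˢ Ω, dx a z + dy b z = 0 := by
    rintro ⟨s, q⟩ hz
    exact hDM.da s q hz.2
  have hz : ((t, (x, y)) : ℝ × ℝ × ℝ) ∈ (univ : Set ℝ) ×ˢ Ω := ⟨mem_univ _, hq⟩
  have d1 := NC_add hU (0, 1, 0) (NC_d2 ca2) (NC_d2 cb2) hdiv _ hz
  have d2 := NC_add hU (0, 0, 1) (NC_d2 ca2) (NC_d2 cb2) hdiv _ hz
  have s1 : dx (dy a) = dy (dx a) := (NC_c2 hDM.ca).2.2.2.2.2
  have s2 : dx (dy b) = dy (dx b) := (NC_c2 hDM.cb).2.2.2.2.2
  have e1 : dx (vort a b) (t, (x, y)) = dx (dx b) (t, (x, y)) - dx (dy a) (t, (x, y)) := by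
    show dx (fun z => dx b z - dy a z) _ = _
    rw [NC_dx_sub (NC_d2 cb1) (NC_d2 ca1)]
  have e2 : dy (vort a b) (t, (x, y)) = dy (dx b) (t, (x, y)) - dy (dy a) (t, (x, y)) := by
    show dy (fun z => dx b z - dy a z) _ = _
    rw [NC_dy_sub (NC_d2 cb1) (NC_d2 ca1)]
  have d1' : dx (dx a) (t, (x, y)) + dx (dy b) (t, (x, y)) = 0 := d1
  have d2' : dy (dx a) (t, (x, y)) + dy (dy b) (t, (x, y)) = 0 := d2
  rw [s2] at d1'
  have eωx : dx (vort a b) (t, (x, y)) = dx (dx b) (t, (x, y)) + dy (dy b) (t, (x, y)) := by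
    rw [e1, s1]
    linarith
  have eωy : dy (vort a b) (t, (x, y)) = -(dx (dx a) (t, (x, y)) + dy (dy a) (t, (x, y))) := by
    rw [e2]
    linarith
  have ea := hDM.ea t (x, y) hq
  have eb := hDM.eb t (x, y) hq
  have da := hDM.da t (x, y) hq
  have dm := hDM.dm t (x, y) hq
  have hv : vort a b (t, (x, y)) = dx b (t, (x, y)) - dy a (t, (x, y)) := rfl
  rw [eX, eY, eωx, eωy, hv]
  show x * dt b (t, (x, y)) - y * dt a (t, (x, y)) = _
  linear_combination x * eb - y * ea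
    + (x * b (t, (x, y)) - y * a (t, (x, y))) * dm
    + (x * n (t, (x, y)) - y * m (t, (x, y))) * da

end NS
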