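import Pool.Agent.helper29.NS.SpecE

namespace NS

open MeasureTheory Filter Topology Set

theorem TQE (hTQD : TQD_stmt) : TQE_stmt := by
  intro Ω ν w0 K a b m n hO hne hB hν hDM hbd hw
  by_contra hw0
  have hder := hTQD Ω ν w0 a b m n hO hB hDM hw
  set V : ℝ := (volume Ω).toReal with hV
  have hfin : volume Ω ≠ ⊤ := hB.measure_lt_top.ne
  have hVpos : 0 < V := ENNReal.toReal_pos (hO.measure_pos volume hne).ne' hfin
  set T : ℝ → ℝ := fun t => ∫ q in Ω, (q.1 * b (t, q) - q.2 * a (t, q)) with hT
  -- the torque is bounded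
  obtain ⟨R, hR⟩ := hB.subset_closedBall (0 : ℝ × ℝ)
  have hK : 0 ≤ K := (abs_nonneg _).trans (hbd 0).1
  have hR0 : 0 ≤ R := by
    obtain ⟨q, hq⟩ := hne
    have := hR hq
    rw [mem_closedBall_zero_iff] at this
    exact (norm_nonneg _).trans this
  have hTb : ∀ t, |T t| ≤ 2 * R * K * V := by
    intro t
    have h1 : ‖∫ q in Ω, (q.1 * b (t, q) - q.2 * a (t, q))‖ ≤ (2 * R * K) * (volume.real Ω) := by
      apply norm_setIntegral_le_of_norm_le_const hB.measure_lt_top
      intro q hq
      have hqR := hR hq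
      rw [mem_closedBall_zero_iff, Prod.norm_def, max_le_iff, Real.norm_eq_abs,
        Real.norm_eq_abs] at hqR
      rw [Real.norm_eq_abs]
      have e1 : |q.1 * b (t, q)| ≤ R * K := by
        rw [abs_mul]
        exact mul_le_mul hqR.1 (hbd _).2 (abs_nonneg _) hR0
      have e2 : |q.2 * a (t, q)| ≤ R * K := by
        rw [abs_mul]
        exact mul_le_mul hqR.2 (hbd _).1 (abs_nonneg _) hR0
      calc |q.1 * b (t, q) - q.2 * a (t, q)| ≤ |q.1 * b (t, q)| + |q.2 * a (t, q)| := abs_sub _ _
        _ ≤ 2 * R * K := by linarith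
    rw [Real.norm_eq_abs] at h1
    exact h1
  -- but grows linearly
  have hlin : ∀ t, T t = T 0 + 2 * ν * w0 * V * t := by
    have hconst : ∀ x y : ℝ, (fun t => T t - 2 * ν * w0 * V * t) x
        = (fun t => T t - 2 * ν * w0 * V * t) y := by
      apply is_const_of_deriv_eq_zero
      · intro t
        exact ((hder t).sub ((hasDerivAt_id t).const_mul (2 * ν * w0 * V))).differentiableAt
      · intro t
        have := ((hder t).sub ((hasDerivAt_id t).const_mul (2 * ν * w0 * V))).deriv
        simp only [mul_one, sub_self] at this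
        exact this
    intro t
    have := hconst t 0
    simp only [mul_zero, sub_zero] at this
    linarith
  set A : ℝ := 2 * ν * w0 * V with hA
  have hA0 : A ≠ 0 := by
    rw [hA]
    exact mul_ne_zero (mul_ne_zero (by positivity) hw0) hVpos.ne'
  set M : ℝ := 2 * R * K * V with hM
  have hM0 : 0 ≤ M := by positivity
  have h1 := hTb ((2 * M + 1) / A)
  rw [hlin, mul_div_cancel₀ _ hA0] at h1
  have h0 := hTb 0
  rw [abs_le] at h0 h1
  linarith [h0.1, h1.2]

end NS
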