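import Pool.Agent.helper29.NS.SpecE

namespace NS

open MeasureTheory Filter Topology Set

theorem WN (hSL : SL_stmt) (hAL : AL_stmt) (hAB : AB_stmt) : WN_stmt := by
  intro Ω ν a b m n c θ δ f hO hν hdm hch hf2 α β hαβ hwin
  have hslice : ∀ (f : ℝ × ℝ × ℝ → ℝ) (t : ℝ), ContDiff ℝ 3 f → ContDiff ℝ 2 (fun q => f (t, q)) := by
    intro f t hf
    exact (hf.of_le (by norm_num)).comp (contDiff_prodMk_right t)
  have hdiff : ∀ f : ℝ × ℝ × ℝ → ℝ, ContDiff ℝ 3 f → Differentiable ℝ f := fun f hf =>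
    hf.differentiable (by norm_num)
  have hst : ∀ t ∈ Ioo α β, ∃ V ∈ 𝓝 c, ∀ q ∈ Ω ∩ V, m (t, q) = 0 ∧ n (t, q) = 0 := by
    intro t ht
    refine hAL Ω c hO ⟨θ, δ, f, hch, hf2⟩ (fun q => a (t, q)) (fun q => b (t, q))
      (fun q => m (t, q)) (fun q => n (t, q)) (hslice a t hdm.ca) (hslice b t hdm.cb)
      (hslice m t hdm.cm) (hslice n t hdm.cn) ?_ (fun q hq => hdm.bc t q hq) ?_
    · intro q hq
      obtain ⟨ax, ay, -⟩ := hSL a t q (hdiff a hdm.ca _)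
      obtain ⟨bx, by', -⟩ := hSL b t q (hdiff b hdm.cb _)
      obtain ⟨mx, my, -⟩ := hSL m t q (hdiff m hdm.cm _)
      obtain ⟨nx, ny, -⟩ := hSL n t q (hdiff n hdm.cn _)
      rw [ax, ay, bx, by', mx, my, nx, ny]
      exact ⟨hdm.da t q hq, hdm.dm t q hq, hdm.tr t q hq⟩
    · obtain ⟨-, ay, -⟩ := hSL a t c (hdiff a hdm.ca _)
      obtain ⟨bx, -, -⟩ := hSL b t c (hdiff b hdm.cb _)
      rw [ay, bx]
      exact hwin t ht
  exact hAB Ω m n c α β hαβ hdm.cm.continuous hdm.cn.continuous hst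

end NS
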