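import Pool.Agent.helper29.NS.FinD
import Pool.Agent.helper29.NS.SpecE
import Pool.Agent.helper29.NS.RM
import Pool.Agent.helper29.NS.CVM
import Pool.Agent.helper29.NS.WN
import Pool.Agent.helper29.NS.SCN
import Pool.Agent.helper29.NS.FSN
import Pool.Agent.helper29.NS.QAN
import Pool.Agent.helper29.NS.FH
import Pool.Agent.helper29.NS.JA
import Pool.Agent.helper29.NS.JD
import Pool.Agent.helper29.NS.LX
import Pool.Agent.helper29.NS.BX
import Pool.Agent.helper29.NS.TQC
import Pool.Agent.helper29.NS.TQD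
import Pool.Agent.helper29.NS.TQE
import Pool.Agent.helper29.NS.CGS
import Pool.Agent.helper29.NS.GE
import Pool.Agent.helper29.NS.QE
import Pool.Agent.helper11.NS.TQA
import Pool.Agent.helper11.NS.HJ
import Pool.Agent.helper11.NS.HL
import Pool.Agent.helper11.NS.BB
import Pool.Agent.helper11.NS.JC
import Pool.Agent.helper79.NS.TQB
import Pool.Agent.helper64.NS.UV
import Pool.Agent.helper92.NS.JB
import Pool.Agent.helper92.NS.JE
import Pool.Agent.helper46.NS.JM
import Pool.Agent.helper46.NS.JN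
import Pool.Agent.helper20.NS.OD

namespace NS

theorem FinE_JB : JB_stmt := JB JA JC JD (JN JD JM) JE
theorem FinE_BB : BB_stmt := BB CH FinD_AC NC SM SL
theorem FinE_HL : HL_stmt := HL SM
theorem FinE_CGS : CGS_stmt := CGS SL SM FinE_HL BX LX FinE_BB FinE_JB
theorem FinE_UV : UV_stmt := UV FinD_AC NC CL (HJ FH) GLm FinD_YI SL SM
theorem FinE_AN : AN_stmt := AN FinD_AC (HZ TG CH NC) (UB GLm Fin_UI) Fin_UI
theorem FinE_GE : GE_stmt :=
  GE DE DT CR SL SM (VA CR SM VE) FinE_AN RM (WN SL Fin_AL AB) FinE_HL FinE_CGS OD FH FinE_UV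
    (TQB NC FH) (TQE (TQD SM TQA TQC))
theorem FinE_SCN : SCN_stmt := SCN Fin_AA A2 LM (P1 CM) P2 RM CVM
theorem FinE_FSN : FSN_stmt := FSN SL CR ST P3 CT RM
theorem FinE_QAN : QAN_stmt := QAN ST LM (P1 CM) P3 CT RM CVM

end NS
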