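import Pool.Agent.helper29.NS.Defs

/-!
# Project `ns:` (MP_b9b054_an), statements, part 1

Every `XX_stmt : Prop` is one module `ns:XX`.  The paper proof is in the team store,
`MP_b9b054_proof.md`.
-/

namespace NS

open MeasureTheory Filter Topology Set

/-! ## General facts -/

/-- SL. Slices. Chain rule with the affine maps `q ↦ (t, q)`, `t ↦ (t, q)`. -/
def SL_stmt : Prop := ∀ (f : ℝ × ℝ × ℝ → ℝ) (t : ℝ) (q : ℝ × ℝ), DifferentiableAt ℝ f (t, q) →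
  px (fun q => f (t, q)) q = dx f (t, q) ∧ py (fun q => f (t, q)) q = dy f (t, q) ∧
    deriv (fun t => f (t, q)) t = dt f (t, q)

/-- SM. Regularity of the derivatives and symmetry of second derivatives (`ContDiff.fderiv_right`,
`second_derivative_symmetric` or `ContDiffAt.isSymmSndFDerivAt`). -/
def SM_stmt : Prop := ∀ (k : ℕ) (f : ℝ × ℝ × ℝ → ℝ), ContDiff ℝ (k + 1 : ℕ) f →
  ContDiff ℝ k (dt f) ∧ ContDiff ℝ k (dx f) ∧ ContDiff ℝ k (dy f) ∧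
  (1 ≤ k → dt (dx f) = dx (dt f) ∧ dt (dy f) = dy (dt f) ∧ dx (dy f) = dy (dx f))

/-- SP. The same for functions of `(x, y)`. -/
def SP_stmt : Prop := ∀ (k : ℕ) (f : ℝ × ℝ → ℝ), ContDiff ℝ (k + 1 : ℕ) f →
  ContDiff ℝ k (px f) ∧ ContDiff ℝ k (py f) ∧ (1 ≤ k → px (py f) = py (px f))

/-- CL. Closure lemma: a continuous function which vanishes on `Ω` near a point of the closure
vanishes at this point; if it is `C¹`, its derivative vanishes there, too (the derivative vanishes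
on the open set `Ω ∩ interior V`; then continuity). -/
def CL_stmt : Prop := ∀ (Ω : Set (ℝ × ℝ)), IsOpen Ω → ∀ c ∈ closure Ω, ∀ V ∈ 𝓝 c,
  ∀ f : ℝ × ℝ → ℝ, Continuous f → (∀ q ∈ Ω ∩ V, f q = 0) →
    f c = 0 ∧ (ContDiff ℝ 1 f → fderiv ℝ f c = 0)

/-- CR. `C^{k,1}` in our sense implies `ContDiff ℝ k` (induction on `k`; `fderiv` is a continuous
linear combination of `dt, dx, dy`; `contDiff_succ_iff_fderiv`). -/
def CR_stmt : Prop := ∀ (k : ℕ) (B : ℝ) (f : ℝ × ℝ × ℝ → ℝ), Cls k B f → ContDiff ℝ k f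

/-- CM. Monotonicity in `B`, and a Lipschitz bound for every `k`. -/
def CM_stmt : Prop := ∀ (k : ℕ) (B B' : ℝ) (f : ℝ × ℝ × ℝ → ℝ), Cls k B f → B ≤ B' →
  Cls k B' f ∧ ∀ z w, |f z - f w| ≤ 3 * B * dist z w

/-- CT. Translation in time. -/
def CT_stmt : Prop := ∀ (T : ℝ) (f : ℝ × ℝ × ℝ → ℝ),
  (∀ z, dt (fun z => f (z.1 + T, z.2)) z = dt f (z.1 + T, z.2) ∧
    dx (fun z => f (z.1 + T, z.2)) z = dx f (z.1 + T, z.2) ∧
    dy (fun z => f (z.1 + T, z.2)) z = dy f (z.1 + T, z.2)) ∧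
  ∀ (k : ℕ) (B : ℝ), Cls k B f → Cls k B (fun z => f (z.1 + T, z.2))

/-- ST. A solution on `J`, translated in time by `T`, is a solution on `J - T`. -/
def ST_stmt : Prop := ∀ (Ω : Set (ℝ × ℝ)) (ν : ℝ) (g h : ℝ × ℝ → ℝ) (J J' : Set ℝ) (T B : ℝ)
  (a b p : ℝ × ℝ × ℝ → ℝ), Reg B a b p → Sol Ω ν g h J a b p → (∀ t ∈ J', t + T ∈ J) →
  Reg B (fun z => a (z.1 + T, z.2)) (fun z => b (z.1 + T, z.2)) (fun z => p (z.1 + T, z.2)) ∧
  Sol Ω ν g h J' (fun z => a (z.1 + T, z.2)) (fun z => b (z.1 + T, z.2))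
    (fun z => p (z.1 + T, z.2))

/-! ## Compactness -/

/-- A0. Arzelà–Ascoli for bounded Lipschitz functions on `ℝ³`. (Diagonal sequence on a countable
dense set, or `BoundedContinuousFunction.arzela_ascoli` on balls and a diagonal sequence, or
`ArzelaAscoli` for the compact-open topology.) -/
def A0_stmt : Prop := ∀ (B : ℝ) (s : ℕ → (ℝ × ℝ × ℝ → ℝ)),
  (∀ n, (∀ z, |s n z| ≤ B) ∧ ∀ z w, |s n z - s n w| ≤ 3 * B * dist z w) →
  ∃ (f : ℝ × ℝ × ℝ → ℝ) (φ : ℕ → ℕ), StrictMono φ ∧ (∀ z, |f z| ≤ B) ∧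
    (∀ z w, |f z - f w| ≤ 3 * B * dist z w) ∧ TendstoLocallyUniformly (fun n => s (φ n)) f atTop

/-- A1. Limits of derivatives (`hasFDerivAt_of_tendstoLocallyUniformlyOn` or similar; the `fderiv`
is the linear combination of the three derivatives, so it converges locally uniformly). -/
def A1_stmt : Prop := ∀ (s : ℕ → (ℝ × ℝ × ℝ → ℝ)) (f f0 f1 f2 : ℝ × ℝ × ℝ → ℝ),
  (∀ n, Differentiable ℝ (s n)) → TendstoLocallyUniformly s f atTop →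
  TendstoLocallyUniformly (fun n => dt (s n)) f0 atTop →
  TendstoLocallyUniformly (fun n => dx (s n)) f1 atTop →
  TendstoLocallyUniformly (fun n => dy (s n)) f2 atTop →
  Differentiable ℝ f ∧ dt f = f0 ∧ dx f = f1 ∧ dy f = f2

/-- A2. Subsequences of `Cvg`, and what `Cvg` gives pointwise. -/
def A2_stmt : Prop := ∀ (k : ℕ) (s : ℕ → (ℝ × ℝ × ℝ → ℝ)) (f : ℝ × ℝ × ℝ → ℝ) (φ : ℕ → ℕ),
  StrictMono φ → Cvg k s f → Cvg k (fun n => s (φ n)) f ∧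
    TendstoLocallyUniformly s f atTop

/-- AA. Compactness of the classes `C^{k,1}`: induction on `k` with A0 (via CM), A1, A2. -/
def AA_stmt : Prop := ∀ (k : ℕ) (B : ℝ) (s : ℕ → (ℝ × ℝ × ℝ → ℝ)), (∀ n, Cls k B (s n)) →
  ∃ (f : ℝ × ℝ × ℝ → ℝ) (φ : ℕ → ℕ), StrictMono φ ∧ Cls k B f ∧ Cvg k (fun n => s (φ n)) f

/-- LM. Limits of solutions on `(-T n, ∞)`, `T n → ∞`, are complete solutions. (At fixed
`(t, q)` every term converges; the mean: uniform convergence on the bounded set `Ω`, or dominated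
convergence with the bound of the class.) -/
def LM_stmt : Prop := ∀ (Ω : Set (ℝ × ℝ)), IsOpen Ω → Bornology.IsBounded Ω → ∀ (ν : ℝ)
  (g h : ℝ × ℝ → ℝ) (B : ℝ) (T : ℕ → ℝ) (a b p : ℕ → (ℝ × ℝ × ℝ → ℝ)) (a' b' p' : ℝ × ℝ × ℝ → ℝ),
  Tendsto T atTop atTop → (∀ n, Reg B (a n) (b n) (p n)) →
  (∀ n, Sol Ω ν g h (Ioi (-(T n))) (a n) (b n) (p n)) →
  Cvg 3 a a' → Cvg 3 b b' → Cvg 2 p p' → Sol Ω ν g h univ a' b' p'

/-- P1. The curve of pressures in `L²(Ω)`: it exists and is continuous (`p` is bounded, continuous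
and Lipschitz in `t`, the measure is finite). -/
def P1_stmt : Prop := ∀ (Ω : Set (ℝ × ℝ)), IsOpen Ω → Bornology.IsBounded Ω → ∀ (B : ℝ)
  (p : ℝ × ℝ × ℝ → ℝ), Cls 2 B p →
  ∃ P : ℝ → Lp ℝ 2 (volume.restrict Ω), Continuous P ∧
    ∀ t, P t =ᵐ[volume.restrict Ω] fun q => p (t, q)

/-- P2. Convergence of pressures gives convergence of the curves in `L²(Ω)`. -/
def P2_stmt : Prop := ∀ (Ω : Set (ℝ × ℝ)), IsOpen Ω → Bornology.IsBounded Ω →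
  ∀ (p : ℕ → (ℝ × ℝ × ℝ → ℝ)) (p' : ℝ × ℝ × ℝ → ℝ) (P : ℕ → ℝ → Lp ℝ 2 (volume.restrict Ω))
  (P' : ℝ → Lp ℝ 2 (volume.restrict Ω)), TendstoLocallyUniformly p p' atTop →
  (∀ n t, P n t =ᵐ[volume.restrict Ω] fun q => p n (t, q)) →
  (∀ t, P' t =ᵐ[volume.restrict Ω] fun q => p' (t, q)) →
  TendstoLocallyUniformly P P' atTop

/-- P3. Two continuous functions which agree almost everywhere on the open set `Ω` agree on `Ω`. -/
def P3_stmt : Prop := ∀ (Ω : Set (ℝ × ℝ)), IsOpen Ω → ∀ (f g : ℝ × ℝ → ℝ), Continuous f →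
  Continuous g → f =ᵐ[volume.restrict Ω] g → ∀ q ∈ Ω, f q = g q

/-! ## The single functional (Baire) -/

/-- BO. Openness. If `F j → F` uniformly and `F j ∘ γ j = F j ∘ γ' j` with `(γ j, γ' j)` in the set,
a subsequence of the pairs converges to a pair of the set with `F ∘ γ = F ∘ γ'`. The complement is
sequentially closed in the metric space `Y →ᵇ ℝ`. -/
def BO_stmt : Prop := ∀ (Y : Type) [MetricSpace Y] (C D : Set (ℝ → Y)), SeqC C → SeqC D →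
  ∀ (α β : ℝ) (y z : Y) (r η : ℝ),
  IsOpen {F : BoundedContinuousFunction Y ℝ | ∀ π ∈ WP C D α β y z r η, ∃ t, F (π.1 t) ≠ F (π.2 t)}

/-- BE. Equicontinuity of `F ∘ γ` on a compact window, uniformly for `γ ∈ C` (by contradiction,
sequences). -/
def BE_stmt : Prop := ∀ (Y : Type) [MetricSpace Y] (C : Set (ℝ → Y)), SeqC C →
  ∀ (α β : ℝ) (F : Y → ℝ), Continuous F → ∀ e > 0, ∃ d > 0, ∀ γ ∈ C, ∀ t ∈ Icc α β,
  ∀ t' ∈ Icc α β, |t - t'| < d → |F (γ t) - F (γ t')| < e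

/-- BD. Density. Given `F` and `e > 0` take `d` from BE (for `C` and `D`, tolerance `e`), cut the
window into `k` intervals of length `< d`, `N η / k ≥ 2 π`, and add
`e * m (·) * sin (N * dist (·) z)` with `m = 1` on the ball `B(y, r)`, `m = 0` outside `B(y, 2 r)`
(for example `m x = max 0 (min 1 (2 - dist x y / r))`). If the new function agrees along `γ` and
`γ'` for all `t` in the window, then `e * sin (N * dist (γ t) z) = F (γ' t) - F (γ t)`; on one of the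
small intervals `dist (γ t) z` varies by at least `η / k`, so `sin` takes there the values `1` and
`-1`, but the right side varies by less than `2 e`. -/
def BD_stmt : Prop := ∀ (Y : Type) [MetricSpace Y] (C D : Set (ℝ → Y)), SeqC C → SeqC D →
  ∀ (α β : ℝ) (y z : Y) (r η : ℝ), α < β → 0 < r → 0 < η →
  Dense {F : BoundedContinuousFunction Y ℝ | ∀ π ∈ WP C D α β y z r η, ∃ t, F (π.1 t) ≠ F (π.2 t)}

/-- BV. The cover by countably many sets `WP`: rational windows and radii, centres in a dense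
sequence `u`. (If at every `t` with `γ t ≠ γ' t` both curves are constant near `t`, then
`{t | γ t ≠ γ' t}` is open and closed, so it is `ℝ`, and both curves are constant.) -/
def BV_stmt : Prop := ∀ (Y : Type) [MetricSpace Y] (u : ℕ → Y), DenseRange u →
  ∀ (C D : Set (ℝ → Y)) (γ γ' : ℝ → Y), γ ∈ C → γ' ∈ D → Continuous γ → Continuous γ' → γ ≠ γ' →
  ¬ ((∀ t, γ t = γ 0) ∧ (∀ t, γ' t = γ' 0)) →
  ∃ (α β r η : ℚ) (i j : ℕ), (α : ℝ) < β ∧ (0 : ℝ) < r ∧ (0 : ℝ) < η ∧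
    ((γ, γ') ∈ WP C D α β (u i) (u j) r η ∨ (γ', γ) ∈ WP D C α β (u i) (u j) r η)

/-- BF. Separation of two points. -/
def BF_stmt : Prop := ∀ (Y : Type) [MetricSpace Y] (y z : Y), y ≠ z →
  IsOpen {F : BoundedContinuousFunction Y ℝ | F y ≠ F z} ∧
  Dense {F : BoundedContinuousFunction Y ℝ | F y ≠ F z}

/-- BK. One function separates all curves (Baire category in `Y →ᵇ ℝ`, from BO, BD, BV, BF). -/
def BK_stmt : Prop := ∀ (Y : Type) [MetricSpace Y] [TopologicalSpace.SeparableSpace Y]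
  (C : ℕ → Set (ℝ → Y)), (∀ n, SeqC (C n)) → {y : Y | ∃ n, (fun _ : ℝ => y) ∈ C n}.Finite →
  ∃ F : BoundedContinuousFunction Y ℝ, ∀ n m, ∀ γ ∈ C n, ∀ γ' ∈ C m,
    (∀ t, F (γ t) = F (γ' t)) → γ = γ'

/-! ## The energy lemma -/

/-- RG. Divergence theorem in `{|s| < a, 0 < r < (a² - s²)²}`: Leibniz rule for
`∫ r in 0..(a²-s²)², J1 (s, r)` (or substitute `r = (a²-s²)² x`) and the fundamental theorem. -/
def RG_stmt : Prop := ∀ (J1 J2 : ℝ × ℝ → ℝ) (a : ℝ), ContDiff ℝ 1 J1 → ContDiff ℝ 1 J2 → 0 < a →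
  ∫ s in (-a)..a, ∫ r in (0 : ℝ)..(a ^ 2 - s ^ 2) ^ 2, (px J1 (s, r) + py J2 (s, r))
    = (∫ s in (-a)..a, (J2 (s, (a ^ 2 - s ^ 2) ^ 2)
        - (-4 * s * (a ^ 2 - s ^ 2)) * J1 (s, (a ^ 2 - s ^ 2) ^ 2))) - ∫ s in (-a)..a, J2 (s, 0)

/-- DJ. The divergence of the energy flux (pure calculus). -/
def DJ_stmt : Prop := ∀ (P Q A B C : ℝ × ℝ → ℝ) (K s r : ℝ), ContDiff ℝ 1 P → ContDiff ℝ 1 Q →
  ContDiff ℝ 1 A → ContDiff ℝ 1 B → ContDiff ℝ 1 C → py P (s, r) = px Q (s, r) →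
  px (fun z => A z * P z + B z * Q z) (s, r) + py (fun z => B z * P z + C z * Q z) (s, r) = 0 →
  px (fun z => Real.exp (-(K * z.2)) * (Q z * (A z * P z + B z * Q z))) (s, r)
    + py (fun z => Real.exp (-(K * z.2)) * ((C z * Q z ^ 2 - A z * P z ^ 2) / 2)) (s, r)
    = -(Real.exp (-(K * r)) * (py C (s, r) * Q (s, r) ^ 2 / 2 + py B (s, r) * P (s, r) * Q (s, r)
        + py A (s, r) * P (s, r) ^ 2 / 2
        + K / 2 * (C (s, r) * Q (s, r) ^ 2 - A (s, r) * P (s, r) ^ 2)))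

/-- CI. Choice of the constants. Near `(0,0)`: `A ≤ -α`, `py C ≥ k > 0`, so `C (s, r) ≥ k r` for
`r ≥ 0`, `|B (s, r)| ≤ c r`, all derivatives bounded; take `K` large, then `a` small
(`β' ² = 16 s² β ≤ 16 a² β` for `β = (a² - s²)²`). -/
def CI_stmt : Prop := ∀ (A B C : ℝ × ℝ → ℝ) (δ : ℝ), 0 < δ → ContDiff ℝ 1 A → ContDiff ℝ 1 B →
  ContDiff ℝ 1 C → (∀ s, |s| < δ → B (s, 0) = 0 ∧ C (s, 0) = 0) → A (0, 0) < 0 →
  0 < py C (0, 0) →
  ∃ K a c : ℝ, 0 < a ∧ 0 < c ∧ a < δ ∧ a ^ 4 < δ ∧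
    (∀ s r p q : ℝ, |s| ≤ a → 0 ≤ r → r ≤ a ^ 4 →
      c * (p ^ 2 + q ^ 2) ≤ py C (s, r) * q ^ 2 / 2 + py B (s, r) * p * q + py A (s, r) * p ^ 2 / 2
        + K / 2 * (C (s, r) * q ^ 2 - A (s, r) * p ^ 2)) ∧
    (∀ s p q : ℝ, |s| ≤ a →
      0 ≤ (C (s, (a ^ 2 - s ^ 2) ^ 2) * q ^ 2 - A (s, (a ^ 2 - s ^ 2) ^ 2) * p ^ 2) / 2
        - (-4 * s * (a ^ 2 - s ^ 2)) * (A (s, (a ^ 2 - s ^ 2) ^ 2) * p * q
            + B (s, (a ^ 2 - s ^ 2) ^ 2) * q ^ 2))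

/-- EN. Energy lemma (from RG, DJ, CI). With `J1 = e^{-Kr} Q (A P + B Q)`,
`J2 = e^{-Kr} (C Q² - A P²)/2`: the integral of the divergence over the region is `≤ -c' ∫ (P²+Q²)`,
the right side of RG is `≥ 0`. -/
def EN_stmt : Prop := ∀ (P Q A B C : ℝ × ℝ → ℝ) (δ : ℝ), 0 < δ → ContDiff ℝ 1 P →
  ContDiff ℝ 1 Q → ContDiff ℝ 1 A → ContDiff ℝ 1 B → ContDiff ℝ 1 C →
  (∀ s r, |s| < δ → 0 < r → r < δ → py P (s, r) = px Q (s, r)) →
  (∀ s r, |s| < δ → 0 < r → r < δ →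
    px (fun z => A z * P z + B z * Q z) (s, r) + py (fun z => B z * P z + C z * Q z) (s, r) = 0) →
  (∀ s, |s| < δ → P (s, 0) = 0) → (∀ s, |s| < δ → B (s, 0) = 0 ∧ C (s, 0) = 0) →
  A (0, 0) < 0 → 0 < py C (0, 0) →
  ∃ ε > 0, ∀ s r, |s| < ε → 0 < r → r < ε → P (s, r) = 0 ∧ Q (s, r) = 0

/-- SH. Derivatives in shear coordinates `x = s`, `y = f s + r`. -/
def SH_stmt : Prop := ∀ (F : ℝ × ℝ → ℝ) (f : ℝ → ℝ) (s r : ℝ), Differentiable ℝ F →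
  Differentiable ℝ f →
  px (fun z => F (z.1, f z.1 + z.2)) (s, r)
    = px F (s, f s + r) + deriv f s * py F (s, f s + r) ∧
  py (fun z => F (z.1, f z.1 + z.2)) (s, r) = py F (s, f s + r)

/-- The coefficients of the energy lemma for the fields `(a, b)`, `(m, n)` above the graph
of `f`. -/
noncomputable def cA (f : ℝ → ℝ) (a : ℝ × ℝ → ℝ) (z : ℝ × ℝ) : ℝ := -py a (z.1, f z.1 + z.2)
noncomputable def cB (f : ℝ → ℝ) (a : ℝ × ℝ → ℝ) (z : ℝ × ℝ) : ℝ :=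
  px a (z.1, f z.1 + z.2) + deriv f z.1 * py a (z.1, f z.1 + z.2)
noncomputable def cC (f : ℝ → ℝ) (a b : ℝ × ℝ → ℝ) (z : ℝ × ℝ) : ℝ :=
  px b (z.1, f z.1 + z.2) + deriv f z.1 * py b (z.1, f z.1 + z.2)
    - deriv f z.1 * (px a (z.1, f z.1 + z.2) + deriv f z.1 * py a (z.1, f z.1 + z.2))
noncomputable def cP (f : ℝ → ℝ) (m n : ℝ × ℝ → ℝ) (z : ℝ × ℝ) : ℝ :=
  n (z.1, f z.1 + z.2) - deriv f z.1 * m (z.1, f z.1 + z.2)
noncomputable def cQ (f : ℝ → ℝ) (m : ℝ × ℝ → ℝ) (z : ℝ × ℝ) : ℝ := -m (z.1, f z.1 + z.2)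

/-- SE. The equations in shear coordinates. The open set `U` is where the fields satisfy their
equations (for the second derivatives of `a, b` one needs `px a + py b = 0` near the point).
Computation: `∂_r P = n_y - f' m_y = -m_x - f' m_y = ∂_s Q`, and
`∂_s (A P + B Q) + ∂_r (B P + C Q) = -(m_x a_x + m_y b_x + n_x a_y + n_y b_y) = 0` after the
cancellations `A_s + B_r = 0`, `B_s + C_r = f'' a_y` (this one uses `a_x + b_y = 0` and its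
derivatives), `P_s = n_s - f' m_s - f'' m`. -/
def SE_stmt : Prop := ∀ (f : ℝ → ℝ) (a b m n : ℝ × ℝ → ℝ) (U : Set (ℝ × ℝ)), ContDiff ℝ 2 f →
  ContDiff ℝ 2 a → ContDiff ℝ 2 b → ContDiff ℝ 2 m → ContDiff ℝ 2 n → IsOpen U →
  (∀ q ∈ U, px a q + py b q = 0 ∧ px m q + py n q = 0 ∧
    px m q * px a q + py m q * px b q + px n q * py a q + py n q * py b q = 0) →
  ∀ s r, (s, f s + r) ∈ U →
    py (cP f m n) (s, r) = px (cQ f m) (s, r) ∧
    px (fun z => cA f a z * cP f m n z + cB f a z * cQ f m z) (s, r)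
      + py (fun z => cB f a z * cP f m n z + cC f a b z * cQ f m z) (s, r) = 0

/-- SR. The coefficients are `C¹`. -/
def SR_stmt : Prop := ∀ (f : ℝ → ℝ) (a b m n : ℝ × ℝ → ℝ), ContDiff ℝ 2 f →
  ContDiff ℝ 2 a → ContDiff ℝ 2 b → ContDiff ℝ 2 m → ContDiff ℝ 2 n →
  ContDiff ℝ 1 (cA f a) ∧ ContDiff ℝ 1 (cB f a) ∧ ContDiff ℝ 1 (cC f a b) ∧
  ContDiff ℝ 1 (cP f m n) ∧ ContDiff ℝ 1 (cQ f m)

/-- SB. The boundary values. `a = b = 0` on the graph gives `a_x + f' a_y = 0`,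
`b_x + f' b_y = 0` there; by continuity `a_x + b_y = 0` on the graph, so `b_y = f' a_y`,
`curl = b_x - a_y = -(1 + f'²) a_y` and `∂_r C = ∂_s b_y - f' ∂_s a_y = f'' a_y` on the graph. -/
def SB_stmt : Prop := ∀ (f : ℝ → ℝ) (δ : ℝ) (a b : ℝ × ℝ → ℝ), ContDiff ℝ 2 f → f 0 = 0 →
  0 < δ → ContDiff ℝ 2 a → ContDiff ℝ 2 b →
  (∀ s r, |s| < δ → |r| < δ → f s < r → px a (s, r) + py b (s, r) = 0) →
  (∀ s, |s| < δ → |f s| < δ → a (s, f s) = 0 ∧ b (s, f s) = 0) →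
  (∃ ε > 0, ∀ s, |s| < ε → cB f a (s, 0) = 0 ∧ cC f a b (s, 0) = 0) ∧
  px b (0, 0) - py a (0, 0) = -(1 + deriv f 0 ^ 2) * py a (0, 0) ∧
  py (cC f a b) (0, 0) = deriv (deriv f) 0 * py a (0, 0)

/-- AZ. Lemma A in normalised coordinates (from EN, SE, SR, SB; replace `(a, b)` by `(-a, -b)` if
`py a (0,0) < 0`). -/
def AZ_stmt : Prop := ∀ (f : ℝ → ℝ) (δ : ℝ), ContDiff ℝ 2 f → f 0 = 0 → 0 < δ →
  0 < deriv (deriv f) 0 → ∀ a b m n : ℝ × ℝ → ℝ, ContDiff ℝ 2 a → ContDiff ℝ 2 b →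
  ContDiff ℝ 2 m → ContDiff ℝ 2 n →
  (∀ s r, |s| < δ → |r| < δ → f s < r → px a (s, r) + py b (s, r) = 0 ∧
    px m (s, r) + py n (s, r) = 0 ∧
    px m (s, r) * px a (s, r) + py m (s, r) * px b (s, r) + px n (s, r) * py a (s, r)
      + py n (s, r) * py b (s, r) = 0) →
  (∀ s, |s| < δ → |f s| < δ → a (s, f s) = 0 ∧ b (s, f s) = 0 ∧ m (s, f s) = 0 ∧ n (s, f s) = 0) →
  px b (0, 0) - py a (0, 0) ≠ 0 →
  ∃ ε > 0, ∀ s r, |s| < ε → |r| < ε → f s < r → m (s, r) = 0 ∧ n (s, r) = 0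

/-- RT. Derivatives in rotated coordinates. -/
def RT_stmt : Prop := ∀ (F : ℝ × ℝ → ℝ) (θ : ℝ) (c : ℝ × ℝ) (s r : ℝ), Differentiable ℝ F →
  px (fun z => F (pt θ c z.1 z.2)) (s, r)
    = Real.cos θ * px F (pt θ c s r) + Real.sin θ * py F (pt θ c s r) ∧
  py (fun z => F (pt θ c z.1 z.2)) (s, r)
    = -Real.sin θ * px F (pt θ c s r) + Real.cos θ * py F (pt θ c s r)

/-- AL. Lemma A at a strictly convex boundary point (from AZ, RT; the rotated fields are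
`cos θ a + sin θ b`, `-sin θ a + cos θ b` at `pt θ c s r`, same for `(m, n)`). -/
def AL_stmt : Prop := ∀ (Ω : Set (ℝ × ℝ)) (c : ℝ × ℝ), IsOpen Ω → ConvexAt Ω c →
  ∀ a b m n : ℝ × ℝ → ℝ, ContDiff ℝ 2 a → ContDiff ℝ 2 b → ContDiff ℝ 2 m → ContDiff ℝ 2 n →
  (∀ q ∈ Ω, px a q + py b q = 0 ∧ px m q + py n q = 0 ∧
    px m q * px a q + py m q * px b q + px n q * py a q + py n q * py b q = 0) →
  (∀ q ∈ frontier Ω, a q = 0 ∧ b q = 0 ∧ m q = 0 ∧ n q = 0) →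
  px b c - py a c ≠ 0 → ∃ V ∈ 𝓝 c, ∀ q ∈ Ω ∩ V, m q = 0 ∧ n q = 0

end NS
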