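import Pool.Agent.helper29.NS.SpecE

namespace NS

open MeasureTheory Filter Topology Set

theorem TQD_dt (f : ℝ × ℝ × ℝ → ℝ) (hf : Differentiable ℝ f) (q : ℝ × ℝ) (t : ℝ) :
    HasDerivAt (fun t => f (t, q)) (dt f (t, q)) t := by
  have h1 : HasFDerivAt f (fderiv ℝ f (t, q)) (t, q) := (hf _).hasFDerivAt
  have h2 : HasDerivAt (fun t : ℝ => ((t, q) : ℝ × ℝ × ℝ)) ((1 : ℝ), (0 : ℝ × ℝ)) t :=
    (hasDerivAt_id t).prodMk (hasDerivAt_const t q)
  exact h1.comp_hasDerivAt t h2

theorem TQD (hSM : SM_stmt) (hTQA : TQA_stmt) (hTQC : TQC_stmt) : TQD_stmt := by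
  intro Ω ν w0 a b m n hO hB hDM hw t0
  have hda : Differentiable ℝ a := hDM.ca.differentiable (by norm_num)
  have hdb : Differentiable ℝ b := hDM.cb.differentiable (by norm_num)
  have cda : Continuous (dt a) := ((hSM 2 a hDM.ca).1).continuous
  have cdb : Continuous (dt b) := ((hSM 2 b hDM.cb).1).continuous
  have : IsFiniteMeasure (volume.restrict Ω) := ⟨by
    rw [Measure.restrict_apply_univ]
    exact hB.measure_lt_top⟩
  -- a bound for the derivative on a compact set
  obtain ⟨R, hR⟩ := hB.subset_closedBall (0 : ℝ × ℝ)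
  have hcomp : IsCompact (Icc (t0 - 1) (t0 + 1) ×ˢ Metric.closedBall (0 : ℝ × ℝ) R) :=
    isCompact_Icc.prod (isCompact_closedBall _ _)
  have hcont : Continuous (fun z : ℝ × ℝ × ℝ => z.2.1 * dt b z - z.2.2 * dt a z) := by fun_prop
  obtain ⟨C, hC⟩ := hcomp.exists_bound_of_continuousOn hcont.continuousOn
  have key := hasDerivAt_integral_of_dominated_loc_of_deriv_le (μ := volume.restrict Ω)
    (F := fun t q => q.1 * b (t, q) - q.2 * a (t, q))
    (F' := fun t q => q.1 * dt b (t, q) - q.2 * dt a (t, q)) (x₀ := t0)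
    (s := Metric.ball t0 1) (bound := fun _ => C) (Metric.ball_mem_nhds t0 one_pos)
    (Eventually.of_forall fun t => by
      have : Continuous (fun q : ℝ × ℝ => q.1 * b (t, q) - q.2 * a (t, q)) := by
        have h1 : Continuous (fun q : ℝ × ℝ => b (t, q)) :=
          hDM.cb.continuous.comp (Continuous.prodMk_right t)
        have h2 : Continuous (fun q : ℝ × ℝ => a (t, q)) :=
          hDM.ca.continuous.comp (Continuous.prodMk_right t)
        exact (continuous_fst.mul h1).sub (continuous_snd.mul h2)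
      exact this.aestronglyMeasurable)
    (by
      have hc : Continuous (fun q : ℝ × ℝ => q.1 * b (t0, q) - q.2 * a (t0, q)) := by
        have h1 : Continuous (fun q : ℝ × ℝ => b (t0, q)) :=
          hDM.cb.continuous.comp (Continuous.prodMk_right t0)
        have h2 : Continuous (fun q : ℝ × ℝ => a (t0, q)) :=
          hDM.ca.continuous.comp (Continuous.prodMk_right t0)
        exact (continuous_fst.mul h1).sub (continuous_snd.mul h2)
      have : IntegrableOn (fun q : ℝ × ℝ => q.1 * b (t0, q) - q.2 * a (t0, q))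
          (Metric.closedBall (0 : ℝ × ℝ) R) :=
        hc.continuousOn.integrableOn_compact (isCompact_closedBall _ _)
      exact this.mono_set hR)
    (by
      have hc : Continuous (fun q : ℝ × ℝ => q.1 * dt b (t0, q) - q.2 * dt a (t0, q)) := by
        have h1 : Continuous (fun q : ℝ × ℝ => dt b (t0, q)) :=
          cdb.comp (Continuous.prodMk_right t0)
        have h2 : Continuous (fun q : ℝ × ℝ => dt a (t0, q)) :=
          cda.comp (Continuous.prodMk_right t0)
        fun_prop
      exact hc.aestronglyMeasurable)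
    (by
      filter_upwards [ae_restrict_mem hO.measurableSet] with q hq
      intro t ht
      have ht' : t ∈ Icc (t0 - 1) (t0 + 1) := by
        rw [Metric.mem_ball, Real.dist_eq, abs_lt] at ht
        constructor <;> linarith [ht.1, ht.2]
      exact hC (t, q) ⟨ht', hR hq⟩)
    (integrable_const C)
    (by
      refine Eventually.of_forall fun q => ?_
      intro t _
      exact ((TQD_dt b hdb q t).const_mul q.1).sub ((TQD_dt a hda q t).const_mul q.2))
  have hder := key.2
  have hval : ∫ q in Ω, (q.1 * dt b (t0, q) - q.2 * dt a (t0, q))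
      = 2 * ν * w0 * (volume Ω).toReal := by
    obtain ⟨X, hX⟩ : ∃ X : ℝ × ℝ → ℝ, X = (fun q => ν * q.1 * (vort a b (t0, q) - w0)
      - 2 * ν * b (t0, q) - (q.1 * (m (t0, q) * b (t0, q) + a (t0, q) * n (t0, q))
        - 2 * q.2 * m (t0, q) * a (t0, q))) := ⟨_, rfl⟩
    obtain ⟨Y, hY⟩ : ∃ Y : ℝ × ℝ → ℝ, Y = (fun q => ν * q.2 * (vort a b (t0, q) - w0)
      + 2 * ν * a (t0, q) - (2 * q.1 * n (t0, q) * b (t0, q)
        - q.2 * (n (t0, q) * a (t0, q) + b (t0, q) * m (t0, q)))) := ⟨_, rfl⟩
    obtain ⟨cX, cY, hdiv⟩ := hTQC Ω ν w0 t0 a b m n hO hDM X Y hX hY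
    have hX0 : ∀ q ∈ frontier Ω, X q = 0 := by
      intro q hq
      obtain ⟨h1, h2, h3, h4⟩ := hDM.bc t0 q hq
      rw [hX]
      simp only [h1, h2, h3, h4, hw t0 q hq]
      ring
    have hY0 : ∀ q ∈ frontier Ω, Y q = 0 := by
      intro q hq
      obtain ⟨h1, h2, h3, h4⟩ := hDM.bc t0 q hq
      rw [hY]
      simp only [h1, h2, h3, h4, hw t0 q hq]
      ring
    have iX := (hTQA Ω X hO hB cX hX0).1
    have iY := (hTQA Ω Y hO hB cY hY0).2
    have cpx : Continuous (px X) := by
      have := cX.continuous_fderiv (by norm_num)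
      exact this.clm_apply continuous_const
    have cpy : Continuous (py Y) := by
      have := cY.continuous_fderiv (by norm_num)
      exact this.clm_apply continuous_const
    have intX : IntegrableOn (px X) Ω :=
      (cpx.continuousOn.integrableOn_compact (isCompact_closedBall (0 : ℝ × ℝ) R)).mono_set hR
    have intY : IntegrableOn (py Y) Ω :=
      (cpy.continuousOn.integrableOn_compact (isCompact_closedBall (0 : ℝ × ℝ) R)).mono_set hR
    rw [setIntegral_congr_fun hO.measurableSet (fun q hq => hdiv q hq)]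
    have e1 : ∫ q in Ω, (px X q + py Y q + 2 * ν * w0)
        = (∫ q in Ω, (px X q + py Y q)) + ∫ q in Ω, (2 * ν * w0) :=
      integral_add (intX.add intY) (integrable_const _)
    have e2 : ∫ q in Ω, (px X q + py Y q) = (∫ q in Ω, px X q) + ∫ q in Ω, py Y q :=
      integral_add intX intY
    rw [e1, e2, iX, iY, setIntegral_const, smul_eq_mul]
    simp only [Measure.real]
    ring
  rw [← hval]
  exact hder

end NS
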